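import Pool.Agent.TZ.StC

/-!
Theorem Z (MP_31fd3b_gt): module ACZ (helper48). A chain acts by its matrix up to the sign.
-/

namespace Pool.Agent.TZ

open Pool.Agent.LibH11.Sliced Pool.Agent.MTR Pool.Agent.MTA Pool.Agent.UA Pool.Agent.UB
open Pool.Agent.TwoBr Pool.Agent.Mont Pool.Agent.TV Pool.Agent.TW
open Pool.Agent.TB hiding vec

namespace ACZ

section group

variable {G : Type} [Group G]

/-- the alternating product of a list -/
def act (c r : G) : List ℤ → G
  | [] => 1
  | e :: es => c ^ e * (r * act c r es)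

/-- reduced lists -/
def Redu (as : List ℤ) : Prop := ∀ a ∈ as.tail, 2 ≤ |a|

theorem Redu.tail {a : ℤ} {as : List ℤ} (h : Redu (a :: as)) : Redu as := by
  intro b hb
  exact h b (List.mem_of_mem_tail hb)

theorem left_c (c r : G) (as : List ℤ) (m e : ℤ) (h : Redu as) :
    ∃ (as' : List ℤ) (m' : ℤ), Redu as' ∧ as'.length = as.length ∧ c ^ e * (act c r as * c ^ m) = act c r as' * c ^ m' := by
  cases as with
  | nil =>
    refine ⟨[], e + m, h, rfl, ?_⟩
    simp only [act, one_mul]
    rw [zpow_add]
  | cons a as =>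
    refine ⟨(e + a) :: as, m, h, rfl, ?_⟩
    simp only [act]
    rw [zpow_add]
    simp only [mul_assoc]

theorem rcr (c r : G) (hr : r * r = 1) (h : (c * r) ^ 3 = 1) : r * c * r = c⁻¹ * r * c⁻¹ := by
  have h1 : c * (r * c * r) * (c * r) = 1 := by
    rw [← h, pow_three]
    simp only [mul_assoc]
  have hri : r⁻¹ = r := inv_eq_of_mul_eq_one_left hr
  have h2 : c * (r * c * r) = (c * r)⁻¹ := eq_inv_of_mul_eq_one_left h1
  have h3 : r * c * r = c⁻¹ * (c * r)⁻¹ := by
    rw [← h2, inv_mul_cancel_left]
  rw [h3, mul_inv_rev, hri, mul_assoc]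

theorem rcir (c r : G) (hr : r * r = 1) (h : (c * r) ^ 3 = 1) : r * c⁻¹ * r = c * r * c := by
  have hri : r⁻¹ = r := inv_eq_of_mul_eq_one_left hr
  have := congrArg (·⁻¹) (rcr c r hr h)
  simp only [mul_inv_rev, hri, inv_inv] at this
  rw [← mul_assoc, ← mul_assoc] at this
  exact this

theorem left_r (c r : G) (hr : r * r = 1) (h : (c * r) ^ 3 = 1) : ∀ (n : ℕ) (as : List ℤ) (m : ℤ),
    as.length ≤ n → Redu as →
    ∃ (as' : List ℤ) (m' : ℤ), Redu as' ∧ r * (act c r as * c ^ m) = act c r as' * c ^ m' := by
  intro n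
  induction n with
  | zero =>
    intro as m hn _
    have : as = [] := List.length_eq_zero_iff.1 (Nat.le_zero.1 hn)
    subst this
    refine ⟨[0], m, ?_, ?_⟩
    · intro a ha
      simp at ha
    · simp [act]
  | succ n ih =>
    intro as m hn hR
    cases as with
    | nil =>
      refine ⟨[0], m, ?_, ?_⟩
      · intro a ha
        simp at ha
      · simp [act]
    | cons a as =>
      have hlen : as.length ≤ n := by
        simp only [List.length_cons] at hn
        omega
      have hR' := hR.tail
      rcases le_or_gt 2 |a| with h2 | h2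
      · refine ⟨0 :: a :: as, m, ?_, ?_⟩
        · intro b hb
          simp only [List.tail_cons, List.mem_cons] at hb
          rcases hb with rfl | hb
          · exact h2
          · exact hR b hb
        · simp only [act, zpow_zero, one_mul, mul_assoc]
      · have ha : a = 0 ∨ a = 1 ∨ a = -1 := by
          rw [abs_lt] at h2
          omega
        rcases ha with rfl | rfl | rfl
        · refine ⟨as, m, hR', ?_⟩
          simp only [act, zpow_zero, one_mul]
          rw [← mul_assoc, ← mul_assoc, hr, one_mul]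
        · obtain ⟨as1, m1, hR1, hl1, e1⟩ := left_c c r as m (-1) hR'
          obtain ⟨as2, m2, hR2, e2⟩ := ih as1 m1 (by omega) hR1
          obtain ⟨as3, m3, hR3, -, e3⟩ := left_c c r as2 m2 (-1) hR2
          refine ⟨as3, m3, hR3, ?_⟩
          rw [← e3, ← e2, ← e1]
          simp only [act, zpow_one, zpow_neg]
          calc r * (c * (r * act c r as) * c ^ m) = (r * c * r) * (act c r as * c ^ m) := by
                simp only [mul_assoc]
            _ = c⁻¹ * (r * (c⁻¹ * (act c r as * c ^ m))) := by
                rw [rcr c r hr h]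
                simp only [mul_assoc]
        · obtain ⟨as1, m1, hR1, hl1, e1⟩ := left_c c r as m 1 hR'
          obtain ⟨as2, m2, hR2, e2⟩ := ih as1 m1 (by omega) hR1
          obtain ⟨as3, m3, hR3, -, e3⟩ := left_c c r as2 m2 1 hR2
          refine ⟨as3, m3, hR3, ?_⟩
          rw [← e3, ← e2, ← e1]
          simp only [act, zpow_one, zpow_neg]
          calc r * (c⁻¹ * (r * act c r as) * c ^ m) = (r * c⁻¹ * r) * (act c r as * c ^ m) := by
                simp only [mul_assoc]
            _ = c * (r * (c * (act c r as * c ^ m))) := by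
                rw [rcir c r hr h]
                simp only [mul_assoc]

theorem normal (c r : G) (hr : r * r = 1) (h : (c * r) ^ 3 = 1) (g : G)
    (hg : g ∈ Subgroup.closure ({c, r} : Set G)) : ∃ (as : List ℤ) (m : ℤ), Redu as ∧ g = act c r as * c ^ m := by
  induction hg using Subgroup.closure_induction_left with
  | one =>
    refine ⟨[], 0, ?_, ?_⟩
    · intro a ha
      simp at ha
    · simp [act]
  | mul_left x hx y hy ih =>
    obtain ⟨as, m, hR, rfl⟩ := ih
    rcases hx with rfl | hx
    · obtain ⟨as', m', hR', -, e⟩ := left_c x r as m 1 hR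
      rw [zpow_one] at e
      exact ⟨as', m', hR', e⟩
    · rw [Set.mem_singleton_iff] at hx
      subst hx
      obtain ⟨as', m', hR', e⟩ := left_r c x hr h as.length as m le_rfl hR
      exact ⟨as', m', hR', e⟩
  | inv_mul_cancel x hx y hy ih =>
    obtain ⟨as, m, hR, rfl⟩ := ih
    rcases hx with rfl | hx
    · obtain ⟨as', m', hR', -, e⟩ := left_c x r as m (-1) hR
      rw [zpow_neg, zpow_one] at e
      exact ⟨as', m', hR', e⟩
    · rw [Set.mem_singleton_iff] at hx
      subst hx
      obtain ⟨as', m', hR', e⟩ := left_r c x hr h as.length as m le_rfl hR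
      refine ⟨as', m', hR', ?_⟩
      rw [inv_eq_of_mul_eq_one_left hr]
      exact e

theorem act_mem (c r : G) (es : List ℤ) : act c r es ∈ Subgroup.closure ({c, r} : Set G) := by
  induction es with
  | nil => exact Subgroup.one_mem _
  | cons e es ih =>
    apply Subgroup.mul_mem
    · apply Subgroup.zpow_mem
      apply Subgroup.subset_closure
      left; rfl
    · apply Subgroup.mul_mem _ _ ih
      apply Subgroup.subset_closure
      right; rfl

theorem act_prod {H : Type} [Group H] (c r : G) (c₂ r₂ : H) (es : List ℤ) :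
    act (c, c₂) (r, r₂) es = (act c r es, act c₂ r₂ es) := by
  induction es with
  | nil => rfl
  | cons e es ih =>
    simp only [act, ih]
    rfl

end group

/-! ### vectors up to the sign -/

/-- vectors up to the sign -/
def sgn : Setoid (ℤ × ℤ) where
  r v w := v = w ∨ v = -w
  iseqv := by
    constructor
    · intro v; left; rfl
    · rintro v w (h | h)
      · left; exact h.symm
      · right; rw [h, neg_neg]
    · rintro u v w (h | h) (h' | h')
      · left; rw [h, h']
      · right; rw [h, h']
      · right; rw [h, h']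
      · left; rw [h, h', neg_neg]

/-- the quotient -/
def Y : Type := Quotient sgn

/-- the class of a vector -/
def cls (v : ℤ × ℤ) : Y := Quotient.mk sgn v

theorem cls_eq {v w : ℤ × ℤ} : cls v = cls w ↔ v = w ∨ v = -w :=
  ⟨fun h => Quotient.exact h, fun h => Quotient.sound (s := sgn) h⟩

/-- a map which commutes with the sign -/
def lift (f : ℤ × ℤ → ℤ × ℤ) (hf : ∀ v, f (-v) = -f v) : Y → Y :=
  Quotient.lift (fun v => cls (f v)) (by
    rintro v w (h | h)
    · show cls (f v) = cls (f w)
      rw [h]
    · show cls (f v) = cls (f w)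
      rw [h, hf, cls_eq]
      right; rfl)

theorem lift_cls (f : ℤ × ℤ → ℤ × ℤ) (hf : ∀ v, f (-v) = -f v) (v : ℤ × ℤ) :
    lift f hf (cls v) = cls (f v) := rfl

theorem tw_neg (n : ℤ) (v : ℤ × ℤ) : tw n (-v) = -tw n v := by
  ext <;> simp [tw]
  ring

theorem rv_neg (v : ℤ × ℤ) : rv (-v) = -rv v := by
  ext <;> simp [rv]

theorem tw_tw (m n : ℤ) (v : ℤ × ℤ) : tw m (tw n v) = tw (m + n) v := by
  ext <;> simp [tw]
  ring

theorem tw_zero (v : ℤ × ℤ) : tw 0 v = v := by
  ext <;> simp [tw]

theorem rv_rv (v : ℤ × ℤ) : rv (rv v) = -v := by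
  ext <;> simp [rv]

/-- the shear -/
def twP (n : ℤ) : Equiv.Perm Y where
  toFun := lift (tw n) (tw_neg n)
  invFun := lift (tw (-n)) (tw_neg (-n))
  left_inv := by
    intro y
    induction y using Quotient.inductionOn with
    | h v =>
      show lift _ _ (lift _ _ (cls v)) = cls v
      rw [lift_cls, lift_cls, tw_tw, neg_add_cancel, tw_zero]
  right_inv := by
    intro y
    induction y using Quotient.inductionOn with
    | h v =>
      show lift _ _ (lift _ _ (cls v)) = cls v
      rw [lift_cls, lift_cls, tw_tw, add_neg_cancel, tw_zero]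

theorem twP_cls (n : ℤ) (v : ℤ × ℤ) : twP n (cls v) = cls (tw n v) := rfl

/-- the rotation -/
def rvP : Equiv.Perm Y where
  toFun := lift rv rv_neg
  invFun := lift rv rv_neg
  left_inv := by
    intro y
    induction y using Quotient.inductionOn with
    | h v =>
      show lift _ _ (lift _ _ (cls v)) = cls v
      rw [lift_cls, lift_cls, rv_rv, cls_eq]
      right; rfl
  right_inv := by
    intro y
    induction y using Quotient.inductionOn with
    | h v =>
      show lift _ _ (lift _ _ (cls v)) = cls v
      rw [lift_cls, lift_cls, rv_rv, cls_eq]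
      right; rfl

theorem rvP_cls (v : ℤ × ℤ) : rvP (cls v) = cls (rv v) := rfl

theorem Y_ext {f g : Equiv.Perm Y} (h : ∀ v, f (cls v) = g (cls v)) : f = g := by
  ext y
  induction y using Quotient.inductionOn with
  | h v => exact h v

theorem twP_add (m n : ℤ) : twP (m + n) = twP m * twP n := by
  apply Y_ext
  intro v
  rw [Equiv.Perm.mul_apply, twP_cls, twP_cls, twP_cls, tw_tw]

theorem twP_zero : twP 0 = 1 := by
  apply Y_ext
  intro v
  rw [twP_cls, tw_zero]
  rfl

theorem twP_zpow (n : ℤ) : (twP 1) ^ n = twP n := by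
  induction n using Int.induction_on with
  | zero => rw [zpow_zero, twP_zero]
  | succ n ih => rw [zpow_add_one, ih, twP_add]
  | pred n ih =>
    rw [zpow_sub_one, ih]
    apply mul_right_cancel (b := twP 1)
    rw [inv_mul_cancel_right, ← twP_add, sub_add_cancel]

theorem cvec_cons (e : ℤ) (es : List ℤ) (v : ℤ × ℤ) : cvec (e :: es) v = tw e (rv (cvec es v)) := by
  ext <;> simp [cvec, addv, tw, rv]
  ring

theorem act_cls (es : List ℤ) (v : ℤ × ℤ) : act (twP 1) rvP es (cls v) = cls (cvec es v) := by
  induction es with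
  | nil => rfl
  | cons e es ih =>
    rw [cvec_cons]
    simp only [act]
    rw [Equiv.Perm.mul_apply, Equiv.Perm.mul_apply, ih, rvP_cls, twP_zpow, twP_cls]

theorem grow (bs : List ℤ) (h : ∀ b ∈ bs, 2 ≤ |b|) :
    |(rv (cvec bs (1, 0))).1| < |(rv (cvec bs (1, 0))).2| := by
  induction bs with
  | nil => simp [cvec, rv]
  | cons b bs ih =>
    have ih' := ih (fun b' hb' => h b' (List.mem_cons_of_mem _ hb'))
    have hb := h b List.mem_cons_self
    rw [cvec_cons]
    set w := rv (cvec bs (1, 0)) with hw
    have e1 : (rv (tw b w)).1 = -w.2 := rfl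
    have e2 : (rv (tw b w)).2 = w.1 - b * w.2 := rfl
    rw [e1, e2, abs_neg]
    have h1 : |b * w.2| ≤ |w.1 - b * w.2| + |w.1| := by
      have := abs_sub_abs_le_abs_sub (b * w.2) w.1
      rw [abs_sub_comm] at this
      linarith
    have h2 : 2 * |w.2| ≤ |b * w.2| := by
      rw [abs_mul]
      exact mul_le_mul_of_nonneg_right hb (abs_nonneg _)
    linarith

theorem triv (as : List ℤ) (m : ℤ) (hR : Redu as) (h : act (twP 1) rvP as * (twP 1) ^ m = 1) :
    as = [] ∧ m = 0 := by
  have key : ∀ v, cls (cvec as (tw m v)) = cls v := by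
    intro v
    have := congrArg (fun f : Equiv.Perm Y => f (cls v)) h
    simp only [Equiv.Perm.mul_apply, twP_zpow, twP_cls, act_cls, Equiv.Perm.one_apply] at this
    exact this
  have has : as = [] := by
    cases as with
    | nil => rfl
    | cons a as =>
      exfalso
      have h1 := key (1, 0)
      have e : tw m (1, 0) = (1, 0) := by
        ext <;> simp [tw]
      rw [e, cvec_cons] at h1
      have hg := grow as (fun b hb => hR b hb)
      set w := rv (cvec as (1, 0)) with hw
      have e2 : (tw a w).2 = w.2 := rfl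
      have h2 : w.2 = 0 := by
        rcases cls_eq.1 h1 with h1 | h1
        · rw [← e2, h1]
        · rw [← e2, h1]; simp
      rw [h2, abs_zero] at hg
      exact absurd hg (not_lt.2 (abs_nonneg _))
  refine ⟨has, ?_⟩
  subst has
  have h1 := key (0, 1)
  simp only [cvec, tw] at h1
  rcases cls_eq.1 h1 with h1 | h1
  · have := congrArg Prod.fst h1
    simp only at this
    linarith
  · have := congrArg Prod.snd h1
    simp only [Prod.snd_neg] at this
    norm_num at this

/-! ### the main statement -/

theorem main {X : Type} (c r : Equiv.Perm X) (hr : r * r = 1) (h : (c * r) ^ 3 = 1)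
    (es es' : List ℤ) (n : ℤ) (hs : Smt es es' n) : act c r es = act c r es' * c ^ n := by
  have hrY : rvP * rvP = 1 := by
    apply Y_ext
    intro v
    rw [Equiv.Perm.mul_apply, rvP_cls, rvP_cls, rv_rv, Equiv.Perm.one_apply, cls_eq]
    right; rfl
  have hY : (twP 1 * rvP) ^ 3 = 1 := by
    apply Y_ext
    intro v
    rw [pow_three]
    simp only [Equiv.Perm.mul_apply, Equiv.Perm.one_apply, rvP_cls, twP_cls]
    congr 1
    ext <;> simp [tw, rv] <;> ring
  set C : Equiv.Perm X × Equiv.Perm Y := (c, twP 1) with hC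
  set R : Equiv.Perm X × Equiv.Perm Y := (r, rvP) with hR
  have hRR : R * R = 1 := by
    rw [hR, Prod.mk_mul_mk, hr, hrY]; rfl
  have hCR : (C * R) ^ 3 = 1 := by
    rw [hC, hR, Prod.mk_mul_mk, Prod.pow_mk, h, hY]; rfl
  have hmem : (act C R es' * C ^ n)⁻¹ * act C R es ∈ Subgroup.closure ({C, R} : Set _) := by
    apply Subgroup.mul_mem
    · apply Subgroup.inv_mem
      apply Subgroup.mul_mem _ (act_mem C R es')
      apply Subgroup.zpow_mem
      apply Subgroup.subset_closure
      left; rfl
    · exact act_mem C R es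
  obtain ⟨as, m, hRd, e⟩ := normal C R hRR hCR _ hmem
  have hactY : act (twP 1) rvP es = act (twP 1) rvP es' * (twP 1) ^ n := by
    apply Y_ext
    intro v
    rw [Equiv.Perm.mul_apply, act_cls, twP_zpow, twP_cls, act_cls, cls_eq]
    rcases hs with hs | hs
    · left; exact hs v
    · right; exact hs v
  have e2 := congrArg Prod.snd e
  rw [hC, hR, act_prod, act_prod, act_prod] at e2
  simp only [Prod.snd_mul, Prod.snd_inv, Prod.pow_snd] at e2
  rw [hactY, inv_mul_cancel] at e2
  obtain ⟨rfl, rfl⟩ := triv as m hRd e2.symm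
  have e3 : act C R es = act C R es' * C ^ n := by
    simp only [act, zpow_zero, mul_one] at e
    exact (inv_mul_eq_one.1 e).symm
  have e4 := congrArg Prod.fst e3
  rw [hC, hR, act_prod, act_prod] at e4
  simpa using e4

theorem zp_eq {X : Type} (c c' : X → X) (h1 : ∀ x, c (c' x) = x) (h2 : ∀ x, c' (c x) = x) (n : ℤ) (x : X) :
    zp c c' n x = ((⟨c, c', h2, h1⟩ : Equiv.Perm X) ^ n) x := by
  cases n with
  | ofNat n =>
    show c^[n] x = _
    rw [Int.ofNat_eq_natCast, zpow_natCast, ← Equiv.Perm.iterate_eq_pow]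
    rfl
  | negSucc n =>
    show c'^[n + 1] x = _
    rw [zpow_negSucc, ← inv_pow, ← Equiv.Perm.iterate_eq_pow]
    rfl

end ACZ

theorem t_ACZ : ACZ_Stmt := by
  intro X c c' r h1 h2 h3 h4 es es' n hs x
  set cP : Equiv.Perm X := ⟨c, c', h2, h1⟩ with hcP
  set rP : Equiv.Perm X := ⟨r, r, h3, h3⟩ with hrP
  have hact : ∀ (es : List ℤ) (x : X), cact c c' r es x = ACZ.act cP rP es x := by
    intro es
    induction es with
    | nil => intro x; rfl
    | cons e es ih =>
      intro x
      simp only [cact, ACZ.act]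
      rw [Equiv.Perm.mul_apply, Equiv.Perm.mul_apply, ← ih, ACZ.zp_eq c c' h1 h2]
      rfl
  have hr : rP * rP = 1 := by
    ext y
    exact h3 y
  have hcr : (cP * rP) ^ 3 = 1 := by
    rw [pow_three]
    ext y
    exact h4 y
  rw [hact, hact, ACZ.zp_eq c c' h1 h2, ACZ.main cP rP hr hcr es es' n hs]
  rfl

end Pool.Agent.TZ
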