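import Pool.Agent.TZ.Defs
import Pool.Agent.UA.Fcg
import Pool.Agent.UA.Fit
import Pool.Agent.UA.Fro

/-!
Theorem Z (MP_31fd3b_gt), ODK: the closure of a tree is a knot only if its determinant is odd.

The parity of the vector of a tangle is the way in which its four ends are connected: `(0, 1)`
vertical strands, `(1, 1)` crossed strands, `(1, 0)` a maximum and a minimum, `(0, 0)` there are closed
components.
-/

open scoped BigOperators

namespace Pool.Agent.TZ

open Pool.Agent.LibH11.Sliced Pool.Agent.MTR Pool.Agent.MTA Pool.Agent.UA Pool.Agent.UB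
open Pool.Agent.TwoBr Pool.Agent.Mont Pool.Agent.TV Pool.Agent.TW
open Pool.Agent.TB hiding vec

/-- ODK: the determinant of an arborescent knot is odd. -/
def ODK_Stmt : Prop := ∀ T : Tr, IsLongKnot (cl T.dg) → Odd (vec T).1

namespace Odk

/-- valid states -/
def Val (s : State) : Prop := ∀ j < s.1, s.2.1 j < s.2.2

theorem sim_refl {s : State} (h : Val s) : Sim s s := ⟨rfl, h, h, fun _ _ _ _ => Iff.rfl⟩

theorem step1_osim {N : ℕ} {x y : Diag} (h : Step1 N x y) {s : State} (hs : Val s)
    (hn : s.1 = N) : OSim (run x s) (run y s) := by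
  obtain ⟨u, a, b, v, hm, rfl, rfl, hx, hy⟩ := h
  rw [run_append, run_append, run_append (u ++ b), run_append u b]
  have hs' := run_osim u (sim_refl hs)
  cases hu : run u s with
  | none => exact trivial
  | some t =>
    rw [hu] at hs'
    have hc : cnt N u = some t.1 := by
      rw [← hn]
      exact run_cnt u s t hu
    rw [List.append_assoc, cnt_app hc] at hx hy
    obtain ⟨M1, ha, -⟩ := cnt_prefix hx
    obtain ⟨M2, hb, -⟩ := cnt_prefix hy
    simp only [Option.bind_some]
    refine bind_run_osim v ?_
    have hss : Sim t t := hs'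
    obtain ⟨n, lab, c⟩ := t
    exact move_osim hm hss.v1 (by rw [ha]; simp) (by rw [hb]; simp)

theorem eqd_osim {N : ℕ} {x y : Diag} (h : EqD N x y) {s : State} (hs : Val s)
    (hn : s.1 = N) : OSim (run x s) (run y s) := by
  induction h with
  | rel x y h => exact step1_osim h hs hn
  | refl x => exact run_osim x (sim_refl hs)
  | symm x y _ ih => exact ih.symm
  | trans x y z _ _ ih1 ih2 => exact ih1.trans ih2

/-- the same effect on all states -/
def Eqv (D E : Diag) : Prop :=
  ∀ (i : ℕ) (s : State), Val s → i + 2 ≤ s.1 → OSim (run (sh i D) s) (run (sh i E) s)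

/-- a closed component -/
def Nul (D : Diag) : Prop :=
  ∀ (i : ℕ) (s : State), Val s → i + 2 ≤ s.1 → run (sh i D) s = none

theorem Eqv.refl (D : Diag) : Eqv D D := fun _ _ hs _ => run_osim _ (sim_refl hs)

theorem Eqv.symm {D E : Diag} (h : Eqv D E) : Eqv E D := fun i s hs hi => (h i s hs hi).symm

theorem Eqv.trans {D E F : Diag} (h : Eqv D E) (h' : Eqv E F) : Eqv D F :=
  fun i s hs hi => (h i s hs hi).trans (h' i s hs hi)

theorem Eqv.of_eqd {D E : Diag} (h : EqD 2 D E) : Eqv D E := by
  intro i s hs hi
  obtain ⟨k, hk⟩ := Nat.exists_eq_add_of_le hi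
  exact eqd_osim ((h.sh i).widen k) hs (by omega)

theorem Eqv.nul {D E : Diag} (h : Eqv D E) (h' : Nul E) : Nul D := by
  intro i s hs hi
  have h1 := h i s hs hi
  rw [h' i s hs hi] at h1
  cases hr : run (sh i D) s with
  | none => rfl
  | some t => rw [hr] at h1; exact h1.elim

theorem run_n {D : Diag} (hD : cnt 2 D = some 2) {i : ℕ} {s t : State} (hi : i + 2 ≤ s.1)
    (h : run (sh i D) s = some t) : t.1 = s.1 := by
  have h1 := run_cnt _ _ _ h
  obtain ⟨k, hk⟩ := Nat.exists_eq_add_of_le hi
  have h2 : cnt (2 + i) (sh i D) = some (2 + i) := by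
    rw [cnt_sh, hD]
    rfl
  have h3 := cnt_widen k _ _ _ h2
  have h4 : s.1 = 2 + i + k := by omega
  rw [h4, h3] at h1
  rw [h4]
  exact (Option.some.inj h1).symm

theorem Eqv.app {D D1 E E1 : Diag} (h : Eqv D D1) (h' : Eqv E E1) (hD : cnt 2 D = some 2) :
    Eqv (D ++ E) (D1 ++ E1) := by
  intro i s hs hi
  rw [sh_append, sh_append, run_append, run_append]
  have h1 := h i s hs hi
  cases hr : run (sh i D) s with
  | none =>
    cases hr1 : run (sh i D1) s with
    | none => exact trivial
    | some t1 => rw [hr, hr1] at h1; exact h1.elim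
  | some t =>
    cases hr1 : run (sh i D1) s with
    | none => rw [hr, hr1] at h1; exact h1.elim
    | some t1 =>
      rw [hr, hr1] at h1
      have hsim : Sim t t1 := h1
      have hn : t.1 = s.1 := run_n hD hi hr
      exact (run_osim (sh i E) hsim).trans (h' i t1 hsim.v2 (by rw [← hsim.n, hn]; exact hi))

theorem Nul.left {D : Diag} (h : Nul D) (E : Diag) : Nul (D ++ E) := by
  intro i s hs hi
  rw [sh_append, run_append, h i s hs hi]
  rfl

theorem Nul.right {D E : Diag} (h : Nul E) (hD : cnt 2 D = some 2) : Nul (D ++ E) := by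
  intro i s hs hi
  rw [sh_append, run_append]
  have h1 := run_osim (sh i D) (sim_refl hs)
  cases hr : run (sh i D) s with
  | none => rfl
  | some t =>
    rw [hr] at h1
    have hsim : Sim t t := h1
    exact h i t hsim.v1 (by rw [run_n hD hi hr]; exact hi)

theorem sh_rotD (i : ℕ) (D : Diag) :
    sh i (rotD D) = [(.cup, i)] ++ (sh (i + 1) D ++ [(.cap, i + 2)]) := by
  unfold rotD
  rw [sh_cons, sh_append, sh_sh, add_comm 1 i]
  simp [add_comm]

theorem cup_some {i : ℕ} {s : State} (hs : Val s) (hi : i + 2 ≤ s.1) :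
    ∃ t : State, run [(.cup, i)] s = some t ∧ Val t ∧ t.1 = s.1 + 2 := by
  have h1 := run_osim [(.cup, i)] (sim_refl hs)
  obtain ⟨n, lab, c⟩ := s
  simp only at hi
  have h2 : ∃ t : State, run [(.cup, i)] (n, lab, c) = some t := by
    simp only [run, step]
    rw [if_pos (by omega)]
    exact ⟨_, rfl⟩
  obtain ⟨t, ht⟩ := h2
  refine ⟨t, ht, ?_, ?_⟩
  · rw [ht] at h1
    exact Sim.v1 h1
  · simp only [run] at ht
    rw [Option.bind_eq_some_iff] at ht
    obtain ⟨r, hr, hrt⟩ := ht
    have h4 : r = t := Option.some.inj hrt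
    have h3 := (step_fst hr).2
    rw [h4] at h3
    rw [h3]
    rfl

theorem Eqv.rot {D E : Diag} (h : Eqv D E) : Eqv (rotD D) (rotD E) := by
  intro i s hs hi
  obtain ⟨t, ht, hv, hn⟩ := cup_some hs hi
  rw [sh_rotD, sh_rotD, run_append, run_append, ht, Option.bind_some, Option.bind_some, run_append,
    run_append]
  exact bind_run_osim _ (h (i + 1) t hv (by omega))

theorem Nul.rot {D : Diag} (h : Nul D) : Nul (rotD D) := by
  intro i s hs hi
  obtain ⟨t, ht, hv, hn⟩ := cup_some hs hi
  rw [sh_rotD, run_append, ht, Option.bind_some, run_append, h (i + 1) t hv (by omega)]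
  rfl

/-- the types of tangles -/
def HT : Bool → Bool → Diag → Prop
  | false, true, D => Eqv D []
  | true, true, D => Eqv D [(.crs true, 0)]
  | true, false, D => Eqv D (rotD [])
  | false, false, D => Nul D

theorem crs_eqv (e e' : Bool) : Eqv [(.crs e, 0)] [(.crs e', 0)] := by
  intro i s hs _
  have h : run (sh i [(.crs e, 0)]) s = run (sh i [(.crs e', 0)]) s := by
    obtain ⟨n, lab, c⟩ := s
    rfl
  rw [h]
  exact run_osim _ (sim_refl hs)

theorem nul_HH : Nul (rotD [] ++ rotD []) := by
  intro i s hs hi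
  obtain ⟨n, lab, c⟩ := s
  simp only [Val] at hs hi
  have h0 : sh i (rotD [] ++ rotD []) = [(.cup, i), (.cap, i + 2), (.cup, i), (.cap, i + 2)] := by
    rw [sh_append, sh_rotD]
    rfl
  rw [h0]
  have hc1 := hs (i + 1) (by omega)
  simp only [run, step]
  rw [if_pos (by omega)]
  simp only [Option.bind_some]
  by_cases hxy : lab i = lab (i + 1)
  · rw [if_neg]
    · rfl
    · rintro ⟨-, h⟩
      apply h
      rw [if_neg (by omega), if_neg (by omega), if_neg (by omega), if_neg (by omega)]
      have e1 : i + 2 - 2 = i := by omega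
      have e2 : i + 2 + 1 - 2 = i + 1 := by omega
      rw [e1, e2, hxy]
  · rw [if_pos]
    · simp only [Option.bind_some]
      rw [if_pos (by omega)]
      simp only [Option.bind_some]
      rw [if_neg]
      · rfl
      · rintro ⟨-, h⟩
        apply h
        grind
    · refine ⟨by omega, ?_⟩
      rw [if_neg (by omega), if_neg (by omega), if_neg (by omega), if_neg (by omega)]
      have e1 : i + 2 - 2 = i := by omega
      have e2 : i + 2 + 1 - 2 = i + 1 := by omega
      rw [e1, e2]
      exact hxy

theorem rot_ht {a p : Bool} {D : Diag} (h : HT a p D) : HT p a (rotD D) := by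
  cases a <;> cases p
  · exact Nul.rot h
  · exact Eqv.rot h
  · have h1 : Eqv D (rotD []) := h
    have h2 : Eqv (rotD (rotD [])) [] := Eqv.of_eqd (Fro.claim1 (t := []) rfl)
    exact h1.rot.trans h2
  · have h1 : Eqv D [(.crs true, 0)] := h
    exact h1.rot.trans ((Eqv.of_eqd (Fit.rot_crs true)).trans (crs_eqv _ _))

theorem mul_ht {a p b q : Bool} {D E : Diag} (h : HT a p D) (h' : HT b q E)
    (hD : cnt 2 D = some 2) : HT (xor (a && q) (p && b)) (p && q) (D ++ E) := by
  cases a <;> cases p
  · have h1 : Nul D := h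
    cases b <;> cases q <;> exact h1.left E
  · have h1 : Eqv D [] := h
    have h2 : Eqv (D ++ E) E := h1.app (Eqv.refl E) hD
    cases b <;> cases q
    · exact h2.nul h'
    · exact h2.trans h'
    · exact h2.trans h'
    · exact h2.trans h'
  · have h1 : Eqv D (rotD []) := h
    cases b <;> cases q
    · exact Nul.right h' hD
    · have h3 : Eqv E [] := h'
      have h2 := h1.app h3 hD
      rw [List.append_nil] at h2
      exact h2
    · have h3 : Eqv E (rotD []) := h'
      exact (h1.app h3 hD).nul nul_HH
    · have h3 : Eqv E [(.crs true, 0)] := h'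
      exact (h1.app h3 hD).trans (Eqv.of_eqd (Fit.rot_nil_crs true))
  · have h1 : Eqv D [(.crs true, 0)] := h
    cases b <;> cases q
    · exact Nul.right h' hD
    · have h3 : Eqv E [] := h'
      exact h1.app h3 hD
    · have h3 : Eqv E (rotD []) := h'
      exact (h1.app h3 hD).trans (Eqv.of_eqd (Fit.crs_rot_nil true))
    · have h3 : Eqv E [(.crs false, 0)] := Eqv.trans h' (crs_eqv _ _)
      refine (h1.app h3 hD).trans (Eqv.of_eqd ?_)
      exact EqD.move (Move.r2 0 true) (by decide) (by decide)

theorem rep_ht (e : Bool) (k : ℕ) :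
    HT (decide (Odd k)) true (List.replicate k (Kind.crs e, 0)) := by
  induction k with
  | zero => exact Eqv.refl []
  | succ k ih =>
    have h1 : HT true true [(Kind.crs e, 0)] := crs_eqv e true
    have h2 := mul_ht h1 ih (by cases e <;> rfl)
    have h3 : (xor (true && true) (true && decide (Odd k))) = decide (Odd (k + 1)) := by
      rw [Bool.true_and, Bool.true_and]
      by_cases hk : Odd k
      · rw [decide_eq_true hk, decide_eq_false (by rw [Nat.odd_add_one]; exact fun h => h hk)]
        rfl
      · rw [decide_eq_false hk, decide_eq_true (by rw [Nat.odd_add_one]; exact hk)]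
        rfl
    rw [h3] at h2
    exact h2

theorem main (T : Tr) :
    HT (decide (Odd (vec T).1)) (decide (Odd (vec T).2)) T.dg := by
  induction T with
  | pw e =>
    have h1 : vec (.pw e) = (-e, 1) := rfl
    rw [h1]
    have h2 := rep_ht (decide (0 < e)) e.natAbs
    have h3 : decide (Odd e.natAbs) = decide (Odd (-e)) := by
      simp only [Int.natAbs_odd, odd_neg]
    rw [h3] at h2
    exact h2
  | cons a b iha ihb =>
    have h1 : vec (.cons a b) = (-(vec a).2 * (vec b).2 + (vec b).1 * (vec a).1,
      (vec a).1 * (vec b).2) := rfl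
    have h2 : (Tr.cons a b).dg = rotD a.dg ++ b.dg := rfl
    rw [h1, h2]
    have h3 := mul_ht (rot_ht iha) ihb (Fcg.cnt_rotD (Fcg.cnt_dg a))
    have h4 : (xor (decide (Odd (vec a).2) && decide (Odd (vec b).2))
        (decide (Odd (vec a).1) && decide (Odd (vec b).1))) =
        decide (Odd (-(vec a).2 * (vec b).2 + (vec b).1 * (vec a).1)) := by
      by_cases x1 : Odd (vec a).1 <;> by_cases x2 : Odd (vec a).2 <;>
        by_cases y1 : Odd (vec b).1 <;> by_cases y2 : Odd (vec b).2 <;>
        simp [x1, x2, y1, y2, Int.odd_add, Int.odd_mul, ← Int.not_odd_iff_even]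
    have h5 : (decide (Odd (vec a).1) && decide (Odd (vec b).2)) =
        decide (Odd ((vec a).1 * (vec b).2)) := by
      by_cases x1 : Odd (vec a).1 <;> by_cases y2 : Odd (vec b).2 <;>
        simp [x1, y2, Int.odd_mul]
    rw [h4, h5] at h3
    exact h3

end Odk

open Odk in
/-- ODK. -/
theorem t_ODK : ODK_Stmt := by
  intro T hT
  by_contra hodd
  have h1 := main T
  rw [decide_eq_false hodd] at h1
  obtain ⟨lab, c, hrun⟩ := hT
  set s : State := (3, fun j => if j < 1 then 0 else if j < 1 + 2 then 1 else 0, 2) with hs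
  have hcl : cl T.dg = [(.cup, 1)] ++ (T.dg ++ [(.cap, 1)]) := rfl
  have hcup : run [(.cup, 1)] (1, fun _ => 0, 1) = some s := rfl
  have hv : Val s := by
    intro j hj
    simp only [hs] at hj ⊢
    split_ifs <;> omega
  rw [hcl, run_append, hcup, Option.bind_some, run_append] at hrun
  have hsh : sh 0 T.dg = T.dg := sh_zero _
  by_cases h2 : Odd (vec T).2
  · rw [decide_eq_true h2] at h1
    have h3 : Eqv T.dg [] := h1
    have h4 := h3 0 s hv (by simp [hs])
    rw [hsh] at h4
    have h5 := bind_run_osim [(.cap, 1)] h4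
    rw [hrun] at h5
    have h6 : ((run (sh 0 []) s).bind (run [(.cap, 1)]) : Option State) = none := by
      simp [run, step, hs, sh]
    rw [h6] at h5
    exact h5
  · rw [decide_eq_false h2] at h1
    have h3 : Nul T.dg := h1
    have h4 := h3 0 s hv (by simp [hs])
    rw [hsh] at h4
    rw [h4] at hrun
    exact absurd hrun (by simp)

end Pool.Agent.TZ
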