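import Pool.Agent.TZ.Defs

/-!
Theorem Z (MP_31fd3b_gt), mutations, chains and the main induction: statements of the modules with
their proofs. Conventions as in StA.lean.
-/

open scoped BigOperators

namespace Pool.Agent.TZ

open Pool.Agent.LibH11.Sliced Pool.Agent.MTR Pool.Agent.MTA Pool.Agent.UA Pool.Agent.UB
open Pool.Agent.TwoBr Pool.Agent.Mont Pool.Agent.TV Pool.Agent.TW
open Pool.Agent.TB hiding vec

/-! ## 1. Mutations of diagrams -/

/-- MUC: mutation equivalence and operations.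

Proof. (1) Induction on `Mu`: `EqD.cnt_eq`; `mut`: `cnt 2 t' = some 2` for `Rot3 t t'` (see FSY and the lemmas on `cnt` of
`hD`, `flipD`, `pD` in Pool/Agent/UA/Fsy.lean, Pool/Agent/UA/Feq.lean, Pool/Agent/Mont/Rot.lean), `cnt (u ++ v)`, `cnt (sh i t)`.
(2) Composition: `Mu n x x' → cnt n x = some k → cnt k y = some m → Mu n (x ++ y) (x' ++ y)`, induction on `Mu`: `eqd`: congruence of
`EqD` (FCG or `EqD.append`..), `mut`: `(u ++ sh i t ++ v) ++ y = u ++ sh i t ++ (v ++ y)`; `symm`, `trans` with (1). The same for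
`y ++ x` on the other side: `Mu k y y' → cnt n x = some k → cnt k y = some m → Mu n (x ++ y) (x ++ y')`. (3) Strands to the
left and right: `Mu 2 x y → Mu 4 (sh 1 x) (sh 1 y)` (`EqD.sh`, `EqD.widen`; `sh 1 (u ++ sh i t ++ v) = sh 1 u ++ sh (i + 1) t ++ sh 1 v`,
`cnt (n + 2) (sh 1 u) = some (m + 2)` if `cnt n u = some m`). `rotD x = [(.cup, 0)] ++ (sh 1 x ++ [(.cap, 2)])`, `cnt 2 [(.cup, 0)] = some 4`;
`cl x = [(.cup, 1)] ++ (x ++ [(.cap, 1)])` from 1 strand to 3 strands: `Mu 2 x y → Mu 3 x y` (add one strand on the right: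
`EqD.widen`; the word does not change). -/
def MUC_Stmt : Prop :=
  (∀ (n : ℕ) (x y : Diag), Mu n x y → cnt n x = cnt n y) ∧
  (∀ x x' y y' : Diag, Mu 2 x x' → Mu 2 y y' → cnt 2 x = some 2 → cnt 2 y = some 2 →
    Mu 2 (x ++ y) (x' ++ y')) ∧
  ∀ x y : Diag, Mu 2 x y → cnt 2 x = some 2 → Mu 2 (rotD x) (rotD y) ∧ Mu 1 (cl x) (cl y)

/-- MUR (uses MUC, FSY, FRO, FR3, FC0 of UA): relations up to mutation.

Proof. (1) `Mu.mut` with `u = v = []`, `i = 0`, `n = 2` (`sh 0 x = x`). (2) `x ++ y ~ flipD (x ++ y) = flipD y ++ flipD x ~ y ++ x` by (1) and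
MUC (`flipD (x ++ y) = flipD y ++ flipD x`, see `UA.flipD_append` or the definition). (3) FRO: `rotD (rotD x) ~ pD 2 x`, and (1). (4) FR3:
`rotD (rotD x ++ [crs e]) ~ (crs (!e)) :: rotD ((crs (!e)) :: x)`, and (2) twice (inside `rotD` by MUC). (5) FC0 with `s = y`, `t = x`:
`cl (y ++ rotD x) ~ cl (rotD (hD 2 y) ++ flipD x)`, which is mutation equivalent to `cl (rotD y ++ x)` by (1), MUC;
`cl (rotD x ++ y) ~ cl (y ++ rotD x)` by (2). -/
def MUR_Stmt : Prop :=
  (∀ x : Diag, cnt 2 x = some 2 → Mu 2 x (hD 2 x) ∧ Mu 2 x (flipD x) ∧ Mu 2 x (pD 2 x)) ∧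
  (∀ x y : Diag, cnt 2 x = some 2 → cnt 2 y = some 2 → Mu 2 (x ++ y) (y ++ x)) ∧
  (∀ x : Diag, cnt 2 x = some 2 → Mu 2 (rotD (rotD x)) x) ∧
  (∀ (x : Diag) (e : Bool), cnt 2 x = some 2 →
    Mu 2 (rotD (rotD x ++ [(.crs e, 0)])) (rotD (x ++ [(.crs (!e), 0)]) ++ [(.crs (!e), 0)])) ∧
  ∀ x y : Diag, cnt 2 x = some 2 → cnt 2 y = some 2 → Mu 1 (cl (rotD x ++ y)) (cl (rotD y ++ x))

/-- MUT (uses MUC, MUR, FCG, FTA of UA): the same for trees.

Proof. All diagrams of trees have two strands (FCG). (1) `(.cons a b).dg = rotD a.dg ++ b.dg`, MUC. (2) MUR (2): `(rotD x ++ rotD y) ++ b ~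
(rotD y ++ rotD x) ++ b`. (3) FTA (fifth part): `T.dg ++ ht c ~ (T.shift c).dg`. (4) The left side is
`rotD (rotD (rotD a ++ ht k) ++ ht 0) ++ (b.shift (-k)).dg ~ (rotD a ++ ht k) ++ (b ++ ht (-k))` (`ht 0 = []`, MUR (3), FTA)
`~ (rotD a ++ b) ++ (ht k ++ ht (-k)) ~ rotD a ++ b` (MUR (2), `Mont.ht_add`). (5) MUC. (6) Induction on `es` for all `b`: `es = []`: MUR (5).
`e :: es`: with `A = chn es X`: `cl (rotD (rotD A ++ ht e) ++ b) ~ cl (rotD b ++ (rotD A ++ ht e)) ~ cl (rotD A ++ (rotD b ++ ht e))` by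
MUR (5), (2), which is the closure of `.cons (chn es X) (.cons b (.pw e))`; by the induction hypothesis it is equivalent to the one of
`.cons (chn es.reverse (.cons b (.pw e))) X`, and `chn es.reverse (.cons b (.pw e)) = chn (es.reverse ++ [e]) b = chn (e :: es).reverse b`
(`chn (xs ++ ys) b = chn xs (chn ys b)`). (7) Induction on `es`, (1). -/
def MUT_Stmt : Prop :=
  (∀ a a' b b' : Tr, Mu 2 a.dg a'.dg → Mu 2 b.dg b'.dg → Mu 2 (Tr.cons a b).dg (Tr.cons a' b').dg) ∧
  (∀ x y b : Tr, Mu 2 (Tr.cons x (.cons y b)).dg (Tr.cons y (.cons x b)).dg) ∧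
  (∀ (a b : Tr) (n : ℤ), Mu 2 a.dg b.dg → Mu 2 (a.shift n).dg (b.shift n).dg) ∧
  (∀ (a b : Tr) (k : ℤ),
    Mu 2 (Tr.cons (.cons (.cons a (.pw k)) (.pw 0)) (b.shift (-k))).dg (Tr.cons a b).dg) ∧
  (∀ a b : Tr, Mu 2 a.dg b.dg → Mu 1 (cl a.dg) (cl b.dg)) ∧
  (∀ (es : List ℤ) (X b : Tr),
    Mu 1 (cl (Tr.cons (chn es X) b).dg) (cl (Tr.cons (chn es.reverse b) X).dg)) ∧
  ∀ (es : List ℤ) (X Y : Tr), Mu 2 X.dg Y.dg → Mu 2 (chn es X).dg (chn es Y).dg

/-! ## 2. Chains -/

/-- adding `n` half twists -/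
def tw (n : ℤ) (v : ℤ × ℤ) : ℤ × ℤ := (v.1 - n * v.2, v.2)

/-- the matrices of the chains `es` and `es'`, `n` are equal up to the sign -/
def Smt (es es' : List ℤ) (n : ℤ) : Prop :=
  (∀ u, cvec es u = cvec es' (tw n u)) ∨ ∀ u, cvec es u = -cvec es' (tw n u)

/-- powers of a bijection `c` with the inverse `c'` -/
def zp {X : Type} (c c' : X → X) : ℤ → X → X
  | .ofNat n => c^[n]
  | .negSucc n => c'^[n + 1]

/-- the action of a chain -/
def cact {X : Type} (c c' r : X → X) : List ℤ → X → X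
  | [], x => x
  | e :: es, x => zp c c' e (r (cact c c' r es x))

/-- ACZ: a chain acts by its matrix up to the sign.

Proof. (i) `zp (m + n) = zp m ∘ zp n` (for `c c' = c' c = 1`). (ii) `r c r = c' r c'`, `r c' r = c r c` (from `(c r)³ = 1`, `r² = 1`).
(iii) Claim: if the matrix of `es`, `m`, i.e. `u ↦ cvec es (tw m u)`, is `± 1` (`Smt es [] (-m)`, or `∀ u, cvec es (tw m u) = u` or `= -u`), then
`cact es (zp m x) = x` for all `x`. Strong induction on the length of `es = [e_0, .., e_k]`; put `e_{k+1} = m`. The action is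
`c^{e_0} r c^{e_1} r ⋯ r c^{e_k} r c^{m}`. If `es = []` then `m = 0` (`tw m (0, 1) = (-m, 1)`). If there is `i` with `1 ≤ i ≤ k` and `e_i = 0`:
`c^a r r c^b = c^{a + b}`, remove two entries: `.., a, 0, b, .. ↦ .., a + b, ..`; the matrix changes by the sign `-1` (`rv (rv v) = -v`).
If `e_i = ±1`: `c^a r c^{±1} r c^b = c^{a ∓ 1} r c^{b ∓ 1}`: `.., a, ±1, b, .. ↦ .., a ∓ 1, b ∓ 1, ..` (the same relation holds for the
matrices up to the sign). Here `a = e_{i - 1}` and `b = e_{i + 1}` (which is `m` if `i = k`). In both cases the length decreases. Otherwise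
`|e_i| ≥ 2` for `1 ≤ i ≤ k`, `es ≠ []`; this is impossible: start with `v = (1, 0) = tw m (1, 0)`, apply `rv`: `(0, 1)`, then for `i = k, .., 1`:
if `|v.1| < |v.2|` then `tw e_i v = (v.1 - e_i v.2, v.2)` has `|..| ≥ 2 |v.2| - |v.1| > |v.2|`, and `rv` of it satisfies again
`|v.1| < |v.2|`; finally `tw e_0` does not change `v.2 ≠ 0`: the image of `(1, 0)` is not `± (1, 0)`.
(iv) The inverse of `c^{e_0} r c^{e_1} r ⋯ r c^{e_k}` (followed by `r c^m`) is of the same form; so if `Smt es es' n`, the composition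
of the inverse of the action of `es` with the one of `es'`, `n` is again an alternating product of powers of `c` and `r` with the matrix
`± 1`: for `es = [e_0, .., e_k]` it is `r c^{-e_k} r ⋯ r c^{-e_0} c^{e'_0} r ⋯ c^{e'_l} r c^{n}`, which is the action of the list
`0, -e_k, .., -e_1, (e'_0 - e_0), e'_1, .., e'_l` and `m = n` (if `es'` is not empty; otherwise `0, -e_k, .., -e_1` and `m = n - e_0`).
By (iii) it is the identity. -/
def ACZ_Stmt : Prop :=
  ∀ (X : Type) (c c' r : X → X), (∀ x, c (c' x) = x) → (∀ x, c' (c x) = x) → (∀ x, r (r x) = x) →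
    (∀ x, c (r (c (r (c (r x))))) = x) → ∀ (es es' : List ℤ) (n : ℤ), Smt es es' n →
      ∀ x, cact c c' r es x = cact c c' r es' (zp c c' n x)

/-- QAC (uses ACZ, MUC, MUR, FCG, FTA): two chains with the same matrix up to the sign.

Proof. Compare the proof of RTU (Pool/Agent/TW/Rtu.lean). `X` is the quotient of `{t : Diag // cnt 2 t = some 2}` by `Mu 2` (a `Setoid`: `Mu.eqd`
with `EqD.refl`, `Mu.symm`, `Mu.trans`), `c [t] = [t ++ [(.crs true, 0)]]`, `c' [t] = [t ++ [(.crs false, 0)]]`, `r [t] = [rotD t]`, well defined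
by MUC. `c c' = c' c = 1`: Reidemeister 2. `r r = 1`: MUR (3). MUR (4) with `e = true`: `r c r = c' r c'` (`rotD (rotD t ++ [crs true]) ~
rotD (t ++ [crs false]) ++ [crs false]`), so `c r c r c r = c (r c r) c r = c c' r c' c r = r r = 1`. `[(chn (e :: es) X).dg] =
[rotD (chn es X).dg ++ ht e] = zp c c' e (r [(chn es X).dg])` (`ht e` is a list of `|e|` crossings of the same kind), and
`[(X.shift n).dg] = [X.dg ++ ht n] = zp c c' n [X.dg]` (FTA). -/
def QAC_Stmt : Prop :=
  ∀ (es es' : List ℤ) (n : ℤ) (X : Tr), Smt es es' n →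
    Mu 2 (chn es X).dg (chn es' (X.shift n)).dg

/-- CUS: a chain is determined by its values at two cusps.

Proof. All maps are linear with integral coefficients and determinant 1: `cvec es u = M u`, `cvec es' (tw n u) = M' u`, `M, M' ∈ SL₂(ℤ)`
(`cvec (e :: es) u = rv w + (-e, 1) = (-w.2 - e w.1, w.1)` with `w = cvec es u`, matrix `(-e, -1; 1, 0)`; `tw n`: `(1, -n; 0, 1)`).
Put `N = M'⁻¹ M ∈ SL₂(ℤ)`. `M v` and `M' v` are parallel, so `N v = λ v` with a rational `λ ≠ 0` (`v ≠ 0`). Put `P = lch es C`,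
`P' = lch es' C + (-n, 1)`; for all `u`: `dt C (M u) = dt P u` and `dt C (M' u) = dt (lch es' C) (tw n u) = dt P' u` (CHN (5):
`dt C (cvec es v) = dt (lch es C) v`, and `tw n u = u + (-n, 1)`). `u0 = (-P.1, P.2) ≠ 0` satisfies `dt P u0 = 0` and, as `P'` is parallel to
`P`, `dt P' u0 = 0`. So `M u0`, `M' u0` are in the kernel of `dt C`, which is a line (`C ≠ 0` because `dt P v ≠ 0`), hence parallel, and
`N u0 = μ u0`. `u0` and `v` are linearly independent (`dt P v ≠ 0`). So `λ μ = det N = 1` and `λ + μ` is the trace of `N`, an integer; `λ` is a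
rational root of `X² - t X + 1`, so `λ = ±1`, `μ = λ` and `N = ± 1`, `M = ± M'`. -/
def CUS_Stmt : Prop :=
  ∀ (es es' : List ℤ) (n : ℤ) (C v : ℤ × ℤ), dt (lch es C) v ≠ 0 →
    Par (cvec es v) (cvec es' (tw n v)) → Par (lch es C) (addv (lch es' C) (-n, 1)) → Smt es es' n

/-! ## 3. Operations on trees -/

/-- PRM (uses MUT): every child can be moved to the first place.

Proof. Induction on `T = .cons x y`. `a = x`: `b = y`. `a ∈ chl y`: the induction hypothesis gives `y'` with `y ~ .cons a y'`; take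
`b = .cons x y'`: `.cons x y ~ .cons x (.cons a y') ~ .cons a (.cons x y')` by MUT (1), (2). The vector: commutativity and associativity of
`addv`. `vt`: for `.cons x (.cons a y')` in the context `L`: `x` is in the context `rv (L + (rv a + y'))`, `a` in `rv ((L + rv x) + y')`,
`y'` in `(L + rv x) + rv a`; for `.cons a (.cons x y')` the contexts are the same vectors (associativity, commutativity), and
`β_a ::ₘ β_x ::ₘ acc = β_x ::ₘ β_a ::ₘ acc`. The slope sum of the top vertex in `ed1`, `rb1` is the slope of `L + vec T` in all cases.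
From `.cons x y` to `.cons x (.cons a y')`: the vector of `y` is the one of `.cons a y'`, and the induction hypothesis (for all `acc`, `f`, `L`). -/
def PRM_Stmt : Prop :=
  ∀ (T a : Tr), a ∈ chl T → ∃ b : Tr, Mu 2 T.dg (Tr.cons a b).dg ∧ vec (.cons a b) = vec T ∧
    (Tr.cons a b).kids = T.kids ∧ (Tr.cons a b).size = T.size ∧ cf (.cons a b) = cf T ∧
    ∀ (acc : Multiset ℚ) (f : Bool) (L : ℤ × ℤ), vt (.cons a b) acc f L = vt T acc f L ∧
      eg (.cons a b) f L = eg T f L ∧ rb (.cons a b) f L = rb T f L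

/-- SHF: shifts and signs.

Proof. (1) Induction on `X`; `vec (X.shift n) = vec X + (-n, 1)`. (2) `.shift` is additive: induction. (3) Induction on `X` for all `acc`, `f`,
`P`: `.pw e`: `P + (-(e + n), 1) = (P + (-n, 1)) + (-e, 1)`. `.cons a b`: `a` is in the context `rv (P + vec (b.shift n)) =
rv ((P + (-n, 1)) + vec b)`, the total vector is the same. (4) `-V` has the same slope as `V`; `addv (-P) V = -(addv P V)`,
`rv (-V) = -rv V`: induction on `X`. In terms of vectors: `vt X acc f (-P) = (vt X acc f P).map fun x => (-x.1, x.2)`. -/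
def SHF_Stmt : Prop :=
  (∀ (X : Tr) (n : ℤ), vec (X.shift n) = addv (vec X) (-n, 1) ∧ vec (X.shift n) = tw n (vec X) ∧
    (X.shift n).kids = X.kids ∧ cf (X.shift n) = cf X) ∧
  (∀ (X : Tr) (m n : ℤ), (X.shift m).shift n = X.shift (m + n)) ∧ (∀ X : Tr, X.shift 0 = X) ∧
  (∀ (X : Tr) (n : ℤ) (acc : Multiset ℚ) (f : Bool) (P : ℤ × ℤ),
    vt (X.shift n) acc f P = vt X acc f (addv P (-n, 1)) ∧
      eg (X.shift n) f P = eg X f (addv P (-n, 1)) ∧ rb (X.shift n) f P = rb X f (addv P (-n, 1))) ∧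
  ∀ (X : Tr) (acc : Multiset ℚ) (f : Bool) (P : ℤ × ℤ),
    vt X acc f (-P) = ((vt X acc f P).map fun x => (-x.1, x.2)) ∧ eg X f (-P) = eg X f P ∧
      rb X f (-P) = rb X f P ∧ top X (-P) = top X P

/-- SFT (uses MUT, SHF): the slope of a child is changed by an integer.

Proof. `vec (.cons a (.pw k)) = (-a.2 - k a.1, a.1)`, so `rv (vec a2) = -(rv (vec a) + (-k, 1)) = (a.2 + k a.1, -a.1)`. Size: not needed.
`Mu`: MUT (4). The context of `a2` in `.cons a2 (b.shift (-k))` is `C2 = rv (L + (vec b + (k, 1)))`; the context of `a` in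
`a2 = .cons (.cons a (.pw k)) (.pw 0)` is `rv (rv (C2 + (0, 1)) + (-k, 1)) = -rv (L + vec b)` (`rv (rv V) = -V`,
`(-V) + (-k, 1) = -(V + (-k, 1))`, `(k, 1) + (-k, 1) = (0, 1)`), the flags of the two new vertices are `false` (one child), the one of `a` is the
same as before; so by SHF (4) the part of `a` in `eg`, `rb` and in `vt .. ` (with slopes: `slp (-V) = slp V`) is the same;
`top a2 C2 = top a (-C) = top a C`, `C = rv (L + vec b)`. The context of `b.shift (-k)` is `L + rv (vec a2) = -((L + rv (vec a)) + (-k, 1))`,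
so its part is the one of `b` in the context `-(L + rv (vec a))` by SHF (3), and the same as before by SHF (4).
`Int.fract (slp (rv (vec a2))) = Int.fract (slp (rv (vec a)) - k)`. The total vector changes the sign. Weights: `vt` of the new tree is the image
of the old one under changes of the signs of the vectors, so all `x.1.2 ≠ 0` if it was so before. -/
def SFT_Stmt : Prop :=
  ∀ (a b : Tr) (k : ℤ) (L : ℤ × ℤ), (vec a).1 ≠ 0 → ∀ a2 b2 : Tr,
    a2 = .cons (.cons a (.pw k)) (.pw 0) → b2 = b.shift (-k) →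
    Mu 2 (Tr.cons a2 b2).dg (Tr.cons a b).dg ∧ vec (.cons a2 b2) = -vec (.cons a b) ∧
    slp (rv (vec a2)) = slp (rv (vec a)) - k ∧ (vec a2).1 ≠ 0 ∧ b2.kids = b.kids ∧
    cf (.cons a2 b2) = cf (.cons a b) ∧ (a2.Rat ↔ a.Rat) ∧
    eg (.cons a2 b2) true L = eg (.cons a b) true L ∧
    rb (.cons a2 b2) true L = rb (.cons a b) true L ∧
    vd (.cons a2 b2) L = vd (.cons a b) L ∧
    ((∀ x ∈ vt (.cons a b) 0 false L, x.1.2 ≠ 0) → ∀ x ∈ vt (.cons a2 b2) 0 false L, x.1.2 ≠ 0)

/-- RTZ (uses PRM, CHN, VST, MUT (6), VTB, EGA of StA): another vertex as the root.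

Proof. (A) One step: let `T = .cons a b`, `a = chn es X`, `2 ≤ X.kids`, `2 ≤ b.kids`, and `T1 = .cons (chn es.reverse b) X`. MUT (6) gives `Mu 1` of the
closures. `vt0 T = vt a {..} f C + vt b {Int.fract (slp Q)} true Q` with `C = rv ((0, 1) + vec b) = rv (vec b)`, `Q = (0, 1) + rv (vec a) =
rv (vec a)`; by CHN (4) this is `vt X {Int.fract (slp P)} true P + vt b {Int.fract (slp Q)} true Q` with `P = lch es (rv (vec b)) =
rv (cvec es.reverse (vec b)) = rv (vec (chn es.reverse b))` (CHN (5), (7)) and `Q = rv (cvec es (vec X))`. For `T1` the same calculation gives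
`vt b {Int.fract (slp Q')} true Q' + vt X {Int.fract (slp P')} true P'`, `Q' = lch es.reverse (rv (vec X)) = rv (cvec es (vec X)) = Q`,
`P' = rv (vec (chn es.reverse b)) = P`. So `vt0 T1 = vt0 T`, and `vec T1 = P + vec X`. In the same way (CHN (4) for `top`)
`eg0 T = {((σ, β), (σ1, β1))} + eg X true P + eg b true Q` with `σ = slp (vec T) = slp (Q + vec b)`, `β = Int.fract (slp Q)`,
`σ1 = slp (P + vec X)`, `β1 = Int.fract (slp P)`, and `eg0 T1 = {((σ1, β1), (σ, β))} + eg b true Q + eg X true P`.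
(B) `T1` is generic if `T` is: `T1.kids = X.kids + 1 ≥ 3`; `wt`, `nz`, `ndg`, `dif` and `br0` depend only on `vt0`; `edg`: for
`e ∈ eg0 T1` we have `e ∈ eg0 T` or `e.swap ∈ eg0 T`; in the second case `Se e.1 e.2` (EGA (1)) and transitivity (EDS). `(vec T1).1 = (vec T).1` by VTB
(both are the `x.1.1`). (C) Induction on a bound for the size of `a`: for all generic `T`, `a ∈ chl T` and
`x ∈ vt a {Int.fract (slp C)} (decide (2 ≤ a.kids)) C` there is a `T1`. By PRM we can assume `T = .cons a b` (all data are the same;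
`Mu 1` of the closures by MUT (5)), `b.kids ≥ 2`. `a` is not rational (otherwise `vt a .. = 0`, CHN (2)), so `a = chn es X` (CHN (3)); do the
step (A). `vt a .. = vt X {..} true P`; by VST (1) `x` is the top vertex of `X` in the context `P`, i.e. `x.1 = P + vec X = vec T1`, and we are done;
or `x ∈ vt X 0 false P`, so `x` is in the part of a child `c` of `X`, which is a child of `T1`, `c.size < X.size ≤ a.size`. (Lemma: if
`x ∈ vt T acc f L` then `x` is the top vertex or there are `c ∈ chl T` and a context with `x ∈ vt c ..`; it is convenient to state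
(C) for `.cons c y` after PRM.) Start: `x ∈ vt0 T`: the top vertex `vec T` (take `T1 = T`) or in the part of a child (VST (1)). The unordered
edges are the same after every step. -/
def RTZ_Stmt : Prop :=
  ∀ T : Tr, Gen T → (vec T).1 ≠ 0 → ∀ x ∈ vt0 T, ∃ T1 : Tr, Gen T1 ∧ (vec T1).1 ≠ 0 ∧
    Mu 1 (cl T.dg) (cl T1.dg) ∧ vt0 T1 = vt0 T ∧ slp (vec T1) = slp x.1 ∧
    ((eg0 T1).map fun e => ({e.1, e.2} : Multiset (ℚ × ℚ))) =
      (eg0 T).map fun e => ({e.1, e.2} : Multiset (ℚ × ℚ))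

/-! ## 4. The main induction -/

/-- SPN (uses VST, CHN of StA; PRM, SHF, SFT, MUT, CUS, QAC; RTU of TW, RU of TV): compatible trees are mutation
equivalent.

Proof. Induction on `b.size` (strong, for all `b'`, `L`, `L'`). `β(a) = Int.fract (slp (rv (vec a)))`.
`b = .pw e`: `cf b = 0`, so `b' = .pw e'`, and `slp (vec b) = -e`, so `e = e'`: the diagrams are equal.
`b = .cons a b1`: `β(a) ∈ cf b = cf b'`, so there is `a' ∈ chl b'` with `β(a') = β(a)` (VST (2)); by PRM replace `b'` by `.cons a' b1'` (all data are the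
same). All weights at the top vertices are nonzero: `(vec b).2 = (vec a).1 * (vec b1).2`. Let `k = slp (rv (vec a')) - slp (rv (vec a)) ∈ ℤ`; by
SFT with `k` replace `.cons a' b1'` by `.cons a2 b2` (`slp (vec b')` does not change: `-V` has the same slope). Now
`slp (rv (vec a)) = slp (rv (vec a2))`, and, as slopes are additive for nonzero weights, `slp (vec b1) = slp (vec b2)`,
`slp (L + rv (vec a)) = slp (L' + rv (vec a2))`, `slp (L + vec b1) = slp (L' + vec b2)`; the slope sum `σ = slp (L + vec b)` is the same on both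
sides. By MUT (1) it suffices to show `Mu 2 b1.dg b2.dg` and `Mu 2 a.dg a2.dg`.
(i) `b1`, `b2` in the contexts `L + rv (vec a)`, `L' + rv (vec a2)`: the induction hypothesis. `cf b1 = cf b2` (cancel `β(a)`). `Cmp`: the
multisets `eg b1 true ..`, `rb b1 true ..`, `vd b1 ..` are parts of the ones of `b`, the same for `b2`. `dt` is the same number up to the sign
(`dt (L + rv (vec a)) (vec b1) = dt L (vec b)`), weights: `vt b1 0 false ..` is a part of `vt b 0 false L` (VST (1): `vt b1 acc false = vt b1 0 false`).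
(ii) `a` in the context `C = rv (L + vec b1)`, `a2` in the context `C2 = rv (L' + vec b2)`. Let `p = (σ, β(a))`. If `a` is rational then
`p ∈ rb b true L` (`rb1`), so `a2` is rational: otherwise `top a2 C2 = some q` and `(p, q) ∈ eg b' true L'`, against `rat'`. Similarly with
`rat` if `a2` is rational. Both rational: `rv (vec a)`, `rv (vec a2)` are parallel (equal slopes, `(vec a).1, (vec a2).1 ≠ 0`), the vectors of rational
trees are primitive (RU (4) of TV), so `vec a = ± vec a2`, and RTU gives `EqD 2 a.dg a2.dg` (`Dir a (vec a)`, `Dir a2 (vec a)`).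
Both not rational: `a = chn es X`, `a2 = chn es2 X2` (CHN (3)); `P = lch es C`, `P2 = lch es2 C2`; `top a C = some q`,
`q = (slp (P + vec X), Int.fract (slp P))`, `(p, q) ∈ eg b true L`, `(p, q2) ∈ eg b' true L'`, so `q = q2` by `mate`: `σ1 := slp (P + vec X) =
slp (P2 + vec X2)`, `slp P2 = slp P + n` for an integer `n`. Put `X3 = X2.shift (-n)`, `P3 = P2 + (-n, 1)`, so `slp P3 = slp P`; as
`P + vec X` is the total vector of a vertex of `vt b 0 false L` (CHN (4), VST (1)) its weights are nonzero, so `slp (vec X) = σ1 - slp P`, and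
`slp (vec X3) = slp (vec X2) + n = σ1 - slp P2 + n = slp (vec X)`. The induction hypothesis applies to `X`, `X3`, `P`, `P3`: `X.size ≤ a.size < b.size`; `eg X true P =
eg a f C` (CHN (4)) is a part of `eg b true L`, and `eg X3 true P3 = eg X2 true P2` (SHF (3) with `P3 + (n, 1) = P2`), similarly `rb`, `vd`;
`cf X = cf X3`: `(σ1, Int.fract (slp P) ::ₘ cf X) ∈ vd b L` and `(σ1, Int.fract (slp P2) ::ₘ cf X2) ∈ vd b' L'` (VST (1)), so they are equal by `vert`. Hence
`Mu 2 X.dg X3.dg`, and `Mu 2 (X.shift n).dg X2.dg` (MUT (3), `X3.shift n = X2`), `Mu 2 (chn es2 (X.shift n)).dg a2.dg` (MUT (7)). It remains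
`Mu 2 (chn es X).dg (chn es2 (X.shift n)).dg`: QAC and CUS with `v = vec X`: `dt (lch es C) v = dt C (vec a) = dt L (vec b) ≠ 0` (CHN (6)).
`cvec es v = vec a` and `cvec es2 (tw n v)` are parallel: `vec X2 = tw n (vec X3)`, `vec X3` is parallel to `v`, `cvec es2` and `tw n` are linear and injective, so
`cvec es2 (tw n v)` is parallel to `cvec es2 (vec X2) = vec a2`, which is parallel to `vec a`. `lch es C = P` and `lch es2 C + (-n, 1)` are parallel: `C` and
`C2` are parallel (`slp (L + vec b1) = slp (L' + vec b2)`, nonzero weights), `lch es2` is linear and injective, so `lch es2 C` is parallel to `P2`, and `P2 + (-n, 1) = P3` is parallel to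
`P` (equal slopes, nonzero weights). (Lemmas: `Par` is symmetric and transitive, and preserved by injective linear maps; `Par` from equal slopes.) -/
def SPN_Stmt : Prop :=
  ∀ (b b' : Tr) (L L' : ℤ × ℤ), L.2 ≠ 0 → L'.2 ≠ 0 → (vec b).2 ≠ 0 → (vec b').2 ≠ 0 →
    dt L (vec b) ≠ 0 → dt L' (vec b') ≠ 0 → slp L = slp L' → slp (vec b) = slp (vec b') →
    cf b = cf b' → (∀ x ∈ vt b 0 false L, x.1.2 ≠ 0) → (∀ x ∈ vt b' 0 false L', x.1.2 ≠ 0) →
    Cmp b b' L L' → Mu 2 b.dg b'.dg

/-- FINZ (assembly; uses ODK, FODM, TAB, INE, MATE, RTZ, SPN, VST, EGA, MUT): the theorem. -/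
def FINZ_Stmt : Prop :=
  ∀ (T T' : Tr) (h : IsLongKnot (cl T.dg)) (h' : IsLongKnot (cl T'.dg)), Gen T → Gen T' →
    (∀ v : Knot → ℂ, IsFiniteType v → v (ofDiag (cl T.dg) h) = v (ofDiag (cl T'.dg) h')) →
    Mu 1 (cl T.dg) (cl T'.dg)

end Pool.Agent.TZ
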