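import Pool.Agent.TZ.StA
import Pool.Agent.TZ.StC
import Pool.Agent.TZ.Odk

/-!
Theorem Z (MP_31fd3b_gt): rational finite type invariants separate generic arborescent knots up to
mutation. Assembly (helper16).
-/

open scoped BigOperators

namespace Pool.Agent.TZ

open Pool.Agent.LibH11.Sliced Pool.Agent.MTR Pool.Agent.MTA Pool.Agent.UA Pool.Agent.UB
open Pool.Agent.TwoBr Pool.Agent.Mont Pool.Agent.TV Pool.Agent.TW
open Pool.Agent.TB hiding vec

namespace AsmZ

theorem addv_one (v : ℤ × ℤ) : addv (0, 1) v = v := by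
  ext <;> simp [addv]

/-- the root is one of the vertices -/
theorem vt0_eq (h : VST_Stmt) (T : Tr) : vt0 T = (vec T, cf T) ::ₘ vt T 0 false (0, 1) := by
  have h1 := (h.1 T 0 (0, 1)).1
  rw [addv_one, zero_add] at h1
  exact h1

theorem root_mem (h : VST_Stmt) (T : Tr) : (slp (vec T), cf T) ∈ vs0 T := by
  unfold vs0
  rw [vt0_eq h, Multiset.map_cons]
  exact Multiset.mem_cons_self _ _

/-- equivalent branches have the same indicators -/
theorem ic_eq (h : EDS_Stmt) {p q r : ℚ × ℚ} (hq : Se q r) : ic p q = ic p r := by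
  obtain ⟨-, -, ⟨-, h2, h3⟩, -⟩ := h
  unfold ic
  by_cases h1 : Se p q
  · rw [if_pos h1, if_pos (h3 _ _ _ h1 hq)]
  · rw [if_neg h1, if_neg fun h4 => h1 (h3 _ _ _ h4 (h2 _ _ hq))]

/-- the sum over the edges is half of the sum over the ends -/
theorem two_sum (h : EDS_Stmt) (p : ℚ × ℚ) (s : Multiset ((ℚ × ℚ) × (ℚ × ℚ)))
    (hs : ∀ e ∈ s, Se e.1 e.2) :
    ((s.map fun e => ({e.1, e.2} : Multiset (ℚ × ℚ))).map fun t => (t.map (ic p)).sum).sum =
      2 * (s.map fun e => ic p e.1).sum := by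
  rw [Multiset.map_map, ← Multiset.sum_map_mul_left]
  refine congrArg Multiset.sum (Multiset.map_congr rfl fun e he => ?_)
  show ((({e.1, e.2} : Multiset (ℚ × ℚ))).map (ic p)).sum = 2 * ic p e.1
  rw [Multiset.insert_eq_cons, Multiset.map_cons, Multiset.map_singleton, Multiset.sum_cons,
    Multiset.sum_singleton, ← ic_eq h (hs e he), two_mul]

end AsmZ

open AsmZ in
/-- **Theorem Z**, for trees. -/
theorem t_FINZ (hODK : ODK_Stmt) (hFODM : FODM_Stmt) (hTAB : TAB_Stmt) (hINE : INE_Stmt)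
    (hMATE : MATE_Stmt) (hRTZ : RTZ_Stmt) (hSPN : SPN_Stmt) (hVST : VST_Stmt) (hEGA : EGA_Stmt)
    (hEDS : EDS_Stmt) (hMUT : MUT_Stmt) : FINZ_Stmt := by
  intro T T' h h' hT hT' hv
  have o := hODK T h
  have o' := hODK T' h'
  have ne : (vec T).1 ≠ 0 := fun h0 => by rw [h0] at o; simp at o
  have ne' : (vec T').1 ≠ 0 := fun h0 => by rw [h0] at o'; simp at o'
  have hF := hFODM T T' h h' o o' hv
  have hvs := hTAB T T' hT hT' hF
  have hin := hINE T T' hT hT' hF hvs
  -- the root of `T'` in `T`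
  have r' := root_mem hVST T'
  rw [← hvs] at r'
  obtain ⟨x, hx, hx2⟩ := Multiset.mem_map.1 r'
  obtain ⟨T1, g1, n1, m1, e1, s1, u1⟩ := hRTZ T hT ne x hx
  have vs1 : vs0 T1 = vs0 T' := by
    unfold vs0
    rw [e1]
    exact hvs
  have E := hEGA T hT.root ne hT.wt
  have E1 := hEGA T1 g1.root n1 g1.wt
  have in1 : ∀ p : ℚ × ℚ,
      ((eg0 T1).map fun e => ic p e.1).sum = ((eg0 T').map fun e => ic p e.1).sum := by
    intro p
    rw [← hin p]
    have k1 := two_sum hEDS p (eg0 T1) E1.1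
    have k2 := two_sum hEDS p (eg0 T) E.1
    rw [u1, k2] at k1
    exact (mul_left_cancel₀ two_ne_zero k1).symm
  have cmp := hMATE T1 T' g1 hT' n1 ne' vs1 in1
  have sl : slp (vec T1) = slp (vec T') := s1.trans (congrArg Prod.fst hx2)
  have cfe : cf T1 = cf T' := by
    have k1 : (slp (vec T1), cf T1) ∈ vs0 T' := vs1 ▸ root_mem hVST T1
    have k2 := root_mem hVST T'
    have nd : ((vs0 T').map Prod.fst).Nodup := by
      unfold vs0
      rw [Multiset.map_map]
      exact hT'.dif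
    have k3 := Multiset.inj_on_of_nodup_map nd _ k1 _ k2 sl
    exact congrArg Prod.snd k3
  have w1 : ∀ G : Tr, Gen G → (vec G).2 ≠ 0 ∧ ∀ x ∈ vt G 0 false (0, 1), x.1.2 ≠ 0 := by
    intro G hG
    have k := hG.wt
    rw [vt0_eq hVST] at k
    exact ⟨k (vec G, cf G) (Multiset.mem_cons_self _ _),
      fun x hx => k x (Multiset.mem_cons_of_mem hx)⟩
  have d1 : ∀ G : Tr, (vec G).1 ≠ 0 → dt (0, 1) (vec G) ≠ 0 := by
    intro G hG
    unfold dt
    rw [addv_one]
    exact hG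
  have key := hSPN T1 T' (0, 1) (0, 1) one_ne_zero one_ne_zero (w1 T1 g1).1 (w1 T' hT').1
    (d1 T1 n1) (d1 T' ne') rfl sl cfe (w1 T1 g1).2 (w1 T' hT').2 cmp
  exact m1.trans (hMUT.2.2.2.2.1 T1 T' key)

end Pool.Agent.TZ
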