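import Pool.Agent.TZ.StS
import Pool.Agent.TZ.AsmZ
import Pool.Agent.TX.AsmY
import Pool.Agent.TX.AsmX

/-!
Theorem Z for connected sums (MP_31fd3b_gt). Assembly (helper16).
-/

open scoped BigOperators

namespace Pool.Agent.TZ

open Pool.Agent.LibH11.Sliced Pool.Agent.MTR Pool.Agent.MTA Pool.Agent.UA Pool.Agent.UB
open Pool.Agent.TwoBr Pool.Agent.Mont Pool.Agent.TV Pool.Agent.TW
open Pool.Agent.TB hiding vec

namespace AsmS

open AsmZ

theorem le_sum {α β : Type} (f : α → Multiset β) : ∀ (l : List α) (x : α), x ∈ l →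
    f x ≤ (l.map f).sum := by
  intro l
  induction l with
  | nil => intro x hx; exact absurd hx (by simp)
  | cons y l ih =>
    intro x hx
    rw [List.map_cons, List.sum_cons]
    rcases List.mem_cons.1 hx with rfl | hx
    · exact Multiset.le_add_right _ _
    · exact (ih x hx).trans (Multiset.le_add_left _ _)

theorem mem_sum {α β : Type} (f : α → Multiset β) : ∀ (l : List α) (y : β), y ∈ (l.map f).sum →
    ∃ x ∈ l, y ∈ f x := by
  intro l
  induction l with
  | nil => intro y hy; simp at hy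
  | cons z l ih =>
    intro y hy
    rw [List.map_cons, List.sum_cons] at hy
    rcases Multiset.mem_add.1 hy with hy | hy
    · exact ⟨z, List.mem_cons_self, hy⟩
    · obtain ⟨x, hx, hxy⟩ := ih y hy
      exact ⟨x, List.mem_cons_of_mem _ hx, hxy⟩

theorem VS0_eq (Gs : List Tr) : VS0 Gs = (V0 Gs).map fun x => (slp x.1, x.2) := by
  unfold VS0 V0
  induction Gs with
  | nil => simp
  | cons T Gs ih =>
    rw [List.map_cons, List.sum_cons, ih, List.map_cons, List.sum_cons, Multiset.map_add]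
    rfl

theorem BR0_eq (Gs : List Tr) :
    BR0 Gs = (V0 Gs).bind fun x => x.2.map fun b => (slp x.1, b) := by
  unfold BR0 V0
  induction Gs with
  | nil => simp
  | cons T Gs ih =>
    rw [List.map_cons, List.sum_cons, ih, List.map_cons, List.sum_cons, Multiset.add_bind]
    rfl

theorem vs0_eq (h : VST_Stmt) (T : Tr) : vs0 T = (slp (vec T), cf T) ::ₘ vd T (0, 1) := by
  unfold vs0 vd
  rw [vt0_eq h, Multiset.map_cons]

/-- every tree of a generic list is generic -/
theorem gen_of {Gs Us : List Tr} (h : NdS Gs Us) (hE : Edg Gs) {T : Tr} (hT : T ∈ Gs) : Gen T := by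
  have hv : vt0 T ≤ V0 Gs := le_sum vt0 Gs T hT
  have he : eg0 T ≤ EG0 Gs := le_sum eg0 Gs T hT
  have hb : br0 T ≤ BR0 Gs := le_sum br0 Gs T hT
  exact ⟨h.root T hT, fun x hx => h.wt x (Multiset.mem_of_le hv hx),
    fun x hx => h.nz x (Multiset.mem_of_le hv hx), fun x hx => h.ndg x (Multiset.mem_of_le hv hx),
    Multiset.nodup_of_le (Multiset.map_le_map hv) h.dif,
    fun e he' s hs hq => hE e (Multiset.mem_of_le he he') s (hs.trans hb) hq⟩

end AsmS

open AsmZ AsmS in
/-- **Theorem Z** for connected sums, for trees. -/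
theorem t_FINS (hODK : ODK_Stmt) (hFODL : FODL_Stmt) (hCLL : CLL_Stmt) (hTABL : TABL_Stmt)
    (hINL : INL_Stmt) (hEQL : EQL_Stmt) (hMATL : MATL_Stmt) (hRTZ : RTZ_Stmt) (hSPN : SPN_Stmt)
    (hVDE : VDE_Stmt) (hVST : VST_Stmt) (hMUT : MUT_Stmt) (hPML : PML_Stmt) (hTWB : TWB_Stmt)
    (hFGV : FGV_Stmt) (hNLE : NLE_Stmt) (hC : FCG_Stmt) (hI : FIT_Stmt) (hL : LKB_Stmt) :
    FINS_Stmt := by
  intro Gs Us Gs' Us' h h' nd nd' hE hN hv
  -- the summands
  have long : ∀ X : List Tr, IsLongKnot (cls X) → ∀ T ∈ X, IsLongKnot (cl T.dg) := by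
    intro X hX T hT
    have k1 : ∀ x ∈ X.map (fun t : Tr => cl t.dg), cnt 1 x = some 1 := by
      intro x hx
      obtain ⟨t, -, rfl⟩ := List.mem_map.1 hx
      exact (hC.2.2.2.1 _ (hC.2.2.2.2.1 t)).2
    have k2 : IsLongKnot (([] : Diag) ++ (X.map (fun t : Tr => cl t.dg)).flatten) := hX
    exact TX.AsmY.flat_long hL (X.map (fun t : Tr => cl t.dg)) [] rfl k1 k2 _
      (List.mem_map.2 ⟨T, hT, rfl⟩)
  have lg := long _ h
  have lg' := long _ h'
  have hp1 : IsLongKnot (cl (Tr.pw 1).dg) :=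
    ((hI.2.2.1 1 (by norm_num)).2).symm.isLongKnot TW.AsmB.long_nil
  -- padding
  set a := Gs'.length + Us'.length with ha
  set b := Gs.length + Us.length with hb
  set Ws := Us ++ List.replicate a (Tr.pw 1) with hWs
  set Ws' := Us' ++ List.replicate b (Tr.pw 1) with hWs'
  have e1 : EqD 1 (cls (Gs ++ Us)) (cls (Gs ++ Ws)) := by
    rw [hWs, ← List.append_assoc]
    exact (AsmT.pad hC hI (Gs ++ Us) a).symm
  have e1' : EqD 1 (cls (Gs' ++ Us')) (cls (Gs' ++ Ws')) := by
    rw [hWs', ← List.append_assoc]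
    exact (AsmT.pad hC hI (Gs' ++ Us') b).symm
  have hv1 : ∀ v : Knot → ℂ, IsFiniteType v →
      v (ofDiag _ (e1.isLongKnot h)) = v (ofDiag _ (e1'.isLongKnot h')) := by
    intro v hvf
    rw [← e1.knot h, ← e1'.knot h']
    exact hv v hvf
  have lW : ∀ (n : ℕ) (X : List Tr), (∀ T ∈ X, IsLongKnot (cl T.dg)) →
      ∀ T ∈ X ++ List.replicate n (Tr.pw 1), IsLongKnot (cl T.dg) := by
    intro n X hX T hT
    rcases List.mem_append.1 hT with hT | hT
    · exact hX T hT
    · rw [(List.mem_replicate.1 hT).2]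
      exact hp1
  have rW : ∀ (n : ℕ) (X : List Tr), (∀ T ∈ X, T.Rat) →
      ∀ T ∈ X ++ List.replicate n (Tr.pw 1), T.Rat := by
    intro n X hX T hT
    rcases List.mem_append.1 hT with hT | hT
    · exact hX T hT
    · rw [(List.mem_replicate.1 hT).2]
      trivial
  have lWs : ∀ T ∈ Ws, IsLongKnot (cl T.dg) :=
    lW a Us fun T hT => lg T (List.mem_append_right _ hT)
  have lWs' : ∀ T ∈ Ws', IsLongKnot (cl T.dg) :=
    lW b Us' fun T hT => lg' T (List.mem_append_right _ hT)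
  have rWs : ∀ U ∈ Ws, U.Rat := rW a Us nd.rat
  have rWs' : ∀ U ∈ Ws', U.Rat := rW b Us' nd'.rat
  have odd : ∀ t ∈ (Gs ++ Ws) ++ (Gs' ++ Ws'), Odd (vec t).1 := by
    intro t ht
    rcases List.mem_append.1 ht with ht | ht
    · rcases List.mem_append.1 ht with ht | ht
      · exact hODK t (lg t (List.mem_append_left _ ht))
      · exact hODK t (lWs t ht)
    · rcases List.mem_append.1 ht with ht | ht
      · exact hODK t (lg' t (List.mem_append_left _ ht))
      · exact hODK t (lWs' t ht)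
  have hlen : (Gs ++ Ws).length = (Gs' ++ Ws').length := by
    simp only [hWs, hWs', List.length_append, List.length_replicate, ha, hb]
    omega
  obtain ⟨D, hDo, hdvd, hcls, hevF⟩ := hFODL (Gs ++ Ws) (Gs' ++ Ws') _ _ hlen odd hv1
  have hD : D ≠ 0 := by rintro rfl; simp at hDo
  have dv : ∀ t ∈ Gs ++ Gs', (vec t).1 ∣ D := by
    intro t ht
    refine hdvd t ?_
    rcases List.mem_append.1 ht with ht | ht
    · exact List.mem_append_left _ (List.mem_append_left _ ht)
    · exact List.mem_append_right _ (List.mem_append_left _ ht)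
  have ne : ∀ t ∈ Gs ++ Gs', (vec t).1 ≠ 0 := fun t ht h0 => hD (by
    have := dv t ht
    rw [h0] at this
    exact zero_dvd_iff.1 this)
  -- vertices
  have hVS : VS0 Gs = VS0 Gs' := hTABL D Gs Us Gs' Us' hD nd nd' dv fun K φ hK hφ => by
    rw [← hCLL D Gs Ws φ K hD (fun t ht => hdvd t (List.mem_append_left _ ht)) rWs hK hφ,
      ← hCLL D Gs' Ws' φ K hD (fun t ht => hdvd t (List.mem_append_right _ ht)) rWs' hK hφ]
    exact hcls K φ hK hφ
  have hroot : ∀ T ∈ Gs ++ Gs', 3 ≤ T.kids := by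
    intro T hT
    rcases List.mem_append.1 hT with hT | hT
    · exact nd.root T hT
    · exact nd'.root T hT
  have hwt : ∀ x ∈ V0 Gs + V0 Gs', x.1.2 ≠ 0 := by
    intro x hx
    rcases Multiset.mem_add.1 hx with hx | hx
    · exact nd.wt x hx
    · exact nd'.wt x hx
  have hrat : ∀ U ∈ Ws ++ Ws', U.Rat := by
    intro U hU
    rcases List.mem_append.1 hU with hU | hU
    · exact rWs U hU
    · exact rWs' U hU
  -- edges
  have hst := hINL D Gs Ws Gs' Ws' hD hdvd hroot hrat hwt hVS hevF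
  obtain ⟨huo, hE'⟩ := hEQL Gs Us Gs' Us' a b nd nd' ne hE hN hVS hst
  have hnd' : ((VS0 Gs').map Prod.fst).Nodup := by
    rw [VS0_eq, Multiset.map_map]
    exact nd'.dif
  -- the matching
  have key : ∀ T ∈ Gs, ∃ T' ∈ Gs', vs0 T = vs0 T' ∧ Mu 1 (cl T.dg) (cl T'.dg) := by
    intro T hT
    have r1 : (slp (vec T), cf T) ∈ VS0 Gs' := by
      rw [← hVS]
      exact Multiset.mem_of_le (le_sum vs0 Gs T hT) (root_mem hVST T)
    obtain ⟨T', hT', r2⟩ := mem_sum vs0 Gs' _ r1
    obtain ⟨x, hx, hx2⟩ := Multiset.mem_map.1 r2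
    have g' : Gen T' := gen_of nd' hE' hT'
    obtain ⟨T1, g1, n1, m1, v1, s1, u1⟩ := hRTZ T' g' (ne T' (List.mem_append_right _ hT')) x hx
    have cmp : Cmp T T1 (0, 1) (0, 1) := hMATL Gs Gs' T T' T1
      (fun G hG => ⟨hroot G hG, ne G hG⟩) hwt nd.dif hE hVS huo hT hT' g1.root n1 v1 u1
    have gT : Gen T := gen_of nd hE hT
    have sl : slp (vec T) = slp (vec T1) := ((congrArg Prod.fst hx2).symm).trans s1.symm
    have vs1 : vs0 T1 = vs0 T' := by
      unfold vs0
      rw [v1]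
    have cfe : cf T = cf T1 := by
      have k1 : (slp (vec T1), cf T1) ∈ VS0 Gs' := by
        refine Multiset.mem_of_le (le_sum vs0 Gs' T' hT') ?_
        rw [← vs1]
        exact root_mem hVST T1
      exact congrArg Prod.snd (Multiset.inj_on_of_nodup_map hnd' _ r1 _ k1 sl)
    have w1 : ∀ G : Tr, Gen G → (vec G).2 ≠ 0 ∧ ∀ x ∈ vt G 0 false (0, 1), x.1.2 ≠ 0 := by
      intro G hG
      have k := hG.wt
      rw [vt0_eq hVST] at k
      exact ⟨k (vec G, cf G) (Multiset.mem_cons_self _ _),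
        fun x hx => k x (Multiset.mem_cons_of_mem hx)⟩
    have d1 : ∀ G : Tr, (vec G).1 ≠ 0 → dt (0, 1) (vec G) ≠ 0 := by
      intro G hG
      unfold dt
      rw [addv_one]
      exact hG
    have nT := ne T (List.mem_append_left _ hT)
    have spn := hSPN T T1 (0, 1) (0, 1) one_ne_zero one_ne_zero (w1 T gT).1 (w1 T1 g1).1
      (d1 T nT) (d1 T1 n1) rfl sl cfe (w1 T gT).2 (w1 T1 g1).2 cmp
    have vde := hVDE T T1 (0, 1) (0, 1) one_ne_zero one_ne_zero (w1 T gT).1 (w1 T1 g1).1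
      (d1 T nT) (d1 T1 n1) rfl sl cfe (w1 T gT).2 (w1 T1 g1).2 cmp
    refine ⟨T', hT', ?_, (hMUT.2.2.2.2.1 T T1 spn).trans m1.symm⟩
    rw [← vs1, vs0_eq hVST, vs0_eq hVST T1, sl, cfe, vde]
  obtain ⟨Hs, hH1, hH2⟩ := hPML Tr (ℚ × Multiset ℚ) vs0 (fun T T' => Mu 1 (cl T.dg) (cl T'.dg))
    Gs Gs' (fun T _ => by
      intro h0
      have := root_mem hVST T
      rw [h0] at this
      exact absurd this (Multiset.notMem_zero _))
    (by
      have k : (VS0 Gs).Nodup := by
        refine Multiset.Nodup.of_map Prod.fst ?_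
        rw [hVS]
        exact hnd'
      exact k) hVS key
  refine ⟨Hs, hH1, hH2, hTWB D Us Us' a b hD ?_ ?_⟩
  · intro U hU
    rcases List.mem_append.1 hU with hU | hU
    · exact ⟨nd.rat U hU, lg U (List.mem_append_right _ hU)⟩
    · exact ⟨nd'.rat U hU, lg' U (List.mem_append_right _ hU)⟩
  · intro F hF
    have k1 := hevF F hF
    have k2 := hFGV D F Gs Gs' hD hF (fun T hT => ⟨hroot T hT, dv T hT⟩) hwt hVS huo
    rw [AsmA.NLs_append Gs Ws, AsmA.evF_append, AsmA.NLs_append Gs' Ws', AsmA.evF_append, k2] at k1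
    have k3 := add_left_cancel k1
    have k4 : ∀ X : List Tr, (∀ U ∈ X, U.Rat ∧ (vec U).1 ∣ D) →
        evF F (NLs X) = 2 * (X.map fun U => F (prT U).1 (prT U).2).sum := by
      intro X
      induction X with
      | nil => intro _; simp [evF, NLs]
      | cons t X ih =>
        intro hX
        have q := hX t List.mem_cons_self
        have e : NLs (t :: X) = NL (0, 1) t ++ NLs X := rfl
        rw [e, AsmA.evF_append, ih fun U hU => hX U (List.mem_cons_of_mem _ hU),
          (hNLE D hD F hF).1 t (AsmA.T2_of_rat q.1) q.2, List.map_cons, List.sum_cons, mul_add]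
    rw [k4 Ws fun U hU => ⟨rWs U hU, hdvd U (List.mem_append_left _ (List.mem_append_right _ hU))⟩,
      k4 Ws' fun U hU => ⟨rWs' U hU,
        hdvd U (List.mem_append_right _ (List.mem_append_right _ hU))⟩] at k3
    exact mul_left_cancel₀ two_ne_zero k3

end Pool.Agent.TZ
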