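import Pool.Agent.TZ.StT
import Pool.Agent.TZ.AsmS

/-!
Theorem Z (MP_31fd3b_gt), third version. Assembly (helper16).
-/

open scoped BigOperators

namespace Pool.Agent.TZ

open Pool.Agent.LibH11.Sliced Pool.Agent.MTR Pool.Agent.MTA Pool.Agent.UA Pool.Agent.UB
open Pool.Agent.TwoBr Pool.Agent.Mont Pool.Agent.TV Pool.Agent.TW
open Pool.Agent.TB hiding vec

namespace AsmU

open AsmZ AsmS

/-- conditions on the vertices are conditions on `VS0` -/
theorem ndr_of {Gs Gs' : List Tr} {Us : List Tr} (nd : NdS Gs Us) (h : VS0 Gs = VS0 Gs')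
    (hw : ∀ x ∈ V0 Gs', x.1.2 ≠ 0) : NdR Gs' := by
  have key : ∀ x ∈ V0 Gs', ∃ y ∈ V0 Gs, (slp y.1, y.2) = (slp x.1, x.2) := by
    intro x hx
    have h1 : (slp x.1, x.2) ∈ VS0 Gs' := by
      rw [VS0_eq]
      exact Multiset.mem_map_of_mem (fun x : (ℤ × ℤ) × Multiset ℚ => (slp x.1, x.2)) hx
    rw [← h, VS0_eq] at h1
    exact Multiset.mem_map.1 h1
  refine ⟨hw, ?_, ?_, ?_⟩
  · intro x hx
    obtain ⟨y, hy, e⟩ := key x hx
    obtain ⟨e1, e2⟩ := Prod.mk.inj e
    have := nd.nz y hy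
    rw [e2] at this
    exact this
  · intro x hx
    obtain ⟨y, hy, e⟩ := key x hx
    obtain ⟨e1, e2⟩ := Prod.mk.inj e
    have := nd.ndg y hy
    rw [e1, e2] at this
    exact this
  · have h1 := nd.dif
    have h2 : ∀ X : List Tr, ((V0 X).map fun x => slp x.1) = (VS0 X).map Prod.fst := by
      intro X
      rw [VS0_eq, Multiset.map_map]
      rfl
    rw [h2, h, ← h2] at h1
    exact h1

end AsmU

open AsmZ AsmS AsmU in
/-- **Theorem Z**, third version, for trees. -/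
theorem t_FINT (hFINS : FINS_Stmt) (hODK : ODK_Stmt) (hFODL : FODL_Stmt) (hCLL : CLL_Stmt)
    (hTABL : TABL_Stmt) (hTABM : TABM_Stmt) (hINL : INL_Stmt) (hEQM : EQM_Stmt) (hVST : VST_Stmt)
    (hC : FCG_Stmt) (hI : FIT_Stmt) (hL : LKB_Stmt) : FINT_Stmt := by
  intro Gs Us Gs' Us' h h' nd hE pr hc ht hv
  -- the summands
  have long : ∀ X : List Tr, IsLongKnot (cls X) → ∀ T ∈ X, IsLongKnot (cl T.dg) := by
    intro X hX T hT
    have k1 : ∀ x ∈ X.map (fun t : Tr => cl t.dg), cnt 1 x = some 1 := by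
      intro x hx
      obtain ⟨t, -, rfl⟩ := List.mem_map.1 hx
      exact (hC.2.2.2.1 _ (hC.2.2.2.2.1 t)).2
    have k2 : IsLongKnot (([] : Diag) ++ (X.map (fun t : Tr => cl t.dg)).flatten) := hX
    exact TX.AsmY.flat_long hL (X.map (fun t : Tr => cl t.dg)) [] rfl k1 k2 _
      (List.mem_map.2 ⟨T, hT, rfl⟩)
  have lg := long _ h
  have lg' := long _ h'
  have hp1 : IsLongKnot (cl (Tr.pw 1).dg) :=
    ((hI.2.2.1 1 (by norm_num)).2).symm.isLongKnot TW.AsmB.long_nil
  -- padding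
  set a := Gs'.length + Us'.length with ha
  set b := Gs.length + Us.length with hb
  set Ws := Us ++ List.replicate a (Tr.pw 1) with hWs
  set Ws' := Us' ++ List.replicate b (Tr.pw 1) with hWs'
  have e1 : EqD 1 (cls (Gs ++ Us)) (cls (Gs ++ Ws)) := by
    rw [hWs, ← List.append_assoc]
    exact (AsmT.pad hC hI (Gs ++ Us) a).symm
  have e1' : EqD 1 (cls (Gs' ++ Us')) (cls (Gs' ++ Ws')) := by
    rw [hWs', ← List.append_assoc]
    exact (AsmT.pad hC hI (Gs' ++ Us') b).symm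
  have hv1 : ∀ v : Knot → ℂ, IsFiniteType v →
      v (ofDiag _ (e1.isLongKnot h)) = v (ofDiag _ (e1'.isLongKnot h')) := by
    intro v hvf
    rw [← e1.knot h, ← e1'.knot h']
    exact hv v hvf
  have lW : ∀ (n : ℕ) (X : List Tr), (∀ T ∈ X, IsLongKnot (cl T.dg)) →
      ∀ T ∈ X ++ List.replicate n (Tr.pw 1), IsLongKnot (cl T.dg) := by
    intro n X hX T hT
    rcases List.mem_append.1 hT with hT | hT
    · exact hX T hT
    · rw [(List.mem_replicate.1 hT).2]
      exact hp1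
  have rW : ∀ (n : ℕ) (X : List Tr), (∀ T ∈ X, T.Rat) →
      ∀ T ∈ X ++ List.replicate n (Tr.pw 1), T.Rat := by
    intro n X hX T hT
    rcases List.mem_append.1 hT with hT | hT
    · exact hX T hT
    · rw [(List.mem_replicate.1 hT).2]
      trivial
  have lWs : ∀ T ∈ Ws, IsLongKnot (cl T.dg) :=
    lW a Us fun T hT => lg T (List.mem_append_right _ hT)
  have lWs' : ∀ T ∈ Ws', IsLongKnot (cl T.dg) :=
    lW b Us' fun T hT => lg' T (List.mem_append_right _ hT)
  have rWs : ∀ U ∈ Ws, U.Rat := rW a Us nd.rat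
  have rWs' : ∀ U ∈ Ws', U.Rat := rW b Us' pr.rat
  have odd : ∀ t ∈ (Gs ++ Ws) ++ (Gs' ++ Ws'), Odd (vec t).1 := by
    intro t ht
    rcases List.mem_append.1 ht with ht | ht
    · rcases List.mem_append.1 ht with ht | ht
      · exact hODK t (lg t (List.mem_append_left _ ht))
      · exact hODK t (lWs t ht)
    · rcases List.mem_append.1 ht with ht | ht
      · exact hODK t (lg' t (List.mem_append_left _ ht))
      · exact hODK t (lWs' t ht)
  have hlen : (Gs ++ Ws).length = (Gs' ++ Ws').length := by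
    simp only [hWs, hWs', List.length_append, List.length_replicate, ha, hb]
    omega
  obtain ⟨D, hDo, hdvd, hcls, hevF⟩ := hFODL (Gs ++ Ws) (Gs' ++ Ws') _ _ hlen odd hv1
  have hD : D ≠ 0 := by rintro rfl; simp at hDo
  have dv : ∀ t ∈ Gs ++ Gs', (vec t).1 ∣ D := by
    intro t ht
    refine hdvd t ?_
    rcases List.mem_append.1 ht with ht | ht
    · exact List.mem_append_left _ (List.mem_append_left _ ht)
    · exact List.mem_append_right _ (List.mem_append_left _ ht)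
  have ne : ∀ t ∈ Gs ++ Gs', (vec t).1 ≠ 0 := fun t ht h0 => hD (by
    have := dv t ht
    rw [h0] at this
    exact zero_dvd_iff.1 this)
  -- vertices
  have hsum : ∀ (K : ℤ) (φ : ℚ → ℂ), K ≠ 0 → Per1 φ →
      ((V0 Gs).map fun x => if Kt D x.1 = K then alN φ (slp x.1) x.2 else 0).sum =
        ((V0 Gs').map fun x => if Kt D x.1 = K then alN φ (slp x.1) x.2 else 0).sum := by
    intro K φ hK hφ
    rw [← hCLL D Gs Ws φ K hD (fun t ht => hdvd t (List.mem_append_left _ ht)) rWs hK hφ,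
      ← hCLL D Gs' Ws' φ K hD (fun t ht => hdvd t (List.mem_append_right _ ht)) rWs' hK hφ]
    exact hcls K φ hK hφ
  obtain ⟨hVS, hwt'⟩ : VS0 Gs = VS0 Gs' ∧ ∀ x ∈ V0 Gs', x.1.2 ≠ 0 := by
    rcases hc with hc | hc
    · exact ⟨hTABL D Gs Us Gs' [] hD nd ⟨pr.root, fun U hU => absurd hU (by simp), hc.wt, hc.nz,
        hc.ndg, hc.dif, fun e _ U hU => absurd hU (by simp)⟩ dv hsum, hc.wt⟩
    · exact hTABM D Gs Us Gs' hD nd pr.root dv hsum hc
  have ndr := ndr_of nd hVS hwt'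
  have hroot : ∀ T ∈ Gs ++ Gs', 3 ≤ T.kids := by
    intro T hT
    rcases List.mem_append.1 hT with hT | hT
    · exact nd.root T hT
    · exact pr.root T hT
  have hwt : ∀ x ∈ V0 Gs + V0 Gs', x.1.2 ≠ 0 := by
    intro x hx
    rcases Multiset.mem_add.1 hx with hx | hx
    · exact nd.wt x hx
    · exact hwt' x hx
  have hrat : ∀ U ∈ Ws ++ Ws', U.Rat := by
    intro U hU
    rcases List.mem_append.1 hU with hU | hU
    · exact rWs U hU
    · exact rWs' U hU
  -- edges
  have hst := hINL D Gs Ws Gs' Ws' hD hdvd hroot hrat hwt hVS hevF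
  have eqm : Ntv Gs → Gs.length ≤ Gs'.length → Two Gs' Us' ∧ Ntv Gs' := fun n1 n2 =>
    hEQM Gs Us Gs' Us' a b nd pr hwt' ne hE n1 n2 hVS hst
  have key : Two Gs' Us' ∧ (Gs.length = Gs'.length ∨ (Ntv Gs ∧ Ntv Gs')) := by
    rcases ht with ⟨h1, h2⟩ | ⟨n1, h2⟩
    · exact ⟨h2, Or.inl h1⟩
    · rcases h2 with h2 | h2 | ⟨h2, n2⟩
      · have k := eqm n1 h2
        exact ⟨k.1, Or.inr ⟨n1, k.2⟩⟩
      · have k3 : Gs.length ≤ Gs'.length := by
          by_contra hlt
          push Not at hlt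
          have k1 : Gs'.length = 0 := by omega
          have k2 : Gs' = [] := List.length_eq_zero_iff.1 k1
          have k4 : Gs ≠ [] := by
            rintro rfl
            simp at hlt
          obtain ⟨T, hT⟩ := List.exists_mem_of_ne_nil _ k4
          have k5 : (slp (vec T), cf T) ∈ VS0 Gs :=
            Multiset.mem_of_le (le_sum vs0 Gs T hT) (root_mem hVST T)
          rw [hVS, k2] at k5
          exact absurd k5 (Multiset.notMem_zero _)
        have k := eqm n1 k3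
        exact ⟨k.1, Or.inr ⟨n1, k.2⟩⟩
      · exact ⟨h2, Or.inr ⟨n1, n2⟩⟩
  have nd' : NdS Gs' Us' := ⟨pr.root, pr.rat, ndr.wt, ndr.nz, ndr.ndg, ndr.dif, key.1⟩
  exact ⟨hVS, hFINS Gs Us Gs' Us' h h' nd nd' hE key.2 hv⟩

end Pool.Agent.TZ
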