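import Pool.Agent.TZ.StA

/-!
Theorem Z (MP_31fd3b_gt), module CHN: chains.
-/

open scoped BigOperators

namespace Pool.Agent.TZ

open Pool.Agent.LibH11.Sliced Pool.Agent.MTR Pool.Agent.MTA Pool.Agent.UA Pool.Agent.UB
open Pool.Agent.TwoBr Pool.Agent.Mont Pool.Agent.TV Pool.Agent.TW
open Pool.Agent.TB hiding vec

namespace Chn

theorem kids_zero {b : Tr} (h : b.kids = 0) : ∃ e : ℤ, b = .pw e := by
  cases b with
  | pw e => exact ⟨e, rfl⟩
  | cons a b =>
    have h1 : b.kids + 1 = 0 := h
    omega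

theorem p1 (a : Tr) (L : ℤ × ℤ) : a.Rat ↔ top a L = none := by
  induction a generalizing L with
  | pw e => exact ⟨fun _ => rfl, fun _ => trivial⟩
  | cons a b iha _ =>
    change (a.Rat ∧ b.kids = 0) ↔ (if b.kids = 0 then top a (rv (addv L (vec b)))
      else some (slp (addv L (vec (.cons a b))), Int.fract (slp L))) = none
    by_cases hb : b.kids = 0
    · rw [if_pos hb, ← iha]
      exact ⟨fun h => h.1, fun h => ⟨h, hb⟩⟩
    · rw [if_neg hb]
      constructor
      · intro h
        exact absurd h.2 hb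
      · intro h
        exact absurd h (by simp)

theorem p2 (a : Tr) (L : ℤ × ℤ) (acc : Multiset ℚ) (ha : a.Rat) :
    decide (2 ≤ a.kids) = false ∧ vt a acc false L = 0 ∧ eg a false L = 0 ∧
      rb a false L = 0 := by
  induction a generalizing L acc with
  | pw e => exact ⟨rfl, rfl, rfl, rfl⟩
  | cons a b iha _ =>
    obtain ⟨h1, h2⟩ : a.Rat ∧ b.kids = 0 := ha
    obtain ⟨e, rfl⟩ := kids_zero h2
    obtain ⟨k1, k2, k3, k4⟩ := iha (rv (addv L (vec (.pw e))))
      {Int.fract (slp (rv (addv L (vec (.pw e)))))} h1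
    refine ⟨rfl, ?_, ?_, ?_⟩
    · change vt a _ (decide (2 ≤ a.kids)) _ + 0 = 0
      rw [k1, k2, add_zero]
    · change 0 + eg a (decide (2 ≤ a.kids)) _ + 0 = 0
      rw [k1, k3, add_zero, add_zero]
    · change 0 + rb a (decide (2 ≤ a.kids)) _ + 0 = 0
      rw [k1, k4, add_zero, add_zero]

theorem p3 (a : Tr) (ha : ¬ a.Rat) :
    ∃ (es : List ℤ) (X : Tr), a = chn es X ∧ 2 ≤ X.kids ∧ X.size ≤ a.size := by
  induction a with
  | pw e => exact absurd trivial ha
  | cons a b iha _ =>
    by_cases hb : b.kids = 0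
    · have h1 : ¬ a.Rat := fun h => ha ⟨h, hb⟩
      obtain ⟨es, X, h2, h3, h4⟩ := iha h1
      obtain ⟨e, rfl⟩ := kids_zero hb
      refine ⟨e :: es, X, by rw [h2]; rfl, h3, ?_⟩
      change X.size ≤ a.size + 2 + (Tr.pw e).size
      omega
    · refine ⟨[], .cons a b, rfl, ?_, le_rfl⟩
      change 2 ≤ b.kids + 1
      omega

theorem p4 (es : List ℤ) (X : Tr) (C : ℤ × ℤ) (hX : 2 ≤ X.kids) :
    vt (chn es X) {Int.fract (slp C)} (decide (2 ≤ (chn es X).kids)) C =
        vt X {Int.fract (slp (lch es C))} true (lch es C) ∧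
      eg (chn es X) (decide (2 ≤ (chn es X).kids)) C = eg X true (lch es C) ∧
      rb (chn es X) (decide (2 ≤ (chn es X).kids)) C = rb X true (lch es C) ∧
      top (chn es X) C = some (slp (addv (lch es C) (vec X)), Int.fract (slp (lch es C))) := by
  induction es generalizing C with
  | nil =>
    have h1 : decide (2 ≤ (chn [] X).kids) = true := decide_eq_true hX
    rw [h1]
    refine ⟨rfl, rfl, rfl, ?_⟩
    cases X with
    | pw e =>
      change 2 ≤ 0 at hX
      omega
    | cons x y =>
      change 2 ≤ y.kids + 1 at hX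
      change (if y.kids = 0 then top x (rv (addv C (vec y)))
        else some (slp (addv C (vec (.cons x y))), Int.fract (slp C))) = _
      rw [if_neg (by omega)]
      rfl
  | cons e es ih =>
    obtain ⟨h1, h2, h3, h4⟩ := ih (rv (addv C (-e, 1)))
    refine ⟨?_, ?_, ?_, ?_⟩
    · change vt (chn es X) _ (decide (2 ≤ (chn es X).kids)) _ + 0 = _
      rw [add_zero]
      exact h1
    · change 0 + eg (chn es X) (decide (2 ≤ (chn es X).kids)) _ + 0 = _
      rw [add_zero, zero_add]
      exact h2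
    · change 0 + rb (chn es X) (decide (2 ≤ (chn es X).kids)) _ + 0 = _
      rw [add_zero, zero_add]
      exact h3
    · exact h4

theorem p5 (es : List ℤ) (X : Tr) : vec (chn es X) = cvec es (vec X) := by
  induction es with
  | nil => rfl
  | cons e es ih =>
    change addv (rv (vec (chn es X))) (-e, 1) = addv (rv (cvec es (vec X))) (-e, 1)
    rw [ih]

theorem p6 (es : List ℤ) (C v : ℤ × ℤ) : dt C (cvec es v) = dt (lch es C) v := by
  induction es generalizing C with
  | nil => rfl
  | cons e es ih =>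
    change dt C (addv (rv (cvec es v)) (-e, 1)) = dt (lch es (rv (addv C (-e, 1)))) v
    rw [← ih]
    simp only [dt, addv, rv]
    ring

theorem cvec_append (xs ys : List ℤ) (v : ℤ × ℤ) :
    cvec (xs ++ ys) v = cvec xs (cvec ys v) := by
  induction xs with
  | nil => rfl
  | cons x xs ih =>
    change addv (rv (cvec (xs ++ ys) v)) (-x, 1) = addv (rv (cvec xs (cvec ys v))) (-x, 1)
    rw [ih]

theorem p7 (es : List ℤ) (v : ℤ × ℤ) : lch es (rv v) = rv (cvec es.reverse v) := by
  induction es generalizing v with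
  | nil => rfl
  | cons e es ih =>
    change lch es (rv (addv (rv v) (-e, 1))) = _
    rw [ih, List.reverse_cons, cvec_append]
    rfl

end Chn

theorem t_CHN : CHN_Stmt :=
  ⟨Chn.p1, Chn.p2, Chn.p3, Chn.p4, Chn.p5, Chn.p6, Chn.p7⟩

end Pool.Agent.TZ
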