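import Pool.Agent.TZ.Vtb

/-!
Theorem Z (MP_31fd3b_gt), module CLN: the class sums in terms of the vertices with any number of
branches.
-/

open scoped BigOperators

namespace Pool.Agent.TZ

open Pool.Agent.LibH11.Sliced Pool.Agent.MTR Pool.Agent.MTA Pool.Agent.UA Pool.Agent.UB
open Pool.Agent.TwoBr Pool.Agent.Mont Pool.Agent.TV Pool.Agent.TW
open Pool.Agent.TB hiding vec

namespace Cln

open Vtb

/-- the left sum -/
noncomputable def hs (D : ℤ) (φ : ℚ → ℂ) (K : ℤ) (L : ℤ × ℤ) (T : Tr) : ℂ :=
  ((vts L T).map fun v => if Kv D v = K then alv φ D v else 0).sum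

/-- the right sum -/
noncomputable def vs (D : ℤ) (φ : ℚ → ℂ) (K : ℤ) (acc : Multiset ℚ) (f : Bool) (L : ℤ × ℤ)
    (T : Tr) : ℂ :=
  ((vt T acc f L).map fun x => if Kt D x.1 = K then alN φ (slp x.1) x.2 else 0).sum

/-- the correction -/
noncomputable def cor (D : ℤ) (φ : ℚ → ℂ) (K : ℤ) (acc : Multiset ℚ) (L t : ℤ × ℤ) : ℂ :=
  if Kt D t = K then
    ((acc.card : ℂ) - 1) * (φ 0 - φ (slp t)) - (acc.map fun β => φ β - φ (slp t - β)).sum +
      φ (slp L) - φ (slp t - slp L)
  else 0

variable {D : ℤ} {φ : ℚ → ℂ} {K : ℤ}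

theorem hs_cons (L : ℤ × ℤ) (a b : Tr) :
    hs D φ K L (.cons a b) =
      (if Kv D (L, rv (vec a), vec b) = K then alv φ D (L, rv (vec a), vec b) else 0) +
        (hs D φ K (rv (addv L (vec b))) a + hs D φ K (addv L (rv (vec a))) b) := by
  unfold hs
  rw [vts, List.map_cons, List.sum_cons, List.map_append, List.sum_append]

theorem vs_cons (acc : Multiset ℚ) (f : Bool) (L : ℤ × ℤ) (a b : Tr) :
    vs D φ K acc f L (.cons a b) =
      vs D φ K {Int.fract (slp (rv (addv L (vec b))))} (decide (2 ≤ a.kids))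
        (rv (addv L (vec b))) a +
      vs D φ K (Int.fract (slp (rv (vec a))) ::ₘ acc) f (addv L (rv (vec a))) b := by
  unfold vs
  rw [vt, Multiset.map_add, Multiset.sum_add]

theorem per_fract (hφ : Per1 φ) (x : ℚ) : φ (Int.fract x) = φ x := by
  have h := hφ (Int.fract x) ⌊x⌋
  rw [Int.fract_add_floor] at h
  exact h.symm

theorem per_sub_fract (hφ : Per1 φ) (s x : ℚ) : φ (s - Int.fract x) = φ (s - x) := by
  have h := hφ (s - x) ⌊x⌋
  have h1 : s - x + ⌊x⌋ = s - Int.fract x := by
    unfold Int.fract
    ring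
  rw [h1] at h
  exact h

theorem Kt_ne {t : ℤ × ℤ} (hK : K ≠ 0) (h : Kt D t = K) : t.2 ≠ 0 := by
  intro h1
  apply hK
  rw [← h]
  unfold Kt
  rw [h1, mul_zero]

/-- `D / K` is the slope. -/
theorem D_div {t : ℤ × ℤ} (hD : D ≠ 0) (ht : t.1 ∣ D) (hK : K ≠ 0) (h : Kt D t = K) :
    (D : ℚ) / K = slp t := by
  have h2 := Kt_ne hK h
  obtain ⟨q, hq⟩ := ht
  have h0 : t.1 ≠ 0 := by
    rintro h0
    apply hD
    rw [hq, h0, zero_mul]
  have h3 : D / t.1 = q := by
    rw [hq]
    exact Int.mul_ediv_cancel_left q h0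
  have hq0 : q ≠ 0 := by
    rintro rfl
    exact hD (by rw [hq, mul_zero])
  unfold Kt at h
  rw [h3] at h
  rw [← h, hq]
  unfold slp
  have e1 : (t.2 : ℚ) ≠ 0 := by exact_mod_cast h2
  have e2 : (q : ℚ) ≠ 0 := by exact_mod_cast hq0
  push_cast
  field_simp

/-- The vertex term of `.cons a b`. -/
theorem vertex (hD : D ≠ 0) (hK : K ≠ 0) (hφ : Per1 φ) (L : ℤ × ℤ) (a b : Tr)
    (hd : dt L (vec (.cons a b)) ∣ D) (acc : Multiset ℚ) :
    (if Kv D (L, rv (vec a), vec b) = K then alv φ D (L, rv (vec a), vec b) else 0) +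
        cor D φ K acc L (addv L (vec (.cons a b))) =
      cor D φ K (Int.fract (slp (rv (vec a))) ::ₘ acc) (addv L (rv (vec a)))
        (addv L (vec (.cons a b))) := by
  have ht : tot (L, rv (vec a), vec b) = addv L (vec (.cons a b)) := tot_right L a b
  have hKv : Kv D (L, rv (vec a), vec b) = Kt D (addv L (vec (.cons a b))) := by
    unfold Kv Kt
    rw [ht]
  unfold cor
  rw [hKv]
  by_cases h : Kt D (addv L (vec (.cons a b))) = K
  · rw [if_pos h, if_pos h, if_pos h]
    have h2 := Kt_ne hK h
    have hL : L.2 ≠ 0 := by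
      intro h5
      apply h2
      simp [addv, h5]
    have ha : (rv (vec a)).2 ≠ 0 := by
      intro h5
      apply h2
      rw [← tot_right]
      simp [addv, h5]
    have hb : (vec b).2 ≠ 0 := by
      intro h5
      apply h2
      rw [← tot_right]
      simp [addv, h5]
    have hLa : (addv L (rv (vec a))).2 ≠ 0 := mul_ne_zero hL ha
    have hdiv := D_div hD hd hK h
    have hs1 : slp (addv L (vec (.cons a b))) = slp L + slp (rv (vec a)) + slp (vec b) := by
      rw [← tot_right, slp_addv _ _ hLa hb, slp_addv _ _ hL ha]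
    have hs2 : slp (addv L (rv (vec a))) = slp L + slp (rv (vec a)) := slp_addv _ _ hL ha
    unfold alv al
    rw [hKv, h, hdiv, hs1, hs2, Multiset.card_cons, Multiset.map_cons, Multiset.sum_cons,
      per_fract hφ, per_sub_fract hφ]
    have e1 : slp L + slp (rv (vec a)) + slp (vec b) - (slp L + slp (rv (vec a))) =
        slp (vec b) := by ring
    have e2 : slp L + slp (rv (vec a)) + slp (vec b) - slp (vec b) =
        slp L + slp (rv (vec a)) := by ring
    simp only [e1, e2]
    push_cast
    ring
  · rw [if_neg h, if_neg h, if_neg h, add_zero]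

/-- The correction vanishes for the branch of the outside alone. -/
theorem cor_single (hφ : Per1 φ) (L t : ℤ × ℤ) : cor D φ K {Int.fract (slp L)} L t = 0 := by
  unfold cor
  split_ifs
  · rw [Multiset.card_singleton, Multiset.map_singleton, Multiset.sum_singleton,
      per_fract hφ, per_sub_fract hφ]
    push_cast
    ring
  · rfl

/-- A vertex with an integral slope. -/
theorem vertex_pw (hD : D ≠ 0) (hK : K ≠ 0) (hφ : Per1 φ) (L : ℤ × ℤ) (a : Tr) (e : ℤ)
    (hd : dt L (vec (.cons a (.pw e))) ∣ D) :
    (if Kv D (L, rv (vec a), vec (.pw e)) = K then alv φ D (L, rv (vec a), vec (.pw e)) else 0) =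
      0 := by
  have ht : tot (L, rv (vec a), vec (.pw e)) = addv L (vec (.cons a (.pw e))) :=
    tot_right L a (.pw e)
  have hKv : Kv D (L, rv (vec a), vec (.pw e)) = Kt D (addv L (vec (.cons a (.pw e)))) := by
    unfold Kv Kt
    rw [ht]
  rw [hKv]
  by_cases h : Kt D (addv L (vec (.cons a (.pw e)))) = K
  · rw [if_pos h]
    have h2 := Kt_ne hK h
    have hL : L.2 ≠ 0 := by
      intro h5
      apply h2
      simp [addv, h5]
    have ha : (rv (vec a)).2 ≠ 0 := by
      intro h5
      apply h2
      rw [← tot_right]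
      simp [addv, h5]
    have hLa : (addv L (rv (vec a))).2 ≠ 0 := mul_ne_zero hL ha
    have hdiv := D_div hD hd hK h
    have hs1 : slp (addv L (vec (.cons a (.pw e)))) = slp L + slp (rv (vec a)) + -(e : ℚ) := by
      rw [← tot_right, slp_addv _ _ hLa (by simp [vec]), slp_addv _ _ hL ha]
      change _ + slp (-e, 1) = _
      rw [slp_pw]
    have hb : slp (vec (.pw e)) = -(e : ℚ) := slp_pw e
    unfold alv al
    rw [hKv, h, hdiv, hs1]
    simp only [hb]
    have e1 : φ (-(e : ℚ)) = φ 0 := by
      have := hφ 0 (-e)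
      push_cast at this
      rwa [zero_add] at this
    have e2 : φ (slp L + slp (rv (vec a)) + -(e : ℚ) - slp L) = φ (slp (rv (vec a))) := by
      have := hφ (slp (rv (vec a))) (-e)
      push_cast at this
      rw [← this]
      congr 1
      ring
    have e3 : φ (slp L + slp (rv (vec a)) + -(e : ℚ) - slp (rv (vec a))) = φ (slp L) := by
      have := hφ (slp L) (-e)
      push_cast at this
      rw [← this]
      congr 1
      ring
    have e4 : φ (slp L + slp (rv (vec a)) + -(e : ℚ) - -(e : ℚ)) =
        φ (slp L + slp (rv (vec a)) + -(e : ℚ)) := by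
      have := hφ (slp L + slp (rv (vec a))) (-e)
      push_cast at this
      rw [this]
      congr 1
      ring
    rw [e1, e2, e3, e4]
    ring
  · rw [if_neg h]

theorem main (hD : D ≠ 0) (hK : K ≠ 0) (hφ : Per1 φ) (T : Tr) :
    (∀ (acc : Multiset ℚ) (L : ℤ × ℤ), dt L (vec T) ∣ D →
      vs D φ K acc true L T = hs D φ K L T + cor D φ K acc L (addv L (vec T))) ∧
    (∀ L : ℤ × ℤ, dt L (vec T) ∣ D →
      vs D φ K {Int.fract (slp L)} (decide (2 ≤ T.kids)) L T = hs D φ K L T) := by
  induction T with
  | pw e =>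
    refine ⟨fun acc L hd => ?_, fun L _ => ?_⟩
    · have h1 : hs D φ K L (.pw e) = 0 := by
        unfold hs
        rw [vts]
        rfl
      have h2 : vs D φ K acc true L (.pw e) = if Kt D (addv L (-e, 1)) = K then
          alN φ (slp (addv L (-e, 1))) acc else 0 := by
        unfold vs
        rw [vt, if_pos rfl, Multiset.map_singleton, Multiset.sum_singleton]
      have h3 : vec (.pw e) = (-e, 1) := rfl
      rw [h1, h2, h3, zero_add]
      unfold cor
      by_cases h : Kt D (addv L (-e, 1)) = K
      · rw [if_pos h, if_pos h]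
        have h4 := Kt_ne hK h
        have hL : L.2 ≠ 0 := by
          intro h5
          apply h4
          simp [addv, h5]
        have hs1 : slp (addv L (-e, 1)) = slp L - e := by
          rw [slp_addv L (-e, 1) hL (by norm_num), slp_pw]
          ring
        unfold alN
        rw [hs1]
        have e1 : φ (slp L - e) = φ (slp L) := by
          have := hφ (slp L) (-e)
          push_cast at this
          rw [← this, sub_eq_add_neg]
        have e2 : φ (slp L - e - slp L) = φ 0 := by
          have := hφ 0 (-e)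
          push_cast at this
          rw [← this]
          congr 1
          ring
        rw [e1, e2]
        ring
      · rw [if_neg h, if_neg h]
    · have h0 : (Tr.pw e).kids = 0 := rfl
      unfold vs hs
      rw [h0, vt, vts]
      simp
  | cons a b iha ihb =>
    have hA : ∀ (acc : Multiset ℚ) (L : ℤ × ℤ), dt L (vec (.cons a b)) ∣ D →
        vs D φ K acc true L (.cons a b) =
          hs D φ K L (.cons a b) + cor D φ K acc L (addv L (vec (.cons a b))) := by
      intro acc L hd
      rw [vs_cons, hs_cons, iha.2 _ (by rw [dt_left]; exact hd),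
        ihb.1 _ _ (by rw [dt_right]; exact hd), tot_right, ← vertex hD hK hφ L a b hd acc]
      ring
    refine ⟨hA, fun L hd => ?_⟩
    by_cases hk : 2 ≤ (Tr.cons a b).kids
    · rw [decide_eq_true hk, hA _ _ hd, cor_single hφ, add_zero]
    · rw [decide_eq_false hk]
      have hb0 : b.kids = 0 := by
        simp only [Tr.kids] at hk
        omega
      cases b with
      | cons c d => simp [Tr.kids] at hb0
      | pw e =>
        rw [vs_cons, hs_cons, iha.2 _ (by rw [dt_left]; exact hd), vertex_pw hD hK hφ L a e hd]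
        have h1 : hs D φ K (addv L (rv (vec a))) (.pw e) = 0 := by
          unfold hs
          rw [vts]
          rfl
        have h2 : vs D φ K (Int.fract (slp (rv (vec a))) ::ₘ
            {Int.fract (slp L)}) false (addv L (rv (vec a))) (.pw e) = 0 := by
          unfold vs
          rw [vt]
          simp
        rw [h1, h2]
        ring

end Cln

theorem t_CLN : CLN_Stmt := by
  intro D T φ K hD hd hK hφ
  have h := (Cln.main hD hK hφ T).1 0 (0, 1) (by
    have h1 : dt (0, 1) (vec T) = (vec T).1 := by simp [dt, addv]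
    rw [h1]
    exact hd)
  unfold Cln.vs Cln.hs Cln.cor at h
  unfold vt0
  rw [h]
  split_ifs
  · have h2 : slp (0, 1) = 0 := by simp [slp]
    rw [h2]
    simp
  · rw [add_zero]

end Pool.Agent.TZ
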