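import Pool.Agent.TZ.StS
import Pool.Agent.TZ.Cln

/-!
Theorem Z2 (MP_31fd3b_gt), module CLL: class sums of lists of trees.
-/

open scoped BigOperators

namespace Pool.Agent.TZ

open Pool.Agent.LibH11.Sliced Pool.Agent.MTR Pool.Agent.MTA Pool.Agent.UA Pool.Agent.UB
open Pool.Agent.TwoBr Pool.Agent.Mont Pool.Agent.TV Pool.Agent.TW
open Pool.Agent.TB hiding vec

namespace Cll

open Vtb Cln

variable {D : ℤ} {φ : ℚ → ℂ} {K : ℤ}

/-- the class sum of a rational tree vanishes -/
theorem rat_zero (hD : D ≠ 0) (hK : K ≠ 0) (hφ : Per1 φ) (T : Tr) :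
    ∀ L : ℤ × ℤ, T.Rat → dt L (vec T) ∣ D → hs D φ K L T = 0 := by
  induction T with
  | pw e =>
    intro L _ _
    unfold hs
    rw [vts]
    rfl
  | cons a b iha ihb =>
    intro L hr hd
    obtain ⟨ha, hb⟩ := hr
    cases b with
    | cons c d => simp [Tr.kids] at hb
    | pw e =>
      rw [hs_cons, vertex_pw hD hK hφ L a e hd, iha _ ha (by rw [dt_left]; exact hd)]
      have h1 : hs D φ K (addv L (rv (vec a))) (.pw e) = 0 := by
        unfold hs
        rw [vts]
        rfl
      rw [h1]
      ring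

/-- the class sums of a list -/
theorem list_sum (f : Vx → ℂ) (g : (ℤ × ℤ) × Multiset ℚ → ℂ) (Ts : List Tr)
    (h : ∀ t ∈ Ts, ((vts (0, 1) t).map f).sum = ((vt0 t).map g).sum) :
    ((VL Ts).map f).sum = ((V0 Ts).map g).sum := by
  induction Ts with
  | nil => simp [VL, V0]
  | cons t Ts ih =>
    have h1 : VL (t :: Ts) = vts (0, 1) t ++ VL Ts := by simp [VL]
    have h2 : V0 (t :: Ts) = vt0 t + V0 Ts := by simp [V0]
    rw [h1, h2, List.map_append, List.sum_append, Multiset.map_add, Multiset.sum_add,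
      h t (by simp), ih fun s hs => h s (by simp [hs])]

/-- the class sums of a list of trees with vanishing sums -/
theorem list_zero (f : Vx → ℂ) (Ts : List Tr)
    (h : ∀ t ∈ Ts, ((vts (0, 1) t).map f).sum = 0) : ((VL Ts).map f).sum = 0 := by
  induction Ts with
  | nil => simp [VL]
  | cons t Ts ih =>
    have h1 : VL (t :: Ts) = vts (0, 1) t ++ VL Ts := by simp [VL]
    rw [h1, List.map_append, List.sum_append, h t (by simp), ih fun s hs => h s (by simp [hs]),
      add_zero]

end Cll

theorem t_CLL (h1 : CLN_Stmt) (_h2 : VST_Stmt) (_h3 : CHN_Stmt) : CLL_Stmt := by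
  intro D Gs Us φ K hD hdvd hr hK hφ
  have hVL : VL (Gs ++ Us) = VL Gs ++ VL Us := by simp [VL]
  rw [hVL, List.map_append, List.sum_append,
    Cll.list_zero (fun v => if Kv D v = K then alv φ D v else 0) Us, add_zero]
  · apply Cll.list_sum
    intro t ht
    exact h1 D t φ K hD (hdvd t (by simp [ht])) hK hφ
  · intro U hU
    have h := Cll.rat_zero hD hK hφ U (0, 1) (hr U hU) (by
      have h1 : dt (0, 1) (vec U) = (vec U).1 := by simp [dt, addv]
      rw [h1]
      exact hdvd U (by simp [hU]))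
    unfold Cln.hs at h
    exact h

end Pool.Agent.TZ
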