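import Pool.Agent.TZ.StS

/-!
# CRD: a tree has one edge less than vertices
-/

open scoped BigOperators

namespace Pool.Agent.TZ

open Pool.Agent.LibH11.Sliced Pool.Agent.MTR Pool.Agent.MTA Pool.Agent.UA Pool.Agent.UB
open Pool.Agent.TwoBr Pool.Agent.Mont Pool.Agent.TV Pool.Agent.TW
open Pool.Agent.TB hiding vec

namespace Crd

open Classical in
/-- `1` if the tree is not rational -/
noncomputable def nr (a : Tr) : ℕ := if a.Rat then 0 else 1

/-- the number of the children which are not rational -/
noncomputable def nrk : Tr → ℕ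
  | .pw _ => 0
  | .cons a b => nr a + nrk b

theorem kids0 {b : Tr} (h : b.kids = 0) : ∃ e, b = .pw e := by
  cases b with
  | pw e => exact ⟨e, rfl⟩
  | cons a b =>
    have h1 : b.kids + 1 = 0 := h
    omega

theorem nr_eq (h1 : CHN_Stmt) (a : Tr) :
    (if decide (2 ≤ a.kids) = true then 1 else nrk a) = nr a := by
  by_cases hr : a.Rat
  · have h2 : decide (2 ≤ a.kids) = false := (h1.2.1 a (0, 1) 0 hr).1
    rw [h2]
    have h3 : nr a = 0 := by
      unfold nr
      rw [if_pos hr]
    rw [h3]
    cases a with
    | pw e => rfl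
    | cons c d =>
      obtain ⟨h4, h5⟩ : c.Rat ∧ d.kids = 0 := hr
      obtain ⟨e, rfl⟩ := kids0 h5
      have h6 : nr c = 0 := by
        unfold nr
        rw [if_pos h4]
      show (if false = true then 1 else nr c + 0) = 0
      rw [h6]
      simp
  · have h3 : nr a = 1 := by
      unfold nr
      rw [if_neg hr]
    rw [h3]
    by_cases hk : 2 ≤ a.kids
    · simp [hk]
    · cases a with
      | pw e => exact absurd trivial hr
      | cons c d =>
        have h5 : d.kids = 0 := by
          have : (Tr.cons c d).kids = d.kids + 1 := rfl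
          omega
        obtain ⟨e, rfl⟩ := kids0 h5
        have h6 : nr c = 1 := by
          unfold nr
          rw [if_neg]
          exact fun h => hr ⟨h, h5⟩
        have h7 : nrk (Tr.cons c (.pw e)) = nr c + 0 := rfl
        rw [h7, h6]
        simp

theorem ed_card (h1 : CHN_Stmt) (σ : ℚ) (a : Tr) (C : ℤ × ℤ) :
    (ed1 σ true a C).card = nr a := by
  unfold ed1 nr
  rw [if_pos rfl]
  have h2 := h1.1 a C
  cases ht : top a C with
  | none =>
    rw [if_pos (h2.2 ht)]
    rfl
  | some q =>
    rw [if_neg]
    · rfl
    · intro h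
      rw [h2.1 h] at ht
      exact absurd ht (by simp)

theorem key (h1 : CHN_Stmt) (T : Tr) : ∀ (acc : Multiset ℚ) (f : Bool) (L : ℤ × ℤ),
    (vt T acc f L).card = (eg T f L).card + (if f = true then 1 else nrk T) := by
  induction T with
  | pw e =>
    intro acc f L
    cases f <;> simp [vt, eg, nrk]
  | cons a b iha ihb =>
    intro acc f L
    rw [vt, eg, Multiset.card_add, Multiset.card_add, Multiset.card_add, iha, ihb, nr_eq h1]
    cases f with
    | false =>
      have h2 : (ed1 (slp (addv L (vec (.cons a b)))) false a (rv (addv L (vec b)))).card = 0 := by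
        unfold ed1
        rw [if_neg (by decide)]
        rfl
      rw [h2]
      show _ + nr a + (_ + nrk b) = 0 + _ + _ + (nr a + nrk b)
      omega
    | true =>
      rw [ed_card h1]
      show _ + nr a + (_ + 1) = nr a + _ + _ + 1
      omega

end Crd

/-- CRD. -/
theorem t_CRD (h1 : CHN_Stmt) : CRD_Stmt := by
  intro T _
  exact (Crd.key h1 T 0 true (0, 1)).symm

end Pool.Agent.TZ
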