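import Pool.Agent.TZ.StC

/-!
Theorem Z (MP_31fd3b_gt): module CUS (helper48). A chain is determined by its values at two cusps.
-/

namespace Pool.Agent.TZ

open Pool.Agent.LibH11.Sliced Pool.Agent.MTR Pool.Agent.MTA Pool.Agent.UA Pool.Agent.UB
open Pool.Agent.TwoBr Pool.Agent.Mont Pool.Agent.TV Pool.Agent.TW
open Pool.Agent.TB hiding vec

namespace CUS

theorem cvec_cons (e : ℤ) (es : List ℤ) (v : ℤ × ℤ) :
    cvec (e :: es) v = (-(cvec es v).2 - e * (cvec es v).1, (cvec es v).1) := by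
  ext
  · simp only [cvec, addv, rv]; ring
  · simp only [cvec, addv, rv]; ring

/-- the matrix of a chain -/
theorem mat (es : List ℤ) : ∃ a b c d : ℤ, a * d - b * c = 1 ∧
    ∀ u, cvec es u = (a * u.1 + b * u.2, c * u.1 + d * u.2) := by
  induction es with
  | nil =>
    refine ⟨1, 0, 0, 1, by norm_num, ?_⟩
    intro u
    ext <;> simp [cvec]
  | cons e es ih =>
    obtain ⟨a, b, c, d, h, hu⟩ := ih
    refine ⟨-c - e * a, -d - e * b, a, b, by linear_combination h, ?_⟩
    intro u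
    rw [cvec_cons, hu]
    ext
    · simp only; ring
    · rfl

theorem mat' (es : List ℤ) (n : ℤ) : ∃ a b c d : ℤ, a * d - b * c = 1 ∧
    ∀ u, cvec es (tw n u) = (a * u.1 + b * u.2, c * u.1 + d * u.2) := by
  obtain ⟨a, b, c, d, h, hu⟩ := mat es
  refine ⟨a, b - n * a, c, d - n * c, by linear_combination h, ?_⟩
  intro u
  rw [hu]
  ext
  · simp only [tw]; ring
  · simp only [tw]; ring

theorem dt_lch (es : List ℤ) : ∀ C v : ℤ × ℤ, dt C (cvec es v) = dt (lch es C) v := by
  induction es with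
  | nil => intro C v; rfl
  | cons e es ih =>
    intro C v
    rw [cvec_cons]
    show _ = dt (lch es (rv (addv C (-e, 1)))) v
    rw [← ih]
    simp only [dt, addv, rv]
    ring

/-- the core: two integral matrices of determinant one whose images of two independent vectors are parallel -/
theorem core {a b c d a' b' c' d' v1 v2 u1 u2 : ℤ} (h : a * d - b * c = 1) (h' : a' * d' - b' * c' = 1)
    (hv : (a * v1 + b * v2) * (c' * v1 + d' * v2) = (c * v1 + d * v2) * (a' * v1 + b' * v2))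
    (hu : (a * u1 + b * u2) * (c' * u1 + d' * u2) = (c * u1 + d * u2) * (a' * u1 + b' * u2))
    (hD : v1 * u2 - v2 * u1 ≠ 0) :
    (a = a' ∧ b = b' ∧ c = c' ∧ d = d') ∨ (a = -a' ∧ b = -b' ∧ c = -c' ∧ d = -d') := by
  obtain ⟨A, hA⟩ : ∃ A, A = a * c' - c * a' := ⟨_, rfl⟩
  obtain ⟨B, hB⟩ : ∃ B, B = a * d' + b * c' - c * b' - d * a' := ⟨_, rfl⟩
  obtain ⟨E, hE⟩ : ∃ E, E = b * d' - d * b' := ⟨_, rfl⟩
  obtain ⟨t, ht⟩ : ∃ t, t = d' * a - b' * c - c' * b + a' * d := ⟨_, rfl⟩
  obtain ⟨D, hDd⟩ : ∃ D, D = v1 * u2 - v2 * u1 := ⟨_, rfl⟩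
  rw [← hDd] at hD
  have qv : A * v1 ^ 2 + B * v1 * v2 + E * v2 ^ 2 = 0 := by
    rw [hA, hB, hE]; linear_combination hv
  have qu : A * u1 ^ 2 + B * u1 * u2 + E * u2 ^ 2 = 0 := by
    rw [hA, hB, hE]; linear_combination hu
  have hdisc : B ^ 2 - 4 * A * E = t ^ 2 - 4 := by
    have e1 : B ^ 2 - 4 * A * E = t ^ 2 - 4 * ((a * d - b * c) * (a' * d' - b' * c')) := by
      rw [hA, hB, hE, ht]; ring
    rw [e1, h, h']; ring
  obtain ⟨s0, hs0⟩ : ∃ s0, s0 = 2 * A * v1 * u1 + B * (v1 * u2 + v2 * u1) + 2 * E * v2 * u2 := ⟨_, rfl⟩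
  have hsq : s0 ^ 2 = (t ^ 2 - 4) * D ^ 2 := by
    have e1 : s0 ^ 2 - 4 * (A * v1 ^ 2 + B * v1 * v2 + E * v2 ^ 2) * (A * u1 ^ 2 + B * u1 * u2 + E * u2 ^ 2) =
        (B ^ 2 - 4 * A * E) * D ^ 2 := by
      rw [hs0, hDd]; ring
    rw [qv, qu, hdisc] at e1
    linarith
  have hdvd : D ∣ s0 := by
    have : D ^ 2 ∣ s0 ^ 2 := ⟨t ^ 2 - 4, by rw [hsq]; ring⟩
    exact (Int.pow_dvd_pow_iff (by norm_num)).1 this
  obtain ⟨s, hs⟩ := hdvd
  have hss : s ^ 2 = t ^ 2 - 4 := by
    have e1 : D ^ 2 * (s ^ 2) = D ^ 2 * (t ^ 2 - 4) := by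
      rw [hs] at hsq
      linarith
    exact mul_left_cancel₀ (pow_ne_zero 2 hD) e1
  have hts : s = 0 ∧ (t = 2 ∨ t = -2) := by
    have h4 : (t - s) * (t + s) = 4 := by linear_combination -hss
    have hpar : ∃ m, t - s = 2 * m ∨ t - s = 2 * m + 1 := ⟨(t - s) / 2, by omega⟩
    obtain ⟨m, hm | hm⟩ := hpar
    · have e1 : t + s = 2 * (m + s) := by linarith
      rw [hm, e1] at h4
      have h5 : m * (m + s) = 1 := by linarith
      rcases Int.mul_eq_one_iff_eq_one_or_neg_one.1 h5 with ⟨h6, h7⟩ | ⟨h6, h7⟩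
      · constructor
        · linarith
        · left; linarith
      · constructor
        · linarith
        · right; linarith
    · exfalso
      have e1 : t + s = 2 * (m + s) + 1 := by linarith
      rw [hm, e1] at h4
      have e2 : 2 * (2 * m * (m + s) + m + (m + s)) + 1 = 4 := by linarith
      omega
  obtain ⟨hs00, htt⟩ := hts
  have hs0z : s0 = 0 := by rw [hs, hs00, mul_zero]
  rw [hs0] at hs0z
  have hz : ∀ x y : ℤ, A * x ^ 2 + B * x * y + E * y ^ 2 = 0 := by
    intro x y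
    have e1 : D ^ 2 * (A * x ^ 2 + B * x * y + E * y ^ 2) =
        (x * u2 - y * u1) ^ 2 * (A * v1 ^ 2 + B * v1 * v2 + E * v2 ^ 2) +
        (x * u2 - y * u1) * (v1 * y - v2 * x) *
          (2 * A * v1 * u1 + B * (v1 * u2 + v2 * u1) + 2 * E * v2 * u2) +
        (v1 * y - v2 * x) ^ 2 * (A * u1 ^ 2 + B * u1 * u2 + E * u2 ^ 2) := by
      rw [hDd]; ring
    rw [qv, qu, hs0z] at e1
    have e2 : D ^ 2 * (A * x ^ 2 + B * x * y + E * y ^ 2) = 0 := by rw [e1]; ring
    exact (mul_eq_zero.1 e2).resolve_left (pow_ne_zero 2 hD)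
  have hA0 : A = 0 := by have := hz 1 0; linarith
  have hE0 : E = 0 := by have := hz 0 1; linarith
  have hB0 : B = 0 := by have := hz 1 1; linarith
  rw [hA0] at hA
  rw [hB0] at hB
  rw [hE0] at hE
  -- α = a d' - b' c, δ = a' d - b c', γ = a' c - c' a = 0, β = b d' - d b' = 0
  have hα : 2 * (a * d' - b' * c) = t := by linear_combination ht * (-1 : ℤ) + hB * (-1 : ℤ)
  have hδ : 2 * (a' * d - b * c') = t := by linear_combination ht * (-1 : ℤ) + hB
  rcases htt with htt | htt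
  · left
    have h1 : a * d' - b' * c = 1 := by linarith
    have h2 : a' * d - b * c' = 1 := by linarith
    refine ⟨?_, ?_, ?_, ?_⟩
    · linear_combination (-a) * h' + a' * h1 + b' * hA
    · linear_combination (-b) * h' + b' * h2 - a' * hE
    · linear_combination (-c) * h' + c' * h1 + d' * hA
    · linear_combination (-d) * h' + d' * h2 - c' * hE
  · right
    have h1 : a * d' - b' * c = -1 := by linarith
    have h2 : a' * d - b * c' = -1 := by linarith
    refine ⟨?_, ?_, ?_, ?_⟩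
    · linear_combination (-a) * h' + a' * h1 + b' * hA
    · linear_combination (-b) * h' + b' * h2 - a' * hE
    · linear_combination (-c) * h' + c' * h1 + d' * hA
    · linear_combination (-d) * h' + d' * h2 - c' * hE

end CUS

theorem t_CUS : CUS_Stmt := by
  intro es es' n C v hdt hpar hpar'
  obtain ⟨a, b, c, d, h, hM⟩ := CUS.mat es
  obtain ⟨a', b', c', d', h', hM'⟩ := CUS.mat' es' n
  set P := lch es C with hP
  have e1 : ∀ u, dt C (cvec es u) = dt P u := fun u => CUS.dt_lch es C u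
  have e2 : ∀ u, dt C (cvec es' (tw n u)) = dt (addv (lch es' C) (-n, 1)) u := by
    intro u
    rw [CUS.dt_lch es' C]
    simp only [dt, addv, tw]
    ring
  have hpv := hpar.1
  rw [hM, hM'] at hpv
  simp only at hpv
  -- the second vector
  have f1 : dt C (cvec es (-P.1, P.2)) = 0 := by
    rw [e1]; simp only [dt, addv]; ring
  have f2 : dt C (cvec es' (tw n (-P.1, P.2))) = 0 := by
    rw [e2]
    have := hpar'.1
    simp only [dt, addv] at this ⊢
    linear_combination -this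
  rw [hM] at f1
  rw [hM'] at f2
  simp only [dt, addv] at f1 f2
  have hC : C.1 ≠ 0 ∨ C.2 ≠ 0 := by
    by_contra hc
    push Not at hc
    apply hdt
    rw [← e1]
    simp only [dt, addv, hc.1, hc.2]
    ring
  have hpu : (a * (-P.1) + b * P.2) * (c' * (-P.1) + d' * P.2) =
      (c * (-P.1) + d * P.2) * (a' * (-P.1) + b' * P.2) := by
    rcases hC with hC | hC
    · apply mul_left_cancel₀ hC
      linear_combination (a * (-P.1) + b * P.2) * f2 - (a' * (-P.1) + b' * P.2) * f1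
    · apply mul_left_cancel₀ hC
      linear_combination (c' * (-P.1) + d' * P.2) * f1 - (c * (-P.1) + d * P.2) * f2
  have hD : v.1 * P.2 - v.2 * (-P.1) ≠ 0 := by
    intro h0
    apply hdt
    simp only [dt, addv]
    linarith
  rcases CUS.core h h' hpv hpu hD with ⟨r1, r2, r3, r4⟩ | ⟨r1, r2, r3, r4⟩
  · left
    intro u
    rw [hM, hM', r1, r2, r3, r4]
  · right
    intro u
    rw [hM, hM', r1, r2, r3, r4]
    ext
    · simp only [Prod.fst_neg]; ring
    · simp only [Prod.snd_neg]; ring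

end Pool.Agent.TZ
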