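import Pool.Agent.TX.St

/-!
Theorem Z (MP_31fd3b_gt): rational finite type invariants separate generic arborescent knots up to
mutation. Definitions. See PAPER.md in this folder.
-/

open scoped BigOperators

namespace Pool.Agent.TZ

open Pool.Agent.LibH11.Sliced Pool.Agent.MTR Pool.Agent.MTA Pool.Agent.UA Pool.Agent.UB
open Pool.Agent.TwoBr Pool.Agent.Mont Pool.Agent.TV Pool.Agent.TW
open Pool.Agent.TB hiding vec

/-! ### 1. Mutation -/

/-- the rotations of a tangle with two strands by `π` about the three axes -/
inductive Rot3 : Diag → Diag → Prop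
  | hd (t : Diag) : Rot3 t (hD 2 t)
  | fl (t : Diag) : Rot3 t (flipD t)
  | pd (t : Diag) : Rot3 t (pD 2 t)

/-- Mutation equivalence of diagrams with `n` strands at the bottom: generated by the moves and by
rotating a part of the diagram from two strands to two strands. -/
inductive Mu (n : ℕ) : Diag → Diag → Prop
  | eqd {x y : Diag} : EqD n x y → Mu n x y
  | mut (u t t' v : Diag) (i m k : ℕ) : cnt n u = some m → i + 2 ≤ m → cnt 2 t = some 2 →
      Rot3 t t' → cnt m v = some k → Mu n (u ++ sh i t ++ v) (u ++ sh i t' ++ v)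
  | symm {x y : Diag} : Mu n x y → Mu n y x
  | trans {x y z : Diag} : Mu n x y → Mu n y z → Mu n x z

/-! ### 2. The vertices of a tree -/

/-- The vertices with at least three branches of a tree in the context `L`, each with its total
vector and the fractional parts of the slopes of its branches. `acc` contains the branches of the top
vertex which have been passed already, `f` says whether the top vertex is counted. -/
def vt : Tr → Multiset ℚ → Bool → ℤ × ℤ → Multiset ((ℤ × ℤ) × Multiset ℚ)
  | .pw e, acc, f, L => if f then {(addv L (-e, 1), acc)} else 0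
  | .cons a b, acc, f, L =>
      vt a {Int.fract (slp (rv (addv L (vec b))))} (decide (2 ≤ a.kids)) (rv (addv L (vec b))) +
        vt b (Int.fract (slp (rv (vec a))) ::ₘ acc) f (addv L (rv (vec a)))

/-- The upper end of the branch: the slope sum and the fractional part of the slope (of the branch
which leads to the outside) of the first vertex with at least three branches of a tree in the context
`L`; `none` if the tree is rational. -/
def top : Tr → ℤ × ℤ → Option (ℚ × ℚ)
  | .pw _, _ => none
  | .cons a b, L =>
      if b.kids = 0 then top a (rv (addv L (vec b)))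
      else some (slp (addv L (vec (.cons a b))), Int.fract (slp L))

/-- the edge at the top vertex (if it is counted) which leads to the child `a` -/
def ed1 (σ : ℚ) (f : Bool) (a : Tr) (C : ℤ × ℤ) : Multiset ((ℚ × ℚ) × (ℚ × ℚ)) :=
  if f then (match top a C with
    | some q => {((σ, Int.fract (slp (rv (vec a)))), q)}
    | none => 0) else 0

/-- the rational branch at the top vertex (if it is counted) to the child `a` -/
def rb1 (σ : ℚ) (f : Bool) (a : Tr) (C : ℤ × ℤ) : Multiset (ℚ × ℚ) :=
  if f then (match top a C with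
    | some _ => 0
    | none => {(σ, Int.fract (slp (rv (vec a))))}) else 0

/-- The edges between vertices with at least three branches, directed from the parent to the child;
an end is given by the slope sum of the vertex and the fractional part of the slope of the branch. -/
def eg : Tr → Bool → ℤ × ℤ → Multiset ((ℚ × ℚ) × (ℚ × ℚ))
  | .pw _, _, _ => 0
  | .cons a b, f, L =>
      ed1 (slp (addv L (vec (.cons a b)))) f a (rv (addv L (vec b))) +
        eg a (decide (2 ≤ a.kids)) (rv (addv L (vec b))) + eg b f (addv L (rv (vec a)))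

/-- The rational branches below the vertices with at least three branches. -/
def rb : Tr → Bool → ℤ × ℤ → Multiset (ℚ × ℚ)
  | .pw _, _, _ => 0
  | .cons a b, f, L =>
      rb1 (slp (addv L (vec (.cons a b)))) f a (rv (addv L (vec b))) +
        rb a (decide (2 ≤ a.kids)) (rv (addv L (vec b))) + rb b f (addv L (rv (vec a)))

/-- the vertices of a closed tree, with the vertex at the root -/
def vt0 (T : Tr) : Multiset ((ℤ × ℤ) × Multiset ℚ) := vt T 0 true (0, 1)

/-- the same with the slope sums -/
def vs0 (T : Tr) : Multiset (ℚ × Multiset ℚ) := (vt0 T).map fun x => (slp x.1, x.2)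

/-- all branches at the vertices of a closed tree -/
def br0 (T : Tr) : Multiset (ℚ × ℚ) := (vt0 T).bind fun x => x.2.map fun b => (slp x.1, b)

/-- the edges of a closed tree -/
def eg0 (T : Tr) : Multiset ((ℚ × ℚ) × (ℚ × ℚ)) := eg T true (0, 1)

/-- the rational branches of a closed tree -/
def rb0 (T : Tr) : Multiset (ℚ × ℚ) := rb T true (0, 1)

/-- the fractional parts of the slopes of the children of the top vertex -/
def cf : Tr → Multiset ℚ
  | .pw _ => 0
  | .cons a b => Int.fract (slp (rv (vec a))) ::ₘ cf b

/-- the children of the top vertex -/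
def chl : Tr → List Tr
  | .pw _ => []
  | .cons a b => a :: chl b

/-! ### 3. Edge forms -/

/-- the binary quadratic form of a branch with slope `b` at a vertex with slope sum `σ` -/
def fm (σ b : ℚ) (x y : ℤ) : ℚ := (x - b * y) * (x - b * y + σ * y) / σ

/-- the form of a pair of vectors -/
def fmv (P V : ℤ × ℤ) (x y : ℤ) : ℚ :=
  (((P.1 * y + P.2 * x) * (x * V.2 - y * V.1) : ℤ) : ℚ) / (dt P V : ℤ)

/-- equivalence of forms -/
def Eqf (f g : ℤ → ℤ → ℚ) : Prop :=
  ∃ a b c d : ℤ, (a * d - b * c = 1 ∨ a * d - b * c = -1) ∧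
    ∀ x y : ℤ, f (a * x + b * y) (c * x + d * y) = g x y

/-- two branches (given by the slope sum and the slope) have equivalent forms -/
def Se (p q : ℚ × ℚ) : Prop := Eqf (fm p.1 p.2) (fm q.1 q.2)

open Classical in
/-- the indicator function of the class of a branch -/
noncomputable def Fc (p : ℚ × ℚ) (P V : ℤ × ℤ) : ℂ := if Eqf (fm p.1 p.2) (fmv P V) then 1 else 0

open Classical in
/-- the same for branches -/
noncomputable def ic (p q : ℚ × ℚ) : ℂ := if Se p q then 1 else 0

/-! ### 4. Generic trees -/

/-- no two of the branches have a sum of slopes which is congruent to `σ` -/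
def Ndg (σ : ℚ) (bs : Multiset ℚ) : Prop :=
  ∀ b c : ℚ, ({b, c} : Multiset ℚ) ≤ bs → ¬ ∃ n : ℤ, b + c - σ = n

/-- generic closed trees -/
structure Gen (T : Tr) : Prop where
  root : 3 ≤ T.kids
  wt : ∀ x ∈ vt0 T, x.1.2 ≠ 0
  nz : ∀ x ∈ vt0 T, (0 : ℚ) ∉ x.2
  ndg : ∀ x ∈ vt0 T, Ndg (slp x.1) x.2
  dif : ((vt0 T).map fun x => slp x.1).Nodup
  edg : ∀ e ∈ eg0 T, ∀ s : Multiset (ℚ × ℚ), s ≤ br0 T → (∀ q ∈ s, Se e.1 q) → s.card ≤ 2

/-- the sum of a function over a vertex with any number of branches -/
noncomputable def alN (φ : ℚ → ℂ) (σ : ℚ) (bs : Multiset ℚ) : ℂ :=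
  ((bs.card : ℂ) - 2) * (φ 0 - φ σ) - (bs.map fun b => φ b - φ (σ - b)).sum

/-- the class of a vertex -/
def Kt (D : ℤ) (t : ℤ × ℤ) : ℤ := D / t.1 * t.2

/-- first order data of two closed trees are the same -/
def Fod (T T' : Tr) : Prop :=
  ∃ D : ℤ, Odd D ∧ (vec T).1 ∣ D ∧ (vec T').1 ∣ D ∧
    (∀ (K : ℤ) (φ : ℚ → ℂ), K ≠ 0 → Per1 φ →
      ((vts (0, 1) T).map fun v => if Kv D v = K then alv φ D v else 0).sum =
        ((vts (0, 1) T').map fun v => if Kv D v = K then alv φ D v else 0).sum) ∧
    ∀ F : ℤ × ℤ → ℤ × ℤ → ℂ, Sym D F → evF F (NL (0, 1) T) = evF F (NL (0, 1) T')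

/-! ### 5. Chains -/

/-- the chain of vertices with two branches and the exponents `es`, with `X` at its end -/
def chn : List ℤ → Tr → Tr
  | [], X => X
  | e :: es, X => .cons (chn es X) (.pw e)

/-- the context at the end of a chain -/
def lch : List ℤ → ℤ × ℤ → ℤ × ℤ
  | [], L => L
  | e :: es, L => lch es (rv (addv L (-e, 1)))

/-- the vector of a chain -/
def cvec : List ℤ → ℤ × ℤ → ℤ × ℤ
  | [], v => v
  | e :: es, v => addv (rv (cvec es v)) (-e, 1)

/-- two vectors are parallel and not zero -/
def Par (v w : ℤ × ℤ) : Prop := v.1 * w.2 = v.2 * w.1 ∧ v ≠ 0 ∧ w ≠ 0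

/-- the vertices below the top vertex, with slope sums -/
def vd (b : Tr) (L : ℤ × ℤ) : Multiset (ℚ × Multiset ℚ) :=
  (vt b 0 false L).map fun x => (slp x.1, x.2)

/-- Compatibility of two trees whose top vertices correspond: edges which start at the same branch
end at the same branch, no branch is rational on one side and not rational on the other side, and
vertices with the same slope sum have the same slopes. -/
structure Cmp (b b' : Tr) (L L' : ℤ × ℤ) : Prop where
  mate : ∀ p q q', (p, q) ∈ eg b true L → (p, q') ∈ eg b' true L' → q = q'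
  rat : ∀ p q, (p, q) ∈ eg b true L → p ∉ rb b' true L'
  rat' : ∀ p q, (p, q) ∈ eg b' true L' → p ∉ rb b true L
  vert : ∀ σ bs bs', (σ, bs) ∈ vd b L → (σ, bs') ∈ vd b' L' → bs = bs'

end Pool.Agent.TZ
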