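import Pool.Agent.TZ.StA

/-!
Theorem Z (MP_31fd3b_gt): EDS, the forms of edges.
-/

open scoped BigOperators

namespace Pool.Agent.TZ

open Pool.Agent.LibH11.Sliced Pool.Agent.MTR Pool.Agent.MTA Pool.Agent.UA Pool.Agent.UB
open Pool.Agent.TwoBr Pool.Agent.Mont Pool.Agent.TV Pool.Agent.TW
open Pool.Agent.TB hiding vec

namespace EDS

theorem refl (f : ℤ → ℤ → ℚ) : Eqf f f := by
  refine ⟨1, 0, 0, 1, Or.inl (by norm_num), fun x y => ?_⟩
  rw [one_mul, zero_mul, add_zero, zero_mul, one_mul, zero_add]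

theorem symm {f g : ℤ → ℤ → ℚ} (h : Eqf f g) : Eqf g f := by
  obtain ⟨a, b, c, d, hd, h⟩ := h
  rcases hd with hd | hd
  · refine ⟨d, -b, -c, a, Or.inl (by linarith), fun x y => ?_⟩
    rw [← h]
    congr 1
    · linear_combination x * hd
    · linear_combination y * hd
  · refine ⟨-d, b, c, -a, Or.inr (by linarith), fun x y => ?_⟩
    rw [← h]
    congr 1
    · linear_combination (-x) * hd
    · linear_combination (-y) * hd

theorem trans {f g h : ℤ → ℤ → ℚ} (h1 : Eqf f g) (h2 : Eqf g h) : Eqf f h := by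
  obtain ⟨a, b, c, d, hd, h1⟩ := h1
  obtain ⟨a', b', c', d', hd', h2⟩ := h2
  refine ⟨a * a' + b * c', a * b' + b * d', c * a' + d * c', c * b' + d * d', ?_, fun x y => ?_⟩
  · have e : (a * a' + b * c') * (c * b' + d * d') - (a * b' + b * d') * (c * a' + d * c') =
        (a * d - b * c) * (a' * d' - b' * c') := by ring
    rw [e]
    rcases hd with hd | hd <;> rcases hd' with hd' | hd' <;> rw [hd, hd'] <;> norm_num
  · rw [← h2, ← h1]
    congr 1 <;> ring

theorem dt_comm (P V : ℤ × ℤ) : dt P V = dt V P := by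
  simp only [dt, addv]
  ring

theorem swap (P V : ℤ × ℤ) : Eqf (fmv P V) (fmv V P) := by
  refine ⟨1, 0, 0, -1, Or.inr (by norm_num), fun x y => ?_⟩
  unfold fmv
  rw [dt_comm P V]
  congr 2
  ring

theorem rot (P V : ℤ × ℤ) : Eqf (fmv (rv P) V) (fmv P (rv V)) := by
  refine ⟨0, 1, -1, 0, Or.inl (by norm_num), fun x y => ?_⟩
  unfold fmv
  have e : dt (rv P) V = dt P (rv V) := by
    simp only [dt, addv, rv]
    ring
  rw [e]
  congr 2
  simp only [rv]
  ring

theorem shift (P V : ℤ × ℤ) (k : ℤ) :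
    Eqf (fmv (addv P (k, 1)) V) (fmv P (addv V (k, 1))) := by
  refine ⟨1, -k, 0, 1, Or.inl (by norm_num), fun x y => ?_⟩
  unfold fmv
  have e : dt (addv P (k, 1)) V = dt P (addv V (k, 1)) := by
    simp only [dt, addv]
    ring
  rw [e]
  congr 2
  simp only [addv]
  ring

theorem scale (P V : ℤ × ℤ) (k : ℤ) (hk : k ≠ 0) : fmv (k • P) V = fmv P V := by
  funext x y
  unfold fmv
  have e : dt (k • P) V = k * dt P V := by
    simp only [dt, addv, Prod.smul_fst, Prod.smul_snd, smul_eq_mul]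
    ring
  have e2 : ((k • P).1 * y + (k • P).2 * x) * (x * V.2 - y * V.1) =
      k * ((P.1 * y + P.2 * x) * (x * V.2 - y * V.1)) := by
    simp only [Prod.smul_fst, Prod.smul_snd, smul_eq_mul]
    ring
  have hk' : (k : ℚ) ≠ 0 := by exact_mod_cast hk
  rw [e, e2, Int.cast_mul, Int.cast_mul k, mul_div_mul_left _ _ hk']

theorem slopes (P V : ℤ × ℤ) (hP : P.2 ≠ 0) (hV : V.2 ≠ 0) (hd : dt P V ≠ 0) :
    fmv P V = fm (slp P + slp V) (slp V) := by
  funext x y
  unfold fmv fm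
  have hP' : (P.2 : ℚ) ≠ 0 := by exact_mod_cast hP
  have hV' : (V.2 : ℚ) ≠ 0 := by exact_mod_cast hV
  have hd' : ((dt P V : ℤ) : ℚ) ≠ 0 := by exact_mod_cast hd
  have e1 : slp P + slp V = (dt P V : ℤ) / (P.2 * V.2) := by
    unfold slp
    simp only [dt, addv]
    push_cast
    field_simp
  have e2 : (x : ℚ) - slp V * y = (x * V.2 - y * V.1) / V.2 := by
    unfold slp
    field_simp
  have e3 : (x : ℚ) - slp V * y + (slp P + slp V) * y = (P.1 * y + P.2 * x) / P.2 := by
    unfold slp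
    field_simp
    ring
  rw [e3, e2, e1]
  push_cast
  field_simp

theorem per (σ b : ℚ) (n : ℤ) : Eqf (fm σ b) (fm σ (b + n)) := by
  refine ⟨1, -n, 0, 1, Or.inl (by norm_num), fun x y => ?_⟩
  unfold fm
  push_cast
  congr 1
  ring

theorem refl' (σ b : ℚ) : Eqf (fm σ b) (fm σ (σ - b)) := by
  refine ⟨1, 0, 0, -1, Or.inr (by norm_num), fun x y => ?_⟩
  unfold fm
  push_cast
  congr 1
  ring

theorem last (P V : ℤ × ℤ) (hP : P.2 ≠ 0) (hV : V.2 ≠ 0) (hd : dt P V ≠ 0) :
    Eqf (fmv P V) (fm (slp P + slp V) (Int.fract (slp V))) := by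
  rw [slopes P V hP hV hd]
  have h := per (slp P + slp V) (slp V) (-⌊slp V⌋)
  have e : slp V + ((-⌊slp V⌋ : ℤ) : ℚ) = Int.fract (slp V) := by
    unfold Int.fract
    push_cast
    ring
  rw [e] at h
  exact h

open Classical in
theorem fc_congr (p : ℚ × ℚ) {P V P' V' : ℤ × ℤ} (h : Eqf (fmv P V) (fmv P' V')) :
    Fc p P V = Fc p P' V' := by
  unfold Fc
  by_cases h1 : Eqf (fm p.1 p.2) (fmv P V)
  · rw [if_pos h1, if_pos (trans h1 h)]
  · rw [if_neg h1, if_neg (fun h2 => h1 (trans h2 (symm h)))]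

end EDS

open EDS in
theorem t_EDS : EDS_Stmt := by
  classical
  refine ⟨fun D p hD => ⟨?_, ?_, ?_, ?_⟩, ?_, ⟨fun p => refl _, fun p q h => symm h,
    fun p q r h1 h2 => trans h1 h2⟩, ⟨fun σ b n => per σ b n, fun σ b => refl' σ b⟩,
    ⟨fun f g h => symm h, fun f g h h1 h2 => trans h1 h2⟩, ⟨swap, rot, shift⟩, last⟩
  · intro P V _
    exact fc_congr p (swap V P)
  · intro P V _
    exact fc_congr p (rot P V)
  · intro P V k _
    exact fc_congr p (shift P V k)
  · intro P V k hk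
    have h0 : k ≠ 0 := by
      rintro rfl
      have e : dt ((0 : ℤ) • P) V = 0 := by
        simp [dt, addv]
      rw [e] at hk
      exact hD (zero_dvd_iff.mp hk)
    unfold Fc
    rw [scale P V k h0]
  · intro p P V hP hV hd
    unfold Fc ic Se
    have h := last P V hP hV hd
    by_cases h1 : Eqf (fm p.1 p.2) (fmv P V)
    · rw [if_pos h1, if_pos (trans h1 h)]
    · rw [if_neg h1, if_neg (fun h2 => h1 (trans h2 (symm h)))]

end Pool.Agent.TZ
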