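import Pool.Agent.TZ.StA

/-!
Theorem Z (MP_31fd3b_gt): EGA, edges and branches.
-/

open scoped BigOperators

namespace Pool.Agent.TZ

open Pool.Agent.LibH11.Sliced Pool.Agent.MTR Pool.Agent.MTA Pool.Agent.UA Pool.Agent.UB
open Pool.Agent.TwoBr Pool.Agent.Mont Pool.Agent.TV Pool.Agent.TW
open Pool.Agent.TB hiding vec

namespace EGA

/-- the branches of a vertex -/
def B (x : (ℤ × ℤ) × Multiset ℚ) : Multiset (ℚ × ℚ) := x.2.map fun b => (slp x.1, b)

/-- the upper end of a branch -/
def tq : Option (ℚ × ℚ) → Multiset (ℚ × ℚ)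
  | some q => {q}
  | none => 0

theorem ends (σ : ℚ) (a : Tr) (C : ℤ × ℤ) :
    rb1 σ true a C + (ed1 σ true a C).map Prod.fst + (ed1 σ true a C).map Prod.snd =
      {(σ, Int.fract (slp (rv (vec a))))} + tq (top a C) := by
  unfold rb1 ed1
  cases top a C with
  | none => simp [tq]
  | some q => simp [tq]

theorem addv_assoc (P Q R : ℤ × ℤ) : addv (addv P Q) R = addv P (addv Q R) := by
  unfold addv
  ext
  · simp only []
    ring
  · simp only []
    ring

theorem addv_comm (P Q : ℤ × ℤ) : addv P Q = addv Q P := by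
  unfold addv
  ext
  · simp only []
    ring
  · simp only []
    ring

theorem dt_def (P V : ℤ × ℤ) : dt P V = P.1 * V.2 + V.1 * P.2 := rfl

theorem pair_of_kids {b : Tr} (h : b.kids = 0) : ∃ e : ℤ, b = .pw e := by
  cases b with
  | pw e => exact ⟨e, rfl⟩
  | cons a b => exact absurd h (Nat.succ_ne_zero _)

theorem main (T : Tr) :
    (∀ (acc : Multiset ℚ) (L : ℤ × ℤ), (vt T acc true L).bind B =
      rb T true L + (eg T true L).map Prod.fst + (eg T true L).map Prod.snd +
        acc.map (fun b => (slp (addv L (vec T)), b))) ∧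
    ∀ C : ℤ × ℤ, (vt T {Int.fract (slp C)} (decide (2 ≤ T.kids)) C).bind B =
      rb T (decide (2 ≤ T.kids)) C + (eg T (decide (2 ≤ T.kids)) C).map Prod.fst +
        (eg T (decide (2 ≤ T.kids)) C).map Prod.snd + tq (top T C) := by
  induction T with
  | pw e =>
    refine ⟨fun acc L => ?_, fun C => ?_⟩
    · simp [vt, rb, eg, B, vec]
    · simp [vt, rb, eg, Tr.kids, top, tq]
  | cons a b iha ihb =>
    have hT : ∀ (acc : Multiset ℚ) (L : ℤ × ℤ), (vt (.cons a b) acc true L).bind B =
        rb (.cons a b) true L + (eg (.cons a b) true L).map Prod.fst +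
          (eg (.cons a b) true L).map Prod.snd +
          acc.map (fun c => (slp (addv L (vec (.cons a b))), c)) := by
      intro acc L
      have e1 : addv (addv L (rv (vec a))) (vec b) = addv L (vec (.cons a b)) := addv_assoc _ _ _
      have h1 := iha.2 (rv (addv L (vec b)))
      have h2 := ihb.1 (Int.fract (slp (rv (vec a))) ::ₘ acc) (addv L (rv (vec a)))
      rw [e1] at h2
      have h3 := ends (slp (addv L (vec (.cons a b)))) a (rv (addv L (vec b)))
      have e2 : vt (.cons a b) acc true L =
        vt a {Int.fract (slp (rv (addv L (vec b))))} (decide (2 ≤ a.kids)) (rv (addv L (vec b))) +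
        vt b (Int.fract (slp (rv (vec a))) ::ₘ acc) true (addv L (rv (vec a))) := rfl
      have e3 : rb (.cons a b) true L =
        rb1 (slp (addv L (vec (.cons a b)))) true a (rv (addv L (vec b))) +
        rb a (decide (2 ≤ a.kids)) (rv (addv L (vec b))) + rb b true (addv L (rv (vec a))) := rfl
      have e4 : eg (.cons a b) true L =
        ed1 (slp (addv L (vec (.cons a b)))) true a (rv (addv L (vec b))) +
        eg a (decide (2 ≤ a.kids)) (rv (addv L (vec b))) + eg b true (addv L (rv (vec a))) := rfl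
      rw [e2, e3, e4, Multiset.add_bind, h1, h2, Multiset.map_cons, Multiset.map_add,
        Multiset.map_add, Multiset.map_add, Multiset.map_add, ← Multiset.singleton_add]
      generalize rb1 (slp (addv L (vec (.cons a b)))) true a (rv (addv L (vec b))) = x1 at *
      generalize Multiset.map Prod.fst
        (ed1 (slp (addv L (vec (.cons a b)))) true a (rv (addv L (vec b)))) = x2 at *
      generalize Multiset.map Prod.snd
        (ed1 (slp (addv L (vec (.cons a b)))) true a (rv (addv L (vec b)))) = x3 at *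
      generalize tq (top a (rv (addv L (vec b)))) = x4 at *
      generalize ({(slp (addv L (vec (.cons a b))), Int.fract (slp (rv (vec a))))} :
        Multiset (ℚ × ℚ)) = x5 at *
      have h4 : ∀ y1 y2 y3 y4 y5 y6 y7 : Multiset (ℚ × ℚ),
          y1 + y2 + y3 + x4 + (y4 + y5 + y6 + (x5 + y7)) =
            x1 + y1 + y4 + (x2 + y2 + y5) + (x3 + y3 + y6) + y7 := by
        intro y1 y2 y3 y4 y5 y6 y7
        calc y1 + y2 + y3 + x4 + (y4 + y5 + y6 + (x5 + y7))
            = (x5 + x4) + (y1 + y2 + y3 + (y4 + y5 + y6 + y7)) := by abel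
          _ = (x1 + x2 + x3) + (y1 + y2 + y3 + (y4 + y5 + y6 + y7)) := by rw [h3]
          _ = _ := by abel
      exact h4 _ _ _ _ _ _ _
    refine ⟨hT, fun C => ?_⟩
    by_cases hb : b.kids = 0
    · obtain ⟨e, rfl⟩ := pair_of_kids hb
      have h1 := iha.2 (rv (addv C (vec (.pw e))))
      have e1 : decide (2 ≤ (Tr.cons a (.pw e)).kids) = false := by
        simp [Tr.kids]
      have e2 : top (.cons a (.pw e)) C = top a (rv (addv C (vec (.pw e)))) := by
        simp [top, Tr.kids]
      rw [e1, e2]
      have e3 : vt (.cons a (.pw e)) {Int.fract (slp C)} false C =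
        vt a {Int.fract (slp (rv (addv C (vec (.pw e)))))} (decide (2 ≤ a.kids))
          (rv (addv C (vec (.pw e)))) := by
        simp [vt]
      have e4 : rb (.cons a (.pw e)) false C =
          rb a (decide (2 ≤ a.kids)) (rv (addv C (vec (.pw e)))) := by
        simp [rb, rb1]
      have e5 : eg (.cons a (.pw e)) false C =
          eg a (decide (2 ≤ a.kids)) (rv (addv C (vec (.pw e)))) := by
        simp [eg, ed1]
      rw [e3, e4, e5]
      exact h1
    · have e1 : decide (2 ≤ (Tr.cons a b).kids) = true := by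
        have : (Tr.cons a b).kids = b.kids + 1 := rfl
        rw [decide_eq_true_iff]
        omega
      have e2 : top (.cons a b) C =
          some (slp (addv C (vec (.cons a b))), Int.fract (slp C)) := by
        simp only [top]
        rw [if_neg hb]
      rw [e1, e2, hT]
      rfl

theorem chain (h3 : EDS_Stmt) (es : List ℤ) : ∀ C v : ℤ × ℤ,
    Eqf (fmv C (cvec es v)) (fmv (lch es C) v) := by
  have ht := h3.2.2.2.2.1.2
  have hs := h3.2.2.2.2.1.1
  have hr := h3.2.2.2.2.2.1.2.1
  have hk := h3.2.2.2.2.2.1.2.2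
  have hw := h3.2.2.2.2.2.1.1
  induction es with
  | nil =>
    intro C v
    exact ht _ _ _ (hw C v) (hs _ _ (hw C v))
  | cons e es ih =>
    intro C v
    exact ht _ _ _ (hs _ _ (hk C (rv (cvec es v)) (-e)))
      (ht _ _ _ (hs _ _ (hr (addv C (-e, 1)) (cvec es v))) (ih (rv (addv C (-e, 1))) v))

theorem slp_add {P V : ℤ × ℤ} (h1 : P.2 ≠ 0) (h2 : V.2 ≠ 0) :
    slp (addv P V) = slp P + slp V := by
  have a1 : (P.2 : ℚ) ≠ 0 := Int.cast_ne_zero.2 h1
  have a2 : (V.2 : ℚ) ≠ 0 := Int.cast_ne_zero.2 h2
  unfold slp addv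
  push_cast
  field_simp

theorem edge (h1 : CHN_Stmt) (h2 : VST_Stmt) (h3 : EDS_Stmt) (T : Tr) :
    ∀ (acc : Multiset ℚ) (f : Bool) (L : ℤ × ℤ), dt L (vec T) ≠ 0 →
      (∀ x ∈ vt T acc f L, x.1.2 ≠ 0) → ∀ e ∈ eg T f L, Se e.1 e.2 := by
  obtain ⟨c1, -, c3, c4, c5, c6, -⟩ := h1
  have ht := h3.2.2.2.2.1.2
  have hs := h3.2.2.2.2.1.1
  have hr := h3.2.2.2.2.2.1.2.1
  have hw := h3.2.2.2.2.2.1.1
  have hl := h3.2.2.2.2.2.2
  induction T with
  | pw e =>
    intro acc f L _ _ x hx
    exact absurd hx (Multiset.notMem_zero _)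
  | cons a b iha ihb =>
    intro acc f L hd hx e he
    have k1 : ∀ x ∈ vt a {Int.fract (slp (rv (addv L (vec b))))} (decide (2 ≤ a.kids))
        (rv (addv L (vec b))), x.1.2 ≠ 0 := fun x h => hx x (Multiset.mem_add.2 (Or.inl h))
    have k2 : ∀ x ∈ vt b (Int.fract (slp (rv (vec a))) ::ₘ acc) f (addv L (rv (vec a))),
        x.1.2 ≠ 0 := fun x h => hx x (Multiset.mem_add.2 (Or.inr h))
    have d1 : dt (rv (addv L (vec b))) (vec a) = dt L (vec (.cons a b)) := by
      change _ = dt L (addv (rv (vec a)) (vec b))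
      simp only [dt_def, rv, addv]
      ring
    have d2 : dt (addv L (rv (vec a))) (vec b) = dt L (vec (.cons a b)) := by
      change _ = dt L (addv (rv (vec a)) (vec b))
      simp only [dt_def, rv, addv]
      ring
    have he' : e ∈ ed1 (slp (addv L (vec (.cons a b)))) f a (rv (addv L (vec b))) +
        eg a (decide (2 ≤ a.kids)) (rv (addv L (vec b))) + eg b f (addv L (rv (vec a))) := he
    rw [Multiset.mem_add, Multiset.mem_add] at he'
    rcases he' with (he' | he') | he'
    · -- the new edge
      cases f with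
      | false => exact absurd he' (Multiset.notMem_zero _)
      | true =>
      unfold ed1 at he'
      rw [if_pos rfl] at he'
      cases hq : top a (rv (addv L (vec b))) with
      | none =>
        rw [hq] at he'
        exact absurd he' (Multiset.notMem_zero _)
      | some q =>
      rw [hq] at he'
      have he2 : e = ((slp (addv L (vec (.cons a b))), Int.fract (slp (rv (vec a)))), q) :=
        Multiset.mem_singleton.1 he'
      have hnr : ¬ a.Rat := by
        intro h
        rw [(c1 a (rv (addv L (vec b)))).1 h] at hq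
        exact absurd hq (by simp)
      obtain ⟨es, X, ha, hX, -⟩ := c3 a hnr
      obtain ⟨v4, -, -, t4⟩ := c4 es X (rv (addv L (vec b))) hX
      rw [← ha] at v4 t4
      rw [hq] at t4
      have hq2 : q = (slp (addv (lch es (rv (addv L (vec b)))) (vec X)),
        Int.fract (slp (lch es (rv (addv L (vec b)))))) := Option.some_inj.1 t4
      rw [v4, (h2.1 X _ _).1] at k1
      have w1 := k1 _ (Multiset.mem_cons_self _ _)
      rw [(h2.1 (.cons a b) _ _).1] at hx
      have w2 := hx _ (Multiset.mem_cons_self _ _)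
      have w1' : (lch es (rv (addv L (vec b)))).2 * (vec X).2 ≠ 0 := w1
      have w2' : L.2 * ((rv (vec a)).2 * (vec b).2) ≠ 0 := w2
      have n1 : (lch es (rv (addv L (vec b)))).2 ≠ 0 := left_ne_zero_of_mul w1'
      have n2 : (vec X).2 ≠ 0 := right_ne_zero_of_mul w1'
      have n3 : L.2 ≠ 0 := left_ne_zero_of_mul w2'
      have n4 : (rv (vec a)).2 ≠ 0 := left_ne_zero_of_mul (right_ne_zero_of_mul w2')
      have n5 : (vec b).2 ≠ 0 := right_ne_zero_of_mul (right_ne_zero_of_mul w2')
      have n6 : (addv L (vec b)).2 ≠ 0 := mul_ne_zero n3 n5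
      have d3 : dt (addv L (vec b)) (rv (vec a)) ≠ 0 := by
        have : dt (addv L (vec b)) (rv (vec a)) = dt (rv (addv L (vec b))) (vec a) := by
          simp only [dt_def, rv]
          ring
        rw [this, d1]
        exact hd
      have d4 : dt (vec X) (lch es (rv (addv L (vec b)))) ≠ 0 := by
        have : dt (vec X) (lch es (rv (addv L (vec b)))) =
            dt (lch es (rv (addv L (vec b)))) (vec X) := by
          simp only [dt_def]
          ring
        rw [this, ← c6, ← c5, ← ha, d1]
        exact hd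
      have f1 := hl (addv L (vec b)) (rv (vec a)) n6 n4 d3
      rw [← slp_add n6 n4] at f1
      have g1 : addv (addv L (vec b)) (rv (vec a)) = addv L (vec (.cons a b)) := by
        rw [addv_assoc, addv_comm (vec b)]
        rfl
      rw [g1] at f1
      have f2 := hl (vec X) (lch es (rv (addv L (vec b)))) n2 n1 d4
      rw [← slp_add n2 n1, addv_comm (vec X)] at f2
      rw [he2, hq2]
      have f3 := chain h3 es (rv (addv L (vec b))) (vec X)
      rw [← c5, ← ha] at f3
      exact ht _ _ _ (hs _ _ f1) (ht _ _ _ (hs _ _ (hr (addv L (vec b)) (vec a)))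
        (ht _ _ _ f3 (ht _ _ _ (hw _ _) f2)))
    · exact iha _ _ _ (by rw [d1]; exact hd) k1 e he'
    · exact ihb _ _ _ (by rw [d2]; exact hd) k2 e he'

end EGA

theorem t_EGA (h1 : CHN_Stmt) (h2 : VST_Stmt) (h3 : EDS_Stmt) : EGA_Stmt := by
  intro T _ hv hx
  refine ⟨EGA.edge h1 h2 h3 T 0 true (0, 1) ?_ hx, ?_⟩
  · have : dt (0, 1) (vec T) = (vec T).1 := by
      simp only [EGA.dt_def]
      ring
    rw [this]
    exact hv
  · have h := (EGA.main T).1 0 (0, 1)
    rw [Multiset.map_zero, add_zero] at h
    exact h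

end Pool.Agent.TZ
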