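import Pool.Agent.TZ.StA

/-!
Theorem Z (MP_31fd3b_gt): MATE, compatibility of two generic trees.
-/

open scoped BigOperators

namespace Pool.Agent.TZ

open Pool.Agent.LibH11.Sliced Pool.Agent.MTR Pool.Agent.MTA Pool.Agent.UA Pool.Agent.UB
open Pool.Agent.TwoBr Pool.Agent.Mont Pool.Agent.TV Pool.Agent.TW
open Pool.Agent.TB hiding vec

namespace MATE

theorem br_vs (T : Tr) : br0 T = (vs0 T).bind fun x => x.2.map fun b => (x.1, b) := by
  unfold br0 vs0
  rw [Multiset.bind_map]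

theorem pair_le {T : Tr} (hb : br0 T = rb0 T + (eg0 T).map Prod.fst + (eg0 T).map Prod.snd)
    {p q : ℚ × ℚ} (h : (p, q) ∈ eg0 T) : ({p, q} : Multiset (ℚ × ℚ)) ≤ br0 T := by
  have e1 : ({p, q} : Multiset (ℚ × ℚ)) = {p} + {q} := rfl
  have h1 : ({p} : Multiset (ℚ × ℚ)) ≤ (eg0 T).map Prod.fst :=
    Multiset.singleton_le.2 (Multiset.mem_map_of_mem Prod.fst h)
  have h2 : ({q} : Multiset (ℚ × ℚ)) ≤ (eg0 T).map Prod.snd :=
    Multiset.singleton_le.2 (Multiset.mem_map_of_mem Prod.snd h)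
  rw [e1, hb, add_assoc]
  exact le_trans (add_le_add h1 h2) (le_add_of_nonneg_left (Multiset.zero_le _))

theorem trip_le {T : Tr} (hb : br0 T = rb0 T + (eg0 T).map Prod.fst + (eg0 T).map Prod.snd)
    {p q r : ℚ × ℚ} (h : (q, r) ∈ eg0 T) (h' : p ∈ rb0 T) :
    ({p, q, r} : Multiset (ℚ × ℚ)) ≤ br0 T := by
  have e1 : ({p, q, r} : Multiset (ℚ × ℚ)) = {p} + {q} + {r} := rfl
  have h0 : ({p} : Multiset (ℚ × ℚ)) ≤ rb0 T := Multiset.singleton_le.2 h'
  have h1 : ({q} : Multiset (ℚ × ℚ)) ≤ (eg0 T).map Prod.fst :=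
    Multiset.singleton_le.2 (Multiset.mem_map_of_mem Prod.fst h)
  have h2 : ({r} : Multiset (ℚ × ℚ)) ≤ (eg0 T).map Prod.snd :=
    Multiset.singleton_le.2 (Multiset.mem_map_of_mem Prod.snd h)
  rw [e1, hb]
  exact add_le_add (add_le_add h0 h1) h2

open Classical in
theorem sum_ic (p : ℚ × ℚ) (S : Multiset ((ℚ × ℚ) × (ℚ × ℚ))) :
    (S.map fun e => ic p e.1).sum = ((S.filter fun e => Se p e.1).card : ℂ) := by
  induction S using Multiset.induction_on with
  | empty => simp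
  | cons e s ih =>
    rw [Multiset.map_cons, Multiset.sum_cons, ih]
    by_cases h : Se p e.1
    · rw [Multiset.filter_cons_of_pos (p := fun e : (ℚ × ℚ) × (ℚ × ℚ) => Se p e.1) _ h,
        Multiset.card_cons]
      unfold ic
      rw [if_pos h]
      push_cast
      ring
    · rw [Multiset.filter_cons_of_neg (p := fun e : (ℚ × ℚ) × (ℚ × ℚ) => Se p e.1) _ h]
      unfold ic
      rw [if_neg h, zero_add]

theorem mt (h2 : EDS_Stmt) {T T' : Tr} (g : Gen T) (hs : vs0 T = vs0 T')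
    (hb : br0 T = rb0 T + (eg0 T).map Prod.fst + (eg0 T).map Prod.snd)
    (hb' : br0 T' = rb0 T' + (eg0 T').map Prod.fst + (eg0 T').map Prod.snd)
    (he : ∀ e ∈ eg0 T, Se e.1 e.2) (he' : ∀ e ∈ eg0 T', Se e.1 e.2)
    (p q q' : ℚ × ℚ) (h : (p, q) ∈ eg0 T) (h' : (p, q') ∈ eg0 T') : q = q' := by
  classical
  have hr := h2.2.2.1.1
  have e1 : br0 T = br0 T' := by rw [br_vs, br_vs, hs]
  have hc := g.edg (p, q) h ((br0 T).filter fun r => Se p r) (Multiset.filter_le _ _)
    (fun r hr => (Multiset.mem_filter.1 hr).2)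
  have a1 : ({p, q} : Multiset (ℚ × ℚ)) ≤ (br0 T).filter fun r => Se p r := by
    refine Multiset.le_filter.2 ⟨pair_le hb h, fun r hr' => ?_⟩
    rw [Multiset.insert_eq_cons, Multiset.mem_cons, Multiset.mem_singleton] at hr'
    rcases hr' with hr' | hr'
    · rw [hr']
      exact hr p
    · rw [hr']
      exact he _ h
  have a2 : ({p, q'} : Multiset (ℚ × ℚ)) ≤ (br0 T).filter fun r => Se p r := by
    refine Multiset.le_filter.2 ⟨?_, fun r hr' => ?_⟩
    · rw [e1]
      exact pair_le hb' h'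
    rw [Multiset.insert_eq_cons, Multiset.mem_cons, Multiset.mem_singleton] at hr'
    rcases hr' with hr' | hr'
    · rw [hr']
      exact hr p
    · rw [hr']
      exact he' _ h'
  have b1 := Multiset.eq_of_le_of_card_le a1 hc
  have b2 := Multiset.eq_of_le_of_card_le a2 hc
  have b3 : ({p, q} : Multiset (ℚ × ℚ)) = {p, q'} := b1.trans b2.symm
  rw [Multiset.insert_eq_cons, Multiset.insert_eq_cons, Multiset.cons_inj_right,
    Multiset.singleton_inj] at b3
  exact b3

theorem rt (h2 : EDS_Stmt) {T T' : Tr} (g : Gen T) (hs : vs0 T = vs0 T')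
    (hb' : br0 T' = rb0 T' + (eg0 T').map Prod.fst + (eg0 T').map Prod.snd)
    (he' : ∀ e ∈ eg0 T', Se e.1 e.2)
    (hi : ∀ p : ℚ × ℚ, ((eg0 T).map fun e => ic p e.1).sum = ((eg0 T').map fun e => ic p e.1).sum)
    (p q : ℚ × ℚ) (h : (p, q) ∈ eg0 T) : p ∉ rb0 T' := by
  classical
  intro hp
  have hr := h2.2.2.1.1
  have htr := h2.2.2.1.2.2
  have e1 : br0 T = br0 T' := by rw [br_vs, br_vs, hs]
  have h3 := hi p
  rw [sum_ic, sum_ic, Nat.cast_inj] at h3
  have h4 : 0 < ((eg0 T).filter fun e => Se p e.1).card :=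
    Multiset.card_pos_iff_exists_mem.2 ⟨(p, q), Multiset.mem_filter.2 ⟨h, hr p⟩⟩
  rw [h3] at h4
  obtain ⟨e, he⟩ := Multiset.card_pos_iff_exists_mem.1 h4
  obtain ⟨he1, he2⟩ := Multiset.mem_filter.1 he
  have h5 := g.edg (p, q) h {p, e.1, e.2} (by
    rw [e1]
    exact trip_le hb' he1 hp) (fun r hr' => by
      rw [Multiset.insert_eq_cons, Multiset.insert_eq_cons, Multiset.mem_cons, Multiset.mem_cons,
        Multiset.mem_singleton] at hr'
      rcases hr' with hr' | hr' | hr'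
      · rw [hr']
        exact hr p
      · rw [hr']
        exact he2
      · rw [hr']
        exact htr _ _ _ he2 (he' e he1))
  have h6 : ({p, e.1, e.2} : Multiset (ℚ × ℚ)).card = 3 := rfl
  omega

end MATE

theorem t_MATE (h1 : EGA_Stmt) (h2 : EDS_Stmt) (h3 : VST_Stmt) : MATE_Stmt := by
  intro T T' g g' hv hv' hs hi
  obtain ⟨he, hb⟩ := h1 T g.root hv g.wt
  obtain ⟨he', hb'⟩ := h1 T' g'.root hv' g'.wt
  refine ⟨?_, ?_, ?_, ?_⟩
  · exact MATE.mt h2 g hs hb hb' he he'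
  · exact MATE.rt h2 g hs hb' he' hi
  · exact MATE.rt h2 g' hs.symm hb he (fun p => (hi p).symm)
  · intro σ bs bs' m m'
    have k : ∀ U : Tr, vd U (0, 1) ≤ vs0 U := by
      intro U
      unfold vd vs0 vt0
      rw [(h3.1 U 0 (0, 1)).1, Multiset.map_cons]
      exact Multiset.le_cons_self _ _
    have m1 := Multiset.mem_of_le (k T) m
    have m2 := Multiset.mem_of_le (k T') m'
    rw [← hs] at m2
    have d := g.dif
    have e : ((vt0 T).map fun x => slp x.1) = (vs0 T).map Prod.fst := by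
      unfold vs0
      rw [Multiset.map_map]
      rfl
    rw [e] at d
    have := Multiset.inj_on_of_nodup_map d _ m1 _ m2 rfl
    exact (Prod.mk.inj this).2

end Pool.Agent.TZ
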