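import Pool.Agent.TZ.StS
import Pool.Agent.TZ.Mate

/-!
Theorem Z2 (MP_31fd3b_gt), module EQL: the edges of two lists are the same (helper20).
-/

open scoped BigOperators

namespace Pool.Agent.TZ

open Pool.Agent.LibH11.Sliced Pool.Agent.MTR Pool.Agent.MTA Pool.Agent.UA Pool.Agent.UB
open Pool.Agent.TwoBr Pool.Agent.Mont Pool.Agent.TV Pool.Agent.TW
open Pool.Agent.TB hiding vec

namespace EQL

theorem mem_ls {α β : Type} (f : α → Multiset β) (l : List α) (x : β) :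
    x ∈ (l.map f).sum ↔ ∃ T ∈ l, x ∈ f T := by
  induction l with
  | nil => simp
  | cons a l ih => simp [ih]

/-- the rational branches of a list -/
def RB (Gs : List Tr) : Multiset (ℚ × ℚ) := (Gs.map rb0).sum

theorem br_eq (Gs : List Tr)
    (h : ∀ T ∈ Gs, br0 T = rb0 T + (eg0 T).map Prod.fst + (eg0 T).map Prod.snd) :
    BR0 Gs = RB Gs + ((EG0 Gs).map Prod.fst + (EG0 Gs).map Prod.snd) := by
  induction Gs with
  | nil => simp [BR0, RB, EG0]
  | cons a l ih =>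
    have h1 := h a (by simp)
    have h2 := ih fun T hT => h T (by simp [hT])
    have e1 : BR0 (a :: l) = br0 a + BR0 l := by simp [BR0]
    have e2 : RB (a :: l) = rb0 a + RB l := by simp [RB]
    have e3 : EG0 (a :: l) = eg0 a + EG0 l := by simp [EG0]
    rw [e1, e2, e3, h1, h2, Multiset.map_add, Multiset.map_add]
    abel

theorem br_vs (Gs : List Tr) :
    BR0 Gs = (VS0 Gs).bind fun x => x.2.map fun b => (x.1, b) := by
  induction Gs with
  | nil => simp [BR0, VS0]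
  | cons a l ih =>
    have e1 : BR0 (a :: l) = br0 a + BR0 l := by simp [BR0]
    have e2 : VS0 (a :: l) = vs0 a + VS0 l := by simp [VS0]
    rw [e1, e2, Multiset.add_bind, ← ih, MATE.br_vs]

theorem card_eg (h3 : CRD_Stmt) (Gs : List Tr) (h : ∀ T ∈ Gs, 3 ≤ T.kids) :
    (EG0 Gs).card + Gs.length = (VS0 Gs).card := by
  induction Gs with
  | nil => simp [EG0, VS0]
  | cons a l ih =>
    have h1 := h3 a (h a (by simp))
    have h2 := ih fun T hT => h T (by simp [hT])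
    have e1 : EG0 (a :: l) = eg0 a + EG0 l := by simp [EG0]
    have e2 : VS0 (a :: l) = vs0 a + VS0 l := by simp [VS0]
    have e3 : (vs0 a).card = (vt0 a).card := by simp [vs0]
    rw [e1, e2, Multiset.card_add, Multiset.card_add, List.length_cons, e3, ← h1, ← h2]
    ring

/-- the ends of the edges in a class -/
theorem one (h2 : EDS_Stmt) (BR : Multiset (ℚ × ℚ)) (EG : Multiset ((ℚ × ℚ) × (ℚ × ℚ)))
    (p : ℚ × ℚ)
    (hp : ∀ s : Multiset (ℚ × ℚ), s ≤ BR → (∀ q ∈ s, Se p q) → s.card ≤ 2)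
    (hE : EG.map Prod.fst + EG.map Prod.snd ≤ BR) (hS : ∀ e ∈ EG, Se e.1 e.2)
    (S : Multiset ((ℚ × ℚ) × (ℚ × ℚ))) (hSE : S ≤ EG) (hSp : ∀ e ∈ S, Se p e.1) :
    S.card ≤ 1 := by
  have htr := h2.2.2.1.2.2
  have h := hp (S.map Prod.fst + S.map Prod.snd)
    (le_trans (add_le_add (Multiset.map_le_map hSE) (Multiset.map_le_map hSE)) hE) (by
      intro q hq
      rcases Multiset.mem_add.1 hq with hq | hq
      · obtain ⟨e, he, rfl⟩ := Multiset.mem_map.1 hq
        exact hSp e he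
      · obtain ⟨e, he, rfl⟩ := Multiset.mem_map.1 hq
        exact htr _ _ _ (hSp e he) (hS e (Multiset.mem_of_le hSE he)))
  rw [Multiset.card_add, Multiset.card_map, Multiset.card_map] at h
  omega

open Classical in
/-- the ends of an edge in the class of `p` -/
theorem pair (h2 : EDS_Stmt) (BR : Multiset (ℚ × ℚ)) (EG : Multiset ((ℚ × ℚ) × (ℚ × ℚ)))
    (p : ℚ × ℚ)
    (hp : ∀ s : Multiset (ℚ × ℚ), s ≤ BR → (∀ q ∈ s, Se p q) → s.card ≤ 2)
    (hE : EG.map Prod.fst + EG.map Prod.snd ≤ BR) (hS : ∀ e ∈ EG, Se e.1 e.2)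
    (e : (ℚ × ℚ) × (ℚ × ℚ)) (he : e ∈ EG) (hpe : Se p e.1) :
    uo e = BR.filter fun q => Se p q := by
  have htr := h2.2.2.1.2.2
  have a0 : uo e ≤ BR := by
    have e1 : uo e = {e.1} + {e.2} := rfl
    have h1 : ({e.1} : Multiset (ℚ × ℚ)) ≤ EG.map Prod.fst :=
      Multiset.singleton_le.2 (Multiset.mem_map_of_mem Prod.fst he)
    have h2 : ({e.2} : Multiset (ℚ × ℚ)) ≤ EG.map Prod.snd :=
      Multiset.singleton_le.2 (Multiset.mem_map_of_mem Prod.snd he)
    rw [e1]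
    exact le_trans (add_le_add h1 h2) hE
  have a1 : uo e ≤ BR.filter fun q => Se p q := by
    refine Multiset.le_filter.2 ⟨a0, fun r hr => ?_⟩
    unfold uo at hr
    rw [Multiset.insert_eq_cons, Multiset.mem_cons, Multiset.mem_singleton] at hr
    rcases hr with rfl | rfl
    · exact hpe
    · exact htr _ _ _ hpe (hS e he)
  have hc := hp (BR.filter fun q => Se p q) (Multiset.filter_le _ _)
    (fun r hr => (Multiset.mem_filter.1 hr).2)
  exact Multiset.eq_of_le_of_card_le a1 hc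

theorem prT_f2 (h2 : EDS_Stmt) (U : Tr) (hU : U.Rat) :
    Eqf (fmv (prT U).1 (prT U).2) (f2 U) := by
  have hrf : ∀ f : ℤ → ℤ → ℚ, Eqf f f := fun f => ⟨1, 0, 0, 1, by norm_num, fun x y => by
    simp⟩
  have htr := h2.2.2.2.2.1.2
  obtain ⟨g1, -, g3⟩ := h2.2.2.2.2.2.1
  cases U with
  | pw e => exact hrf _
  | cons a b =>
    have hb : b.kids = 0 := hU.2
    cases b with
    | cons c d =>
      exfalso
      have : (Tr.cons c d).kids = d.kids + 1 := rfl
      omega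
    | pw e =>
      have e1 : addv ((0, 1) : ℤ × ℤ) (-e, 1) = (-e, 1) := by
        unfold addv
        simp
      have k := g3 (rv (vec a)) (0, 1) (-e)
      rw [e1] at k
      exact htr _ _ _ (h2.2.2.2.2.1.1 _ _ k) (g1 _ _)

theorem prT_one : Eqf (fmv (prT (Tr.pw 1)).1 (prT (Tr.pw 1)).2) fun x y => ((x * y : ℤ) : ℚ) := by
  refine ⟨1, 0, -1, -1, by norm_num, fun x y => ?_⟩
  have e : prT (Tr.pw 1) = ((0, 1), (-1, 1)) := rfl
  rw [e]
  unfold fmv dt addv
  simp only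
  push_cast
  ring

/-- the number of the rational trees in a class -/
theorem Wn (p : ℚ × ℚ) (Ws : List Tr) :
    ∃ w : ℕ, (Ws.map fun U => Fc p (prT U).1 (prT U).2).sum = (w : ℂ) := by
  induction Ws with
  | nil => exact ⟨0, by simp⟩
  | cons a l ih =>
    obtain ⟨w, hw⟩ := ih
    by_cases h : Eqf (fm p.1 p.2) (fmv (prT a).1 (prT a).2)
    · refine ⟨w + 1, ?_⟩
      rw [List.map_cons, List.sum_cons, hw]
      unfold Fc
      rw [if_pos h]
      push_cast
      ring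
    · refine ⟨w, ?_⟩
      rw [List.map_cons, List.sum_cons, hw]
      unfold Fc
      rw [if_neg h, zero_add]

theorem W0 (p : ℚ × ℚ) (Ws : List Tr)
    (h : ∀ U ∈ Ws, ¬ Eqf (fm p.1 p.2) (fmv (prT U).1 (prT U).2)) :
    (Ws.map fun U => Fc p (prT U).1 (prT U).2).sum = 0 := by
  induction Ws with
  | nil => simp
  | cons a l ih =>
    rw [List.map_cons, List.sum_cons, ih fun U hU => h U (by simp [hU])]
    unfold Fc
    rw [if_neg (h a (by simp)), zero_add]

/-- a nontrivial edge has no 2-bridge knot in its class -/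
theorem noW (h2 : EDS_Stmt) {Gs Us : List Tr} (a : ℕ) (hN : NdS Gs Us)
    (e : (ℚ × ℚ) × (ℚ × ℚ)) (he : e ∈ EG0 Gs)
    (hn : ¬ Eqf (fm e.1.1 e.1.2) fun x y => ((x * y : ℤ) : ℚ)) :
    ((Us ++ List.replicate a (Tr.pw 1)).map fun U => Fc e.1 (prT U).1 (prT U).2).sum = 0 := by
  have htr := h2.2.2.2.2.1.2
  refine W0 _ _ fun U hU hq => ?_
  rcases List.mem_append.1 hU with hU | hU
  · exact hN.two e he U hU (htr _ _ _ hq (prT_f2 h2 U (hN.rat U hU)))
  · have : U = Tr.pw 1 := List.eq_of_mem_replicate hU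
    rw [this] at hq
    exact hn (htr _ _ _ hq prT_one)

open Classical in
theorem dir (h2 : EDS_Stmt) {Gs Us : List Tr} (Gs' Ws' : List Tr) (a : ℕ) (hN : NdS Gs Us)
    (H : ∀ p : ℚ × ℚ,
      ((EG0 Gs).map fun e => ic p e.1).sum -
          ((Us ++ List.replicate a (Tr.pw 1)).map fun U => Fc p (prT U).1 (prT U).2).sum =
        ((EG0 Gs').map fun e => ic p e.1).sum -
          (Ws'.map fun U => Fc p (prT U).1 (prT U).2).sum)
    (e : (ℚ × ℚ) × (ℚ × ℚ)) (he : e ∈ EG0 Gs)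
    (hn : ¬ Eqf (fm e.1.1 e.1.2) fun x y => ((x * y : ℤ) : ℚ)) :
    ∃ e' ∈ EG0 Gs', Se e.1 e'.1 := by
  have h := H e.1
  obtain ⟨w, hw⟩ := Wn e.1 Ws'
  rw [noW h2 a hN e he hn, hw, MATE.sum_ic, MATE.sum_ic, sub_zero] at h
  have h' : ((EG0 Gs).filter fun f => Se e.1 f.1).card + w =
      ((EG0 Gs').filter fun f => Se e.1 f.1).card := by
    have h'' : ((((EG0 Gs).filter fun f => Se e.1 f.1).card : ℂ)) + w =
        (((EG0 Gs').filter fun f => Se e.1 f.1).card : ℂ) := by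
      rw [h]
      ring
    exact_mod_cast h''
  have h3 : 0 < ((EG0 Gs).filter fun f => Se e.1 f.1).card :=
    Multiset.card_pos_iff_exists_mem.2 ⟨e, Multiset.mem_filter.2 ⟨he, h2.2.2.1.1 _⟩⟩
  have h4 : 0 < ((EG0 Gs').filter fun f => Se e.1 f.1).card := by omega
  obtain ⟨e', he'⟩ := Multiset.card_pos_iff_exists_mem.1 h4
  exact ⟨e', (Multiset.mem_filter.1 he').1, (Multiset.mem_filter.1 he').2⟩

end EQL

open Classical in
theorem t_EQL (h1 : EGA_Stmt) (h2 : EDS_Stmt) (h3 : CRD_Stmt) : EQL_Stmt := by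
  intro Gs Us Gs' Us' a b hN hN' hv hEd hl hVS H
  obtain ⟨hrf, hsy, htr⟩ := h2.2.2.1
  have ega : ∀ (l : List Tr) (V : List Tr), NdS l V → (∀ t ∈ l, (vec t).1 ≠ 0) →
      (∀ e ∈ EG0 l, Se e.1 e.2) ∧ (EG0 l).map Prod.fst + (EG0 l).map Prod.snd ≤ BR0 l := by
    intro l V hl hv
    have k : ∀ T ∈ l, (∀ e ∈ eg0 T, Se e.1 e.2) ∧
        br0 T = rb0 T + (eg0 T).map Prod.fst + (eg0 T).map Prod.snd := fun T hT =>
      h1 T (hl.root T hT) (hv T hT) fun x hx => hl.wt x ((EQL.mem_ls vt0 l x).2 ⟨T, hT, hx⟩)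
    refine ⟨fun e he => ?_, ?_⟩
    · obtain ⟨T, hT, h⟩ := (EQL.mem_ls eg0 l e).1 he
      exact (k T hT).1 e h
    · rw [EQL.br_eq l fun T hT => (k T hT).2]
      exact le_add_of_nonneg_left (Multiset.zero_le _)
  obtain ⟨hS, hE⟩ := ega Gs Us hN fun t ht => hv t (by simp [ht])
  obtain ⟨hS', hE'⟩ := ega Gs' Us' hN' fun t ht => hv t (by simp [ht])
  have hBR : BR0 Gs = BR0 Gs' := by rw [EQL.br_vs, EQL.br_vs, hVS]
  rw [← hBR] at hE'
  -- pairs in the class of an edge of `Gs`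
  have pr : ∀ e ∈ EG0 Gs, ∀ f ∈ EG0 Gs, Se e.1 f.1 → uo f = uo e := by
    intro e he f hf hef
    rw [EQL.pair h2 (BR0 Gs) (EG0 Gs) e.1 (hEd e he) hE hS f hf hef,
      EQL.pair h2 (BR0 Gs) (EG0 Gs) e.1 (hEd e he) hE hS e he (hrf _)]
  have pr' : ∀ e ∈ EG0 Gs, ∀ f ∈ EG0 Gs', Se e.1 f.1 → uo f = uo e := by
    intro e he f hf hef
    rw [EQL.pair h2 (BR0 Gs) (EG0 Gs') e.1 (hEd e he) hE' hS' f hf hef,
      EQL.pair h2 (BR0 Gs) (EG0 Gs) e.1 (hEd e he) hE hS e he (hrf _)]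
  have on : ∀ e ∈ EG0 Gs, ∀ S ≤ EG0 Gs, (∀ f ∈ S, Se e.1 f.1) → S.card ≤ 1 :=
    fun e he S hSE hSp => EQL.one h2 (BR0 Gs) (EG0 Gs) e.1 (hEd e he) hE hS S hSE hSp
  have on' : ∀ e ∈ EG0 Gs, ∀ S ≤ EG0 Gs', (∀ f ∈ S, Se e.1 f.1) → S.card ≤ 1 :=
    fun e he S hSE hSp => EQL.one h2 (BR0 Gs) (EG0 Gs') e.1 (hEd e he) hE' hS' S hSE hSp
  have uoS : ∀ e f : (ℚ × ℚ) × (ℚ × ℚ), Se e.1 e.2 → uo f = uo e → Se e.1 f.1 := by
    intro e f he h
    have m : f.1 ∈ uo f := by
      unfold uo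
      simp
    rw [h] at m
    unfold uo at m
    rw [Multiset.insert_eq_cons, Multiset.mem_cons, Multiset.mem_singleton] at m
    rcases m with m | m
    · rw [m]
      exact hrf _
    · rw [m]
      exact he
  -- the nontrivial edges
  set nt : (ℚ × ℚ) × (ℚ × ℚ) → Prop := fun e =>
    ¬ Eqf (fm e.1.1 e.1.2) fun x y => ((x * y : ℤ) : ℚ) with hnt
  have ntS : ∀ e f : (ℚ × ℚ) × (ℚ × ℚ), Se e.1 f.1 → nt e → nt f := fun e f h k k' =>
    k (h2.2.2.2.2.1.2 _ _ _ h k')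
  have d1 : ∀ e ∈ EG0 Gs, nt e → ∃ e' ∈ EG0 Gs', Se e.1 e'.1 := fun e he hn =>
    EQL.dir h2 Gs' _ a hN H e he hn
  have d2 : ∀ e ∈ EG0 Gs', nt e → ∃ e' ∈ EG0 Gs, Se e.1 e'.1 := fun e he hn =>
    EQL.dir h2 Gs _ b hN' (fun p => (H p).symm) e he hn
  have nd1 : ((EG0 Gs).filter nt |>.map uo).Nodup := by
    rw [Multiset.nodup_iff_count_le_one]
    intro u
    rw [Multiset.count_map]
    by_contra hc
    push Not at hc
    obtain ⟨e, he⟩ := Multiset.card_pos_iff_exists_mem.1 (lt_trans zero_lt_one hc)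
    obtain ⟨he1, he2⟩ := Multiset.mem_filter.1 he
    have he3 := (Multiset.mem_filter.1 he1).1
    have := on e he3 _ (le_trans (Multiset.filter_le _ _) (Multiset.filter_le _ _))
      (fun f (hf : f ∈ ((EG0 Gs).filter nt).filter fun x => u = uo x) => by
        obtain ⟨hf1, hf2⟩ := Multiset.mem_filter.1 hf
        exact uoS e f (hS e he3) (hf2.symm.trans he2))
    omega
  have nd2 : ((EG0 Gs').filter nt |>.map uo).Nodup := by
    rw [Multiset.nodup_iff_count_le_one]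
    intro u
    rw [Multiset.count_map]
    by_contra hc
    push Not at hc
    obtain ⟨e, he⟩ := Multiset.card_pos_iff_exists_mem.1 (lt_trans zero_lt_one hc)
    obtain ⟨he1, he2⟩ := Multiset.mem_filter.1 he
    obtain ⟨he3, he4⟩ := Multiset.mem_filter.1 he1
    obtain ⟨g, hg, hg2⟩ := d2 e he3 he4
    have := on' g hg _ (le_trans (Multiset.filter_le _ _) (Multiset.filter_le _ _))
      (fun f (hf : f ∈ ((EG0 Gs').filter nt).filter fun x => u = uo x) => by
        obtain ⟨hf1, hf2⟩ := Multiset.mem_filter.1 hf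
        exact htr _ _ _ (hsy _ _ hg2) (uoS e f (hS' e he3) (hf2.symm.trans he2)))
    omega
  have eqn : ((EG0 Gs).filter nt).map uo = ((EG0 Gs').filter nt).map uo := by
    refine (Multiset.Nodup.ext nd1 nd2).2 fun u => ?_
    rw [Multiset.mem_map, Multiset.mem_map]
    constructor
    · rintro ⟨e, he, rfl⟩
      obtain ⟨he1, he2⟩ := Multiset.mem_filter.1 he
      obtain ⟨e', he', k⟩ := d1 e he1 he2
      exact ⟨e', Multiset.mem_filter.2 ⟨he', ntS e e' k he2⟩, pr' e he1 e' he' k⟩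
    · rintro ⟨e, he, rfl⟩
      obtain ⟨he1, he2⟩ := Multiset.mem_filter.1 he
      obtain ⟨e', he', k⟩ := d2 e he1 he2
      exact ⟨e', Multiset.mem_filter.2 ⟨he', ntS e e' k he2⟩, (pr' e' he' e he1 (hsy _ _ k)).symm⟩
  have spl : ∀ S : Multiset ((ℚ × ℚ) × (ℚ × ℚ)),
      S = S.filter nt + S.filter fun e => ¬ nt e := fun S => (Multiset.filter_add_not nt S).symm
  have main : (EG0 Gs).map uo = (EG0 Gs').map uo := by
    rw [spl (EG0 Gs), spl (EG0 Gs'), Multiset.map_add, Multiset.map_add, eqn]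
    congr 1
    rcases hl with hl | ⟨n1, n2⟩
    · have c1 := EQL.card_eg h3 Gs hN.root
      have c2 := EQL.card_eg h3 Gs' hN'.root
      have c3 : (EG0 Gs).card = (EG0 Gs').card := by
        rw [hVS] at c1
        omega
      have c4 := congrArg Multiset.card eqn
      rw [Multiset.card_map, Multiset.card_map] at c4
      have c5 : ((EG0 Gs).filter fun e => ¬ nt e).card =
          ((EG0 Gs').filter fun e => ¬ nt e).card := by
        have k1 := congrArg Multiset.card (spl (EG0 Gs))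
        have k2 := congrArg Multiset.card (spl (EG0 Gs'))
        rw [Multiset.card_add] at k1 k2
        omega
      by_cases c6 : ((EG0 Gs).filter fun e => ¬ nt e).card = 0
      · rw [c6] at c5
        rw [Multiset.card_eq_zero.1 c6, Multiset.card_eq_zero.1 c5.symm]
      · obtain ⟨e, he⟩ := Multiset.card_pos_iff_exists_mem.1 (Nat.pos_of_ne_zero c6)
        obtain ⟨he1, he2⟩ := Multiset.mem_filter.1 he
        have tr1 : ∀ f : (ℚ × ℚ) × (ℚ × ℚ), ¬ nt f → Se e.1 f.1 := fun f hf =>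
          h2.2.2.2.2.1.2 _ _ _ (not_not.1 he2) (h2.2.2.2.2.1.1 _ _ (not_not.1 hf))
        have o1 := on e he1 ((EG0 Gs).filter fun e => ¬ nt e) (Multiset.filter_le _ _)
          fun f hf => tr1 f (Multiset.mem_filter.1 hf).2
        have o2 : ((EG0 Gs).filter fun e => ¬ nt e).card = 1 := by omega
        obtain ⟨x, hx⟩ := Multiset.card_eq_one.1 o2
        obtain ⟨y, hy⟩ := Multiset.card_eq_one.1 (c5.symm.trans o2)
        rw [hx, hy, Multiset.map_singleton, Multiset.map_singleton]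
        have mx : x ∈ ((EG0 Gs).filter fun e => ¬ nt e) := by rw [hx]; simp
        have my : y ∈ ((EG0 Gs').filter fun e => ¬ nt e) := by rw [hy]; simp
        obtain ⟨mx1, mx2⟩ := Multiset.mem_filter.1 mx
        obtain ⟨my1, my2⟩ := Multiset.mem_filter.1 my
        rw [pr e he1 x mx1 (tr1 x mx2), pr' e he1 y my1 (tr1 y my2)]
    · have z1 : ((EG0 Gs).filter fun e => ¬ nt e) = 0 :=
        Multiset.filter_eq_nil.2 fun e he h => h (n1 e he)
      have z2 : ((EG0 Gs').filter fun e => ¬ nt e) = 0 :=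
        Multiset.filter_eq_nil.2 fun e he h => h (n2 e he)
      rw [z1, z2]
  refine ⟨main, fun e' he' s hs hq => ?_⟩
  have m : uo e' ∈ (EG0 Gs).map uo := by
    rw [main]
    exact Multiset.mem_map_of_mem uo he'
  obtain ⟨e, he, k⟩ := Multiset.mem_map.1 m
  rw [← hBR] at hs
  exact hEd e he s hs fun q hqs => htr _ _ _ (uoS e e' (hS e he) k.symm) (hq q hqs)

end Pool.Agent.TZ
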