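import Pool.Agent.TZ.StT
import Pool.Agent.TZ.Eql

/-!
Theorem Z3 (MP_31fd3b_gt), module EQM: if no edge of the first list is trivial then the edges of the
second list are not trivial and not in the classes of the 2-bridge knots.
-/

open scoped BigOperators

namespace Pool.Agent.TZ

open Pool.Agent.LibH11.Sliced Pool.Agent.MTR Pool.Agent.MTA Pool.Agent.UA Pool.Agent.UB
open Pool.Agent.TwoBr Pool.Agent.Mont Pool.Agent.TV Pool.Agent.TW
open Pool.Agent.TB hiding vec

namespace EQM

open Classical in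
theorem card_filter {α : Type} (s : Multiset α) (p : α → Prop) :
    (s.filter p).card = (s.map fun x => if p x then 1 else 0).sum := by
  induction s using Multiset.induction_on with
  | empty => simp
  | cons a s ih =>
    by_cases h : p a
    · rw [Multiset.filter_cons_of_pos _ h, Multiset.card_cons, ih, Multiset.map_cons,
        Multiset.sum_cons, if_pos h]
      ring
    · rw [Multiset.filter_cons_of_neg _ h, ih, Multiset.map_cons, Multiset.sum_cons, if_neg h]
      ring

open Classical in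
/-- double counting -/
theorem double {α β : Type} (A : Multiset α) (B : Multiset β) (R : α → β → Prop) :
    (A.map fun a => (B.filter fun b => R a b).card).sum =
      (B.map fun b => (A.filter fun a => R a b).card).sum := by
  simp only [card_filter]
  exact Multiset.sum_map_sum_map A B

theorem sum_le_card {β : Type} (B : Multiset β) (m : β → ℕ) (hm : ∀ b ∈ B, m b ≤ 1) :
    (B.map m).sum ≤ B.card := by
  induction B using Multiset.induction_on with
  | empty => simp
  | cons b B ih =>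
    rw [Multiset.map_cons, Multiset.sum_cons, Multiset.card_cons]
    have h1 := hm b (Multiset.mem_cons_self _ _)
    have h2 := ih fun c hc => hm c (Multiset.mem_cons_of_mem hc)
    omega

theorem all_one {β : Type} (B : Multiset β) (m : β → ℕ) (hm : ∀ b ∈ B, m b ≤ 1)
    (hs : B.card ≤ (B.map m).sum) : ∀ b ∈ B, m b = 1 := by
  intro b hb
  obtain ⟨B', rfl⟩ := Multiset.exists_cons_of_mem hb
  rw [Multiset.map_cons, Multiset.sum_cons, Multiset.card_cons] at hs
  have h1 := hm b (Multiset.mem_cons_self _ _)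
  have h2 := sum_le_card B' m fun c hc => hm c (Multiset.mem_cons_of_mem hc)
  omega

open Classical in
/-- the number of the rational trees in a class -/
theorem Wc (p : ℚ × ℚ) (Ws : List Tr) :
    (Ws.map fun U => Fc p (prT U).1 (prT U).2).sum =
      (((Ws.filter fun U => Eqf (fm p.1 p.2) (fmv (prT U).1 (prT U).2)).length : ℕ) : ℂ) := by
  induction Ws with
  | nil => simp
  | cons a l ih =>
    by_cases h : Eqf (fm p.1 p.2) (fmv (prT a).1 (prT a).2)
    · rw [List.map_cons, List.sum_cons, ih, List.filter_cons_of_pos (by simpa using h),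
        List.length_cons]
      unfold Fc
      rw [if_pos h]
      push_cast
      ring
    · rw [List.map_cons, List.sum_cons, ih, List.filter_cons_of_neg (by simpa using h)]
      unfold Fc
      rw [if_neg h, zero_add]

end EQM

open Classical in
theorem t_EQM (h1 : EGA_Stmt) (h2 : EDS_Stmt) (h3 : CRD_Stmt) : EQM_Stmt := by
  intro Gs Us Gs' Us' a b hN hP _ hv hEd hNt hlen hVS H
  obtain ⟨hrf, hsy, htr⟩ := h2.2.2.1
  have hft := h2.2.2.2.2.1.2
  have k : ∀ T ∈ Gs, (∀ e ∈ eg0 T, Se e.1 e.2) ∧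
      br0 T = rb0 T + (eg0 T).map Prod.fst + (eg0 T).map Prod.snd := fun T hT =>
    h1 T (hN.root T hT) (hv T (by simp [hT])) fun x hx =>
      hN.wt x ((EQL.mem_ls vt0 Gs x).2 ⟨T, hT, hx⟩)
  have hS : ∀ e ∈ EG0 Gs, Se e.1 e.2 := fun e he => by
    obtain ⟨T, hT, h⟩ := (EQL.mem_ls eg0 Gs e).1 he
    exact (k T hT).1 e h
  have hE : (EG0 Gs).map Prod.fst + (EG0 Gs).map Prod.snd ≤ BR0 Gs := by
    rw [EQL.br_eq Gs fun T hT => (k T hT).2]
    exact le_add_of_nonneg_left (Multiset.zero_le _)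
  have on : ∀ e ∈ EG0 Gs, ∀ S ≤ EG0 Gs, (∀ f ∈ S, Se e.1 f.1) → S.card ≤ 1 :=
    fun e he S hSE hSp => EQL.one h2 (BR0 Gs) (EG0 Gs) e.1 (hEd e he) hE hS S hSE hSp
  -- the number of the 2-bridge knots in a class
  obtain ⟨w, hw⟩ : ∃ w : (ℚ × ℚ) × (ℚ × ℚ) → ℕ, w = fun e =>
      ((Us' ++ List.replicate b (Tr.pw 1)).filter fun U =>
        Eqf (fm e.1.1 e.1.2) (fmv (prT U).1 (prT U).2)).length := ⟨_, rfl⟩
  have cnt : ∀ e ∈ EG0 Gs, ((EG0 Gs').filter fun f => Se e.1 f.1).card = 1 + w e := by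
    intro e he
    have h := H e.1
    rw [EQL.noW h2 a hN e he (hNt e he), EQM.Wc, MATE.sum_ic, MATE.sum_ic, sub_zero] at h
    have h' : ((EG0 Gs).filter fun f => Se e.1 f.1).card + w e =
        ((EG0 Gs').filter fun f => Se e.1 f.1).card := by
      have h'' : ((((EG0 Gs).filter fun f => Se e.1 f.1).card : ℂ)) + (w e : ℕ) =
          (((EG0 Gs').filter fun f => Se e.1 f.1).card : ℂ) := by
        rw [h, hw]
        ring
      exact_mod_cast h''
    have h4 : 0 < ((EG0 Gs).filter fun f => Se e.1 f.1).card :=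
      Multiset.card_pos_iff_exists_mem.2 ⟨e, Multiset.mem_filter.2 ⟨he, hrf _⟩⟩
    have h5 := on e he ((EG0 Gs).filter fun f => Se e.1 f.1) (Multiset.filter_le _ _)
      fun f hf => (Multiset.mem_filter.1 hf).2
    omega
  -- double counting
  obtain ⟨m, hm⟩ : ∃ m : (ℚ × ℚ) × (ℚ × ℚ) → ℕ, m = fun f =>
      ((EG0 Gs).filter fun e => Se e.1 f.1).card := ⟨_, rfl⟩
  have hm1 : ∀ f ∈ EG0 Gs', m f ≤ 1 := by
    intro f _
    rw [hm]
    by_contra hc
    simp only [not_le] at hc
    obtain ⟨e, he⟩ := Multiset.card_pos_iff_exists_mem.1 (lt_trans zero_lt_one hc)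
    obtain ⟨he1, he2⟩ := Multiset.mem_filter.1 he
    have := on e he1 ((EG0 Gs).filter fun e => Se e.1 f.1) (Multiset.filter_le _ _)
      fun g hg => htr _ _ _ he2 (hsy _ _ (Multiset.mem_filter.1 hg).2)
    omega
  have hdc : ((EG0 Gs).map fun e => 1 + w e).sum = ((EG0 Gs').map m).sum := by
    have e1 := EQM.double (EG0 Gs) (EG0 Gs') fun e f => Se e.1 f.1
    rw [← hm] at e1
    rw [← e1]
    exact congrArg Multiset.sum (Multiset.map_congr rfl fun e he => (cnt e he).symm)
  have hA : ((EG0 Gs).map fun e => 1 + w e).sum = (EG0 Gs).card + ((EG0 Gs).map w).sum := by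
    rw [Multiset.sum_map_add]
    simp
  have hB := EQM.sum_le_card (EG0 Gs') m hm1
  have c1 := EQL.card_eg h3 Gs hN.root
  have c2 := EQL.card_eg h3 Gs' hP.root
  rw [hVS] at c1
  have hW0 : ((EG0 Gs).map w).sum = 0 := by omega
  have hw0 : ∀ e ∈ EG0 Gs, w e = 0 := fun e he =>
    Multiset.sum_eq_zero_iff.1 hW0 (w e) (Multiset.mem_map_of_mem w he)
  have hone := EQM.all_one (EG0 Gs') m hm1 (by omega)
  have par : ∀ f ∈ EG0 Gs', ∃ e ∈ EG0 Gs, Se e.1 f.1 := by
    intro f hf
    have h := hone f hf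
    rw [hm] at h
    have h' : 0 < ((EG0 Gs).filter fun e => Se e.1 f.1).card := lt_of_lt_of_eq zero_lt_one h.symm
    obtain ⟨e, he⟩ := Multiset.card_pos_iff_exists_mem.1 h'
    exact ⟨e, (Multiset.mem_filter.1 he).1, (Multiset.mem_filter.1 he).2⟩
  refine ⟨?_, ?_⟩
  · intro f hf U hU hq
    obtain ⟨e, he, hef⟩ := par f hf
    have h := hw0 e he
    rw [hw] at h
    have h4 := List.eq_nil_of_length_eq_zero h
    have h5 : U ∈ (Us' ++ List.replicate b (Tr.pw 1)).filter fun U =>
        Eqf (fm e.1.1 e.1.2) (fmv (prT U).1 (prT U).2) := by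
      rw [List.mem_filter]
      refine ⟨List.mem_append_left _ hU, ?_⟩
      have h6 : Eqf (fm e.1.1 e.1.2) (fmv (prT U).1 (prT U).2) :=
        hft _ _ _ hef (hft _ _ _ hq (h2.2.2.2.2.1.1 _ _ (EQL.prT_f2 h2 U (hP.rat U hU))))
      exact decide_eq_true h6
    rw [h4] at h5
    exact absurd h5 List.not_mem_nil
  · intro f hf hq
    obtain ⟨e, he, hef⟩ := par f hf
    exact hNt e he (hft _ _ _ hef hq)

end Pool.Agent.TZ
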