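import Pool.Agent.TZ.StS
import Pool.Agent.TW.Nle
import Pool.Agent.TV.Vts

/-!
Theorem Z2 (MP_31fd3b_gt), module EVG: the value of the combination of a closed tree for every
symmetric function.
-/

open scoped BigOperators

namespace Pool.Agent.TZ

open Pool.Agent.LibH11.Sliced Pool.Agent.MTR Pool.Agent.MTA Pool.Agent.UA Pool.Agent.UB
open Pool.Agent.TwoBr Pool.Agent.Mont Pool.Agent.TV Pool.Agent.TW
open Pool.Agent.TB hiding vec

namespace Evg

/-- the contribution of a vertex -/
noncomputable def Wt (G : ℚ × ℚ → ℂ) (x : (ℤ × ℤ) × Multiset ℚ) : ℂ :=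
  -((x.2.card : ℂ) - 2) * G (slp x.1, 0)

/-- the contributions of the vertices and of the rational branches -/
noncomputable def Rs (G : ℚ × ℚ → ℂ) (T : Tr) (acc : Multiset ℚ) (f : Bool) (L : ℤ × ℤ) : ℂ :=
  ((vt T acc f L).map (Wt G)).sum + ((rb T f L).map G).sum

theorem addv_assoc' (P V W : ℤ × ℤ) : addv (addv P V) W = addv P (addv V W) := by
  unfold addv
  ext
  · simp only
    ring
  · simp only
    ring

theorem addv_right_comm (P V W : ℤ × ℤ) : addv (addv P V) W = addv (addv P W) V := by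
  unfold addv
  ext
  · simp only
    ring
  · simp only
    ring

theorem slp_addv (P V : ℤ × ℤ) (h1 : P.2 ≠ 0) (h2 : V.2 ≠ 0) :
    slp P + slp V = slp (addv P V) := by
  have h1' : (P.2 : ℚ) ≠ 0 := by exact_mod_cast h1
  have h2' : (V.2 : ℚ) ≠ 0 := by exact_mod_cast h2
  unfold slp addv
  push_cast
  field_simp

theorem slp_one : slp (0, 1) = 0 := by
  unfold slp
  simp

theorem dt_one' (t : ℤ × ℤ) : dt t (0, 1) = t.1 := by
  unfold dt addv
  simp only
  ring

/-- the value at the total vector -/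
theorem val_tot {D : ℤ} {F : ℤ × ℤ → ℤ × ℤ → ℂ} {G : ℚ × ℚ → ℂ} (hG : Gv D F G) (t : ℤ × ℤ)
    (ht : t.2 ≠ 0) (ht1 : t.1 ≠ 0) (htd : t.1 ∣ D) :
    F t (0, 1) = G (slp t, 0) := by
  have h2 : dt t (0, 1) ≠ 0 := by
    rw [dt_one']
    exact ht1
  rw [hG t (0, 1) ht one_ne_zero h2 (by rw [dt_one']; exact htd), slp_one, add_zero,
    Int.fract_zero]

theorem Rs_pw (G : ℚ × ℚ → ℂ) (e : ℤ) (acc : Multiset ℚ) (L : ℤ × ℤ) :
    Rs G (.pw e) acc true L = -((acc.card : ℂ) - 2) * G (slp (addv L (-e, 1)), 0) := by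
  simp [Rs, vt, rb, Wt]

theorem Rs_pw_false (G : ℚ × ℚ → ℂ) (e : ℤ) (acc : Multiset ℚ) (L : ℤ × ℤ) :
    Rs G (.pw e) acc false L = 0 := by
  simp [Rs, vt, rb]

theorem Rs_cons (G : ℚ × ℚ → ℂ) (a b : Tr) (acc : Multiset ℚ) (f : Bool) (L : ℤ × ℤ) :
    Rs G (.cons a b) acc f L =
      ((rb1 (slp (addv L (vec (.cons a b)))) f a (rv (addv L (vec b)))).map G).sum +
      Rs G a {Int.fract (slp (rv (addv L (vec b))))} (decide (2 ≤ a.kids))
        (rv (addv L (vec b))) +
      Rs G b (Int.fract (slp (rv (vec a))) ::ₘ acc) f (addv L (rv (vec a))) := by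
  unfold Rs
  rw [vt, rb]
  simp only [Multiset.map_add, Multiset.sum_add]
  ring

/-- claim A -/
def CA (D : ℤ) (F : ℤ × ℤ → ℤ × ℤ → ℂ) (G : ℚ × ℚ → ℂ) (T : Tr) : Prop :=
  ∀ (L : ℤ × ℤ) (acc : Multiset ℚ), dt L (vec T) ∣ D →
    (∀ x ∈ vt T acc true L, x.1.2 ≠ 0) →
    evF F (NL L T) - F L (vec T) =
      Rs G T acc true L + ((acc.card : ℂ) - 1) * F (addv L (vec T)) (0, 1)

/-- claim B -/
def CB (D : ℤ) (F : ℤ × ℤ → ℤ × ℤ → ℂ) (G : ℚ × ℚ → ℂ) (a : Tr) : Prop :=
  ∀ (C : ℤ × ℤ) (β : ℚ), dt C (vec a) ∣ D →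
    (∀ x ∈ vt a {β} (decide (2 ≤ a.kids)) C, x.1.2 ≠ 0) →
    evF F (NL C a) - F C (vec a) =
      Rs G a {β} (decide (2 ≤ a.kids)) C + (if top a C = none then F C (vec a) else 0)

theorem ca_pw {D : ℤ} {F : ℤ × ℤ → ℤ × ℤ → ℂ} {G : ℚ × ℚ → ℂ} (hG : Gv D F G)
    (hD : D ≠ 0) (hF : Sym D F) (e : ℤ) :
    CA D F G (.pw e) := by
  intro L acc hd hx
  have ht : (addv L (-e, 1)).2 ≠ 0 := by
    have := hx (addv L (-e, 1), acc) (by simp [vt])
    exact this
  have hd0 : dt L (vec (.pw e)) ≠ 0 := fun h0 => hD (by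
    rw [h0] at hd
    exact zero_dvd_iff.1 hd)
  have ht1 : (addv L (-e, 1)).1 ≠ 0 := hd0
  have e1 : F (addv L (-e, 1)) (0, 1) = F L (-e, 1) := by
    have h := hF.shift L (0, 1) (-e) (by
      rw [Nle.zero_addv]
      exact hd)
    rw [Nle.zero_addv] at h
    exact h
  have e2 := val_tot hG (addv L (-e, 1)) ht ht1 hd
  rw [Nle.NL_pw, Rs_pw]
  show 2 * F L (-e, 1) - F L (-e, 1) = _ + _ * F (addv L (-e, 1)) (0, 1)
  rw [← e2, e1]
  ring

theorem ca_cons (h3 : VST_Stmt) {D : ℤ} {F : ℤ × ℤ → ℤ × ℤ → ℂ} {G : ℚ × ℚ → ℂ}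
    (hG : Gv D F G) (hD : D ≠ 0) (hF : Sym D F) (a b : Tr) (ha : CB D F G a) (hb : CA D F G b) : CA D F G (.cons a b) := by
  intro L acc hd hx
  have htop : (addv L (vec (.cons a b))).2 ≠ 0 := by
    refine hx (addv L (vec (.cons a b)), acc + cf (.cons a b)) ?_
    rw [(h3.1 (.cons a b) acc L).1]
    exact Multiset.mem_cons_self _ _
  have hd0 : dt L (vec (.cons a b)) ≠ 0 := fun h0 => hD (by
    rw [h0] at hd
    exact zero_dvd_iff.1 hd)
  -- the determinants
  have da := Vts.det_a L a b
  have db := Vts.det_b L a b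
  have dc := Vts.det_c L a b
  -- the total vectors
  have t1 : addv (addv L (rv (vec a))) (vec b) = addv L (vec (.cons a b)) := by
    rw [addv_assoc']
    rfl
  have t2 : addv (addv L (vec b)) (rv (vec a)) = addv L (vec (.cons a b)) := by
    rw [addv_right_comm]
    exact t1
  have hx2 : ∀ x ∈ vt a {Int.fract (slp (rv (addv L (vec b))))} (decide (2 ≤ a.kids))
      (rv (addv L (vec b))), x.1.2 ≠ 0 := by
    intro x hxx
    apply hx
    rw [vt]
    exact Multiset.mem_add.mpr (Or.inl hxx)
  have hx3 : ∀ x ∈ vt b (Int.fract (slp (rv (vec a))) ::ₘ acc) true (addv L (rv (vec a))),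
      x.1.2 ≠ 0 := by
    intro x hxx
    apply hx
    rw [vt]
    exact Multiset.mem_add.mpr (Or.inr hxx)
  have eA := ha (rv (addv L (vec b))) _ (by rw [da]; exact hd) hx2
  have eB := hb (addv L (rv (vec a))) _ (by rw [db]; exact hd) hx3
  rw [t1, Multiset.card_cons] at eB
  -- the vertex
  have hne : (tot (L, rv (vec a), vec b)).2 ≠ 0 := by
    have : tot (L, rv (vec a), vec b) = addv L (vec (.cons a b)) := t1
    rw [this]
    exact htop
  have eN := Nle.evF_nv_ne (F := F) L (rv (vec a)) (vec b) hne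
  have htt : tot (L, rv (vec a), vec b) = addv L (vec (.cons a b)) := t1
  rw [htt] at eN
  have eS : F (addv (rv (vec a)) (vec b)) L = F L (vec (.cons a b)) :=
    hF.swap L (vec (.cons a b)) hd
  have eR : F (rv (addv L (vec b))) (vec a) = F (addv L (vec b)) (rv (vec a)) :=
    hF.rot _ _ (by rw [dc]; exact hd)
  -- the rational branch
  have eb1 : ((rb1 (slp (addv L (vec (.cons a b)))) true a (rv (addv L (vec b)))).map
      G).sum = if top a (rv (addv L (vec b))) = none then
        F (rv (addv L (vec b))) (vec a) else 0 := by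
    unfold rb1
    rw [if_pos rfl]
    rcases hq : top a (rv (addv L (vec b))) with _ | q
    · simp only [if_true]
      rw [Multiset.map_singleton, Multiset.sum_singleton, eR]
      have hp2 : (addv L (vec b)).2 ≠ 0 := by
        intro h0
        apply htop
        rw [← t2]
        show (addv L (vec b)).2 * (rv (vec a)).2 = 0
        rw [h0, zero_mul]
      have hv2 : (rv (vec a)).2 ≠ 0 := by
        intro h0
        apply htop
        rw [← t2]
        show (addv L (vec b)).2 * (rv (vec a)).2 = 0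
        rw [h0, mul_zero]
      rw [hG (addv L (vec b)) (rv (vec a)) hp2 hv2 (by rw [dc]; exact hd0)
          (by rw [dc]; exact hd),
        slp_addv _ _ hp2 hv2, t2]
    · simp
  rw [Nle.NL_cons, Rs_cons, eb1, eN, eS]
  rw [eR] at eA ⊢
  have eA' : evF F (NL (rv (addv L (vec b))) a) =
      F (addv L (vec b)) (rv (vec a)) +
        (Rs G a {Int.fract (slp (rv (addv L (vec b))))} (decide (2 ≤ a.kids))
          (rv (addv L (vec b))) + (if top a (rv (addv L (vec b))) = none then
            F (addv L (vec b)) (rv (vec a)) else 0)) := by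
    rw [← eA]
    ring
  have eB' : evF F (NL (addv L (rv (vec a))) b) =
      F (addv L (rv (vec a))) (vec b) +
        (Rs G b (Int.fract (slp (rv (vec a))) ::ₘ acc) true (addv L (rv (vec a))) +
          (((acc.card + 1 : ℕ) : ℂ) - 1) * F (addv L (vec (.cons a b))) (0, 1)) := by
    rw [← eB]
    ring
  rw [eA', eB']
  push_cast
  ring

theorem cb_of_ca {D : ℤ} {F : ℤ × ℤ → ℤ × ℤ → ℂ} {G : ℚ × ℚ → ℂ} (hD : D ≠ 0) (hF : Sym D F) (a : Tr)
    (hA : CA D F G a) (ih : ∀ a' b', a = .cons a' b' → CB D F G a') : CB D F G a := by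
  intro C β hd hx
  by_cases hk : 2 ≤ a.kids
  · rw [decide_eq_true hk] at hx ⊢
    have e := hA C {β} hd hx
    have htop : top a C ≠ none := by
      cases a with
      | pw e => simp [Tr.kids] at hk
      | cons a' b' =>
        have hb' : b'.kids ≠ 0 := by
          intro h0
          have : (Tr.cons a' b').kids = b'.kids + 1 := rfl
          omega
        unfold top
        rw [if_neg hb']
        simp
    rw [e, if_neg htop, Multiset.card_singleton]
    push_cast
    ring
  · rw [decide_eq_false hk] at hx ⊢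
    cases a with
    | pw e =>
      rw [Nle.NL_pw, Rs_pw_false]
      have : top (.pw e) C = none := rfl
      rw [if_pos this]
      show 2 * F C (-e, 1) - F C (-e, 1) = 0 + F C (-e, 1)
      ring
    | cons a' b' =>
      have hb' : b'.kids = 0 := by
        have : (Tr.cons a' b').kids = b'.kids + 1 := rfl
        omega
      cases b' with
      | cons c d => simp [Tr.kids] at hb'
      | pw e =>
        have hx' : ∀ x ∈ vt a' {Int.fract (slp (rv (addv C (vec (.pw e)))))}
            (decide (2 ≤ a'.kids)) (rv (addv C (vec (.pw e)))), x.1.2 ≠ 0 := by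
          intro x hxx
          apply hx
          rw [vt]
          exact Multiset.mem_add.mpr (Or.inl hxx)
        have d1 := Vts.det_a C a' (.pw e)
        have d3 := Vts.det_c C a' (.pw e)
        have e1 := ih a' (.pw e) rfl (rv (addv C (vec (.pw e)))) _ (by rw [d1]; exact hd) hx'
        have hv : (tot (C, rv (vec a'), (-e, 1))).1 ∣ D := by
          have h := Vts.det_v C a' (.pw e)
          have h' : (tot (C, rv (vec a'), (-e, 1))).1 = dt C (vec (.cons a' (.pw e))) := h
          rw [h']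
          exact hd
        have e2 := Nle.vx3 hD hF C (rv (vec a')) (-e) hv
        have e3 : F (addv C (-e, 1)) (rv (vec a')) = F C (addv (rv (vec a')) (-e, 1)) :=
          hF.shift C (rv (vec a')) (-e) hd
        have e4 : F (rv (addv C (-e, 1))) (vec a') = F (addv C (-e, 1)) (rv (vec a')) :=
          hF.rot _ _ (by
            have : dt (addv C (-e, 1)) (rv (vec a')) = dt C (vec (.cons a' (.pw e))) := d3
            rw [this]
            exact hd)
        have ht : top (.cons a' (.pw e)) C = top a' (rv (addv C (vec (.pw e)))) := by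
          conv_lhs => unfold top
          rw [if_pos hb']
        have hr : ((rb1 (slp (addv C (vec (.cons a' (.pw e))))) false a'
            (rv (addv C (vec (.pw e))))).map G).sum = 0 := by
          simp [rb1]
        rw [Rs_cons, hr, Rs_pw_false, ht, Nle.NL_cons, Nle.NL_pw]
        have e5 : vec (.pw e) = (-e, 1) := rfl
        have e6 : vec (.cons a' (.pw e)) = addv (rv (vec a')) (-e, 1) := rfl
        rw [e5] at e1 ⊢
        rw [e6, e2, ← e3]
        rw [e4] at e1
        have e7 : evF F (NL (rv (addv C (-e, 1))) a') =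
            F (addv C (-e, 1)) (rv (vec a')) +
            (Rs G a' {Int.fract (slp (rv (addv C (-e, 1))))} (decide (2 ≤ a'.kids))
              (rv (addv C (-e, 1))) + (if top a' (rv (addv C (-e, 1))) = none then
                F (addv C (-e, 1)) (rv (vec a')) else 0)) := by
          rw [← e1]
          ring
        rw [e7]
        ring

theorem both (h3 : VST_Stmt) {D : ℤ} {F : ℤ × ℤ → ℤ × ℤ → ℂ} {G : ℚ × ℚ → ℂ}
    (hG : Gv D F G) (hD : D ≠ 0) (hF : Sym D F) (T : Tr) : CA D F G T ∧ CB D F G T := by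
  induction T with
  | pw e =>
    have hA := ca_pw hG hD hF e
    exact ⟨hA, cb_of_ca hD hF _ hA (fun a' b' h => by cases h)⟩
  | cons a b iha ihb =>
    have hA := ca_cons h3 hG hD hF a b iha.2 ihb.1
    refine ⟨hA, cb_of_ca hD hF _ hA (fun a' b' h => ?_)⟩
    injection h with h4 h5
    subst h4
    exact iha.2

end Evg

namespace Evg

theorem dt_def (P V : ℤ × ℤ) : dt P V = P.1 * V.2 + V.1 * P.2 := rfl

theorem addv_comm (P Q : ℤ × ℤ) : addv P Q = addv Q P := by
  unfold addv
  ext
  · simp only []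
    ring
  · simp only []
    ring

theorem dt_rv (P V : ℤ × ℤ) : dt (rv P) V = dt P (rv V) := by
  simp only [dt_def, rv]
  ring

theorem dt_sh (P V : ℤ × ℤ) (k : ℤ) : dt P (addv V (k, 1)) = dt (addv P (k, 1)) V := by
  simp only [dt_def, addv]
  ring

theorem chain {D : ℤ} {F : ℤ × ℤ → ℤ × ℤ → ℂ} (hF : Sym D F) (es : List ℤ) :
    ∀ C v : ℤ × ℤ, dt C (cvec es v) ∣ D → F C (cvec es v) = F (lch es C) v := by
  induction es with
  | nil =>
    intro C v _
    rfl
  | cons e es ih =>
    intro C v hd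
    have hd1 : dt C (addv (rv (cvec es v)) (-e, 1)) ∣ D := hd
    have hd2 : dt (addv C (-e, 1)) (rv (cvec es v)) ∣ D := by
      rw [← dt_sh]
      exact hd1
    have hd3 : dt (rv (addv C (-e, 1))) (cvec es v) ∣ D := by
      rw [dt_rv]
      exact hd2
    have e1 := hF.shift C (rv (cvec es v)) (-e) hd1
    have e2 := hF.rot (addv C (-e, 1)) (cvec es v) hd2
    have e3 := ih (rv (addv C (-e, 1))) v hd3
    calc F C (cvec (e :: es) v) = F (addv C (-e, 1)) (rv (cvec es v)) := e1.symm
      _ = F (rv (addv C (-e, 1))) (cvec es v) := e2.symm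
      _ = F (lch (e :: es) C) v := e3

theorem edge (h1 : CHN_Stmt) (h2 : VST_Stmt) {D : ℤ} {F : ℤ × ℤ → ℤ × ℤ → ℂ}
    {G : ℚ × ℚ → ℂ} (hG : Gv D F G) (hD : D ≠ 0) (hF : Sym D F) (T : Tr) :
    ∀ (acc : Multiset ℚ) (f : Bool) (L : ℤ × ℤ), dt L (vec T) ∣ D →
      (∀ x ∈ vt T acc f L, x.1.2 ≠ 0) → ∀ e ∈ eg T f L, G e.1 = G e.2 := by
  obtain ⟨c1, -, c3, c4, c5, c6, -⟩ := h1
  induction T with
  | pw e =>
    intro acc f L _ _ x hx
    exact absurd hx (Multiset.notMem_zero _)
  | cons a b iha ihb =>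
    intro acc f L hd hx e he
    have k1 : ∀ x ∈ vt a {Int.fract (slp (rv (addv L (vec b))))} (decide (2 ≤ a.kids))
        (rv (addv L (vec b))), x.1.2 ≠ 0 := fun x h => hx x (Multiset.mem_add.2 (Or.inl h))
    have k2 : ∀ x ∈ vt b (Int.fract (slp (rv (vec a))) ::ₘ acc) f (addv L (rv (vec a))),
        x.1.2 ≠ 0 := fun x h => hx x (Multiset.mem_add.2 (Or.inr h))
    have d1 : dt (rv (addv L (vec b))) (vec a) = dt L (vec (.cons a b)) := by
      change _ = dt L (addv (rv (vec a)) (vec b))
      simp only [dt_def, rv, addv]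
      ring
    have d2 : dt (addv L (rv (vec a))) (vec b) = dt L (vec (.cons a b)) := by
      change _ = dt L (addv (rv (vec a)) (vec b))
      simp only [dt_def, rv, addv]
      ring
    have he' : e ∈ ed1 (slp (addv L (vec (.cons a b)))) f a (rv (addv L (vec b))) +
        eg a (decide (2 ≤ a.kids)) (rv (addv L (vec b))) + eg b f (addv L (rv (vec a))) := he
    rw [Multiset.mem_add, Multiset.mem_add] at he'
    rcases he' with (he' | he') | he'
    · -- the new edge
      cases f with
      | false => exact absurd he' (Multiset.notMem_zero _)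
      | true =>
      unfold ed1 at he'
      rw [if_pos rfl] at he'
      cases hq : top a (rv (addv L (vec b))) with
      | none =>
        rw [hq] at he'
        exact absurd he' (Multiset.notMem_zero _)
      | some q =>
      rw [hq] at he'
      have he2 : e = ((slp (addv L (vec (.cons a b))), Int.fract (slp (rv (vec a)))), q) :=
        Multiset.mem_singleton.1 he'
      have hnr : ¬ a.Rat := by
        intro h
        rw [(c1 a (rv (addv L (vec b)))).1 h] at hq
        exact absurd hq (by simp)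
      obtain ⟨es, X, ha, hX, -⟩ := c3 a hnr
      obtain ⟨v4, -, -, t4⟩ := c4 es X (rv (addv L (vec b))) hX
      rw [← ha] at v4 t4
      rw [hq] at t4
      have hq2 : q = (slp (addv (lch es (rv (addv L (vec b)))) (vec X)),
        Int.fract (slp (lch es (rv (addv L (vec b)))))) := Option.some_inj.1 t4
      rw [v4, (h2.1 X _ _).1] at k1
      have w1 := k1 _ (Multiset.mem_cons_self _ _)
      rw [(h2.1 (.cons a b) _ _).1] at hx
      have w2 := hx _ (Multiset.mem_cons_self _ _)
      have w1' : (lch es (rv (addv L (vec b)))).2 * (vec X).2 ≠ 0 := w1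
      have w2' : L.2 * ((rv (vec a)).2 * (vec b).2) ≠ 0 := w2
      have n1 : (lch es (rv (addv L (vec b)))).2 ≠ 0 := left_ne_zero_of_mul w1'
      have n2 : (vec X).2 ≠ 0 := right_ne_zero_of_mul w1'
      have n3 : L.2 ≠ 0 := left_ne_zero_of_mul w2'
      have n4 : (rv (vec a)).2 ≠ 0 := left_ne_zero_of_mul (right_ne_zero_of_mul w2')
      have n5 : (vec b).2 ≠ 0 := right_ne_zero_of_mul (right_ne_zero_of_mul w2')
      have n6 : (addv L (vec b)).2 ≠ 0 := mul_ne_zero n3 n5
      have q3 : dt (addv L (vec b)) (rv (vec a)) = dt L (vec (.cons a b)) := by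
        rw [← dt_rv]
        exact d1
      have q4 : dt (vec X) (lch es (rv (addv L (vec b)))) = dt L (vec (.cons a b)) := by
        have : dt (vec X) (lch es (rv (addv L (vec b)))) =
            dt (lch es (rv (addv L (vec b)))) (vec X) := by
          simp only [dt_def]
          ring
        rw [this, ← c6, ← c5, ← ha, d1]
      have hne : dt L (vec (.cons a b)) ≠ 0 := fun h0 => hD (by
        rw [h0] at hd
        exact zero_dvd_iff.1 hd)
      have f1 := hG (addv L (vec b)) (rv (vec a)) n6 n4 (by rw [q3]; exact hne)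
        (by rw [q3]; exact hd)
      rw [slp_addv _ _ n6 n4] at f1
      have g1 : addv (addv L (vec b)) (rv (vec a)) = addv L (vec (.cons a b)) := by
        rw [addv_assoc', addv_comm (vec b)]
        rfl
      rw [g1] at f1
      have f2 := hG (vec X) (lch es (rv (addv L (vec b)))) n2 n1 (by rw [q4]; exact hne)
        (by rw [q4]; exact hd)
      rw [slp_addv _ _ n2 n1, addv_comm (vec X)] at f2
      rw [he2, hq2]
      have hd5 : dt (rv (addv L (vec b))) (cvec es (vec X)) ∣ D := by
        rw [← c5, ← ha, d1]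
        exact hd
      have f3 := chain hF es (rv (addv L (vec b))) (vec X) hd5
      have f4 : F (rv (addv L (vec b))) (vec a) = F (addv L (vec b)) (rv (vec a)) :=
        hF.rot _ _ (by rw [q3]; exact hd)
      have f5 : F (vec X) (lch es (rv (addv L (vec b)))) =
          F (lch es (rv (addv L (vec b)))) (vec X) :=
        hF.swap _ _ (by rw [← c6]; exact hd5)
      have f6 : vec a = cvec es (vec X) := by
        rw [← c5, ← ha]
      show G (slp (addv L (vec (.cons a b))), Int.fract (slp (rv (vec a)))) =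
        G (slp (addv (lch es (rv (addv L (vec b)))) (vec X)),
          Int.fract (slp (lch es (rv (addv L (vec b))))))
      rw [← f1, ← f2, ← f4, f5, ← f3, f6]
    · exact iha _ _ _ (by rw [d1]; exact hd) k1 e he'
    · exact ihb _ _ _ (by rw [d2]; exact hd) k2 e he'

end Evg

open Evg in
theorem t_EVG (h1 : VST_Stmt) (h2 : CHN_Stmt) : EVG_Stmt := by
  intro D F G T hD hF hG _ hT hx
  have hd : dt (0, 1) (vec T) = (vec T).1 := by
    unfold dt addv
    simp only
    ring
  have hdD : dt (0, 1) (vec T) ∣ D := by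
    rw [hd]
    exact hT
  refine ⟨?_, edge h2 h1 hG hD hF T 0 true (0, 1) hdD hx⟩
  have e := (both h1 hG hD hF T).1 (0, 1) 0 hdD hx
  have e2 : addv (0, 1) (vec T) = vec T := Nle.zero_addv _
  rw [e2] at e
  have e3 : F (vec T) (0, 1) = F (0, 1) (vec T) := hF.swap (0, 1) (vec T) hdD
  rw [e3, Multiset.card_zero] at e
  have e4 : evF F (NL (0, 1) T) = Rs G T 0 true (0, 1) := by
    have e5 : evF F (NL (0, 1) T) =
        F (0, 1) (vec T) + (Rs G T 0 true (0, 1) +
          (((0 : ℕ) : ℂ) - 1) * F (0, 1) (vec T)) := by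
      rw [← e]
      ring
    rw [e5]
    push_cast
    ring
  rw [e4]
  rfl

end Pool.Agent.TZ
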