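import Pool.Agent.TZ.StA
import Pool.Agent.TW.Nle
import Pool.Agent.TV.Vts

/-!
Theorem Z (MP_31fd3b_gt), module EVN: the value of the combination of a closed tree.
-/

open scoped BigOperators

namespace Pool.Agent.TZ

open Pool.Agent.LibH11.Sliced Pool.Agent.MTR Pool.Agent.MTA Pool.Agent.UA Pool.Agent.UB
open Pool.Agent.TwoBr Pool.Agent.Mont Pool.Agent.TV Pool.Agent.TW
open Pool.Agent.TB hiding vec

namespace Evn

/-- the contribution of a vertex -/
noncomputable def Wt (p : ℚ × ℚ) (x : (ℤ × ℤ) × Multiset ℚ) : ℂ :=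
  -((x.2.card : ℂ) - 2) * ic p (slp x.1, 0)

/-- the contributions of the vertices and of the rational branches -/
noncomputable def Rs (p : ℚ × ℚ) (T : Tr) (acc : Multiset ℚ) (f : Bool) (L : ℤ × ℤ) : ℂ :=
  ((vt T acc f L).map (Wt p)).sum + ((rb T f L).map (ic p)).sum

theorem addv_assoc' (P V W : ℤ × ℤ) : addv (addv P V) W = addv P (addv V W) := by
  unfold addv
  ext
  · simp only
    ring
  · simp only
    ring

theorem addv_right_comm (P V W : ℤ × ℤ) : addv (addv P V) W = addv (addv P W) V := by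
  unfold addv
  ext
  · simp only
    ring
  · simp only
    ring

theorem slp_addv (P V : ℤ × ℤ) (h1 : P.2 ≠ 0) (h2 : V.2 ≠ 0) :
    slp P + slp V = slp (addv P V) := by
  have h1' : (P.2 : ℚ) ≠ 0 := by exact_mod_cast h1
  have h2' : (V.2 : ℚ) ≠ 0 := by exact_mod_cast h2
  unfold slp addv
  push_cast
  field_simp

theorem slp_one : slp (0, 1) = 0 := by
  unfold slp
  simp

theorem dt_one' (t : ℤ × ℤ) : dt t (0, 1) = t.1 := by
  unfold dt addv
  simp only
  ring

/-- the value at the total vector -/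
theorem val_tot (h1 : EDS_Stmt) (p : ℚ × ℚ) (t : ℤ × ℤ) (ht : t.2 ≠ 0) (ht1 : t.1 ≠ 0) :
    Fc p t (0, 1) = ic p (slp t, 0) := by
  have h2 : dt t (0, 1) ≠ 0 := by
    rw [dt_one']
    exact ht1
  rw [h1.2.1 p t (0, 1) ht one_ne_zero h2, slp_one, add_zero, Int.fract_zero]

theorem Rs_pw (p : ℚ × ℚ) (e : ℤ) (acc : Multiset ℚ) (L : ℤ × ℤ) :
    Rs p (.pw e) acc true L = -((acc.card : ℂ) - 2) * ic p (slp (addv L (-e, 1)), 0) := by
  simp [Rs, vt, rb, Wt]

theorem Rs_pw_false (p : ℚ × ℚ) (e : ℤ) (acc : Multiset ℚ) (L : ℤ × ℤ) :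
    Rs p (.pw e) acc false L = 0 := by
  simp [Rs, vt, rb]

theorem Rs_cons (p : ℚ × ℚ) (a b : Tr) (acc : Multiset ℚ) (f : Bool) (L : ℤ × ℤ) :
    Rs p (.cons a b) acc f L =
      ((rb1 (slp (addv L (vec (.cons a b)))) f a (rv (addv L (vec b)))).map (ic p)).sum +
      Rs p a {Int.fract (slp (rv (addv L (vec b))))} (decide (2 ≤ a.kids))
        (rv (addv L (vec b))) +
      Rs p b (Int.fract (slp (rv (vec a))) ::ₘ acc) f (addv L (rv (vec a))) := by
  unfold Rs
  rw [vt, rb]
  simp only [Multiset.map_add, Multiset.sum_add]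
  ring

/-- claim A -/
def CA (p : ℚ × ℚ) (D : ℤ) (T : Tr) : Prop :=
  ∀ (L : ℤ × ℤ) (acc : Multiset ℚ), dt L (vec T) ∣ D →
    (∀ x ∈ vt T acc true L, x.1.2 ≠ 0) →
    evF (Fc p) (NL L T) - Fc p L (vec T) =
      Rs p T acc true L + ((acc.card : ℂ) - 1) * Fc p (addv L (vec T)) (0, 1)

/-- claim B -/
def CB (p : ℚ × ℚ) (D : ℤ) (a : Tr) : Prop :=
  ∀ (C : ℤ × ℤ) (β : ℚ), dt C (vec a) ∣ D →
    (∀ x ∈ vt a {β} (decide (2 ≤ a.kids)) C, x.1.2 ≠ 0) →
    evF (Fc p) (NL C a) - Fc p C (vec a) =
      Rs p a {β} (decide (2 ≤ a.kids)) C + (if top a C = none then Fc p C (vec a) else 0)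

theorem ca_pw (h1 : EDS_Stmt) (p : ℚ × ℚ) {D : ℤ} (hD : D ≠ 0) (hF : Sym D (Fc p)) (e : ℤ) :
    CA p D (.pw e) := by
  intro L acc hd hx
  have ht : (addv L (-e, 1)).2 ≠ 0 := by
    have := hx (addv L (-e, 1), acc) (by simp [vt])
    exact this
  have hd0 : dt L (vec (.pw e)) ≠ 0 := fun h0 => hD (by
    rw [h0] at hd
    exact zero_dvd_iff.1 hd)
  have ht1 : (addv L (-e, 1)).1 ≠ 0 := hd0
  have e1 : Fc p (addv L (-e, 1)) (0, 1) = Fc p L (-e, 1) := by
    have h := hF.shift L (0, 1) (-e) (by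
      rw [Nle.zero_addv]
      exact hd)
    rw [Nle.zero_addv] at h
    exact h
  have e2 := val_tot h1 p (addv L (-e, 1)) ht ht1
  rw [Nle.NL_pw, Rs_pw]
  show 2 * Fc p L (-e, 1) - Fc p L (-e, 1) = _ + _ * Fc p (addv L (-e, 1)) (0, 1)
  rw [← e2, e1]
  ring

theorem ca_cons (h1 : EDS_Stmt) (h3 : VST_Stmt) (p : ℚ × ℚ) {D : ℤ} (hD : D ≠ 0)
    (hF : Sym D (Fc p)) (a b : Tr) (ha : CB p D a) (hb : CA p D b) : CA p D (.cons a b) := by
  intro L acc hd hx
  have htop : (addv L (vec (.cons a b))).2 ≠ 0 := by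
    refine hx (addv L (vec (.cons a b)), acc + cf (.cons a b)) ?_
    rw [(h3.1 (.cons a b) acc L).1]
    exact Multiset.mem_cons_self _ _
  have hd0 : dt L (vec (.cons a b)) ≠ 0 := fun h0 => hD (by
    rw [h0] at hd
    exact zero_dvd_iff.1 hd)
  -- the determinants
  have da := Vts.det_a L a b
  have db := Vts.det_b L a b
  have dc := Vts.det_c L a b
  -- the total vectors
  have t1 : addv (addv L (rv (vec a))) (vec b) = addv L (vec (.cons a b)) := by
    rw [addv_assoc']
    rfl
  have t2 : addv (addv L (vec b)) (rv (vec a)) = addv L (vec (.cons a b)) := by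
    rw [addv_right_comm]
    exact t1
  have hx2 : ∀ x ∈ vt a {Int.fract (slp (rv (addv L (vec b))))} (decide (2 ≤ a.kids))
      (rv (addv L (vec b))), x.1.2 ≠ 0 := by
    intro x hxx
    apply hx
    rw [vt]
    exact Multiset.mem_add.mpr (Or.inl hxx)
  have hx3 : ∀ x ∈ vt b (Int.fract (slp (rv (vec a))) ::ₘ acc) true (addv L (rv (vec a))),
      x.1.2 ≠ 0 := by
    intro x hxx
    apply hx
    rw [vt]
    exact Multiset.mem_add.mpr (Or.inr hxx)
  have eA := ha (rv (addv L (vec b))) _ (by rw [da]; exact hd) hx2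
  have eB := hb (addv L (rv (vec a))) _ (by rw [db]; exact hd) hx3
  rw [t1, Multiset.card_cons] at eB
  -- the vertex
  have hne : (tot (L, rv (vec a), vec b)).2 ≠ 0 := by
    have : tot (L, rv (vec a), vec b) = addv L (vec (.cons a b)) := t1
    rw [this]
    exact htop
  have eN := Nle.evF_nv_ne (F := Fc p) L (rv (vec a)) (vec b) hne
  have htt : tot (L, rv (vec a), vec b) = addv L (vec (.cons a b)) := t1
  rw [htt] at eN
  have eS : Fc p (addv (rv (vec a)) (vec b)) L = Fc p L (vec (.cons a b)) :=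
    hF.swap L (vec (.cons a b)) hd
  have eR : Fc p (rv (addv L (vec b))) (vec a) = Fc p (addv L (vec b)) (rv (vec a)) :=
    hF.rot _ _ (by rw [dc]; exact hd)
  -- the rational branch
  have eb1 : ((rb1 (slp (addv L (vec (.cons a b)))) true a (rv (addv L (vec b)))).map
      (ic p)).sum = if top a (rv (addv L (vec b))) = none then
        Fc p (rv (addv L (vec b))) (vec a) else 0 := by
    unfold rb1
    rw [if_pos rfl]
    rcases hq : top a (rv (addv L (vec b))) with _ | q
    · simp only [if_true]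
      rw [Multiset.map_singleton, Multiset.sum_singleton, eR]
      have hp2 : (addv L (vec b)).2 ≠ 0 := by
        intro h0
        apply htop
        rw [← t2]
        show (addv L (vec b)).2 * (rv (vec a)).2 = 0
        rw [h0, zero_mul]
      have hv2 : (rv (vec a)).2 ≠ 0 := by
        intro h0
        apply htop
        rw [← t2]
        show (addv L (vec b)).2 * (rv (vec a)).2 = 0
        rw [h0, mul_zero]
      rw [h1.2.1 p (addv L (vec b)) (rv (vec a)) hp2 hv2 (by rw [dc]; exact hd0),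
        slp_addv _ _ hp2 hv2, t2]
    · simp
  rw [Nle.NL_cons, Rs_cons, eb1, eN, eS]
  rw [eR] at eA ⊢
  have eA' : evF (Fc p) (NL (rv (addv L (vec b))) a) =
      Fc p (addv L (vec b)) (rv (vec a)) +
        (Rs p a {Int.fract (slp (rv (addv L (vec b))))} (decide (2 ≤ a.kids))
          (rv (addv L (vec b))) + (if top a (rv (addv L (vec b))) = none then
            Fc p (addv L (vec b)) (rv (vec a)) else 0)) := by
    rw [← eA]
    ring
  have eB' : evF (Fc p) (NL (addv L (rv (vec a))) b) =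
      Fc p (addv L (rv (vec a))) (vec b) +
        (Rs p b (Int.fract (slp (rv (vec a))) ::ₘ acc) true (addv L (rv (vec a))) +
          (((acc.card + 1 : ℕ) : ℂ) - 1) * Fc p (addv L (vec (.cons a b))) (0, 1)) := by
    rw [← eB]
    ring
  rw [eA', eB']
  push_cast
  ring

theorem cb_of_ca (p : ℚ × ℚ) {D : ℤ} (hD : D ≠ 0) (hF : Sym D (Fc p)) (a : Tr)
    (hA : CA p D a) (ih : ∀ a' b', a = .cons a' b' → CB p D a') : CB p D a := by
  intro C β hd hx
  by_cases hk : 2 ≤ a.kids
  · rw [decide_eq_true hk] at hx ⊢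
    have e := hA C {β} hd hx
    have htop : top a C ≠ none := by
      cases a with
      | pw e => simp [Tr.kids] at hk
      | cons a' b' =>
        have hb' : b'.kids ≠ 0 := by
          intro h0
          have : (Tr.cons a' b').kids = b'.kids + 1 := rfl
          omega
        unfold top
        rw [if_neg hb']
        simp
    rw [e, if_neg htop, Multiset.card_singleton]
    push_cast
    ring
  · rw [decide_eq_false hk] at hx ⊢
    cases a with
    | pw e =>
      rw [Nle.NL_pw, Rs_pw_false]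
      have : top (.pw e) C = none := rfl
      rw [if_pos this]
      show 2 * Fc p C (-e, 1) - Fc p C (-e, 1) = 0 + Fc p C (-e, 1)
      ring
    | cons a' b' =>
      have hb' : b'.kids = 0 := by
        have : (Tr.cons a' b').kids = b'.kids + 1 := rfl
        omega
      cases b' with
      | cons c d => simp [Tr.kids] at hb'
      | pw e =>
        have hx' : ∀ x ∈ vt a' {Int.fract (slp (rv (addv C (vec (.pw e)))))}
            (decide (2 ≤ a'.kids)) (rv (addv C (vec (.pw e)))), x.1.2 ≠ 0 := by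
          intro x hxx
          apply hx
          rw [vt]
          exact Multiset.mem_add.mpr (Or.inl hxx)
        have d1 := Vts.det_a C a' (.pw e)
        have d3 := Vts.det_c C a' (.pw e)
        have e1 := ih a' (.pw e) rfl (rv (addv C (vec (.pw e)))) _ (by rw [d1]; exact hd) hx'
        have hv : (tot (C, rv (vec a'), (-e, 1))).1 ∣ D := by
          have h := Vts.det_v C a' (.pw e)
          have h' : (tot (C, rv (vec a'), (-e, 1))).1 = dt C (vec (.cons a' (.pw e))) := h
          rw [h']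
          exact hd
        have e2 := Nle.vx3 hD hF C (rv (vec a')) (-e) hv
        have e3 : Fc p (addv C (-e, 1)) (rv (vec a')) = Fc p C (addv (rv (vec a')) (-e, 1)) :=
          hF.shift C (rv (vec a')) (-e) hd
        have e4 : Fc p (rv (addv C (-e, 1))) (vec a') = Fc p (addv C (-e, 1)) (rv (vec a')) :=
          hF.rot _ _ (by
            have : dt (addv C (-e, 1)) (rv (vec a')) = dt C (vec (.cons a' (.pw e))) := d3
            rw [this]
            exact hd)
        have ht : top (.cons a' (.pw e)) C = top a' (rv (addv C (vec (.pw e)))) := by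
          conv_lhs => unfold top
          rw [if_pos hb']
        have hr : ((rb1 (slp (addv C (vec (.cons a' (.pw e))))) false a'
            (rv (addv C (vec (.pw e))))).map (ic p)).sum = 0 := by
          simp [rb1]
        rw [Rs_cons, hr, Rs_pw_false, ht, Nle.NL_cons, Nle.NL_pw]
        have e5 : vec (.pw e) = (-e, 1) := rfl
        have e6 : vec (.cons a' (.pw e)) = addv (rv (vec a')) (-e, 1) := rfl
        rw [e5] at e1 ⊢
        rw [e6, e2, ← e3]
        rw [e4] at e1
        have e7 : evF (Fc p) (NL (rv (addv C (-e, 1))) a') =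
            Fc p (addv C (-e, 1)) (rv (vec a')) +
            (Rs p a' {Int.fract (slp (rv (addv C (-e, 1))))} (decide (2 ≤ a'.kids))
              (rv (addv C (-e, 1))) + (if top a' (rv (addv C (-e, 1))) = none then
                Fc p (addv C (-e, 1)) (rv (vec a')) else 0)) := by
          rw [← e1]
          ring
        rw [e7]
        ring

theorem both (h1 : EDS_Stmt) (h3 : VST_Stmt) (p : ℚ × ℚ) {D : ℤ} (hD : D ≠ 0)
    (hF : Sym D (Fc p)) (T : Tr) : CA p D T ∧ CB p D T := by
  induction T with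
  | pw e =>
    have hA := ca_pw h1 p hD hF e
    exact ⟨hA, cb_of_ca p hD hF _ hA (fun a' b' h => by cases h)⟩
  | cons a b iha ihb =>
    have hA := ca_cons h1 h3 p hD hF a b iha.2 ihb.1
    refine ⟨hA, cb_of_ca p hD hF _ hA (fun a' b' h => ?_)⟩
    injection h with h4 h5
    subst h4
    exact iha.2

end Evn

open Evn in
theorem t_EVN (h1 : EDS_Stmt) (_h2 : CHN_Stmt) (h3 : VST_Stmt) : EVN_Stmt := by
  intro T p _ hT hx
  have hF : Sym (vec T).1 (Fc p) := h1.1 (vec T).1 p hT
  have hd : dt (0, 1) (vec T) = (vec T).1 := by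
    unfold dt addv
    simp only
    ring
  have e := (both h1 h3 p hT hF T).1 (0, 1) 0 (by rw [hd]) hx
  have e2 : addv (0, 1) (vec T) = vec T := Nle.zero_addv _
  rw [e2] at e
  have e3 : Fc p (vec T) (0, 1) = Fc p (0, 1) (vec T) := hF.swap (0, 1) (vec T) (by rw [hd])
  rw [e3, Multiset.card_zero] at e
  have e4 : evF (Fc p) (NL (0, 1) T) = Rs p T 0 true (0, 1) := by
    have e5 : evF (Fc p) (NL (0, 1) T) =
        Fc p (0, 1) (vec T) + (Rs p T 0 true (0, 1) +
          (((0 : ℕ) : ℂ) - 1) * Fc p (0, 1) (vec T)) := by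
      rw [← e]
      ring
    rw [e5]
    push_cast
    ring
  rw [e4]
  rfl

end Pool.Agent.TZ
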