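import Pool.Agent.TZ.StS
import Pool.Agent.TW.Nle

/-!
Theorem Z for connected sums (MP_31fd3b_gt), module FGV: the values depend only on the vertices and the
edges.
-/

open scoped BigOperators

namespace Pool.Agent.TZ

open Pool.Agent.LibH11.Sliced Pool.Agent.MTR Pool.Agent.MTA Pool.Agent.UA Pool.Agent.UB
open Pool.Agent.TwoBr Pool.Agent.Mont Pool.Agent.TV Pool.Agent.TW
open Pool.Agent.TB hiding vec

namespace Fgv

/-- the branches in terms of the vertices with slope sums -/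
def brs (s : Multiset (ℚ × Multiset ℚ)) : Multiset (ℚ × ℚ) :=
  s.bind fun x => x.2.map fun b => (x.1, b)

/-- the value in terms of the vertices and the edges -/
noncomputable def val (G : ℚ × ℚ → ℂ) (s : Multiset (ℚ × Multiset ℚ))
    (u : Multiset (Multiset (ℚ × ℚ))) : ℂ :=
  (s.map fun x => -((x.2.card : ℂ) - 2) * G (x.1, 0)).sum + ((brs s).map G).sum -
    (u.map fun m => (m.map G).sum).sum

theorem brs_add (s t : Multiset (ℚ × Multiset ℚ)) : brs (s + t) = brs s + brs t := by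
  unfold brs
  rw [Multiset.add_bind]

theorem val_add (G : ℚ × ℚ → ℂ) (s s' : Multiset (ℚ × Multiset ℚ))
    (u u' : Multiset (Multiset (ℚ × ℚ))) :
    val G (s + s') (u + u') = val G s u + val G s' u' := by
  unfold val
  rw [brs_add]
  simp only [Multiset.map_add, Multiset.sum_add]
  ring

theorem brs_vs0 (T : Tr) : brs (vs0 T) = br0 T := by
  unfold brs vs0 br0
  rw [Multiset.bind_map]

theorem edges (G : ℚ × ℚ → ℂ) (E : Multiset ((ℚ × ℚ) × (ℚ × ℚ))) :
    ((E.map uo).map fun m => (m.map G).sum).sum =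
      ((E.map Prod.fst).map G).sum + ((E.map Prod.snd).map G).sum := by
  rw [Multiset.map_map, Multiset.map_map, Multiset.map_map, ← Multiset.sum_map_add]
  congr 1
  refine Multiset.map_congr rfl ?_
  intro e _
  simp [uo]

/-- one tree -/
theorem one (h1 : EVG_Stmt) (h2 : EGA_Stmt) {D : ℤ} {F : ℤ × ℤ → ℤ × ℤ → ℂ} {G : ℚ × ℚ → ℂ}
    (hD : D ≠ 0) (hF : Sym D F) (hG : Gv D F G) (T : Tr) (hk : 3 ≤ T.kids) (hd : (vec T).1 ∣ D)
    (hx : ∀ x ∈ vt0 T, x.1.2 ≠ 0) :
    evF F (NL (0, 1) T) = val G (vs0 T) ((eg0 T).map uo) := by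
  have hv : (vec T).1 ≠ 0 := by
    intro h0
    rw [h0] at hd
    exact hD (zero_dvd_iff.1 hd)
  rw [(h1 D F G T hD hF hG hk hd hx).1]
  unfold val
  rw [edges, brs_vs0, (h2 T hk hv hx).2]
  simp only [Multiset.map_add, Multiset.sum_add]
  have e : ((vs0 T).map fun x => -((x.2.card : ℂ) - 2) * G (x.1, 0)) =
      ((vt0 T).map fun x => -((x.2.card : ℂ) - 2) * G (slp x.1, 0)) := by
    unfold vs0
    rw [Multiset.map_map]
    rfl
  rw [e]
  ring

theorem list (h1 : EVG_Stmt) (h2 : EGA_Stmt) {D : ℤ} {F : ℤ × ℤ → ℤ × ℤ → ℂ} {G : ℚ × ℚ → ℂ}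
    (hD : D ≠ 0) (hF : Sym D F) (hG : Gv D F G) (Gs : List Tr)
    (hk : ∀ T ∈ Gs, 3 ≤ T.kids ∧ (vec T).1 ∣ D) (hx : ∀ x ∈ V0 Gs, x.1.2 ≠ 0) :
    evF F (NLs Gs) = val G (VS0 Gs) ((EG0 Gs).map uo) := by
  induction Gs with
  | nil =>
    have e : NLs ([] : List Tr) = [] := rfl
    rw [e, Nle.evF_nil]
    simp [val, VS0, EG0, brs]
  | cons T Gs ih =>
    have e1 : NLs (T :: Gs) = NL (0, 1) T ++ NLs Gs := rfl
    have e2 : VS0 (T :: Gs) = vs0 T + VS0 Gs := by
      unfold VS0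
      rw [List.map_cons, List.sum_cons]
    have e3 : EG0 (T :: Gs) = eg0 T + EG0 Gs := by
      unfold EG0
      rw [List.map_cons, List.sum_cons]
    have e4 : V0 (T :: Gs) = vt0 T + V0 Gs := by
      unfold V0
      rw [List.map_cons, List.sum_cons]
    have hT := hk T List.mem_cons_self
    rw [e4] at hx
    rw [e1, Nle.evF_append, e2, e3, Multiset.map_add, val_add,
      one h1 h2 hD hF hG T hT.1 hT.2 fun x hxx => hx x (Multiset.mem_add.2 (Or.inl hxx)),
      ih (fun S hS => hk S (List.mem_cons_of_mem _ hS))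
        fun x hxx => hx x (Multiset.mem_add.2 (Or.inr hxx))]

end Fgv

theorem t_FGV (h1 : EVG_Stmt) (h2 : EGA_Stmt) (h3 : GEX_Stmt) : FGV_Stmt := by
  intro D F Gs Gs' hD hF hT hx hV hE
  obtain ⟨G, hG⟩ := h3 D F hD hF
  rw [Fgv.list h1 h2 hD hF hG Gs (fun T h => hT T (List.mem_append_left _ h))
      fun x h => hx x (Multiset.mem_add.2 (Or.inl h)),
    Fgv.list h1 h2 hD hF hG Gs' (fun T h => hT T (List.mem_append_right _ h))
      fun x h => hx x (Multiset.mem_add.2 (Or.inr h)), hV, hE]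

end Pool.Agent.TZ
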