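import Pool.Agent.TZ.StA

/-!
Theorem Z (MP_31fd3b_gt), module FODM: from the invariants to the first order data.
-/

open scoped BigOperators

namespace Pool.Agent.TZ

open Pool.Agent.LibH11.Sliced Pool.Agent.MTR Pool.Agent.MTA Pool.Agent.UA Pool.Agent.UB
open Pool.Agent.TwoBr Pool.Agent.Mont Pool.Agent.TV Pool.Agent.TW
open Pool.Agent.TB hiding vec

namespace Fodm

theorem dt_one (V : ℤ × ℤ) : dt (0, 1) V = V.1 := by
  simp [dt, addv]

theorem cls_single (T : Tr) : cls [T] = cl T.dg := by
  simp [cls]

theorem VL_single (t : Tr) : VL [t] = vts (0, 1) t := by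
  simp [VL]

theorem NLs_single (t : Tr) : NLs [t] = NL (0, 1) t := by
  simp [NLs]

/-- the hypothesis on the invariants for the closures of the lists with one element -/
theorem transport (T T' : Tr) (h : IsLongKnot (cl T.dg)) (h' : IsLongKnot (cl T'.dg))
    (hv : ∀ v : Knot → ℂ, IsFiniteType v → v (ofDiag (cl T.dg) h) = v (ofDiag (cl T'.dg) h')) :
    ∃ (g : IsLongKnot (cls [T])) (g' : IsLongKnot (cls [T'])),
      ∀ v : Knot → ℂ, IsFiniteType v → v (ofDiag (cls [T]) g) = v (ofDiag (cls [T']) g') := by
  rw [cls_single, cls_single]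
  exact ⟨h, h', hv⟩

end Fodm

open Fodm in
theorem t_FODM (hLIE : LIEW_Stmt) (hNZV : ∀ t : Tr, Odd (vec t).1 → NVP t) (hRSI : RSI_Stmt)
    (hCLS : TW.CLS_Stmt) (hPLA : PLA_Stmt) (hVTS : VTS_Stmt) : FODM_Stmt := by
  intro T T' h h' hT hT' hv
  obtain ⟨g, g', hv'⟩ := transport T T' h h' hv
  set D : ℤ := (vec T).1 * (vec T').1 with hDdef
  have hD : Odd D := hT.mul hT'
  have hd1 : (vec T).1 ∣ D := Dvd.intro _ rfl
  have hd2 : (vec T').1 ∣ D := Dvd.intro_left _ rfl
  have hdvd : ∀ t ∈ [T] ++ [T'], (vec t).1 ∣ D := by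
    intro t ht
    rcases List.mem_append.1 ht with ht | ht
    · rw [List.mem_singleton.1 ht]; exact hd1
    · rw [List.mem_singleton.1 ht]; exact hd2
  have hR := hRSI [T] [T'] D hD hdvd (hLIE [T] [T'] g g' rfl
    (fun t ht => by rw [List.mem_singleton.1 ht]; exact hT)
    (fun t ht => by rw [List.mem_singleton.1 ht]; exact hNZV T' hT') hv' D hD hdvd)
  have hdv1 : ∀ v ∈ VL [T], (tot v).1 ∣ D := by
    intro v hvt
    rw [VL_single] at hvt
    rw [(hVTS T (0, 1)).1 v hvt, dt_one]
    exact hd1
  have hdv2 : ∀ v ∈ VL [T'], (tot v).1 ∣ D := by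
    intro v hvt
    rw [VL_single] at hvt
    rw [(hVTS T' (0, 1)).1 v hvt, dt_one]
    exact hd2
  have hC := hCLS D hD (VL [T]) (VL [T']) (by
      intro v hvt
      rcases List.mem_append.1 hvt with hvt | hvt
      · exact hdv1 v hvt
      · exact hdv2 v hvt)
    (fun g z hg hz => (hR g hg).1 z hz)
  refine ⟨D, hD, hd1, hd2, ?_, ?_⟩
  · intro K φ hK hφ
    have := hC K φ hK hφ
    rwa [VL_single, VL_single] at this
  · intro F hF
    have hp := hPLA D hD (NLs [T] ++ (NLs [T']).map fun e => (-e.1, e.2)) (by
        intro e he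
        rcases List.mem_append.1 he with he | he
        · rw [NLs_single] at he
          rw [(hVTS T (0, 1)).2.1 e he, dt_one]
          exact hd1
        · obtain ⟨e', he', rfl⟩ := List.mem_map.1 he
          rw [NLs_single] at he'
          show dt e'.2.1 e'.2.2 ∣ D
          rw [(hVTS T' (0, 1)).2.1 e' he', dt_one]
          exact hd2)
      (by
        intro g hg
        have h1 := (hR g hg).2
        have h2 : ∀ l : Cb, evN D (l.map fun e => (-e.1, e.2)) g = -evN D l g := by
          intro l
          induction l with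
          | nil => simp [evN]
          | cons a l ih =>
            simp only [evN, List.map_cons, List.sum_cons] at ih ⊢
            rw [ih]
            ring
        have h3 : evN D (NLs [T] ++ (NLs [T']).map fun e => (-e.1, e.2)) g =
            evN D (NLs [T]) g + evN D ((NLs [T']).map fun e => (-e.1, e.2)) g := by
          simp only [evN, List.map_append, List.sum_append]
        rw [h3, h2, h1, add_neg_cancel]) F hF
    have h2 : ∀ l : Cb, ((l.map fun e => (-e.1, e.2)).map
        fun e => (e.1 : ℂ) * F e.2.1 e.2.2).sum = -evF F l := by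
      intro l
      induction l with
      | nil => simp [evF]
      | cons a l ih =>
        simp only [evF, List.map_cons, List.sum_cons] at ih ⊢
        rw [ih]
        push_cast
        ring
    rw [List.map_append, List.sum_append, h2] at hp
    have h3 : evF F (NLs [T]) - evF F (NLs [T']) = 0 := by
      rw [sub_eq_add_neg]
      exact hp
    have h4 := sub_eq_zero.1 h3
    rwa [NLs_single, NLs_single] at h4

end Pool.Agent.TZ
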