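import Pool.Agent.TZ.StA

/-!
Theorem Z (MP_31fd3b_gt): INE, the classes of the edges.
-/

open scoped BigOperators

namespace Pool.Agent.TZ

open Pool.Agent.LibH11.Sliced Pool.Agent.MTR Pool.Agent.MTA Pool.Agent.UA Pool.Agent.UB
open Pool.Agent.TwoBr Pool.Agent.Mont Pool.Agent.TV Pool.Agent.TW
open Pool.Agent.TB hiding vec

namespace INE

theorem br_vs (T : Tr) : br0 T = (vs0 T).bind fun x => x.2.map fun b => (x.1, b) := by
  unfold br0 vs0
  rw [Multiset.bind_map]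

theorem ic_eq (h3 : EDS_Stmt) {q r : ℚ × ℚ} (h : Se q r) (p : ℚ × ℚ) : ic p r = ic p q := by
  classical
  have hs := h3.2.2.1.2.1
  have ht := h3.2.2.1.2.2
  unfold ic
  by_cases h1 : Se p q
  · rw [if_pos h1, if_pos (ht _ _ _ h1 h)]
  · rw [if_neg h1, if_neg (fun h2 => h1 (ht _ _ _ h2 (hs _ _ h)))]

theorem ev (h1 : EVN_Stmt) {T : Tr} (g : Gen T) (hv : (vec T).1 ≠ 0) (p : ℚ × ℚ) :
    evF (Fc p) (NL (0, 1) T) = ((vs0 T).map fun x => -((x.2.card : ℂ) - 2) * ic p (x.1, 0)).sum +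
      ((rb0 T).map (ic p)).sum := by
  rw [h1 T p g.root hv g.wt]
  unfold vs0
  rw [Multiset.map_map]
  rfl

theorem br (h2 : EGA_Stmt) (h3 : EDS_Stmt) {T : Tr} (g : Gen T) (hv : (vec T).1 ≠ 0) (p : ℚ × ℚ) :
    ((br0 T).map (ic p)).sum = ((rb0 T).map (ic p)).sum +
      2 * ((eg0 T).map fun e => ic p e.1).sum := by
  obtain ⟨he, hb⟩ := h2 T g.root hv g.wt
  have e1 : ((eg0 T).map fun e => ic p e.2) = (eg0 T).map fun e => ic p e.1 :=
    Multiset.map_congr rfl (fun e h => ic_eq h3 (he e h) p)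
  have e2 : ((eg0 T).map Prod.fst).map (ic p) = (eg0 T).map fun e => ic p e.1 :=
    Multiset.map_map _ _ _
  have e3 : ((eg0 T).map Prod.snd).map (ic p) = (eg0 T).map fun e => ic p e.2 :=
    Multiset.map_map _ _ _
  rw [hb, Multiset.map_add, Multiset.map_add, Multiset.sum_add, Multiset.sum_add, e2, e3, e1]
  ring

end INE

theorem t_INE (h1 : EVN_Stmt) (h2 : EGA_Stmt) (h3 : EDS_Stmt) : INE_Stmt := by
  intro T T' g g' hF hs p
  obtain ⟨D, hD, hd, hd', -, hN⟩ := hF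
  have hD0 : D ≠ 0 := by
    rintro rfl
    exact absurd hD (by decide)
  have hv : (vec T).1 ≠ 0 := fun h => hD0 (by
    rw [h] at hd
    exact Int.zero_dvd.1 hd)
  have hv' : (vec T').1 ≠ 0 := fun h => hD0 (by
    rw [h] at hd'
    exact Int.zero_dvd.1 hd')
  have e := hN (Fc p) (h3.1 D p hD0)
  rw [INE.ev h1 g hv, INE.ev h1 g' hv', hs] at e
  have e' := add_left_cancel e
  have b := INE.br h2 h3 g hv p
  have b' := INE.br h2 h3 g' hv' p
  rw [INE.br_vs, hs, ← INE.br_vs, b', e'] at b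
  have b2 := add_left_cancel b
  exact (mul_left_cancel₀ (by norm_num) b2).symm

end Pool.Agent.TZ
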