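import Pool.Agent.TZ.StC

/-!
Theorem Z (MP_31fd3b_gt), module MUC: mutation equivalence and operations (helper33).
-/

set_option autoImplicit false

open scoped BigOperators

namespace Pool.Agent.TZ

open Pool.Agent.LibH11 Pool.Agent.LibH11.Sliced Pool.Agent.MTR Pool.Agent.MTA Pool.Agent.UA
open Pool.Agent.UB Pool.Agent.TwoBr Pool.Agent.Mont Pool.Agent.TV Pool.Agent.TW
open Pool.Agent.TB hiding vec

/-- the induction principle of mutation equivalence, with a plain name for the second case -/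
theorem Mu.ind {n : ℕ} {motive : ∀ x y : Diag, Mu n x y → Prop}
    (eqd : ∀ {x y : Diag} (h : EqD n x y), motive x y (.eqd h))
    (mutn : ∀ (u t t' v : Diag) (i m k : ℕ) (hu : cnt n u = some m) (hi : i + 2 ≤ m)
      (ht : cnt 2 t = some 2) (hr : Rot3 t t') (hv : cnt m v = some k),
      motive (u ++ sh i t ++ v) (u ++ sh i t' ++ v) (.mut u t t' v i m k hu hi ht hr hv))
    (symm : ∀ {x y : Diag} (h : Mu n x y), motive x y h → motive y x (.symm h))
    (trans : ∀ {x y z : Diag} (h : Mu n x y) (h' : Mu n y z), motive x y h → motive y z h' →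
      motive x z (.trans h h'))
    {x y : Diag} (h : Mu n x y) : motive x y h :=
  Mu.rec (motive := motive) (fun h => eqd h)
    (fun u t t' v i m k hu hi ht hr hv => mutn u t t' v i m k hu hi ht hr hv)
    (fun h ih => symm h ih) (fun h h' ih ih' => trans h h' ih ih') h

namespace Muc

theorem cnt_rot3 {t t' : Diag} (h : Rot3 t t') (ht : cnt 2 t = some 2) : cnt 2 t' = some 2 := by
  cases h with
  | hd => exact cnt_hD _ ht
  | fl => exact cnt_flip _ ht
  | pd => exact cnt_pD _ ht

theorem cnt_mid {m i : ℕ} (t : Diag) (hi : i + 2 ≤ m) (ht : cnt 2 t = some 2) :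
    cnt m (sh i t) = some m := by
  have h1 : cnt (2 + i) (sh i t) = some (2 + i) := by
    rw [cnt_sh, ht]
    rfl
  have h2 := cnt_widen (m - (2 + i)) _ _ _ h1
  rwa [show 2 + i + (m - (2 + i)) = m by omega] at h2

theorem cnt_eq {n : ℕ} {x y : Diag} (h : Mu n x y) : cnt n x = cnt n y := by
  induction h using Mu.ind with
  | eqd h => exact h.cnt_eq
  | mutn u t t' v i m k hu hi ht hr hv =>
    rw [List.append_assoc, List.append_assoc, cnt_app hu, cnt_app hu,
      cnt_app (cnt_mid t hi ht), cnt_app (cnt_mid t' hi (cnt_rot3 hr ht))]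
  | symm _ ih => exact ih.symm
  | trans _ _ ih1 ih2 => exact ih1.trans ih2

theorem right {n : ℕ} {x x' : Diag} (h : Mu n x x') (y : Diag) (hy : cnt n (x ++ y) ≠ none) :
    Mu n (x ++ y) (x' ++ y) := by
  induction h using Mu.ind with
  | eqd h => exact .eqd (h.right y hy)
  | mutn u t t' v i m k hu hi ht hr hv =>
    rw [List.append_assoc _ v y, List.append_assoc _ v y]
    rw [List.append_assoc, List.append_assoc, cnt_app hu, cnt_app (cnt_mid t hi ht)] at hy
    obtain ⟨k', hk'⟩ := Option.ne_none_iff_exists'.1 hy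
    exact Mu.mut u t t' (v ++ y) i m k' hu hi ht hr hk'
  | symm h ih =>
    refine (ih ?_).symm
    rw [cnt_append, cnt_eq h, ← cnt_append]
    exact hy
  | trans h _ ih1 ih2 =>
    refine (ih1 hy).trans (ih2 ?_)
    rw [cnt_append, ← cnt_eq h, ← cnt_append]
    exact hy

theorem left {n m : ℕ} {x x' : Diag} (u : Diag) (hu : cnt n u = some m) (h : Mu m x x') :
    Mu n (u ++ x) (u ++ x') := by
  induction h using Mu.ind with
  | eqd h => exact .eqd (h.left u hu)
  | mutn u' t t' v i m' k hu' hi ht hr hv =>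
    have e : ∀ s : Diag, u ++ (u' ++ sh i s ++ v) = (u ++ u') ++ sh i s ++ v := by
      intro s
      simp only [List.append_assoc]
    rw [e, e]
    exact Mu.mut (u ++ u') t t' v i m' k (by rw [cnt_app hu]; exact hu') hi ht hr hv
  | symm _ ih => exact ih.symm
  | trans _ _ ih1 ih2 => exact ih1.trans ih2

theorem shk {n : ℕ} {x y : Diag} (h : Mu n x y) (j : ℕ) : Mu (n + j) (sh j x) (sh j y) := by
  induction h using Mu.ind with
  | eqd h => exact .eqd (h.sh j)
  | mutn u t t' v i m k hu hi ht hr hv =>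
    have e : ∀ s : Diag, sh j (u ++ sh i s ++ v) = sh j u ++ sh (i + j) s ++ sh j v := by
      intro s
      rw [sh_append, sh_append, sh_sh]
    rw [e, e]
    refine Mu.mut (sh j u) t t' (sh j v) (i + j) (m + j) (k + j) ?_ (by omega) ht hr ?_
    · rw [cnt_sh, hu]
      rfl
    · rw [cnt_sh, hv]
      rfl
  | symm _ ih => exact ih.symm
  | trans _ _ ih1 ih2 => exact ih1.trans ih2

theorem widen {n : ℕ} {x y : Diag} (h : Mu n x y) (j : ℕ) : Mu (n + j) x y := by
  induction h using Mu.ind with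
  | eqd h => exact .eqd (h.widen j)
  | mutn u t t' v i m k hu hi ht hr hv =>
    exact Mu.mut u t t' v i (m + j) (k + j) (cnt_widen j _ _ _ hu) (by omega) ht hr
      (cnt_widen j _ _ _ hv)
  | symm _ ih => exact ih.symm
  | trans _ _ ih1 ih2 => exact ih1.trans ih2

theorem comp {x x' y y' : Diag} (h1 : Mu 2 x x') (h2 : Mu 2 y y') (hx : cnt 2 x = some 2)
    (hy : cnt 2 y = some 2) : Mu 2 (x ++ y) (x' ++ y') := by
  have hx' : cnt 2 x' = some 2 := (cnt_eq h1).symm.trans hx
  refine (right h1 y ?_).trans (left x' hx' h2)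
  rw [cnt_app hx, hy]
  simp

theorem rotM {x y : Diag} (h : Mu 2 x y) (hx : cnt 2 x = some 2) : Mu 2 (rotD x) (rotD y) := by
  have h1 : Mu 4 (sh 1 x) (sh 1 y) := widen (shk h 1) 1
  have h2 : Mu 4 (sh 1 x ++ [(.cap, 2)]) (sh 1 y ++ [(.cap, 2)]) := by
    apply right h1
    rw [cnt_app (cnt_mid x (m := 4) (i := 1) (by omega) hx)]
    simp [cnt, Kind.ins]
  exact left (n := 2) (m := 4) [(.cup, 0)] (by simp [cnt, Kind.ins, Kind.outs]) h2

theorem clM {x y : Diag} (h : Mu 2 x y) (hx : cnt 2 x = some 2) : Mu 1 (cl x) (cl y) := by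
  have h1 : Mu 3 x y := widen h 1
  have h2 : Mu 3 (x ++ [(.cap, 1)]) (y ++ [(.cap, 1)]) := by
    apply right h1
    rw [cnt_app (cnt_widen 1 _ _ _ hx)]
    simp [cnt, Kind.ins]
  exact left (n := 1) (m := 3) [(.cup, 1)] (by simp [cnt, Kind.ins, Kind.outs]) h2

end Muc

theorem t_MUC : MUC_Stmt :=
  ⟨fun _ _ _ h => Muc.cnt_eq h, fun _ _ _ _ h1 h2 hx hy => Muc.comp h1 h2 hx hy,
    fun _ _ h hx => ⟨Muc.rotM h hx, Muc.clM h hx⟩⟩

end Pool.Agent.TZ
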