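import Pool.Agent.TZ.StC

/-!
Theorem Z (MP_31fd3b_gt), module MUR: relations up to mutation (helper33).
-/

set_option autoImplicit false

open scoped BigOperators

namespace Pool.Agent.TZ

open Pool.Agent.LibH11 Pool.Agent.LibH11.Sliced Pool.Agent.MTR Pool.Agent.MTA Pool.Agent.UA
open Pool.Agent.UB Pool.Agent.TwoBr Pool.Agent.Mont Pool.Agent.TV Pool.Agent.TW
open Pool.Agent.TB hiding vec

namespace Mur

theorem one {x x' : Diag} (h : Rot3 x x') (hx : cnt 2 x = some 2) : Mu 2 x x' := by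
  have h1 := Mu.mut (n := 2) [] x x' [] 0 2 2 rfl (le_refl _) hx h rfl
  simpa [sh_zero] using h1

theorem flip_append (x y : Diag) : flipD (x ++ y) = flipD y ++ flipD x := by
  simp [flipD]

theorem refl {n : ℕ} (x : Diag) : Mu n x x := .eqd (EqD.refl x)

end Mur

open Mur in
theorem t_MUR (h1 : MUC_Stmt) (h3 : FRO_Stmt) (h4 : FR3_Stmt) (h5 : FC0_Stmt) (h6 : FCG_Stmt) :
    MUR_Stmt := by
  obtain ⟨hc, hcomp, hrc⟩ := h1
  have p1 : ∀ x : Diag, cnt 2 x = some 2 → Mu 2 x (hD 2 x) ∧ Mu 2 x (flipD x) ∧ Mu 2 x (pD 2 x) :=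
    fun x hx => ⟨one (.hd x) hx, one (.fl x) hx, one (.pd x) hx⟩
  have p2 : ∀ x y : Diag, cnt 2 x = some 2 → cnt 2 y = some 2 → Mu 2 (x ++ y) (y ++ x) := by
    intro x y hx hy
    have hxy : cnt 2 (x ++ y) = some 2 := by rw [cnt_app hx]; exact hy
    refine (p1 _ hxy).2.1.trans ?_
    rw [flip_append]
    exact hcomp _ _ _ _ (p1 y hy).2.1.symm (p1 x hx).2.1.symm (cnt_flip _ hy) (cnt_flip _ hx)
  have p3 : ∀ x : Diag, cnt 2 x = some 2 → Mu 2 (rotD (rotD x)) x := fun x hx =>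
    (Mu.eqd (h3 x hx).1).trans (p1 x hx).2.2.symm
  have hcr : ∀ e : Bool, cnt 2 [((Kind.crs e), 0)] = some 2 := by
    intro e
    simp [cnt, Kind.ins, Kind.outs]
  have hrot : ∀ x : Diag, cnt 2 x = some 2 → cnt 2 (rotD x) = some 2 := fun x hx =>
    (h6.2.2.2.1 x hx).1
  refine ⟨p1, p2, p3, ?_, ?_⟩
  · intro x e hx
    refine (Mu.eqd (h4 x e hx)).trans ?_
    have hx1 : cnt 2 ([((Kind.crs (!e)), 0)] ++ x) = some 2 := by
      rw [cnt_app (hcr (!e))]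
      exact hx
    have hx2 : cnt 2 (x ++ [((Kind.crs (!e)), 0)]) = some 2 := by
      rw [cnt_app hx]
      exact hcr (!e)
    have q1 : Mu 2 ([((Kind.crs (!e)), 0)] ++ rotD ([((Kind.crs (!e)), 0)] ++ x))
        (rotD ([((Kind.crs (!e)), 0)] ++ x) ++ [((Kind.crs (!e)), 0)]) :=
      p2 _ _ (hcr (!e)) (hrot _ hx1)
    have q2 : Mu 2 (rotD ([((Kind.crs (!e)), 0)] ++ x)) (rotD (x ++ [((Kind.crs (!e)), 0)])) :=
      (hrc _ _ (p2 _ _ (hcr (!e)) hx) hx1).1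
    exact q1.trans (hcomp _ _ _ _ q2 (refl _) (hrot _ hx1) (hcr (!e)))
  · intro x y hx hy
    have q1 : Mu 1 (cl (rotD x ++ y)) (cl (y ++ rotD x)) :=
      (hrc _ _ (p2 _ _ (hrot x hx) hy) (by rw [cnt_app (hrot x hx)]; exact hy)).2
    have q2 : Mu 1 (cl (y ++ rotD x)) (cl (rotD (hD 2 y) ++ flipD x)) := .eqd (h5 y x hy hx)
    have hy' : cnt 2 (hD 2 y) = some 2 := cnt_hD _ hy
    have q3 : Mu 2 (rotD (hD 2 y)) (rotD y) := (hrc _ _ (p1 y hy).1.symm hy').1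
    have q4 : Mu 2 (rotD (hD 2 y) ++ flipD x) (rotD y ++ x) :=
      hcomp _ _ _ _ q3 (p1 x hx).2.1.symm (hrot _ hy') (cnt_flip _ hx)
    have q5 : Mu 1 (cl (rotD (hD 2 y) ++ flipD x)) (cl (rotD y ++ x)) :=
      (hrc _ _ q4 (by rw [cnt_app (hrot _ hy')]; exact cnt_flip _ hx)).2
    exact (q1.trans q2).trans q5

end Pool.Agent.TZ
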