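import Pool.Agent.TZ.StC

/-!
Theorem Z (MP_31fd3b_gt), module MUT: the relations up to mutation for trees (helper33).
-/

set_option autoImplicit false

open scoped BigOperators

namespace Pool.Agent.TZ

open Pool.Agent.LibH11 Pool.Agent.LibH11.Sliced Pool.Agent.MTR Pool.Agent.MTA Pool.Agent.UA
open Pool.Agent.UB Pool.Agent.TwoBr Pool.Agent.Mont Pool.Agent.TV Pool.Agent.TW
open Pool.Agent.TB hiding vec

namespace Mut

theorem refl {n : ℕ} (x : Diag) : Mu n x x := .eqd (EqD.refl x)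

theorem chn_append (xs ys : List ℤ) (b : Tr) : chn (xs ++ ys) b = chn xs (chn ys b) := by
  induction xs with
  | nil => rfl
  | cons e xs ih =>
    change Tr.cons (chn (xs ++ ys) b) (.pw e) = Tr.cons (chn xs (chn ys b)) (.pw e)
    rw [ih]

end Mut

open Mut in
theorem t_MUT (h1 : MUC_Stmt) (h2 : MUR_Stmt) (h3 : FCG_Stmt) (h4 : FTA_Stmt) : MUT_Stmt := by
  obtain ⟨-, hcomp, hrc⟩ := h1
  obtain ⟨-, r2, r3, -, r5⟩ := h2
  have hdg : ∀ T : Tr, cnt 2 T.dg = some 2 := h3.2.2.2.2.1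
  have hrot : ∀ x : Diag, cnt 2 x = some 2 → cnt 2 (rotD x) = some 2 := fun x hx =>
    (h3.2.2.2.1 x hx).1
  have hsh : ∀ (T : Tr) (c : ℤ), Mu 2 (T.dg ++ ht c) (T.shift c).dg := fun T c =>
    .eqd (h4.2.2.2.2.1 T c).2.1
  have happ : ∀ x y : Diag, cnt 2 x = some 2 → cnt 2 y = some 2 → cnt 2 (x ++ y) = some 2 := by
    intro x y hx hy
    rw [cnt_app hx]
    exact hy
  have m1 : ∀ a a' b b' : Tr, Mu 2 a.dg a'.dg → Mu 2 b.dg b'.dg →
      Mu 2 (Tr.cons a b).dg (Tr.cons a' b').dg := by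
    intro a a' b b' ha hb
    exact hcomp _ _ _ _ (hrc _ _ ha (hdg a)).1 hb (hrot _ (hdg a)) (hdg b)
  have m2 : ∀ x y b : Tr, Mu 2 (Tr.cons x (.cons y b)).dg (Tr.cons y (.cons x b)).dg := by
    intro x y b
    change Mu 2 (rotD x.dg ++ (rotD y.dg ++ b.dg)) (rotD y.dg ++ (rotD x.dg ++ b.dg))
    rw [← List.append_assoc, ← List.append_assoc]
    exact hcomp _ _ _ _ (r2 _ _ (hrot _ (hdg x)) (hrot _ (hdg y))) (refl _)
      (happ _ _ (hrot _ (hdg x)) (hrot _ (hdg y))) (hdg b)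
  have m5 : ∀ a b : Tr, Mu 2 a.dg b.dg → Mu 1 (cl a.dg) (cl b.dg) := fun a b h =>
    (hrc _ _ h (hdg a)).2
  refine ⟨m1, m2, ?_, ?_, m5, ?_, ?_⟩
  · intro a b n h
    exact ((hsh a n).symm.trans (hcomp _ _ _ _ h (refl _) (hdg a) (cnt_ht n))).trans (hsh b n)
  · intro a b k
    change Mu 2 (rotD (rotD (rotD a.dg ++ ht k) ++ ht 0) ++ (b.shift (-k)).dg)
      (rotD a.dg ++ b.dg)
    have e0 : ht 0 = [] := rfl
    rw [e0, List.append_nil]
    have c1 : cnt 2 (rotD a.dg ++ ht k) = some 2 := happ _ _ (hrot _ (hdg a)) (cnt_ht k)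
    have s1 : Mu 2 (rotD (rotD (rotD a.dg ++ ht k)) ++ (b.shift (-k)).dg)
        ((rotD a.dg ++ ht k) ++ (ht (-k) ++ b.dg)) :=
      hcomp _ _ _ _ (r3 _ c1) ((hsh b (-k)).symm.trans (r2 _ _ (hdg b) (cnt_ht (-k))))
        (hrot _ (hrot _ c1)) (hdg _)
    refine s1.trans ?_
    have e1 : (rotD a.dg ++ ht k) ++ (ht (-k) ++ b.dg) =
        rotD a.dg ++ ((ht k ++ ht (-k)) ++ b.dg) := by
      simp only [List.append_assoc]
    rw [e1]
    have s2 : Mu 2 (ht k ++ ht (-k)) [] := by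
      have s3 := ht_add k (-k)
      rw [add_neg_cancel] at s3
      exact .eqd s3
    have c2 : cnt 2 (ht k ++ ht (-k)) = some 2 := happ _ _ (cnt_ht k) (cnt_ht (-k))
    exact hcomp _ _ _ _ (refl _) (hcomp _ _ _ _ s2 (refl _) c2 (hdg b)) (hrot _ (hdg a))
      (happ _ _ c2 (hdg b))
  · intro es
    induction es with
    | nil =>
      intro X b
      exact r5 _ _ (hdg X) (hdg b)
    | cons e es ih =>
      intro X b
      have e1 : chn (e :: es).reverse b = chn es.reverse (.cons b (.pw e)) := by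
        rw [List.reverse_cons, chn_append]
        rfl
      rw [e1]
      refine Mu.trans ?_ (ih X (.cons b (.pw e)))
      have s1 : Mu 1 (cl (Tr.cons (chn (e :: es) X) b).dg)
          (cl (Tr.cons b (.cons (chn es X) (.pw e))).dg) :=
        r5 _ _ (hdg (.cons (chn es X) (.pw e))) (hdg b)
      exact s1.trans (m5 _ _ (m2 _ _ _))
  · intro es X Y h
    induction es with
    | nil => exact h
    | cons e es ih => exact m1 _ _ _ _ ih (refl _)

end Pool.Agent.TZ
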