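import Pool.Agent.TZ.StA

/-!
Theorem Z (MP_31fd3b_gt): NDN, the alternating sums determine the slopes of a nondegenerate vertex.
-/

open scoped BigOperators

namespace Pool.Agent.TZ

open Pool.Agent.LibH11.Sliced Pool.Agent.MTR Pool.Agent.MTA Pool.Agent.UA Pool.Agent.UB
open Pool.Agent.TwoBr Pool.Agent.Mont Pool.Agent.TV Pool.Agent.TW
open Pool.Agent.TB hiding vec

namespace NDN

open Classical in
/-- the indicator function of a class modulo 1 -/
noncomputable def dl (β x : ℚ) : ℂ := if Int.fract x = Int.fract β then 1 else 0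

theorem per_dl (β : ℚ) : Per1 (dl β) := by
  intro x n
  unfold dl
  rw [Int.fract_add_intCast]

theorem sum1 (bs : Multiset ℚ) (h : ∀ b ∈ bs, Int.fract b = b) (β : ℚ) :
    (bs.map fun b => dl β b).sum = (bs.count (Int.fract β) : ℂ) := by
  classical
  induction bs using Multiset.induction_on with
  | empty => simp
  | cons b s ih =>
    rw [Multiset.map_cons, Multiset.sum_cons,
      ih (fun c hc => h c (Multiset.mem_cons_of_mem hc)), Multiset.count_cons]
    unfold dl
    rw [h b (Multiset.mem_cons_self b s)]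
    by_cases h1 : b = Int.fract β
    · rw [if_pos h1, if_pos h1.symm]
      push_cast
      ring
    · rw [if_neg h1, if_neg (fun h2 => h1 h2.symm)]
      push_cast
      ring

theorem fr_iff (σ b β : ℚ) : Int.fract (σ - b) = Int.fract β ↔
    Int.fract b = Int.fract (σ - β) := by
  rw [Int.fract_eq_fract, Int.fract_eq_fract]
  constructor
  · rintro ⟨z, hz⟩
    exact ⟨-z, by push_cast; linarith⟩
  · rintro ⟨z, hz⟩
    exact ⟨-z, by push_cast; linarith⟩

theorem sum2 (bs : Multiset ℚ) (h : ∀ b ∈ bs, Int.fract b = b) (σ β : ℚ) :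
    (bs.map fun b => dl β (σ - b)).sum = (bs.count (Int.fract (σ - β)) : ℂ) := by
  rw [← sum1 bs h (σ - β)]
  congr 1
  apply Multiset.map_congr rfl
  intro b _
  unfold dl
  by_cases h1 : Int.fract (σ - b) = Int.fract β
  · rw [if_pos h1, if_pos ((fr_iff σ b β).mp h1)]
  · rw [if_neg h1, if_neg (fun h2 => h1 ((fr_iff σ b β).mpr h2))]

open Classical in
/-- the value of the alternating sum at an indicator function -/
noncomputable def va (σ : ℚ) (bs : Multiset ℚ) (β : ℚ) : ℤ :=
  ((bs.card : ℤ) - 2) * ((if Int.fract β = 0 then 1 else 0) -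
    (if Int.fract β = Int.fract σ then 1 else 0)) - bs.count (Int.fract β) +
      bs.count (Int.fract (σ - β))

theorem alN_dl (σ : ℚ) (bs : Multiset ℚ) (h : ∀ b ∈ bs, Int.fract b = b) (β : ℚ) :
    alN (dl β) σ bs = (va σ bs β : ℂ) := by
  unfold alN va
  rw [Multiset.sum_map_sub, sum1 bs h, sum2 bs h]
  have h0 : dl β 0 = if Int.fract β = 0 then 1 else 0 := by
    unfold dl
    rw [Int.fract_zero]
    by_cases h1 : Int.fract β = 0
    · rw [if_pos h1, if_pos h1.symm]
    · rw [if_neg h1, if_neg (fun h2 => h1 h2.symm)]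
  have h1 : dl β σ = if Int.fract β = Int.fract σ then 1 else 0 := by
    unfold dl
    by_cases h1 : Int.fract β = Int.fract σ
    · rw [if_pos h1, if_pos h1.symm]
    · rw [if_neg h1, if_neg (fun h2 => h1 h2.symm)]
  rw [h0, h1]
  push_cast
  ring

theorem pair_le {bs : Multiset ℚ} {a b : ℚ} (hab : a ≠ b) (ha : a ∈ bs) (hb : b ∈ bs) :
    ({a, b} : Multiset ℚ) ≤ bs := by
  rw [Multiset.le_iff_count]
  intro x
  rw [Multiset.insert_eq_cons, Multiset.count_cons, Multiset.count_singleton]
  have h1 := Multiset.one_le_count_iff_mem.mpr ha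
  have h2 := Multiset.one_le_count_iff_mem.mpr hb
  by_cases hx : x = a
  · subst hx
    rw [if_pos rfl, if_neg hab]
    omega
  · rw [if_neg hx]
    by_cases hx' : x = b
    · subst hx'
      rw [if_pos rfl]
      omega
    · rw [if_neg hx']
      omega

theorem pair_le' {bs : Multiset ℚ} {a : ℚ} (ha : 2 ≤ bs.count a) :
    ({a, a} : Multiset ℚ) ≤ bs := by
  rw [Multiset.le_iff_count]
  intro x
  rw [Multiset.insert_eq_cons, Multiset.count_cons, Multiset.count_singleton]
  by_cases hx : x = a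
  · subst hx
    rw [if_pos rfl]
    omega
  · rw [if_neg hx]
    omega

theorem ndg1 {σ : ℚ} {bs : Multiset ℚ} (h : Ndg σ bs) (β : ℚ)
    (hβ : Int.fract β ≠ Int.fract (σ - β)) :
    bs.count (Int.fract β) = 0 ∨ bs.count (Int.fract (σ - β)) = 0 := by
  by_contra hc
  push Not at hc
  refine h _ _ (pair_le hβ (Multiset.count_pos.mp (Nat.pos_of_ne_zero hc.1))
    (Multiset.count_pos.mp (Nat.pos_of_ne_zero hc.2))) ?_
  refine ⟨-⌊β⌋ - ⌊σ - β⌋, ?_⟩
  unfold Int.fract
  push_cast
  ring

theorem ndg2 {σ : ℚ} {bs : Multiset ℚ} (h : Ndg σ bs) (β : ℚ)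
    (hβ : Int.fract β = Int.fract (σ - β)) : bs.count (Int.fract β) ≤ 1 := by
  by_contra hc
  push Not at hc
  refine h _ _ (pair_le' hc) ?_
  obtain ⟨z, hz⟩ := Int.fract_eq_fract.mp hβ
  refine ⟨-⌊β⌋ - ⌊β⌋ + z, ?_⟩
  unfold Int.fract
  push_cast
  linarith

theorem diff (bs cs : Multiset ℚ) (G : Finset ℚ) (h : ∀ a, a ∉ G → bs.count a = cs.count a) :
    (bs.card : ℤ) - cs.card = ∑ a ∈ G, ((bs.count a : ℤ) - cs.count a) ∧
      bs.sum - cs.sum = ∑ a ∈ G, ((bs.count a : ℚ) - cs.count a) * a := by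
  classical
  set F : Finset ℚ := bs.toFinset ∪ cs.toFinset ∪ G with hF
  have hb : bs.toFinset ⊆ F := fun x hx => by simp [hF, hx]
  have hc : cs.toFinset ⊆ F := fun x hx => by simp [hF, hx]
  have hG : G ⊆ F := Finset.subset_union_right
  have c1 : ∀ ds : Multiset ℚ, ds.toFinset ⊆ F → ds.card = ∑ a ∈ F, ds.count a := by
    intro ds hds
    exact (Multiset.sum_count_eq_card (fun a ha => hds (Multiset.mem_toFinset.mpr ha))).symm
  have s1 : ∀ ds : Multiset ℚ, ds.toFinset ⊆ F → ds.sum = ∑ a ∈ F, (ds.count a : ℚ) * a := by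
    intro ds hds
    rw [Finset.sum_multiset_count_of_subset ds F hds]
    apply Finset.sum_congr rfl
    intro a _
    rw [nsmul_eq_mul]
  constructor
  · rw [c1 bs hb, c1 cs hc]
    push_cast
    rw [← Finset.sum_sub_distrib]
    symm
    apply Finset.sum_subset hG
    intro a _ ha
    rw [h a ha, sub_self]
  · rw [s1 bs hb, s1 cs hc, ← Finset.sum_sub_distrib]
    symm
    have e : ∀ a ∈ F, (bs.count a : ℚ) * a - (cs.count a : ℚ) * a =
        ((bs.count a : ℚ) - cs.count a) * a := fun a _ => by ring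
    rw [Finset.sum_congr rfl e]
    apply Finset.sum_subset hG
    intro a _ ha
    rw [h a ha, sub_self, zero_mul]

theorem half {a : ℚ} (h0 : a ≠ 0) (hf : Int.fract a = a) (z : ℤ) (hz : a + a = z) : a = 1 / 2 := by
  have h1 := Int.fract_nonneg a
  have h2 := Int.fract_lt_one a
  rw [hf] at h1 h2
  have h3 : 0 < a := lt_of_le_of_ne h1 (Ne.symm h0)
  have h4 : (0 : ℚ) < z := by linarith
  have h5 : (z : ℚ) < 2 := by linarith
  have h6 : 0 < z := by exact_mod_cast h4
  have h7 : z < 2 := by exact_mod_cast h5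
  have h8 : z = 1 := by omega
  rw [h8] at hz
  push_cast at hz
  linarith

/-- part (a) -/
theorem parta (σ : ℚ) (bs : Multiset ℚ) (h3 : 3 ≤ bs.card) (hf : ∀ b ∈ bs, Int.fract b = b)
    (h0 : (0 : ℚ) ∉ bs) (hn : Ndg σ bs) : ∃ β, va σ bs β ≠ 0 := by
  by_cases hσ : Int.fract σ = 0
  · -- some element is not the half of an integer
    have h1 : ∃ b ∈ bs, Int.fract b ≠ Int.fract (σ - b) := by
      by_contra hc
      push Not at hc
      have h2 : ∀ b ∈ bs, b = 1 / 2 := by
        intro b hb
        obtain ⟨z, hz⟩ := Int.fract_eq_fract.mp (hc b hb)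
        have e1 : σ = ⌊σ⌋ := by
          have := Int.self_sub_floor σ
          rw [hσ] at this
          linarith
        refine half (fun h => h0 (h ▸ hb)) (hf b hb) (z + ⌊σ⌋) ?_
        push_cast
        linarith
      have h4 := Multiset.eq_replicate_card.mpr h2
      have h5 : bs.count (1 / 2) = bs.card := by
        conv_lhs => rw [h4]
        rw [Multiset.count_replicate_self]
      have h6 : (1 / 2 : ℚ) ∈ bs := Multiset.count_pos.mp (by omega)
      have h7 := ndg2 hn (1 / 2) (hc _ h6)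
      rw [hf _ h6] at h7
      omega
    obtain ⟨b, hb, hb2⟩ := h1
    refine ⟨b, ?_⟩
    have hb0 : b ≠ 0 := fun h => h0 (h ▸ hb)
    have h2 : 0 < bs.count (Int.fract b) := by
      rw [hf b hb]
      exact Multiset.count_pos.mpr hb
    have h3 : bs.count (Int.fract (σ - b)) = 0 := by
      rcases ndg1 hn b hb2 with h | h
      · omega
      · exact h
    unfold va
    rw [hσ, hf b hb, if_neg hb0, h3, ← hf b hb]
    push_cast
    omega
  · refine ⟨0, ?_⟩
    unfold va
    have h1 : bs.count (Int.fract 0) = 0 := by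
      rw [Int.fract_zero]
      exact Multiset.count_eq_zero.mpr h0
    rw [h1, if_pos Int.fract_zero, if_neg (fun h => hσ (by rw [← h, Int.fract_zero]))]
    push_cast
    have : (0 : ℤ) ≤ bs.count (Int.fract (σ - 0)) := Int.natCast_nonneg _
    omega

/-- part (b) -/
theorem partb (σ : ℚ) (bs cs : Multiset ℚ)
    (hf : ∀ b ∈ bs, Int.fract b = b) (h0 : (0 : ℚ) ∉ bs) (hn : Ndg σ bs)
    (hs : ∃ n : ℤ, bs.sum - σ = n)
    (hf' : ∀ b ∈ cs, Int.fract b = b) (h0' : (0 : ℚ) ∉ cs) (hn' : Ndg σ cs)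
    (hs' : ∃ n : ℤ, cs.sum - σ = n) (hv : ∀ β, va σ bs β = va σ cs β) : bs = cs := by
  have z1 : ∀ ds : Multiset ℚ, (0 : ℚ) ∉ ds → ∀ β, Int.fract β = 0 → ds.count (Int.fract β) = 0 := by
    intro ds hds β hβ
    rw [hβ]
    exact Multiset.count_eq_zero.mpr hds
  -- classes which are not exceptional
  have gen : ∀ β, Int.fract β ≠ Int.fract σ → Int.fract β ≠ Int.fract (σ - β) →
      bs.count (Int.fract β) = cs.count (Int.fract β) := by
    intro β h1 h2
    by_cases h3 : Int.fract β = 0
    · rw [z1 bs h0 β h3, z1 cs h0' β h3]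
    · have h4 := hv β
      unfold va at h4
      rw [if_neg h3, if_neg h1] at h4
      simp only [sub_self, mul_zero, zero_sub] at h4
      rcases ndg1 hn β h2 with h5 | h5 <;> rcases ndg1 hn' β h2 with h6 | h6 <;> omega
  have red : ∀ a : ℚ, Int.fract a ≠ a → bs.count a = cs.count a := by
    intro a ha
    rw [Multiset.count_eq_zero.mpr (fun h => ha (hf a h)),
      Multiset.count_eq_zero.mpr (fun h => ha (hf' a h))]
  obtain ⟨k, hk⟩ := hs
  obtain ⟨k', hk'⟩ := hs'
  rw [Multiset.ext]
  by_cases hσ : Int.fract σ = 0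
  · -- the only exceptional class is `1 / 2`
    have hex : ∀ a, a ∉ ({1 / 2} : Finset ℚ) → bs.count a = cs.count a := by
      intro a ha
      rw [Finset.mem_singleton] at ha
      by_cases h1 : Int.fract a = a
      · by_cases h2 : a = 0
        · rw [h2, Multiset.count_eq_zero.mpr h0, Multiset.count_eq_zero.mpr h0']
        · rw [← h1]
          apply gen a
          · rw [h1, hσ]
            exact h2
          · intro h3
            obtain ⟨z, hz⟩ := Int.fract_eq_fract.mp h3
            have e1 : σ = ⌊σ⌋ := by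
              have := Int.self_sub_floor σ
              rw [hσ] at this
              linarith
            refine ha (half h2 h1 (z + ⌊σ⌋) ?_)
            push_cast
            linarith
      · exact red a h1
    obtain ⟨-, d2⟩ := diff bs cs {1 / 2} hex
    rw [Finset.sum_singleton] at d2
    have hh : Int.fract (1 / 2 : ℚ) = 1 / 2 := by
      rw [Int.fract_eq_iff]
      refine ⟨by norm_num, by norm_num, 0, by norm_num⟩
    have h5 : Int.fract (1 / 2 : ℚ) = Int.fract (σ - 1 / 2) := by
      rw [Int.fract_eq_fract]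
      refine ⟨1 - ⌊σ⌋, ?_⟩
      have e1 : σ = ⌊σ⌋ := by
        have := Int.self_sub_floor σ
        rw [hσ] at this
        linarith
      push_cast
      linarith
    have c1 := ndg2 hn (1 / 2) h5
    have c2 := ndg2 hn' (1 / 2) h5
    rw [hh] at c1 c2
    have h6 : ((bs.count (1 / 2) : ℚ) - cs.count (1 / 2)) = 2 * ((k : ℚ) - k') := by linarith
    have h7 : ((bs.count (1 / 2) : ℤ) - cs.count (1 / 2)) = 2 * (k - k') := by exact_mod_cast h6
    intro a
    by_cases ha : a ∈ ({1 / 2} : Finset ℚ)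
    · rw [Finset.mem_singleton] at ha
      rw [ha]
      omega
    · exact hex a ha
  · -- the exceptional classes are `σ`, `σ / 2`, `σ / 2 + 1 / 2`
    set s : ℚ := Int.fract σ with hsd
    set t : ℚ := Int.fract (σ / 2) with htd
    set t' : ℚ := Int.fract (σ / 2 + 1 / 2) with htd'
    have es : s = σ - ⌊σ⌋ := (Int.self_sub_floor σ).symm
    have et : t = σ / 2 - ⌊σ / 2⌋ := (Int.self_sub_floor _).symm
    have et' : t' = σ / 2 + 1 / 2 - ⌊σ / 2 + 1 / 2⌋ := (Int.self_sub_floor _).symm
    have hss : Int.fract s = s := Int.fract_fract σ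
    have htt : Int.fract t = t := Int.fract_fract _
    have htt' : Int.fract t' = t' := Int.fract_fract _
    have nt : t ≠ t' := by
      intro h
      rw [et, et'] at h
      have h1 : ((⌊σ / 2 + 1 / 2⌋ : ℤ) : ℚ) - ⌊σ / 2⌋ = 1 / 2 := by linarith
      have h2 : (2 : ℚ) * (((⌊σ / 2 + 1 / 2⌋ : ℤ) : ℚ) - ⌊σ / 2⌋) = 1 := by linarith
      have h3 : (2 : ℤ) * (⌊σ / 2 + 1 / 2⌋ - ⌊σ / 2⌋) = 1 := by exact_mod_cast h2
      omega
    have ns : ∀ u : ℚ, (∃ z : ℤ, u + u - σ = z) → s ≠ u := by
      rintro u ⟨z, hz⟩ h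
      apply hσ
      rw [← h, es] at hz
      have h1 : σ = ((z + 2 * ⌊σ⌋ : ℤ) : ℚ) := by
        push_cast
        linarith
      rw [hsd, h1, Int.fract_intCast]
    have nst : s ≠ t := ns t ⟨-(2 * ⌊σ / 2⌋), by rw [et]; push_cast; ring⟩
    have nst' : s ≠ t' := ns t' ⟨1 - 2 * ⌊σ / 2 + 1 / 2⌋, by rw [et']; push_cast; ring⟩
    have hex : ∀ a, a ∉ ({s, t, t'} : Finset ℚ) → bs.count a = cs.count a := by
      intro a ha
      simp only [Finset.mem_insert, Finset.mem_singleton, not_or] at ha
      obtain ⟨a1, a2, a3⟩ := ha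
      by_cases h1 : Int.fract a = a
      · rw [← h1]
        apply gen a
        · rw [h1]
          exact a1
        · intro h3
          obtain ⟨z, hz⟩ := Int.fract_eq_fract.mp h3
          -- `2 a = σ + z`
          rcases Int.even_or_odd' z with ⟨y, hy | hy⟩
          · apply a2
            rw [htd, ← h1, Int.fract_eq_fract]
            refine ⟨y, ?_⟩
            rw [hy] at hz
            push_cast at hz
            linarith
          · apply a3
            rw [htd', ← h1, Int.fract_eq_fract]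
            refine ⟨y, ?_⟩
            rw [hy] at hz
            push_cast at hz
            linarith
      · exact red a h1
    obtain ⟨d1, d2⟩ := diff bs cs {s, t, t'} hex
    rw [Finset.sum_insert (by simp [nst, nst']), Finset.sum_insert (by simp [nt]),
      Finset.sum_singleton] at d1 d2
    -- the value at `σ`
    have h4 := hv σ
    unfold va at h4
    have e0 : bs.count (Int.fract (σ - σ)) = 0 := z1 bs h0 _ (by rw [sub_self, Int.fract_zero])
    have e0' : cs.count (Int.fract (σ - σ)) = 0 := z1 cs h0' _ (by rw [sub_self, Int.fract_zero])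
    rw [if_neg hσ, if_pos rfl, e0, e0', ← hsd] at h4
    have b1 : ∀ ds : Multiset ℚ, Ndg σ ds → ds.count t ≤ 1 := by
      intro ds hds
      have := ndg2 hds (σ / 2) (by rw [show σ - σ / 2 = σ / 2 by ring])
      exact this
    have b2 : ∀ ds : Multiset ℚ, Ndg σ ds → ds.count t' ≤ 1 := by
      intro ds hds
      have := ndg2 hds (σ / 2 + 1 / 2) (by
        rw [Int.fract_eq_fract]
        exact ⟨1, by push_cast; ring⟩)
      exact this
    have b1b := b1 bs hn
    have b1c := b1 cs hn'
    have b2b := b2 bs hn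
    have b2c := b2 cs hn'
    have h5 : (2 : ℤ) * ((bs.count s : ℤ) - cs.count s) +
        (((bs.count t : ℤ) - cs.count t) + ((bs.count t' : ℤ) - cs.count t')) = 0 := by
      push_cast at h4
      omega
    have h5q : (2 : ℚ) * ((bs.count s : ℚ) - cs.count s) +
        (((bs.count t : ℚ) - cs.count t) + ((bs.count t' : ℚ) - cs.count t')) = 0 := by
      exact_mod_cast h5
    have h6 : ((bs.count t' : ℚ) - cs.count t') / 2 =
        ((k - k' + ((bs.count s : ℤ) - cs.count s) * ⌊σ⌋ + ((bs.count t : ℤ) - cs.count t) * ⌊σ / 2⌋ +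
          ((bs.count t' : ℤ) - cs.count t') * ⌊σ / 2 + 1 / 2⌋ : ℤ) : ℚ) := by
      push_cast
      have e1 : bs.sum - cs.sum = (k : ℚ) - k' := by linarith
      linear_combination e1 - d2 - ((bs.count s : ℚ) - cs.count s) * es -
        ((bs.count t : ℚ) - cs.count t) * et - ((bs.count t' : ℚ) - cs.count t') * et' -
        (σ / 2) * h5q
    set K : ℤ := k - k' + ((bs.count s : ℤ) - cs.count s) * ⌊σ⌋ +
      ((bs.count t : ℤ) - cs.count t) * ⌊σ / 2⌋ +
          ((bs.count t' : ℤ) - cs.count t') * ⌊σ / 2 + 1 / 2⌋ with hK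
    have h7 : ((bs.count t' : ℚ) - cs.count t') = 2 * (K : ℚ) := by linarith
    have h8 : ((bs.count t' : ℤ) - cs.count t') = 2 * K := by exact_mod_cast h7
    intro a
    by_cases ha : a ∈ ({s, t, t'} : Finset ℚ)
    · simp only [Finset.mem_insert, Finset.mem_singleton] at ha
      rcases ha with ha | ha | ha <;> rw [ha] <;> omega
    · exact hex a ha

end NDN

theorem t_NDN : NDN_Stmt := by
  intro σ bs h3 hf h0 hn hs
  refine ⟨?_, ?_⟩
  · obtain ⟨β, hβ⟩ := NDN.parta σ bs h3 hf h0 hn
    refine ⟨NDN.dl β, NDN.per_dl β, ?_⟩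
    rw [NDN.alN_dl σ bs hf β]
    exact_mod_cast hβ
  · intro cs _ hf' h0' hn' hs' hv
    refine NDN.partb σ bs cs hf h0 hn hs hf' h0' hn' hs' (fun β => ?_)
    have h1 := hv (NDN.dl β) (NDN.per_dl β)
    rw [NDN.alN_dl σ bs hf β, NDN.alN_dl σ cs hf' β] at h1
    exact_mod_cast h1

end Pool.Agent.TZ
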