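import Pool.Agent.TW.Nzm

/-!
Theorem Z (MP_31fd3b_gt), part A: the values of all trees with an odd determinant at the roots of
unity do not vanish (helper11).
-/

set_option autoImplicit false

open Filter Topology
open scoped BigOperators Real

namespace Pool.Agent.TZ

open Pool.Agent.LibH11.Sliced Pool.Agent.MTR Pool.Agent.MT Pool.Agent.MTA Pool.Agent.UA
open Pool.Agent.UB Pool.Agent.TwoBr Pool.Agent.Mont Pool.Agent.TV Pool.Agent.TW
open Pool.Agent.TB hiding vec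

/-- NZA: the state of a tree does not vanish if one component of its vector is odd. -/
def NZA_Stmt : Prop :=
  ∀ t : Tr, (Odd (vec t).1 ∨ Odd (vec t).2) →
    ∀ s : ℕ, 2 ≤ s → ∀ ι : ℤ, Odd ι → (sta (2 ^ s) ι t).1 ≠ 0

/-- NZV: the values of the trees with an odd determinant do not vanish. -/
def NZV_Stmt : Prop := ∀ t : Tr, Odd (vec t).1 → NVP t

namespace NZA

/-- a stabilised function with an odd second component which vanishes at one even element is zero -/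
lemma zero_of_one {s : ℕ} {ι : ℤ} (hι : IsCoprime ι (2 * (2 ^ s : ℕ) : ℤ)) {V : ℤ × ℤ}
    {f : Fn (2 ^ s)} (hst : Stab (2 ^ s) ι V f) (hev : Evs (2 ^ s) f) (hV : Odd V.2) (w0 : ℕ)
    (h0 : f (2 * ((w0 : ℕ) : ZMod (2 * 2 ^ s))) = 0) : f = 0 := by
  obtain ⟨u, v, huv⟩ := MNZ.coprime_two_pow _ hV s
  funext x
  rw [Pi.zero_apply]
  obtain ⟨m, rfl⟩ : ∃ m : ℕ, ((m : ℕ) : ZMod (2 * 2 ^ s)) = x := ⟨x.val, ZMod.natCast_zmod_val x⟩
  rcases Nat.even_or_odd' m with ⟨w, rfl | rfl⟩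
  · have h1 := congrFun (hst (((w : ℤ) - w0) * u)) (2 * ((w0 : ℕ) : ZMod (2 * 2 ^ s)))
    rw [Stu.Tt_apply, h0] at h1
    have h2 := (mul_eq_zero.1 h1).resolve_left (NZR.zt_ne hι _)
    have h3 : (2 * ((w0 : ℕ) : ZMod (2 * 2 ^ s))) +
        2 * ((((w : ℤ) - w0) * u * V.2 : ℤ) : ZMod (2 * 2 ^ s)) =
        ((2 * w : ℕ) : ZMod (2 * 2 ^ s)) := by
      have h4 : (2 * ((w0 : ℕ) : ZMod (2 * 2 ^ s))) +
          2 * ((((w : ℤ) - w0) * u * V.2 : ℤ) : ZMod (2 * 2 ^ s)) =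
          ((2 * w0 + 2 * (((w : ℤ) - w0) * u * V.2) : ℤ) : ZMod (2 * 2 ^ s)) := by
        push_cast
        ring
      have h5 : ((2 * w : ℕ) : ZMod (2 * 2 ^ s)) = ((2 * w : ℤ) : ZMod (2 * 2 ^ s)) := by
        push_cast
        ring
      rw [h4, h5, ZMod.intCast_eq_intCast_iff_dvd_sub]
      refine ⟨((w : ℤ) - w0) * v, ?_⟩
      push_cast
      linear_combination (-2 * ((w : ℤ) - w0)) * huv
    rw [h3] at h2
    exact h2
  · exact hev w

end NZA

open NZA in
theorem t_NZA (h1 : STU_Stmt) (h2 : PRS_Stmt) (h3 : EGO_Stmt) : NZA_Stmt := by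
  intro t
  induction t with
  | pw e =>
    intro _ s _ ι hι h0
    have hι' : IsCoprime ι (2 * (2 ^ s : ℕ) : ℤ) := by
      have h1 := MNZ.coprime_two_pow ι hι (s + 1)
      rwa [show (2 * (2 ^ s : ℕ) : ℤ) = (2 : ℤ) ^ (s + 1) by push_cast; ring]
    have h4 := congrFun h0 0
    change fe (2 ^ s) ι e 0 = 0 at h4
    rw [MNZ.fe_zero zt_basic (2 ^ s) ι hι'] at h4
    exact one_ne_zero h4
  | cons a b iha ihb =>
    intro hodd s hs2 ι hι h0
    have hι' : IsCoprime ι (2 * (2 ^ s : ℕ) : ℤ) := by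
      have h1 := MNZ.coprime_two_pow ι hι (s + 1)
      rwa [show (2 * (2 ^ s : ℕ) : ℤ) = (2 : ℤ) ^ (s + 1) by push_cast; ring]
    obtain ⟨k, hk⟩ : ∃ k, (2 ^ s : ℕ) = 4 * k := ⟨2 ^ (s - 2), by
      rw [show (4 : ℕ) = 2 ^ 2 by norm_num, ← pow_add]
      congr 1
      omega⟩
    have e1 : (vec (.cons a b)).1 = -((vec a).2 * (vec b).2) + (vec a).1 * (vec b).1 := by
      simp only [vec, addv, rv]
      ring
    have e2 : (vec (.cons a b)).2 = (vec a).1 * (vec b).2 := by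
      simp only [vec, addv, rv]
    rw [e1, e2] at hodd
    have ha : Odd (vec a).1 ∨ Odd (vec a).2 := by
      by_contra hcon
      push Not at hcon
      obtain ⟨c1, c2⟩ := hcon
      rw [Int.not_odd_iff_even] at c1 c2
      rcases hodd with h | h
      · exact (Int.not_even_iff_odd.2 h) ((c2.mul_right _).neg.add (c1.mul_right _))
      · exact (Int.not_even_iff_odd.2 h) (c1.mul_right _)
    have hb : Odd (vec b).1 ∨ Odd (vec b).2 := by
      by_contra hcon
      push Not at hcon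
      obtain ⟨c1, c2⟩ := hcon
      rw [Int.not_odd_iff_even] at c1 c2
      rcases hodd with h | h
      · exact (Int.not_even_iff_odd.2 h) ((c2.mul_left _).neg.add (c1.mul_left _))
      · exact (Int.not_even_iff_odd.2 h) (c2.mul_left _)
    have na := iha ha s hs2 ι hι
    have nb := ihb hb s hs2 ι hι
    have hval : ∀ w : ℕ, Fh (2 ^ s) ι (sta (2 ^ s) ι a).1 (2 * ((w : ℕ) : ZMod (2 * 2 ^ s))) *
        (sta (2 ^ s) ι b).1 (2 * ((w : ℕ) : ZMod (2 * 2 ^ s))) = 0 := fun w =>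
      congrFun h0 (2 * ((w : ℕ) : ZMod (2 * 2 ^ s)))
    by_cases hao : Odd (vec a).1
    · apply nb
      funext x
      rw [Pi.zero_apply]
      obtain ⟨m, rfl⟩ : ∃ m : ℕ, ((m : ℕ) : ZMod (2 * 2 ^ s)) = x :=
        ⟨x.val, ZMod.natCast_zmod_val x⟩
      rcases Nat.even_or_odd' m with ⟨w, rfl | rfl⟩
      · have hFa := NZM.Fh_ne h1 h2 h3 a hao s ι hι
          (fun h => na (NZM.zero_of_Va h1 h2 h3 a hao s hs2 ι hι h)) w
        have h5 := (mul_eq_zero.1 (hval w)).resolve_left hFa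
        rw [show ((2 * w : ℕ) : ZMod (2 * 2 ^ s)) = 2 * ((w : ℕ) : ZMod (2 * 2 ^ s)) by push_cast; ring]
        exact h5
      · exact (h1 (2 ^ s) ι hι' b).1 w
    · rw [Int.not_odd_iff_even] at hao
      have hbo : Odd (vec b).2 := by
        rcases hodd with h | h
        · have h5 : Odd ((vec a).2 * (vec b).2) := by
            by_contra h6
            rw [Int.not_odd_iff_even] at h6
            exact (Int.not_even_iff_odd.2 h) (h6.neg.add (hao.mul_right _))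
          exact (Int.odd_mul.1 h5).2
        · exact absurd (hao.mul_right _) (Int.not_even_iff_odd.2 h)
      apply na
      apply NZR.zero_of_Fh k hk hι' _ (NZR.per_sta k hk hι' h1 a)
      intro x
      obtain ⟨w, rfl⟩ : ∃ m : ℕ, ((m : ℕ) : ZMod (2 * 2 ^ s)) = x :=
        ⟨x.val, ZMod.natCast_zmod_val x⟩
      refine (mul_eq_zero.1 (hval w)).resolve_right fun h6 => nb ?_
      exact zero_of_one hι' (h1 (2 ^ s) ι hι' b).2.2 (h1 (2 ^ s) ι hι' b).1 hbo w h6

theorem t_NZV (h1 : STU_Stmt) (h2 : PRS_Stmt) (h3 : EGO_Stmt) : NZV_Stmt := by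
  intro t hodd
  refine ⟨hodd, fun s hs2 ι hι h0 => ?_⟩
  exact t_NZA h1 h2 h3 t (Or.inl hodd) s hs2 ι hι (NZM.zero_of_Va h1 h2 h3 t hodd s hs2 ι hι h0)

end Pool.Agent.TZ
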