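import Pool.Agent.TZ.StC

/-!
Theorem Z, module PRM: every child can be moved to the first place (helper54).
-/

open scoped BigOperators

namespace Pool.Agent.TZ

open Pool.Agent.LibH11.Sliced Pool.Agent.MTR Pool.Agent.MTA Pool.Agent.UA Pool.Agent.UB
open Pool.Agent.TwoBr Pool.Agent.Mont Pool.Agent.TV Pool.Agent.TW
open Pool.Agent.TB hiding vec

namespace PRM

theorem addv_assoc (u v w : ℤ × ℤ) : addv (addv u v) w = addv u (addv v w) := by
  unfold addv
  ext
  · simp only
    ring
  · simp only
    ring

theorem addv_comm (u v : ℤ × ℤ) : addv u v = addv v u := by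
  unfold addv
  ext
  · simp only
    ring
  · simp only
    ring

theorem addv_right_comm (u v w : ℤ × ℤ) : addv (addv u v) w = addv (addv u w) v := by
  rw [addv_assoc, addv_comm v w, addv_assoc]

theorem addv_left_comm (u v w : ℤ × ℤ) : addv u (addv v w) = addv v (addv u w) := by
  rw [← addv_assoc, addv_comm u v, addv_assoc]

theorem vec_cons (a b : Tr) : vec (.cons a b) = addv (rv (vec a)) (vec b) := rfl

theorem kids_cons (a b : Tr) : (Tr.cons a b).kids = b.kids + 1 := rfl

theorem size_cons (a b : Tr) : (Tr.cons a b).size = a.size + 2 + b.size := rfl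

theorem cf_cons (a b : Tr) : cf (.cons a b) = Int.fract (slp (rv (vec a))) ::ₘ cf b := rfl

theorem vt_cons (a b : Tr) (acc : Multiset ℚ) (f : Bool) (L : ℤ × ℤ) :
    vt (.cons a b) acc f L =
      vt a {Int.fract (slp (rv (addv L (vec b))))} (decide (2 ≤ a.kids)) (rv (addv L (vec b))) +
        vt b (Int.fract (slp (rv (vec a))) ::ₘ acc) f (addv L (rv (vec a))) := rfl

theorem eg_cons (a b : Tr) (f : Bool) (L : ℤ × ℤ) :
    eg (.cons a b) f L =
      ed1 (slp (addv L (vec (.cons a b)))) f a (rv (addv L (vec b))) +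
        eg a (decide (2 ≤ a.kids)) (rv (addv L (vec b))) + eg b f (addv L (rv (vec a))) := rfl

theorem rb_cons (a b : Tr) (f : Bool) (L : ℤ × ℤ) :
    rb (.cons a b) f L =
      rb1 (slp (addv L (vec (.cons a b)))) f a (rv (addv L (vec b))) +
        rb a (decide (2 ≤ a.kids)) (rv (addv L (vec b))) + rb b f (addv L (rv (vec a))) := rfl

theorem main (h1 : MUT_Stmt) : ∀ (T a : Tr), a ∈ chl T → ∃ b : Tr,
    Mu 2 T.dg (Tr.cons a b).dg ∧ vec (.cons a b) = vec T ∧
    (Tr.cons a b).kids = T.kids ∧ (Tr.cons a b).size = T.size ∧ cf (.cons a b) = cf T ∧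
    ∀ (acc : Multiset ℚ) (f : Bool) (L : ℤ × ℤ), vt (.cons a b) acc f L = vt T acc f L ∧
      eg (.cons a b) f L = eg T f L ∧ rb (.cons a b) f L = rb T f L
  | .pw _, a, h => by
    change a ∈ ([] : List Tr) at h
    simp at h
  | .cons x y, a, h => by
    change a ∈ x :: chl y at h
    rcases List.mem_cons.1 h with rfl | h
    · exact ⟨y, Mu.eqd (EqD.refl _), rfl, rfl, rfl, rfl, fun _ _ _ => ⟨rfl, rfl, rfl⟩⟩
    · obtain ⟨y', m1, v1, k1, s1, c1, d1⟩ := main h1 y a h
      have vT : vec (.cons a (.cons x y')) = vec (.cons x y) := by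
        rw [vec_cons, vec_cons, vec_cons, ← v1, vec_cons, addv_left_comm]
      refine ⟨.cons x y', ?_, vT, ?_, ?_, ?_, fun acc f L => ?_⟩
      · exact (h1.1 x x y (.cons a y') (Mu.eqd (EqD.refl _)) m1).trans (h1.2.1 x a y')
      · rw [kids_cons, kids_cons, kids_cons, ← k1, kids_cons]
      · rw [size_cons, size_cons, size_cons, ← s1, size_cons]
        omega
      · rw [cf_cons, cf_cons, cf_cons, ← c1, cf_cons, Multiset.cons_swap]
      · have ca : rv (addv L (vec (.cons x y'))) =
            rv (addv (addv L (rv (vec x))) (vec y')) := by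
          rw [vec_cons, addv_assoc]
        have cx : rv (addv (addv L (rv (vec a))) (vec y')) = rv (addv L (vec y)) := by
          rw [← v1, vec_cons, addv_assoc]
        have cy : addv (addv L (rv (vec a))) (rv (vec x)) =
            addv (addv L (rv (vec x))) (rv (vec a)) := addv_right_comm _ _ _
        have sx : slp (addv (addv L (rv (vec a))) (vec (.cons x y'))) =
            slp (addv L (vec (.cons x y))) := by
          rw [← vT, addv_assoc]
          rfl
        have sa : slp (addv (addv L (rv (vec x))) (vec (.cons a y'))) =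
            slp (addv L (vec (.cons x y))) := by
          rw [v1, addv_assoc]
          rfl
        obtain ⟨e1, e2, e3⟩ := d1 (Int.fract (slp (rv (vec x))) ::ₘ acc) f
          (addv L (rv (vec x)))
        refine ⟨?_, ?_, ?_⟩
        · rw [vt_cons x y, ← e1, vt_cons a, vt_cons x y', vt_cons a y', ca, cx, cy,
            Multiset.cons_swap, add_left_comm]
        · rw [eg_cons x y, ← e2, eg_cons a, eg_cons x y', eg_cons a y', ca, cx, cy, sx, sa, vT]
          abel
        · rw [rb_cons x y, ← e3, rb_cons a, rb_cons x y', rb_cons a y', ca, cx, cy, sx, sa, vT]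
          abel

end PRM

theorem t_PRM (h1 : MUT_Stmt) : PRM_Stmt := PRM.main h1

end Pool.Agent.TZ
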