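import Pool.Agent.TZ.StC

/-!
Theorem Z (MP_31fd3b_gt), module QAC: two chains with the same matrix up to the sign (helper33).
-/

set_option autoImplicit false

open scoped BigOperators

namespace Pool.Agent.TZ

open Pool.Agent.LibH11 Pool.Agent.LibH11.Sliced Pool.Agent.MTR Pool.Agent.MTA Pool.Agent.UA
open Pool.Agent.UB Pool.Agent.TwoBr Pool.Agent.Mont Pool.Agent.TV Pool.Agent.TW
open Pool.Agent.TB hiding vec

namespace Qac

/-- the tangles up to mutation -/
def st : Setoid {t : Diag // cnt 2 t = some 2} where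
  r x y := Mu 2 x.1 y.1
  iseqv := ⟨fun x => .eqd (EqD.refl x.1), fun h => Mu.symm h, fun h h' => Mu.trans h h'⟩

/-- the quotient -/
def X : Type := Quotient st

/-- the class of a diagram -/
def mk (t : Diag) (h : cnt 2 t = some 2) : X := Quotient.mk st ⟨t, h⟩

theorem mk_eq {t t' : Diag} {h : cnt 2 t = some 2} {h' : cnt 2 t' = some 2} (e : Mu 2 t t') :
    mk t h = mk t' h' := Quotient.sound (s := st) e

theorem mk_ind (P : X → Prop) (h : ∀ t ht, P (mk t ht)) (x : X) : P x :=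
  Quotient.ind (fun y => h y.1 y.2) x

theorem cnt_one (e : Bool) : cnt 2 [(Kind.crs e, 0)] = some 2 := by
  cases e <;> rfl

theorem cnt_snoc {t : Diag} (ct : cnt 2 t = some 2) (e : Bool) :
    cnt 2 (t ++ [(.crs e, 0)]) = some 2 := by
  rw [cnt_app ct]
  exact cnt_one e

theorem cnt_rep (e : Bool) (n : ℕ) {t : Diag} (ct : cnt 2 t = some 2) :
    cnt 2 (t ++ List.replicate n (Kind.crs e, 0)) = some 2 := by
  induction n with
  | zero => simpa using ct
  | succ n ih =>
    rw [List.replicate_succ', ← List.append_assoc]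
    exact cnt_snoc ih e

/-- one more crossing -/
def cr (h1 : MUC_Stmt) (e : Bool) : X → X :=
  Quotient.map' (s₁ := st) (s₂ := st) (fun x => ⟨x.1 ++ [(.crs e, 0)], cnt_snoc x.2 e⟩)
    fun x _ h => h1.2.1 _ _ _ _ h (.eqd (EqD.refl _)) x.2 (cnt_one e)

/-- rotation -/
def ro (h1 : MUC_Stmt) (h3 : FCG_Stmt) : X → X :=
  Quotient.map' (s₁ := st) (s₂ := st) (fun x => ⟨rotD x.1, (h3.2.2.2.1 x.1 x.2).1⟩)
    fun x _ h => (h1.2.2 _ _ h x.2).1

theorem cr_mk (h1 : MUC_Stmt) (e : Bool) (t : Diag) (h : cnt 2 t = some 2) :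
    cr h1 e (mk t h) = mk (t ++ [(.crs e, 0)]) (cnt_snoc h e) := rfl

theorem ro_mk (h1 : MUC_Stmt) (h3 : FCG_Stmt) (t : Diag) (h : cnt 2 t = some 2) :
    ro h1 h3 (mk t h) = mk (rotD t) (h3.2.2.2.1 t h).1 := rfl

theorem cr_iter (h1 : MUC_Stmt) (e : Bool) (n : ℕ) (t : Diag) (h : cnt 2 t = some 2) :
    (cr h1 e)^[n] (mk t h) = mk (t ++ List.replicate n (Kind.crs e, 0)) (cnt_rep e n h) := by
  induction n with
  | zero =>
    apply mk_eq
    simpa using Mu.eqd (EqD.refl t)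
  | succ n ih =>
    rw [Function.iterate_succ_apply', ih, cr_mk]
    apply mk_eq
    rw [List.replicate_succ', ← List.append_assoc]
    exact .eqd (EqD.refl _)

theorem zp_mk (h1 : MUC_Stmt) (n : ℤ) (t : Diag) (h : cnt 2 t = some 2)
    (h' : cnt 2 (t ++ ht n) = some 2) :
    zp (cr h1 true) (cr h1 false) n (mk t h) = mk (t ++ ht n) h' := by
  cases n with
  | ofNat n =>
    change (cr h1 true)^[n] (mk t h) = _
    rw [cr_iter]
    apply mk_eq
    rcases Nat.eq_zero_or_pos n with rfl | hn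
    · exact .eqd (EqD.refl _)
    · have e1 : ht (Int.ofNat n) = List.replicate n (Kind.crs true, 0) := by
        unfold ht
        rw [decide_eq_true (show (0 : ℤ) < Int.ofNat n by
          change (0 : ℤ) < (n : ℤ)
          exact_mod_cast hn)]
        rfl
      rw [e1]
      exact .eqd (EqD.refl _)
  | negSucc n =>
    change (cr h1 false)^[n + 1] (mk t h) = _
    rw [cr_iter]
    apply mk_eq
    have e1 : ht (Int.negSucc n) = List.replicate (n + 1) (Kind.crs false, 0) := by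
      unfold ht
      rw [decide_eq_false (show ¬ (0 : ℤ) < Int.negSucc n by
        exact not_lt.2 (Int.negSucc_lt_zero n).le)]
      rfl
    rw [e1]
    exact .eqd (EqD.refl _)

/-- two crossings cancel -/
theorem cancel (h3 : FCG_Stmt) (t : Diag) (ct : cnt 2 t = some 2) (e : Bool) :
    EqD 2 (t ++ [(.crs e, 0)] ++ [(.crs (!e), 0)]) t := by
  rw [List.append_assoc]
  have e1 : EqD 2 ([(Kind.crs e, 0)] ++ [(Kind.crs (!e), 0)]) [] := by
    cases e
    · exact ht_add (-1) 1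
    · exact ht_add 1 (-1)
  have e2 := h3.2.1 t t _ _ (EqD.refl t) e1 ct (by
    rw [cnt_app (cnt_one e)]
    exact cnt_one _)
  rwa [List.append_nil] at e2

end Qac

open Qac in
theorem t_QAC (h1 : ACZ_Stmt) (h2 : MUC_Stmt) (h3 : MUR_Stmt) (h4 : FCG_Stmt)
    (h5 : FTA_Stmt) : QAC_Stmt := by
  have hdg : ∀ T : Tr, cnt 2 T.dg = some 2 := h4.2.2.2.2.1
  have hcc : ∀ (e : Bool) (x : X), cr h2 (!e) (cr h2 e x) = x := by
    intro e
    refine mk_ind _ fun t ht => ?_
    rw [cr_mk, cr_mk]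
    exact mk_eq (.eqd (cancel h4 t ht e))
  have hrr : ∀ x : X, ro h2 h4 (ro h2 h4 x) = x := by
    refine mk_ind _ fun t ht => ?_
    rw [ro_mk, ro_mk]
    exact mk_eq (h3.2.2.1 t ht)
  have hrcr : ∀ x : X, ro h2 h4 (cr h2 true (ro h2 h4 x)) =
      cr h2 false (ro h2 h4 (cr h2 false x)) := by
    refine mk_ind _ fun t ht => ?_
    rw [ro_mk, cr_mk, ro_mk, cr_mk, ro_mk, cr_mk]
    exact mk_eq (h3.2.2.2.1 t true ht)
  have h3' : ∀ x : X, cr h2 true (ro h2 h4 (cr h2 true (ro h2 h4 (cr h2 true (ro h2 h4 x))))) =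
      x := by
    intro x
    rw [hrcr (cr h2 true (ro h2 h4 x))]
    have e1 : cr h2 false (cr h2 true (ro h2 h4 x)) = ro h2 h4 x := hcc true _
    rw [e1, hrr]
    exact hcc false x
  have hchn : ∀ (es : List ℤ) (T : Tr), cact (cr h2 true) (cr h2 false) (ro h2 h4) es
      (mk T.dg (hdg T)) = mk (chn es T).dg (hdg _) := by
    intro es T
    induction es with
    | nil => rfl
    | cons e es ih =>
      change zp (cr h2 true) (cr h2 false) e (ro h2 h4 (cact (cr h2 true) (cr h2 false)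
        (ro h2 h4) es (mk T.dg (hdg T)))) = _
      rw [ih, ro_mk, zp_mk h2 e _ _ (hdg (chn (e :: es) T))]
      rfl
  intro es es' n T hS
  have k1 := h1 X (cr h2 true) (cr h2 false) (ro h2 h4) (hcc false) (hcc true) hrr h3' es es' n hS
    (mk T.dg (hdg T))
  have c1 : cnt 2 (T.dg ++ ht n) = some 2 := by
    rw [cnt_app (hdg T)]
    exact cnt_ht n
  have k2 : mk (T.dg ++ ht n) c1 = mk (T.shift n).dg (hdg _) :=
    mk_eq (.eqd (h5.2.2.2.2.1 T n).2.1)
  rw [hchn, zp_mk h2 n _ _ c1, k2, hchn] at k1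
  exact Quotient.exact (s := st) k1

end Pool.Agent.TZ
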