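import Pool.Agent.TZ.StA
import Pool.Agent.TZ.StC

/-!
Theorem Z (MP_31fd3b_gt), module SFT: the slope of a child is changed by an integer.
-/

open scoped BigOperators

namespace Pool.Agent.TZ

open Pool.Agent.LibH11.Sliced Pool.Agent.MTR Pool.Agent.MTA Pool.Agent.UA Pool.Agent.UB
open Pool.Agent.TwoBr Pool.Agent.Mont Pool.Agent.TV Pool.Agent.TW
open Pool.Agent.TB hiding vec

namespace Sft

theorem slp_neg (V : ℤ × ℤ) : slp (-V) = slp V := by
  unfold slp
  rw [Prod.fst_neg, Prod.snd_neg]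
  push_cast
  rw [neg_div_neg_eq]

theorem vec_a2 (a : Tr) (k : ℤ) : vec (.cons (.cons a (.pw k)) (.pw 0)) =
    (-(vec a).1, -(vec a).2 - k * (vec a).1) := by
  simp only [vec, addv, rv]
  refine Prod.ext ?_ ?_
  · simp
  · simp
    ring

/-- the context of `a` below the two new vertices -/
theorem ctx_a (L v : ℤ × ℤ) (k : ℤ) :
    rv (addv (rv (addv (rv (addv L (addv v (-(-k), 1)))) (vec (.pw 0)))) (vec (.pw k))) =
      -rv (addv L v) := by
  simp only [vec, addv, rv]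
  refine Prod.ext ?_ ?_
  · simp
  · simp
    ring

/-- the context of `b` -/
theorem ctx_b (L : ℤ × ℤ) (a : Tr) (k : ℤ) :
    addv (addv L (rv (vec (.cons (.cons a (.pw k)) (.pw 0))))) (-(-k), 1) =
      -addv L (rv (vec a)) := by
  rw [vec_a2]
  simp only [addv, rv]
  refine Prod.ext ?_ ?_
  · simp
    ring
  · simp

section

variable (a : Tr) (k : ℤ) (C : ℤ × ℤ)

theorem vt_a2 (acc : Multiset ℚ) :
    vt (.cons (.cons a (.pw k)) (.pw 0)) acc
      (decide (2 ≤ (Tr.cons (.cons a (.pw k)) (.pw 0)).kids)) C =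
    vt a {Int.fract (slp (rv (addv (rv (addv C (vec (.pw 0)))) (vec (.pw k)))))}
      (decide (2 ≤ a.kids)) (rv (addv (rv (addv C (vec (.pw 0)))) (vec (.pw k)))) := by
  have h1 : decide (2 ≤ (Tr.cons (.cons a (.pw k)) (.pw 0)).kids) = false := by
    simp [Tr.kids]
  have h2 : decide (2 ≤ (Tr.cons a (.pw k)).kids) = false := by
    simp [Tr.kids]
  rw [h1, vt, h2, vt, vt, vt]
  simp

theorem eg_a2 :
    eg (.cons (.cons a (.pw k)) (.pw 0))
      (decide (2 ≤ (Tr.cons (.cons a (.pw k)) (.pw 0)).kids)) C =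
    eg a (decide (2 ≤ a.kids)) (rv (addv (rv (addv C (vec (.pw 0)))) (vec (.pw k)))) := by
  have h1 : decide (2 ≤ (Tr.cons (.cons a (.pw k)) (.pw 0)).kids) = false := by
    simp [Tr.kids]
  have h2 : decide (2 ≤ (Tr.cons a (.pw k)).kids) = false := by
    simp [Tr.kids]
  rw [h1, eg, h2, eg, eg, eg]
  simp [ed1]

theorem rb_a2 :
    rb (.cons (.cons a (.pw k)) (.pw 0))
      (decide (2 ≤ (Tr.cons (.cons a (.pw k)) (.pw 0)).kids)) C =
    rb a (decide (2 ≤ a.kids)) (rv (addv (rv (addv C (vec (.pw 0)))) (vec (.pw k)))) := by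
  have h1 : decide (2 ≤ (Tr.cons (.cons a (.pw k)) (.pw 0)).kids) = false := by
    simp [Tr.kids]
  have h2 : decide (2 ≤ (Tr.cons a (.pw k)).kids) = false := by
    simp [Tr.kids]
  rw [h1, rb, h2, rb, rb, rb]
  simp [rb1]

theorem top_a2 :
    top (.cons (.cons a (.pw k)) (.pw 0)) C =
      top a (rv (addv (rv (addv C (vec (.pw 0)))) (vec (.pw k)))) := by
  rw [top, if_pos (show (Tr.pw 0).kids = 0 from rfl), top,
    if_pos (show (Tr.pw k).kids = 0 from rfl)]

end

theorem fract_eq {x y : ℚ} {k : ℤ} (h : x = y - k) : Int.fract x = Int.fract y := by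
  rw [h, Int.fract_sub_intCast]

end Sft

open Sft

theorem t_SFT (hMUT : MUT_Stmt) (hSHF : SHF_Stmt) : SFT_Stmt := by
  intro a b k L ha a2 b2 ha2 hb2
  obtain ⟨s1, -, -, s4, s5⟩ := hSHF
  obtain ⟨hv, -, hkb, hcf⟩ := s1 b (-k)
  rw [← hb2] at hv hkb hcf
  have hva : vec a2 = (-(vec a).1, -(vec a).2 - k * (vec a).1) := by rw [ha2, vec_a2]
  have ha0 : ((vec a).1 : ℚ) ≠ 0 := by exact_mod_cast ha
  have hsl : slp (rv (vec a2)) = slp (rv (vec a)) - k := by
    rw [hva]
    unfold slp rv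
    push_cast
    field_simp
  have hvec : vec (.cons a2 b2) = -vec (.cons a b) := by
    have h1 : vec (.cons a2 b2) = addv (rv (vec a2)) (vec b2) := rfl
    have h2 : vec (.cons a b) = addv (rv (vec a)) (vec b) := rfl
    rw [h1, h2, hva, hv]
    simp only [addv, rv]
    refine Prod.ext ?_ ?_
    · simp
      ring
    · simp
  have hfr : Int.fract (slp (rv (vec a2))) = Int.fract (slp (rv (vec a))) := fract_eq hsl
  have hcC : rv (addv (rv (addv (rv (addv L (vec b2))) (vec (.pw 0)))) (vec (.pw k))) =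
      -rv (addv L (vec b)) := by
    rw [hv, ctx_a]
  have hcQ : addv (addv L (rv (vec a2))) (-(-k), 1) = -addv L (rv (vec a)) := by
    rw [ha2, ctx_b]
  have hσ : slp (addv L (vec (.cons a2 b2))) = slp (addv L (vec (.cons a b))) := by
    rw [hvec]
    have h1 : addv L (-vec (.cons a b)) = -addv L (vec (.cons a b)) := by
      simp only [addv]
      refine Prod.ext ?_ ?_ <;> simp <;> ring
    rw [h1, slp_neg]
  have htop : top a2 (rv (addv L (vec b2))) = top a (rv (addv L (vec b))) := by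
    rw [ha2, top_a2, hcC, (s5 a 0 true _).2.2.2]
  have hvt : ∀ (acc : Multiset ℚ) (f : Bool), vt (.cons a2 b2) acc f L =
      (vt (.cons a b) acc f L).map fun x => (-x.1, x.2) := by
    intro acc f
    rw [vt, vt, Multiset.map_add, hfr]
    congr 1
    · rw [ha2, vt_a2, hcC, slp_neg, (s5 a _ _ _).1]
    · rw [hb2, (s4 b (-k) _ f _).1, hcQ, (s5 b _ _ _).1]
  have heg : eg (.cons a2 b2) true L = eg (.cons a b) true L := by
    rw [eg, eg, hσ]
    congr 1
    · congr 1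
      · unfold ed1
        rw [htop, hfr]
      · rw [ha2, eg_a2, hcC, (s5 a 0 _ _).2.1]
    · rw [hb2, (s4 b (-k) 0 true _).2.1, hcQ, (s5 b 0 _ _).2.1]
  have hrb : rb (.cons a2 b2) true L = rb (.cons a b) true L := by
    rw [rb, rb, hσ]
    congr 1
    · congr 1
      · unfold rb1
        rw [htop, hfr]
      · rw [ha2, rb_a2, hcC, (s5 a 0 _ _).2.2.1]
    · rw [hb2, (s4 b (-k) 0 true _).2.2, hcQ, (s5 b 0 _ _).2.2.1]
  refine ⟨?_, hvec, hsl, ?_, hkb, ?_, ?_, heg, hrb, ?_, ?_⟩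
  · rw [ha2, hb2]
    exact hMUT.2.2.2.1 a b k
  · rw [hva]
    exact neg_ne_zero.2 ha
  · rw [cf, cf, hfr, hcf]
  · rw [ha2]
    change ((a.Rat ∧ (Tr.pw k).kids = 0) ∧ (Tr.pw 0).kids = 0) ↔ a.Rat
    exact ⟨fun h => h.1.1, fun h => ⟨⟨h, rfl⟩, rfl⟩⟩
  · unfold vd
    rw [hvt, Multiset.map_map]
    refine Multiset.map_congr rfl fun x _ => ?_
    change (slp (-x.1), x.2) = (slp x.1, x.2)
    rw [slp_neg]
  · intro h x hx
    rw [hvt] at hx
    obtain ⟨y, hy, rfl⟩ := Multiset.mem_map.1 hx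
    change -y.1.2 ≠ 0
    exact neg_ne_zero.2 (h y hy)

end Pool.Agent.TZ
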