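import Pool.Agent.TZ.StC

/-!
Theorem Z, module SHF: shifts and signs (helper54).
-/

open scoped BigOperators

namespace Pool.Agent.TZ

open Pool.Agent.LibH11.Sliced Pool.Agent.MTR Pool.Agent.MTA Pool.Agent.UA Pool.Agent.UB
open Pool.Agent.TwoBr Pool.Agent.Mont Pool.Agent.TV Pool.Agent.TW
open Pool.Agent.TB hiding vec

namespace SHF

theorem addv_assoc (u v w : ℤ × ℤ) : addv (addv u v) w = addv u (addv v w) := by
  unfold addv
  ext
  · simp only
    ring
  · simp only
    ring

theorem addv_comm (u v : ℤ × ℤ) : addv u v = addv v u := by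
  unfold addv
  ext
  · simp only
    ring
  · simp only
    ring

theorem addv_right_comm (u v w : ℤ × ℤ) : addv (addv u v) w = addv (addv u w) v := by
  rw [addv_assoc, addv_comm v w, addv_assoc]

theorem addv_neg_left (u v : ℤ × ℤ) : addv (-u) v = -addv u v := by
  unfold addv
  ext
  · simp only [Prod.fst_neg, Prod.snd_neg]
    ring
  · simp only [Prod.snd_neg]
    ring

theorem addv_neg_right (u v : ℤ × ℤ) : addv u (-v) = -addv u v := by
  rw [addv_comm, addv_neg_left, addv_comm]

theorem rv_neg (v : ℤ × ℤ) : rv (-v) = -rv v := rfl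

theorem slp_neg (v : ℤ × ℤ) : slp (-v) = slp v := by
  unfold slp
  rw [Prod.fst_neg, Prod.snd_neg, Int.cast_neg, Int.cast_neg, neg_div_neg_eq]

theorem vec_shift : ∀ (X : Tr) (n : ℤ), vec (X.shift n) = addv (vec X) (-n, 1)
  | .pw e, n => by
    change (-(e + n), (1 : ℤ)) = addv (-e, 1) (-n, 1)
    unfold addv
    ext
    · simp only
      ring
    · simp only
      ring
  | .cons a b, n => by
    change addv (rv (vec a)) (vec (b.shift n)) = addv (addv (rv (vec a)) (vec b)) (-n, 1)
    rw [vec_shift b n, addv_assoc]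

theorem addv_tw (n : ℤ) (v : ℤ × ℤ) : addv v (-n, 1) = tw n v := by
  unfold addv tw
  ext
  · simp only
    ring
  · simp only
    ring

theorem kids_shift : ∀ (X : Tr) (n : ℤ), (X.shift n).kids = X.kids
  | .pw _, _ => rfl
  | .cons a b, n => congrArg (· + 1) (kids_shift b n)

theorem cf_shift : ∀ (X : Tr) (n : ℤ), cf (X.shift n) = cf X
  | .pw _, _ => rfl
  | .cons a b, n => congrArg (Int.fract (slp (rv (vec a))) ::ₘ ·) (cf_shift b n)

theorem shift_shift : ∀ (X : Tr) (m n : ℤ), (X.shift m).shift n = X.shift (m + n)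
  | .pw e, m, n => congrArg Tr.pw (add_assoc e m n)
  | .cons a b, m, n => congrArg (Tr.cons a) (shift_shift b m n)

theorem shift_zero : ∀ X : Tr, X.shift 0 = X
  | .pw e => congrArg Tr.pw (add_zero e)
  | .cons a b => congrArg (Tr.cons a) (shift_zero b)

theorem tot_shift (P v : ℤ × ℤ) (n : ℤ) :
    addv P (addv v (-n, 1)) = addv (addv P (-n, 1)) v := by
  rw [← addv_assoc, addv_right_comm]

theorem data_shift : ∀ (X : Tr) (n : ℤ) (acc : Multiset ℚ) (f : Bool) (P : ℤ × ℤ),
    vt (X.shift n) acc f P = vt X acc f (addv P (-n, 1)) ∧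
      eg (X.shift n) f P = eg X f (addv P (-n, 1)) ∧
      rb (X.shift n) f P = rb X f (addv P (-n, 1))
  | .pw e, n, acc, f, P => by
    refine ⟨?_, rfl, rfl⟩
    change (if f then {(addv P (-(e + n), 1), acc)} else 0 : Multiset ((ℤ × ℤ) × Multiset ℚ)) =
      if f then {(addv (addv P (-n, 1)) (-e, 1), acc)} else 0
    have h : addv P (-(e + n), 1) = addv (addv P (-n, 1)) (-e, 1) := by
      unfold addv
      ext
      · simp only
        ring
      · simp only
        ring
    rw [h]
  | .cons a b, n, acc, f, P => by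
    have e1 : rv (addv P (vec (b.shift n))) = rv (addv (addv P (-n, 1)) (vec b)) := by
      rw [vec_shift, tot_shift]
    have e2 : addv (addv P (-n, 1)) (rv (vec a)) = addv (addv P (rv (vec a))) (-n, 1) :=
      addv_right_comm _ _ _
    have e3 : addv P (vec ((Tr.cons a b).shift n)) =
        addv (addv P (-n, 1)) (vec (.cons a b)) := by
      rw [vec_shift, tot_shift]
    obtain ⟨h1, h2, h3⟩ := data_shift b n (Int.fract (slp (rv (vec a))) ::ₘ acc) f
      (addv P (rv (vec a)))
    refine ⟨?_, ?_, ?_⟩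
    · change vt a {Int.fract (slp (rv (addv P (vec (b.shift n)))))} (decide (2 ≤ a.kids))
          (rv (addv P (vec (b.shift n)))) +
        vt (b.shift n) (Int.fract (slp (rv (vec a))) ::ₘ acc) f (addv P (rv (vec a))) =
        vt a {Int.fract (slp (rv (addv (addv P (-n, 1)) (vec b))))} (decide (2 ≤ a.kids))
          (rv (addv (addv P (-n, 1)) (vec b))) +
        vt b (Int.fract (slp (rv (vec a))) ::ₘ acc) f (addv (addv P (-n, 1)) (rv (vec a)))
      rw [e1, e2, h1]
    · change ed1 (slp (addv P (vec ((Tr.cons a b).shift n)))) f a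
          (rv (addv P (vec (b.shift n)))) +
          eg a (decide (2 ≤ a.kids)) (rv (addv P (vec (b.shift n)))) +
          eg (b.shift n) f (addv P (rv (vec a))) =
        ed1 (slp (addv (addv P (-n, 1)) (vec (.cons a b)))) f a
          (rv (addv (addv P (-n, 1)) (vec b))) +
          eg a (decide (2 ≤ a.kids)) (rv (addv (addv P (-n, 1)) (vec b))) +
          eg b f (addv (addv P (-n, 1)) (rv (vec a)))
      rw [e1, e2, e3, h2]
    · change rb1 (slp (addv P (vec ((Tr.cons a b).shift n)))) f a
          (rv (addv P (vec (b.shift n)))) +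
          rb a (decide (2 ≤ a.kids)) (rv (addv P (vec (b.shift n)))) +
          rb (b.shift n) f (addv P (rv (vec a))) =
        rb1 (slp (addv (addv P (-n, 1)) (vec (.cons a b)))) f a
          (rv (addv (addv P (-n, 1)) (vec b))) +
          rb a (decide (2 ≤ a.kids)) (rv (addv (addv P (-n, 1)) (vec b))) +
          rb b f (addv (addv P (-n, 1)) (rv (vec a)))
      rw [e1, e2, e3, h3]

theorem data_neg : ∀ (X : Tr) (acc : Multiset ℚ) (f : Bool) (P : ℤ × ℤ),
    vt X acc f (-P) = ((vt X acc f P).map fun x => (-x.1, x.2)) ∧ eg X f (-P) = eg X f P ∧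
      rb X f (-P) = rb X f P ∧ top X (-P) = top X P
  | .pw e, acc, f, P => by
    refine ⟨?_, rfl, rfl, rfl⟩
    change (if f then {(addv (-P) (-e, 1), acc)} else 0 : Multiset ((ℤ × ℤ) × Multiset ℚ)) =
      ((if f then {(addv P (-e, 1), acc)} else 0 : Multiset ((ℤ × ℤ) × Multiset ℚ)).map
        fun x => (-x.1, x.2))
    rw [addv_neg_left]
    cases f
    · rfl
    · rfl
  | .cons a b, acc, f, P => by
    have e1 : rv (addv (-P) (vec b)) = -rv (addv P (vec b)) := by
      rw [addv_neg_left, rv_neg]
    have e2 : addv (-P) (rv (vec a)) = -addv P (rv (vec a)) := addv_neg_left _ _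
    have e3 : slp (addv (-P) (vec (.cons a b))) = slp (addv P (vec (.cons a b))) := by
      rw [addv_neg_left, slp_neg]
    obtain ⟨h1, h2, h3, -⟩ := data_neg b (Int.fract (slp (rv (vec a))) ::ₘ acc) f
      (addv P (rv (vec a)))
    obtain ⟨k1, k2, k3, k4⟩ := data_neg a {Int.fract (slp (rv (addv P (vec b))))}
      (decide (2 ≤ a.kids)) (rv (addv P (vec b)))
    refine ⟨?_, ?_, ?_, ?_⟩
    · change vt a {Int.fract (slp (rv (addv (-P) (vec b))))} (decide (2 ≤ a.kids))
          (rv (addv (-P) (vec b))) +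
        vt b (Int.fract (slp (rv (vec a))) ::ₘ acc) f (addv (-P) (rv (vec a))) =
        (vt a {Int.fract (slp (rv (addv P (vec b))))} (decide (2 ≤ a.kids))
          (rv (addv P (vec b))) +
        vt b (Int.fract (slp (rv (vec a))) ::ₘ acc) f (addv P (rv (vec a)))).map _
      rw [e1, e2, slp_neg, h1, k1, Multiset.map_add]
    · change ed1 (slp (addv (-P) (vec (.cons a b)))) f a (rv (addv (-P) (vec b))) +
          eg a (decide (2 ≤ a.kids)) (rv (addv (-P) (vec b))) +
          eg b f (addv (-P) (rv (vec a))) =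
        ed1 (slp (addv P (vec (.cons a b)))) f a (rv (addv P (vec b))) +
          eg a (decide (2 ≤ a.kids)) (rv (addv P (vec b))) +
          eg b f (addv P (rv (vec a)))
      rw [e1, e2, e3, h2, k2]
      unfold ed1
      rw [k4]
    · change rb1 (slp (addv (-P) (vec (.cons a b)))) f a (rv (addv (-P) (vec b))) +
          rb a (decide (2 ≤ a.kids)) (rv (addv (-P) (vec b))) +
          rb b f (addv (-P) (rv (vec a))) =
        rb1 (slp (addv P (vec (.cons a b)))) f a (rv (addv P (vec b))) +
          rb a (decide (2 ≤ a.kids)) (rv (addv P (vec b))) +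
          rb b f (addv P (rv (vec a)))
      rw [e1, e2, e3, h3, k3]
      unfold rb1
      rw [k4]
    · change (if b.kids = 0 then top a (rv (addv (-P) (vec b)))
          else some (slp (addv (-P) (vec (.cons a b))), Int.fract (slp (-P)))) =
        if b.kids = 0 then top a (rv (addv P (vec b)))
          else some (slp (addv P (vec (.cons a b))), Int.fract (slp P))
      rw [e1, e3, slp_neg, k4]

end SHF

theorem t_SHF : SHF_Stmt :=
  ⟨fun X n => ⟨SHF.vec_shift X n, (SHF.vec_shift X n).trans (SHF.addv_tw n _),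
    SHF.kids_shift X n, SHF.cf_shift X n⟩, SHF.shift_shift, SHF.shift_zero, SHF.data_shift,
    SHF.data_neg⟩

end Pool.Agent.TZ
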