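import Pool.Agent.TZ.StA
import Pool.Agent.TZ.StC

/-!
Theorem Z (MP_31fd3b_gt), SPN: the main induction. Two trees with the same slopes at the root, in
contexts with the same slope, and compatible edges are mutation equivalent tangles.
-/

open scoped BigOperators

namespace Pool.Agent.TZ

open Pool.Agent.LibH11.Sliced Pool.Agent.MTR Pool.Agent.MTA Pool.Agent.UA Pool.Agent.UB
open Pool.Agent.TwoBr Pool.Agent.Mont Pool.Agent.TV Pool.Agent.TW
open Pool.Agent.TB hiding vec

namespace Spn

/-! ### Vectors -/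

/-- the determinant of two vectors -/
def cr (v w : ℤ × ℤ) : ℤ := v.1 * w.2 - v.2 * w.1

theorem cr_rv (v w : ℤ × ℤ) : cr (rv v) (rv w) = cr v w := by
  simp only [cr, rv]
  ring

theorem cr_ad (e : ℤ) (v w : ℤ × ℤ) : cr (addv v (e, 1)) (addv w (e, 1)) = cr v w := by
  simp only [cr, addv]
  ring

theorem cr_tw (n : ℤ) (v w : ℤ × ℤ) : cr (tw n v) (tw n w) = cr v w := by
  simp only [cr, tw]
  ring

theorem cr_cvec (es : List ℤ) (v w : ℤ × ℤ) : cr (cvec es v) (cvec es w) = cr v w := by
  induction es with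
  | nil => rfl
  | cons e es ih =>
    simp only [cvec]
    rw [cr_ad, cr_rv, ih]

theorem cr_lch (es : List ℤ) (v w : ℤ × ℤ) : cr (lch es v) (lch es w) = cr v w := by
  induction es generalizing v w with
  | nil => rfl
  | cons e es ih =>
    simp only [lch]
    rw [ih, cr_rv, cr_ad]

theorem cr_ne {v : ℤ × ℤ} (h : v ≠ 0) : cr v (-v.2, v.1) ≠ 0 := by
  intro h0
  apply h
  simp only [cr] at h0
  have h1 : v.1 ^ 2 + v.2 ^ 2 = 0 := by linarith
  have h2 : v.1 = 0 := by nlinarith [sq_nonneg v.1, sq_nonneg v.2]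
  have h3 : v.2 = 0 := by nlinarith [sq_nonneg v.1, sq_nonneg v.2]
  exact Prod.ext h2 h3

theorem par_iff (v w : ℤ × ℤ) : Par v w ↔ cr v w = 0 ∧ v ≠ 0 ∧ w ≠ 0 := by
  unfold Par cr
  constructor
  · rintro ⟨h1, h2⟩
    exact ⟨by linarith, h2⟩
  · rintro ⟨h1, h2⟩
    exact ⟨by linarith, h2⟩

/-- maps which preserve the determinant preserve parallel vectors -/
theorem par_map (f : ℤ × ℤ → ℤ × ℤ) (hf : ∀ v w, cr (f v) (f w) = cr v w) {v w : ℤ × ℤ}
    (h : Par v w) : Par (f v) (f w) := by
  rw [par_iff] at h ⊢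
  have hz : ∀ u, u ≠ 0 → f u ≠ 0 := by
    intro u hu h0
    apply cr_ne hu
    rw [← hf, h0]
    simp [cr]
  exact ⟨by rw [hf]; exact h.1, hz _ h.2.1, hz _ h.2.2⟩

theorem par_symm {v w : ℤ × ℤ} (h : Par v w) : Par w v :=
  ⟨by have := h.1; linarith, h.2.2, h.2.1⟩

theorem par_trans {u v w : ℤ × ℤ} (h : Par u v) (h' : Par v w) : Par u w := by
  obtain ⟨h1, hu, hv⟩ := h
  obtain ⟨h2, -, hw⟩ := h'
  refine ⟨?_, hu, hw⟩
  have e1 : v.1 * (u.1 * w.2 - u.2 * w.1) = 0 := by
    linear_combination u.1 * h2 + w.1 * h1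
  have e2 : v.2 * (u.1 * w.2 - u.2 * w.1) = 0 := by
    linear_combination u.2 * h2 + w.2 * h1
  have hv' : v.1 ≠ 0 ∨ v.2 ≠ 0 := by
    by_contra h
    push Not at h
    exact hv (Prod.ext h.1 h.2)
  rcases hv' with h | h
  · have := (mul_eq_zero.1 e1).resolve_left h
    linarith
  · have := (mul_eq_zero.1 e2).resolve_left h
    linarith

theorem par_of_slp {v w : ℤ × ℤ} (hv : v.2 ≠ 0) (hw : w.2 ≠ 0) (h : slp v = slp w) : Par v w := by
  refine ⟨?_, fun h0 => hv (by rw [h0]; rfl), fun h0 => hw (by rw [h0]; rfl)⟩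
  unfold slp at h
  have hvq : (v.2 : ℚ) ≠ 0 := by exact_mod_cast hv
  have hwq : (w.2 : ℚ) ≠ 0 := by exact_mod_cast hw
  rw [div_eq_div_iff hvq hwq] at h
  have h2 : v.1 * w.2 = w.1 * v.2 := by exact_mod_cast h
  rw [h2]
  ring

theorem slp_add {P V : ℤ × ℤ} (hP : P.2 ≠ 0) (hV : V.2 ≠ 0) :
    slp (addv P V) = slp P + slp V := by
  have hPq : (P.2 : ℚ) ≠ 0 := by exact_mod_cast hP
  have hVq : (V.2 : ℚ) ≠ 0 := by exact_mod_cast hV
  simp only [slp, addv]
  push_cast
  field_simp

theorem slp_ad {P : ℤ × ℤ} (hP : P.2 ≠ 0) (e : ℤ) : slp (addv P (e, 1)) = slp P + e := by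
  rw [slp_add hP one_ne_zero]
  simp [slp]

theorem slp_neg (V : ℤ × ℤ) : slp (-V) = slp V := by
  simp [slp]

theorem addv_assoc' (x y z : ℤ × ℤ) : addv (addv x y) z = addv x (addv y z) := by
  simp only [addv]
  ext <;> ring

theorem addv_comm' (x y : ℤ × ℤ) : addv x y = addv y x := by
  simp only [addv]
  ext <;> ring

theorem addv_snd (x y : ℤ × ℤ) : (addv x y).2 = x.2 * y.2 := rfl

theorem ad_ad (P : ℤ × ℤ) (n : ℤ) : addv (addv P (-n, 1)) (n, 1) = P := by
  simp only [addv]
  ext <;> simp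

/-- parallel primitive vectors -/
theorem pm_of_par {v w : ℤ × ℤ} (hv : IsCoprime v.1 v.2) (hw : IsCoprime w.1 w.2)
    (h : v.1 * w.2 = v.2 * w.1) (h0 : v.1 ≠ 0) : v = w ∨ v = -w := by
  have d1 : v.1 ∣ w.1 := by
    have h1 : v.1 ∣ v.2 * w.1 := ⟨w.2, h.symm⟩
    exact hv.dvd_of_dvd_mul_left h1
  have d2 : w.1 ∣ v.1 := by
    have h1 : w.1 ∣ v.1 * w.2 := ⟨v.2, by rw [h]; ring⟩
    exact hw.dvd_of_dvd_mul_right h1
  rcases Int.natAbs_eq_natAbs_iff.1 (Int.natAbs_eq_of_dvd_dvd d1 d2) with h5 | h5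
  · left
    refine Prod.ext h5 ?_
    rw [h5] at h h0
    have h6 : w.1 * w.2 = w.1 * v.2 := by linarith
    exact (mul_left_cancel₀ h0 h6).symm
  · right
    have hw0 : w.1 ≠ 0 := by
      intro h1
      rw [h1, neg_zero] at h5
      exact h0 h5
    refine Prod.ext h5 ?_
    rw [h5] at h
    have h6 : w.1 * (-w.2) = w.1 * v.2 := by linarith
    exact (mul_left_cancel₀ hw0 h6).symm

/-! ### Parts of a tree -/

theorem vt_cons (a b : Tr) (acc : Multiset ℚ) (f : Bool) (L : ℤ × ℤ) :
    vt (.cons a b) acc f L =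
      vt a {Int.fract (slp (rv (addv L (vec b))))} (decide (2 ≤ a.kids)) (rv (addv L (vec b))) +
        vt b (Int.fract (slp (rv (vec a))) ::ₘ acc) f (addv L (rv (vec a))) := rfl

theorem eg_cons (a b : Tr) (f : Bool) (L : ℤ × ℤ) :
    eg (.cons a b) f L =
      ed1 (slp (addv L (vec (.cons a b)))) f a (rv (addv L (vec b))) +
        eg a (decide (2 ≤ a.kids)) (rv (addv L (vec b))) + eg b f (addv L (rv (vec a))) := rfl

theorem rb_cons (a b : Tr) (f : Bool) (L : ℤ × ℤ) :
    rb (.cons a b) f L =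
      rb1 (slp (addv L (vec (.cons a b)))) f a (rv (addv L (vec b))) +
        rb a (decide (2 ≤ a.kids)) (rv (addv L (vec b))) + rb b f (addv L (rv (vec a))) := rfl

theorem vec_cons (a b : Tr) : vec (.cons a b) = addv (rv (vec a)) (vec b) := rfl

theorem vec_cons_snd (a b : Tr) : (vec (.cons a b)).2 = (vec a).1 * (vec b).2 := rfl

/-- the data of a tree in a context which are used -/
structure Good (b : Tr) (L : ℤ × ℤ) : Prop where
  l : L.2 ≠ 0
  v : (vec b).2 ≠ 0
  d : dt L (vec b) ≠ 0
  w : ∀ x ∈ vt b 0 false L, x.1.2 ≠ 0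

/-- the data of the right part -/
theorem good_right (h1 : VST_Stmt) {a b : Tr} {L : ℤ × ℤ} (h : Good (.cons a b) L) :
    (vec a).1 ≠ 0 ∧ Good b (addv L (rv (vec a))) := by
  have h2 := h.v
  rw [vec_cons_snd] at h2
  have ha : (vec a).1 ≠ 0 := left_ne_zero_of_mul h2
  have hb : (vec b).2 ≠ 0 := right_ne_zero_of_mul h2
  refine ⟨ha, ?_, hb, ?_, ?_⟩
  · rw [addv_snd]
    exact mul_ne_zero h.l ha
  · have h3 := h.d
    unfold dt at h3 ⊢
    rw [vec_cons, ← addv_assoc'] at h3
    exact h3
  · intro x hx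
    apply h.w
    rw [vt_cons]
    refine Multiset.mem_add.2 (Or.inr ?_)
    rw [(h1.1 b _ _).2]
    exact hx

theorem vd_right (h1 : VST_Stmt) {a b : Tr} {L : ℤ × ℤ} {y : ℚ × Multiset ℚ}
    (hy : y ∈ vd b (addv L (rv (vec a)))) : y ∈ vd (.cons a b) L := by
  unfold vd at hy ⊢
  rw [Multiset.mem_map] at hy ⊢
  obtain ⟨x, hx, rfl⟩ := hy
  refine ⟨x, ?_, rfl⟩
  rw [vt_cons]
  refine Multiset.mem_add.2 (Or.inr ?_)
  rw [(h1.1 b _ _).2]
  exact hx

/-- the data of a child -/
theorem good_left (h1 : VST_Stmt) (h2 : CHN_Stmt) {a b : Tr} {L : ℤ × ℤ}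
    (h : Good (.cons a b) L) {es : List ℤ} {X : Tr} (ha : a = chn es X) (hX : 2 ≤ X.kids) :
    Good X (lch es (rv (addv L (vec b)))) ∧
      ((slp (addv (lch es (rv (addv L (vec b)))) (vec X)),
        Int.fract (slp (lch es (rv (addv L (vec b))))) ::ₘ cf X) : ℚ × Multiset ℚ) ∈
          vd (.cons a b) L ∧
      (∀ y ∈ vd X (lch es (rv (addv L (vec b)))), y ∈ vd (.cons a b) L) ∧
      (∀ e ∈ eg X true (lch es (rv (addv L (vec b)))), e ∈ eg (.cons a b) true L) ∧
      (∀ e ∈ rb X true (lch es (rv (addv L (vec b)))), e ∈ rb (.cons a b) true L) ∧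
      (((slp (addv L (vec (.cons a b))), Int.fract (slp (rv (vec a)))),
        (slp (addv (lch es (rv (addv L (vec b)))) (vec X)),
          Int.fract (slp (lch es (rv (addv L (vec b))))))) : (ℚ × ℚ) × (ℚ × ℚ)) ∈
          eg (.cons a b) true L := by
  obtain ⟨-, -, -, c4, c5, c6, -⟩ := h2
  obtain ⟨k1, k2, k3, k4⟩ := c4 es X (rv (addv L (vec b))) hX
  rw [← ha] at k1 k2 k3 k4
  have hv := h1.1 X {Int.fract (slp (lch es (rv (addv L (vec b)))))} (lch es (rv (addv L (vec b))))
  have sub : ∀ x ∈ vt X {Int.fract (slp (lch es (rv (addv L (vec b)))))} true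
      (lch es (rv (addv L (vec b)))), x ∈ vt (.cons a b) 0 false L := by
    intro x hx
    rw [vt_cons, k1]
    exact Multiset.mem_add.2 (Or.inl hx)
  have hd : dt (lch es (rv (addv L (vec b)))) (vec X) = dt L (vec (.cons a b)) := by
    rw [← c6, ← c5, ← ha]
    simp only [dt, addv, rv, vec_cons]
    ring
  have hw := h.w (addv (lch es (rv (addv L (vec b)))) (vec X), _)
    (sub _ (by rw [hv.1]; exact Multiset.mem_cons_self _ _))
  simp only [addv_snd] at hw
  refine ⟨⟨left_ne_zero_of_mul hw, right_ne_zero_of_mul hw, by rw [hd]; exact h.d, ?_⟩,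
    ?_, ?_, ?_, ?_, ?_⟩
  · intro x hx
    exact h.w x (sub x (by rw [hv.1]; exact Multiset.mem_cons_of_mem hx))
  · unfold vd
    rw [Multiset.mem_map]
    refine ⟨(addv (lch es (rv (addv L (vec b)))) (vec X), _),
      sub _ (by rw [hv.1]; exact Multiset.mem_cons_self _ _), ?_⟩
    rfl
  · intro y hy
    unfold vd at hy ⊢
    rw [Multiset.mem_map] at hy ⊢
    obtain ⟨x, hx, rfl⟩ := hy
    exact ⟨x, sub x (by rw [hv.1]; exact Multiset.mem_cons_of_mem hx), rfl⟩
  · intro e he
    rw [eg_cons, k2]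
    exact Multiset.mem_add.2 (Or.inl (Multiset.mem_add.2 (Or.inr he)))
  · intro e he
    rw [rb_cons, k3]
    exact Multiset.mem_add.2 (Or.inl (Multiset.mem_add.2 (Or.inr he)))
  · rw [eg_cons]
    refine Multiset.mem_add.2 (Or.inl (Multiset.mem_add.2 (Or.inl ?_)))
    unfold ed1
    rw [if_pos rfl, k4]
    exact Multiset.mem_singleton_self _

/-- the branch of a rational child -/
theorem rb_left (h2 : CHN_Stmt) {a b : Tr} {L : ℤ × ℤ} (ha : a.Rat) :
    ((slp (addv L (vec (.cons a b))), Int.fract (slp (rv (vec a)))) : ℚ × ℚ) ∈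
      rb (.cons a b) true L := by
  rw [rb_cons]
  refine Multiset.mem_add.2 (Or.inl (Multiset.mem_add.2 (Or.inl ?_)))
  unfold rb1
  rw [if_pos rfl, (h2.1 a (rv (addv L (vec b)))).1 ha]
  exact Multiset.mem_singleton_self _

/-- the induction hypothesis -/
def IH (n : ℕ) : Prop :=
  ∀ (c c' : Tr) (P P' : ℤ × ℤ), c.size < n → Good c P → Good c' P' → slp P = slp P' →
    slp (vec c) = slp (vec c') → cf c = cf c' → Cmp c c' P P' → Mu 2 c.dg c'.dg

theorem cf_cons (a b : Tr) : cf (.cons a b) = Int.fract (slp (rv (vec a))) ::ₘ cf b := rfl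

/-- the step: the first children correspond and have the same slope -/
theorem step (h1 : VST_Stmt) (h2 : CHN_Stmt) (h4 : SHF_Stmt)
    (h6 : MUT_Stmt) (h7 : CUS_Stmt) (h8 : QAC_Stmt) (h9 : RTU_Stmt) (h10 : RU_Stmt)
    (a b1 a2 b2 : Tr) (L L' : ℤ × ℤ) (ih : IH (Tr.cons a b1).size)
    (g : Good (.cons a b1) L) (g' : Good (.cons a2 b2) L') (hL : slp L = slp L')
    (hv : slp (vec (.cons a b1)) = slp (vec (.cons a2 b2)))
    (hcf : cf (.cons a b1) = cf (.cons a2 b2)) (hC : Cmp (.cons a b1) (.cons a2 b2) L L')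
    (ha : slp (rv (vec a)) = slp (rv (vec a2))) :
    Mu 2 (Tr.cons a b1).dg (Tr.cons a2 b2).dg := by
  obtain ⟨hA, gr⟩ := good_right h1 g
  obtain ⟨hA', gr'⟩ := good_right h1 g'
  have hrv : (rv (vec a)).2 ≠ 0 := hA
  have hrv' : (rv (vec a2)).2 ≠ 0 := hA'
  have e1 : slp (vec b1) = slp (vec b2) := by
    rw [vec_cons, vec_cons, slp_add hrv gr.v, slp_add hrv' gr'.v, ha] at hv
    linarith
  have e2 : slp (addv L (vec (.cons a b1))) = slp (addv L' (vec (.cons a2 b2))) := by
    rw [slp_add g.l g.v, slp_add g'.l g'.v, hL, hv]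
  have hcf' : cf b1 = cf b2 := by
    rw [cf_cons, cf_cons, ha] at hcf
    exact (Multiset.cons_inj_right _).1 hcf
  refine h6.1 a a2 b1 b2 ?_ ?_
  · -- the first child
    by_cases hr : a.Rat
    · -- rational children
      have hr' : a2.Rat := by
        by_contra hn
        obtain ⟨es2, X2, hX2, hk2, -⟩ := h2.2.2.1 a2 hn
        have h11 := (good_left h1 h2 g' hX2 hk2).2.2.2.2.2
        refine hC.rat' _ _ h11 ?_
        rw [← e2, ← ha]
        exact rb_left h2 hr
      have p1 := h10.2.2.2.1 a (vec a) 1 hr (by rw [one_smul]) one_ne_zero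
      have p2 := h10.2.2.2.1 a2 (vec a2) 1 hr' (by rw [one_smul]) one_ne_zero
      have p3 := (par_of_slp hrv hrv' ha).1
      have p4 : (vec a).1 * (vec a2).2 = (vec a).2 * (vec a2).1 := by
        simp only [rv] at p3
        linarith
      refine Mu.eqd (h9 a a2 (vec a) ⟨hr, 1, one_ne_zero, by rw [one_smul]⟩ ⟨hr', ?_⟩)
      rcases pm_of_par p1.2.1 p2.2.1 p4 hA with h | h
      · exact ⟨1, one_ne_zero, by rw [one_smul]; exact h⟩
      · exact ⟨-1, by norm_num, by rw [neg_one_smul]; exact h⟩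
    · have hr' : ¬ a2.Rat := by
        intro hr2
        obtain ⟨es, X, hX, hk, -⟩ := h2.2.2.1 a hr
        have h11 := (good_left h1 h2 g hX hk).2.2.2.2.2
        refine hC.rat _ _ h11 ?_
        rw [e2, ha]
        exact rb_left h2 hr2
      obtain ⟨es, X, hX, hk, hs⟩ := h2.2.2.1 a hr
      obtain ⟨es2, X2, hX2, hk2, hs2⟩ := h2.2.2.1 a2 hr'
      obtain ⟨gX, q1, q2, q3, q4, q5⟩ := good_left h1 h2 g hX hk
      obtain ⟨gX2, r1, r2, r3, r4, r5⟩ := good_left h1 h2 g' hX2 hk2
      set C := rv (addv L (vec b1)) with hCdef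
      set C2 := rv (addv L' (vec b2)) with hC2def
      set P := lch es C with hP
      set P2 := lch es2 C2 with hP2
      rw [e2, ha] at q5
      have hq := hC.mate _ _ _ q5 r5
      rw [Prod.mk.injEq] at hq
      obtain ⟨hq1, hq2⟩ := hq
      obtain ⟨n, hn⟩ := Int.fract_eq_fract.1 hq2.symm
      -- the shifted tree
      obtain ⟨s1, s2, s3, s4, -⟩ := h4
      set X3 := X2.shift (-n) with hX3
      set P3 := addv P2 (-n, 1) with hP3
      have hsh : X3.shift n = X2 := by
        rw [hX3, s2, neg_add_cancel, s3]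
      have hback : addv P3 (n, 1) = P2 := by
        rw [hP3]
        exact ad_ad P2 n
      have hslP : slp P3 = slp P := by
        rw [hP3, show ((-n, 1) : ℤ × ℤ) = (-n, 1) from rfl, slp_ad gX2.l]
        push_cast
        linarith
      obtain ⟨t1, t2, t3, t4⟩ := s1 X2 (-n)
      rw [← hX3] at t1 t2 t3 t4
      rw [neg_neg] at t1
      have hvX3 : (vec X3).2 ≠ 0 := by
        rw [t1, addv_snd, mul_one]
        exact gX2.v
      have hslV : slp (vec X3) = slp (vec X) := by
        rw [t1, slp_ad gX2.v]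
        have u1 := slp_add gX.l gX.v
        have u2 := slp_add gX2.l gX2.v
        linarith
      have hdat : ∀ (acc : Multiset ℚ) (f : Bool), vt X3 acc f P3 = vt X2 acc f P2 ∧
          eg X3 f P3 = eg X2 f P2 ∧ rb X3 f P3 = rb X2 f P2 := by
        intro acc f
        have := s4 X2 (-n) acc f P3
        rw [← hX3, neg_neg, hback] at this
        exact this
      have gX3 : Good X3 P3 := by
        refine ⟨?_, hvX3, ?_, ?_⟩
        · rw [hP3, addv_snd, mul_one]
          exact gX2.l
        · have h11 := gX2.d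
          rw [t1, hP3]
          have h12 : dt (addv P2 (-n, 1)) (addv (vec X2) (n, 1)) = dt P2 (vec X2) := by
            simp only [dt, addv]
            ring
          rw [h12]
          exact h11
        · rw [(hdat 0 false).1]
          exact gX2.w
      have hcfX : cf X = cf X3 := by
        rw [t4]
        have h11 := hC.vert _ _ _ q1 (by rw [hq1]; exact r1)
        rw [hq2] at h11
        exact (Multiset.cons_inj_right _).1 h11
      have hCX : Cmp X X3 P P3 := by
        constructor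
        · intro p q q' hp hp'
          rw [(hdat 0 true).2.1] at hp'
          exact hC.mate p q q' (q3 _ hp) (r3 _ hp')
        · intro p q hp hp'
          rw [(hdat 0 true).2.2] at hp'
          exact hC.rat p q (q3 _ hp) (r4 _ hp')
        · intro p q hp hp'
          rw [(hdat 0 true).2.1] at hp
          exact hC.rat' p q (r3 _ hp) (q4 _ hp')
        · intro σ bs bs' hb hb'
          refine hC.vert σ bs bs' (q2 _ hb) (r2 _ ?_)
          unfold vd at hb' ⊢
          rw [(hdat 0 false).1] at hb'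
          exact hb'
      have m1 : Mu 2 X.dg X3.dg := by
        refine ih X X3 P P3 ?_ gX gX3 hslP.symm hslV.symm hcfX hCX
        have : (Tr.cons a b1).size = a.size + 2 + b1.size := rfl
        omega
      have m2 : Mu 2 (X.shift n).dg X2.dg := by
        have := h6.2.2.1 X X3 n m1
        rw [hsh] at this
        exact this
      have m3 : Mu 2 (chn es2 (X.shift n)).dg (chn es2 X2).dg := h6.2.2.2.2.2.2 es2 _ _ m2
      have m4 : Mu 2 (chn es X).dg (chn es2 (X.shift n)).dg := by
        refine h8 es es2 n X (h7 es es2 n C (vec X) gX.d ?_ ?_)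
        · have w1 : cvec es (vec X) = vec a := by
            rw [hX, h2.2.2.2.2.1]
          have w2 : cvec es2 (tw n (vec X3)) = vec a2 := by
            have : vec X2 = tw n (vec X3) := by
              rw [← (s1 X3 n).2.1, hsh]
            rw [← this, hX2, h2.2.2.2.2.1]
          rw [w1]
          have w3 : Par (vec a) (vec a2) := by
            have := par_of_slp hrv hrv' ha
            rw [par_iff] at this ⊢
            refine ⟨by rw [← cr_rv]; exact this.1, ?_, ?_⟩
            · intro h0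
              rw [h0] at hA
              exact hA rfl
            · intro h0
              rw [h0] at hA'
              exact hA' rfl
          have w4 : Par (cvec es2 (tw n (vec X3))) (cvec es2 (tw n (vec X))) :=
            par_map (fun v => cvec es2 (tw n v)) (fun v w => by
              rw [cr_cvec, cr_tw]) (par_of_slp hvX3 gX.v hslV)
          rw [w2] at w4
          exact par_trans w3 w4
        · have w1 : Par C C2 := by
            refine par_map rv cr_rv (par_of_slp ?_ ?_ ?_)
            · rw [addv_snd]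
              exact mul_ne_zero g.l gr.v
            · rw [addv_snd]
              exact mul_ne_zero g'.l gr'.v
            · rw [slp_add g.l gr.v, slp_add g'.l gr'.v, hL, e1]
          have w2 : Par (addv (lch es2 C2) (-n, 1)) (addv (lch es2 C) (-n, 1)) :=
            par_map (fun v => addv (lch es2 v) (-n, 1)) (fun v w => by
              rw [cr_ad, cr_lch]) (par_symm w1)
          refine par_trans (par_of_slp gX.l gX3.l hslP.symm) w2
      rw [hX, hX2]
      exact m4.trans m3
  · -- the rest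
    refine ih b1 b2 _ _ ?_ gr gr' ?_ e1 hcf' ?_
    · have : (Tr.cons a b1).size = a.size + 2 + b1.size := rfl
      omega
    · rw [slp_add g.l hrv, slp_add g'.l hrv', hL, ha]
    · constructor
      · intro p q q' hp hp'
        exact hC.mate p q q' (by rw [eg_cons]; exact Multiset.mem_add.2 (Or.inr hp))
          (by rw [eg_cons]; exact Multiset.mem_add.2 (Or.inr hp'))
      · intro p q hp hp'
        exact hC.rat p q (by rw [eg_cons]; exact Multiset.mem_add.2 (Or.inr hp))
          (by rw [rb_cons]; exact Multiset.mem_add.2 (Or.inr hp'))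
      · intro p q hp hp'
        exact hC.rat' p q (by rw [eg_cons]; exact Multiset.mem_add.2 (Or.inr hp))
          (by rw [rb_cons]; exact Multiset.mem_add.2 (Or.inr hp'))
      · intro σ bs bs' hb hb'
        exact hC.vert σ bs bs' (vd_right h1 hb) (vd_right h1 hb')

end Spn

open Spn in
/-- SPN. -/
theorem t_SPN (h1 : VST_Stmt) (h2 : CHN_Stmt) (h3 : PRM_Stmt) (h4 : SHF_Stmt) (h5 : SFT_Stmt)
    (h6 : MUT_Stmt) (h7 : CUS_Stmt) (h8 : QAC_Stmt) (h9 : RTU_Stmt) (h10 : RU_Stmt) :
    SPN_Stmt := by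
  suffices key : ∀ (N : ℕ) (b b' : Tr) (L L' : ℤ × ℤ), b.size = N → Good b L → Good b' L' →
      slp L = slp L' → slp (vec b) = slp (vec b') → cf b = cf b' → Cmp b b' L L' →
      Mu 2 b.dg b'.dg by
    intro b b' L L' a1 a2 a3 a4 a5 a6 a7 a8 a9 a10 a11 a12
    exact key b.size b b' L L' rfl ⟨a1, a3, a5, a10⟩ ⟨a2, a4, a6, a11⟩ a7 a8 a9 a12
  intro N
  induction N using Nat.strong_induction_on with
  | _ N ihN =>
  intro b b' L L' hN g g' hL hv hcf hC
  cases b with
  | pw e =>
    cases b' with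
    | pw e' =>
      have h11 : slp (vec (.pw e)) = -(e : ℚ) := by
        simp [slp, vec]
      have h12 : slp (vec (.pw e')) = -(e' : ℚ) := by
        simp [slp, vec]
      rw [h11, h12] at hv
      have h13 : e = e' := by
        have : (e : ℚ) = e' := by linarith
        exact_mod_cast this
      rw [h13]
      exact Mu.eqd (EqD.refl _)
    | cons x y =>
      rw [cf_cons] at hcf
      exact absurd hcf.symm (Multiset.cons_ne_zero)
  | cons a b1 =>
    have hIH : IH (Tr.cons a b1).size := by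
      intro c c' P P' hc
      exact ihN c.size (by rw [← hN]; exact hc) c c' P P' rfl
    -- the corresponding child
    have hmem : Int.fract (slp (rv (vec a))) ∈ cf b' := by
      rw [← hcf, cf_cons]
      exact Multiset.mem_cons_self _ _
    rw [h1.2.1 b', Multiset.mem_coe, List.mem_map] at hmem
    obtain ⟨a', ha', hfr⟩ := hmem
    obtain ⟨b1', k1, k2, -, -, k5, k6⟩ := h3 b' a' ha'
    have g1 : Good (.cons a' b1') L' := by
      refine ⟨g'.l, by rw [k2]; exact g'.v, by rw [k2]; exact g'.d, ?_⟩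
      rw [(k6 0 false L').1]
      exact g'.w
    obtain ⟨hA', -⟩ := good_right h1 g1
    obtain ⟨k, hk⟩ := Int.fract_eq_fract.1 hfr
    obtain ⟨j1, j2, j3, j4, -, j6, -, j8, j9, j10, j11⟩ := h5 a' b1' k L' hA'
      (.cons (.cons a' (.pw k)) (.pw 0)) (b1'.shift (-k)) rfl rfl
    set a2 : Tr := .cons (.cons a' (.pw k)) (.pw 0) with ha2
    set b2 : Tr := b1'.shift (-k) with hb2
    have g2 : Good (.cons a2 b2) L' := by
      refine ⟨g'.l, ?_, ?_, j11 g1.w⟩
      · rw [j2]
        intro h0
        apply g1.v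
        have : (-(vec (.cons a' b1'))).2 = -(vec (.cons a' b1')).2 := rfl
        rw [this] at h0
        exact neg_eq_zero.1 h0
      · rw [j2]
        intro h0
        apply g1.d
        unfold dt at h0 ⊢
        simp only [addv] at h0 ⊢
        have e1 : (-(vec (.cons a' b1'))).2 = -(vec (.cons a' b1')).2 := rfl
        have e2 : (-(vec (.cons a' b1'))).1 = -(vec (.cons a' b1')).1 := rfl
        rw [e1, e2] at h0
        linarith
    have hC2 : Cmp (.cons a b1) (.cons a2 b2) L L' := by
      have eeg : eg (.cons a2 b2) true L' = eg b' true L' := by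
        rw [j8, (k6 0 true L').2.1]
      have erb : rb (.cons a2 b2) true L' = rb b' true L' := by
        rw [j9, (k6 0 true L').2.2]
      have evd : vd (.cons a2 b2) L' = vd b' L' := by
        rw [j10]
        unfold vd
        rw [(k6 0 false L').1]
      constructor
      · intro p q q' hp hp'
        rw [eeg] at hp'
        exact hC.mate p q q' hp hp'
      · intro p q hp hp'
        rw [erb] at hp'
        exact hC.rat p q hp hp'
      · intro p q hp hp'
        rw [eeg] at hp
        exact hC.rat' p q hp hp'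
      · intro σ bs bs' hb hb'
        rw [evd] at hb'
        exact hC.vert σ bs bs' hb hb'
    have hst := step h1 h2 h4 h6 h7 h8 h9 h10 a b1 a2 b2 L L' hIH g g2 hL
      (by rw [j2, slp_neg, k2]; exact hv) (by rw [j6, k5]; exact hcf) hC2
      (by rw [j3]; linarith)
    exact hst.trans (j1.trans k1.symm)

end Pool.Agent.TZ
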