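import Pool.Agent.TZ.Cln

/-!
Theorem Z (MP_31fd3b_gt), module TAB: first order data determine the vertices of generic trees.
-/

open scoped BigOperators

namespace Pool.Agent.TZ

open Pool.Agent.LibH11.Sliced Pool.Agent.MTR Pool.Agent.MTA Pool.Agent.UA Pool.Agent.UB
open Pool.Agent.TwoBr Pool.Agent.Mont Pool.Agent.TV Pool.Agent.TW
open Pool.Agent.TB hiding vec

namespace Tab

variable {X : Type} (s : Multiset X) (key : X → ℚ) (g : X → ℂ) (P : X → Prop)
  [DecidablePred P]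

theorem sum_zero (h : ∀ y ∈ s, ¬ P y) : (s.map fun y => if P y then g y else 0).sum = 0 := by
  apply Multiset.sum_eq_zero
  intro z hz
  obtain ⟨y, hy, rfl⟩ := Multiset.mem_map.1 hz
  rw [if_neg (h y hy)]

/-- If at most one element (with multiplicity) has the property then the sum is its value. -/
theorem sum_one (hn : (s.map key).Nodup) {x : X} (hx : x ∈ s) (hP : P x)
    (h : ∀ y ∈ s, P y → key y = key x) :
    (s.map fun y => if P y then g y else 0).sum = g x := by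
  obtain ⟨t, rfl⟩ := Multiset.exists_cons_of_mem hx
  rw [Multiset.map_cons, Multiset.nodup_cons] at hn
  rw [Multiset.map_cons, Multiset.sum_cons, if_pos hP, sum_zero t g P, add_zero]
  intro y hy hPy
  apply hn.1
  rw [← h y (Multiset.mem_cons_of_mem hy) hPy]
  exact Multiset.mem_map_of_mem key hy

end Tab

open Tab

theorem Tab.half (hCLN : CLN_Stmt) (hVTB : VTB_Stmt) (hNDN : NDN_Stmt) {T T' : Tr} (hT : Gen T)
    (hT' : Gen T') (hF : Fod T T') : ∀ z ∈ vs0 T, z ∈ vs0 T' := by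
  obtain ⟨D, hodd, hd, hd', hsum, -⟩ := hF
  have hD : D ≠ 0 := by
    rintro rfl
    simp at hodd
  intro z hz
  unfold vs0 at hz
  obtain ⟨x, hx, rfl⟩ := Multiset.mem_map.1 hz
  -- facts on the vertices
  have fact : ∀ {U : Tr}, Gen U → (vec U).1 ∣ D → ∀ y ∈ vt0 U,
      Kt D y.1 ≠ 0 ∧ (D : ℚ) / Kt D y.1 = slp y.1 := by
    intro U hU hdU y hy
    have h1 := (hVTB U hU.root y hy).1
    have h2 := hU.wt y hy
    have h3 : y.1.1 ∣ D := by rw [h1]; exact hdU
    have h4 : Kt D y.1 ≠ 0 := by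
      obtain ⟨q, hq⟩ := h3
      have h0 : y.1.1 ≠ 0 := by
        rintro h0
        exact hD (by rw [hq, h0, zero_mul])
      have h5 : D / y.1.1 = q := by
        rw [hq]
        exact Int.mul_ediv_cancel_left q h0
      unfold Kt
      rw [h5]
      refine mul_ne_zero ?_ h2
      rintro rfl
      exact hD (by rw [hq, mul_zero])
    exact ⟨h4, Cln.D_div hD h3 h4 rfl⟩
  obtain ⟨K, hK⟩ : ∃ K, K = Kt D x.1 := ⟨_, rfl⟩
  have hx1 := fact hT hd x hx
  rw [← hK] at hx1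
  -- the class sums
  have hcl : ∀ {U : Tr}, Gen U → (vec U).1 ∣ D → ∀ y ∈ vt0 U, Kt D y.1 = K → ∀ φ : ℚ → ℂ,
      ((vt0 U).map fun x => if Kt D x.1 = K then alN φ (slp x.1) x.2 else 0).sum =
        alN φ (slp y.1) y.2 := by
    intro U hU hdU y hy hyK φ
    refine sum_one (vt0 U) (fun x => slp x.1) (fun x => alN φ (slp x.1) x.2)
      (fun x => Kt D x.1 = K) hU.dif hy hyK ?_
    intro w hw hwK
    have h1 := (fact hU hdU w hw).2
    have h2 := (fact hU hdU y hy).2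
    rw [hwK] at h1
    rw [hyK] at h2
    change slp w.1 = slp y.1
    rw [← h1, ← h2]
  have heq : ∀ φ : ℚ → ℂ, Per1 φ →
      ((vt0 T').map fun x => if Kt D x.1 = K then alN φ (slp x.1) x.2 else 0).sum =
        alN φ (slp x.1) x.2 := by
    intro φ hφ
    rw [← hCLN D T' φ K hD hd' hx1.1 hφ, ← hsum K φ hx1.1 hφ, hCLN D T φ K hD hd hx1.1 hφ,
      hcl hT hd x hx hK.symm φ]
  have hb := hVTB T hT.root x hx
  obtain ⟨⟨φ, hφ, hne⟩, huniq⟩ := hNDN (slp x.1) x.2 hb.2.1 hb.2.2.1 (hT.nz x hx) (hT.ndg x hx)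
    (hb.2.2.2 (hT.wt x hx))
  -- the vertex of the other tree
  obtain ⟨x', hx', hxK⟩ : ∃ x' ∈ vt0 T', Kt D x'.1 = K := by
    by_contra hcon
    push Not at hcon
    apply hne
    rw [← heq φ hφ]
    exact sum_zero (vt0 T') (fun x => alN φ (slp x.1) x.2) (fun x => Kt D x.1 = K) hcon
  have hs : slp x'.1 = slp x.1 := by
    have h1 := (fact hT' hd' x' hx').2
    rw [hxK] at h1
    rw [← h1, hx1.2]
  have hb' := hVTB T' hT'.root x' hx'
  have h2 : x.2 = x'.2 := by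
    refine huniq x'.2 hb'.2.1 hb'.2.2.1 (hT'.nz x' hx') ?_ ?_ ?_
    · rw [← hs]
      exact hT'.ndg x' hx'
    · rw [← hs]
      exact hb'.2.2.2 (hT'.wt x' hx')
    · intro ψ hψ
      rw [← heq ψ hψ, hcl hT' hd' x' hx' hxK ψ, hs]
  unfold vs0
  rw [h2, ← hs]
  exact Multiset.mem_map_of_mem (fun x : (ℤ × ℤ) × Multiset ℚ => (slp x.1, x.2)) hx'

theorem Tab.symm {T T' : Tr} (h : Fod T T') : Fod T' T := by
  obtain ⟨D, h1, h2, h3, h4, h5⟩ := h
  exact ⟨D, h1, h3, h2, fun K φ hK hφ => (h4 K φ hK hφ).symm, fun F hF => (h5 F hF).symm⟩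

theorem Tab.nodup {T : Tr} (hT : Gen T) : (vs0 T).Nodup := by
  have h := hT.dif
  have h1 : ((vt0 T).map fun x => slp x.1) = (vs0 T).map Prod.fst := by
    unfold vs0
    rw [Multiset.map_map]
    rfl
  rw [h1] at h
  exact h.of_map

theorem t_TAB (hCLN : CLN_Stmt) (hVTB : VTB_Stmt) (hNDN : NDN_Stmt) : TAB_Stmt := by
  intro T T' hT hT' hF
  refine (Multiset.Nodup.ext (Tab.nodup hT) (Tab.nodup hT')).2 fun z => ⟨?_, ?_⟩
  · exact Tab.half hCLN hVTB hNDN hT hT' hF z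
  · exact Tab.half hCLN hVTB hNDN hT' hT (Tab.symm hF) z

end Pool.Agent.TZ
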