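import Pool.Agent.TZ.StA

/-!
Theorem Z, module VST: the top vertex of a tree (helper54).
-/

open scoped BigOperators

namespace Pool.Agent.TZ

open Pool.Agent.LibH11.Sliced Pool.Agent.MTR Pool.Agent.MTA Pool.Agent.UA Pool.Agent.UB
open Pool.Agent.TwoBr Pool.Agent.Mont Pool.Agent.TV Pool.Agent.TW
open Pool.Agent.TB hiding vec

namespace VST

theorem addv_assoc (u v w : ℤ × ℤ) : addv (addv u v) w = addv u (addv v w) := by
  unfold addv
  ext
  · simp only
    ring
  · simp only
    ring

theorem top_vertex : ∀ (T : Tr) (acc : Multiset ℚ) (L : ℤ × ℤ),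
    vt T acc true L = (addv L (vec T), acc + cf T) ::ₘ vt T 0 false L ∧
      vt T acc false L = vt T 0 false L
  | .pw e, acc, L => by
    constructor
    · change ({(addv L (-e, 1), acc)} : Multiset ((ℤ × ℤ) × Multiset ℚ)) =
        (addv L (-e, 1), acc + 0) ::ₘ 0
      rw [add_zero]
      rfl
    · rfl
  | .cons a b, acc, L => by
    have e1 := top_vertex b (Int.fract (slp (rv (vec a))) ::ₘ acc) (addv L (rv (vec a)))
    have e2 := top_vertex b (Int.fract (slp (rv (vec a))) ::ₘ 0) (addv L (rv (vec a)))
    constructor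
    · have e3 : addv L (vec (.cons a b)) = addv (addv L (rv (vec a))) (vec b) :=
        (addv_assoc _ _ _).symm
      have e4 : acc + cf (.cons a b) = Int.fract (slp (rv (vec a))) ::ₘ acc + cf b := by
        change acc + Int.fract (slp (rv (vec a))) ::ₘ cf b = _
        rw [Multiset.add_cons, Multiset.cons_add]
      change vt a {Int.fract (slp (rv (addv L (vec b))))} (decide (2 ≤ a.kids))
          (rv (addv L (vec b))) +
        vt b (Int.fract (slp (rv (vec a))) ::ₘ acc) true (addv L (rv (vec a))) =
        _ ::ₘ (vt a {Int.fract (slp (rv (addv L (vec b))))} (decide (2 ≤ a.kids))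
          (rv (addv L (vec b))) +
        vt b (Int.fract (slp (rv (vec a))) ::ₘ 0) false (addv L (rv (vec a))))
      rw [e3, e4, e1.1, e2.2, Multiset.add_cons]
    · change vt a {Int.fract (slp (rv (addv L (vec b))))} (decide (2 ≤ a.kids))
          (rv (addv L (vec b))) +
        vt b (Int.fract (slp (rv (vec a))) ::ₘ acc) false (addv L (rv (vec a))) =
        vt a {Int.fract (slp (rv (addv L (vec b))))} (decide (2 ≤ a.kids))
          (rv (addv L (vec b))) +
        vt b (Int.fract (slp (rv (vec a))) ::ₘ 0) false (addv L (rv (vec a)))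
      rw [e1.2, e2.2]

theorem cf_eq : ∀ T : Tr,
    cf T = ((chl T).map fun a => Int.fract (slp (rv (vec a))) : List ℚ)
  | .pw _ => rfl
  | .cons a b => by
    change Int.fract (slp (rv (vec a))) ::ₘ cf b = _
    rw [cf_eq b]
    rfl

theorem size_lt : ∀ (T a : Tr), a ∈ chl T → a.size < T.size
  | .pw _, a, h => by
    change a ∈ ([] : List Tr) at h
    simp at h
  | .cons x y, a, h => by
    change a ∈ x :: chl y at h
    have e1 : (Tr.cons x y).size = x.size + 2 + y.size := rfl
    rcases List.mem_cons.1 h with rfl | h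
    · omega
    · have := size_lt y a h
      omega

end VST

theorem t_VST : VST_Stmt := ⟨VST.top_vertex, VST.cf_eq, VST.size_lt⟩

end Pool.Agent.TZ
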