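import Pool.Agent.TZ.StA

/-!
Theorem Z (MP_31fd3b_gt), module VTB: facts on the vertices of a closed tree.
-/

open scoped BigOperators

namespace Pool.Agent.TZ

open Pool.Agent.LibH11.Sliced Pool.Agent.MTR Pool.Agent.MTA Pool.Agent.UA Pool.Agent.UB
open Pool.Agent.TwoBr Pool.Agent.Mont Pool.Agent.TV Pool.Agent.TW
open Pool.Agent.TB hiding vec

namespace Vtb

theorem dt_left (L : ℤ × ℤ) (a b : Tr) :
    dt (rv (addv L (vec b))) (vec a) = dt L (vec (.cons a b)) := by
  have h : vec (.cons a b) = addv (rv (vec a)) (vec b) := rfl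
  rw [h]
  simp only [dt, addv, rv]
  ring

theorem dt_right (L : ℤ × ℤ) (a b : Tr) :
    dt (addv L (rv (vec a))) (vec b) = dt L (vec (.cons a b)) := by
  have h : vec (.cons a b) = addv (rv (vec a)) (vec b) := rfl
  rw [h]
  simp only [dt, addv, rv]
  ring

theorem tot_right (L : ℤ × ℤ) (a b : Tr) :
    addv (addv L (rv (vec a))) (vec b) = addv L (vec (.cons a b)) := by
  have h : vec (.cons a b) = addv (rv (vec a)) (vec b) := rfl
  rw [h]
  refine Prod.ext ?_ ?_ <;> simp only [addv, rv] <;> ring

/-- the slope is additive -/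
theorem slp_addv (P V : ℤ × ℤ) (hP : P.2 ≠ 0) (hV : V.2 ≠ 0) :
    slp (addv P V) = slp P + slp V := by
  have h1 : (P.2 : ℚ) ≠ 0 := by exact_mod_cast hP
  have h2 : (V.2 : ℚ) ≠ 0 := by exact_mod_cast hV
  unfold slp addv
  push_cast
  field_simp

theorem slp_pw (e : ℤ) : slp (-e, 1) = -(e : ℚ) := by
  unfold slp
  push_cast
  ring

theorem main (T : Tr) : ∀ (acc : Multiset ℚ) (f : Bool) (L : ℤ × ℤ),
    (∀ b ∈ acc, Int.fract b = b) → (f = true → 3 ≤ acc.card + T.kids) →
    (L.2 ≠ 0 → ∃ n : ℤ, acc.sum - slp L = n) →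
    ∀ x ∈ vt T acc f L, x.1.1 = dt L (vec T) ∧ 3 ≤ x.2.card ∧
      (∀ b ∈ x.2, Int.fract b = b) ∧ (x.1.2 ≠ 0 → ∃ n : ℤ, x.2.sum - slp x.1 = n) := by
  induction T with
  | pw e =>
    intro acc f L h1 h2 h3 x hx
    cases f with
    | false =>
      exact absurd hx (Multiset.notMem_zero x)
    | true =>
      have hx' : x = (addv L (-e, 1), acc) := Multiset.mem_singleton.1 hx
      subst hx'
      refine ⟨rfl, ?_, h1, ?_⟩
      · have := h2 rfl
        simpa [Tr.kids] using this
      · intro h4
        have h5 : L.2 ≠ 0 := by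
          intro h5
          apply h4
          simp [addv, h5]
        obtain ⟨n, hn⟩ := h3 h5
        refine ⟨n + e, ?_⟩
        change acc.sum - slp (addv L (-e, 1)) = _
        rw [slp_addv L (-e, 1) h5 (by norm_num), slp_pw]
        push_cast
        linarith
  | cons a b iha ihb =>
    intro acc f L h1 h2 h3 x hx
    have hx' : x ∈ vt a {Int.fract (slp (rv (addv L (vec b))))} (decide (2 ≤ a.kids))
        (rv (addv L (vec b))) +
        vt b (Int.fract (slp (rv (vec a))) ::ₘ acc) f (addv L (rv (vec a))) := hx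
    rw [Multiset.mem_add] at hx'
    rcases hx' with hx' | hx'
    · have := iha _ _ _ ?_ ?_ ?_ x hx'
      · rw [dt_left] at this
        exact this
      · intro b hb
        rw [Multiset.mem_singleton.1 hb, Int.fract_fract]
      · intro h
        have h5 := of_decide_eq_true h
        rw [Multiset.card_singleton]
        omega
      · intro _
        refine ⟨-⌊slp (rv (addv L (vec b)))⌋, ?_⟩
        rw [Multiset.sum_singleton]
        unfold Int.fract
        push_cast
        ring
    · have := ihb _ _ _ ?_ ?_ ?_ x hx'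
      · rw [dt_right] at this
        exact this
      · intro c hc
        rw [Multiset.mem_cons] at hc
        rcases hc with hc | hc
        · rw [hc, Int.fract_fract]
        · exact h1 c hc
      · intro h
        have h5 := h2 h
        rw [Multiset.card_cons]
        simp only [Tr.kids] at h5
        omega
      · intro h4
        have h5 : L.2 ≠ 0 := by
          intro h5
          apply h4
          simp [addv, h5]
        have h6 : (rv (vec a)).2 ≠ 0 := by
          intro h6
          apply h4
          simp [addv, h6]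
        obtain ⟨n, hn⟩ := h3 h5
        refine ⟨n - ⌊slp (rv (vec a))⌋, ?_⟩
        rw [Multiset.sum_cons, slp_addv L _ h5 h6]
        unfold Int.fract
        push_cast
        linarith

end Vtb

theorem t_VTB : VTB_Stmt := by
  intro T hT x hx
  have h := Vtb.main T 0 true (0, 1) (fun b hb => absurd hb (Multiset.notMem_zero b))
    (fun _ => by simpa using hT) (fun _ => ⟨0, by simp [slp]⟩) x hx
  refine ⟨?_, h.2⟩
  rw [h.1]
  simp [dt, addv]

end Pool.Agent.TZ
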