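import Pool.Agent.TZ.AsmZ
import Pool.Agent.TZ.Acz
import Pool.Agent.TZ.Chn
import Pool.Agent.TZ.Cln
import Pool.Agent.TZ.Cus
import Pool.Agent.TZ.Eds
import Pool.Agent.TZ.Ega
import Pool.Agent.TZ.Evn
import Pool.Agent.TZ.Fodm
import Pool.Agent.TZ.Ine
import Pool.Agent.TZ.Mate
import Pool.Agent.TZ.Muc
import Pool.Agent.TZ.Mur
import Pool.Agent.TZ.Mut
import Pool.Agent.TZ.Ndn
import Pool.Agent.TZ.Nza
import Pool.Agent.TZ.Prm
import Pool.Agent.TZ.Qac
import Pool.Agent.TZ.Rtz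
import Pool.Agent.TZ.Sft
import Pool.Agent.TZ.Shf
import Pool.Agent.TZ.Spn
import Pool.Agent.TZ.Tab
import Pool.Agent.TZ.Vst
import Pool.Agent.TZ.Vtb
import Pool.Agent.TX.Final

/-!
Theorem Z (MP_31fd3b_gt): rational finite type invariants separate generic arborescent knots up to
mutation. All modules together (helper16).
-/

namespace Pool.Agent.TZ

open Pool.Agent.LibH11.Sliced Pool.Agent.MTR Pool.Agent.MT Pool.Agent.MTA Pool.Agent.UA
open Pool.Agent.UB Pool.Agent.TwoBr Pool.Agent.Mont Pool.Agent.TV Pool.Agent.TW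
open Pool.Agent.TB hiding vec

/-- **Theorem Z**, for trees and complex valued invariants. -/
theorem finz_all : FINZ_Stmt := by
  have jpv : JPV_Stmt := t_JPV
  have jdv : JDV_Stmt := t_JDV jpv
  have ratj : RATJ_Stmt := t_RATJ jpv t_RATG jdv
  have ru := t_RU jpv t_RATG ratj jdv
  have sfin := sfin_all
  have rsi := t_RSI (t_XXF (t_AID sfin) sfin) (t_RSV (t_GQ sfin) t_VTS sfin) t_PF t_VTS
  have cls := TW.t_CLS (t_CQE t_VTS) (t_MUKS t_FIB)
  have pla := t_PLA (t_GSY sfin) (t_PLN sfin) t_PLC t_FIB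
  have h1 := t_FSY
  have h2 := t_FEQ h1
  have h3 := t_FCG
  have h4 := t_FRO h1 h2 h3
  have h5 := t_FFL h1
  have h6 := t_FIT h3
  have h7 := t_FR3 h1 h2 h3 h4 h5
  have h8 := t_FC0 h1 h2 h3 h4 h5
  have rti := t_RTI h1 h2 h3 h4 h5
  have rtu := t_RTU t_RATG h7 h5 h4 h3 h1 h2 fta_all h6 rti ru
  have vst := t_VST
  have chn := t_CHN
  have vtb := t_VTB
  have eds := t_EDS
  have tab := t_TAB t_CLN vtb t_NDN
  have evn := t_EVN eds chn vst
  have ega := t_EGA chn vst eds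
  have ine := t_INE evn ega eds
  have mate := t_MATE ega eds vst
  have muc := t_MUC
  have mur := t_MUR muc h4 h7 h8 h3
  have mtt := t_MUT muc mur h3 fta_all
  have prm := t_PRM mtt
  have shf := t_SHF
  have sft := t_SFT mtt shf
  have rtz := t_RTZ chn prm vst vtb mtt ega eds
  have qac := t_QAC t_ACZ muc mur h3 fta_all
  have spn := t_SPN vst chn prm shf sft mtt t_CUS qac rtu ru
  have hzt := zt_basic
  have hego := ego hzt
  have hstb := stb hzt hego (insg_thm hego)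
  have nzv : NZV_Stmt := t_NZV (t_STU (t_FHT hzt) hstb) (MTA.prs hzt hego) hego
  have fodm := t_FODM liew_all nzv rsi cls pla t_VTS
  exact t_FINZ t_ODK fodm tab ine mate rtz spn vst ega eds mtt

end Pool.Agent.TZ
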