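import Pool.Agent.TZ.StS

/-!
Theorem Z2 (MP_31fd3b_gt), module FODL: from the invariants to the first order data, for lists.
-/

open scoped BigOperators

namespace Pool.Agent.TZ

open Pool.Agent.LibH11.Sliced Pool.Agent.MTR Pool.Agent.MTA Pool.Agent.UA Pool.Agent.UB
open Pool.Agent.TwoBr Pool.Agent.Mont Pool.Agent.TV Pool.Agent.TW
open Pool.Agent.TB hiding vec

namespace Fodl

theorem dt_one (V : ℤ × ℤ) : dt (0, 1) V = V.1 := by
  simp [dt, addv]

theorem odd_prod (l : List ℤ) (h : ∀ x ∈ l, Odd x) : Odd l.prod := by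
  induction l with
  | nil => simp
  | cons a l ih =>
    rw [List.prod_cons]
    exact (h a (by simp)).mul (ih fun x hx => h x (List.mem_cons_of_mem _ hx))

end Fodl

open Fodl in
theorem t_FODL (hLIE : LIEW_Stmt) (hNZV : ∀ t : Tr, Odd (vec t).1 → NVP t) (hRSI : RSI_Stmt)
    (hCLS : TW.CLS_Stmt) (hPLA : PLA_Stmt) (hVTS : VTS_Stmt) : FODL_Stmt := by
  intro Ts Ts' h h' hlen hodd hv
  obtain ⟨D, hD, hdvd⟩ : ∃ D : ℤ, Odd D ∧ ∀ t ∈ Ts ++ Ts', (vec t).1 ∣ D := by
    refine ⟨((Ts ++ Ts').map fun t => (vec t).1).prod, odd_prod _ ?_, fun t ht => ?_⟩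
    · intro x hx
      obtain ⟨t, ht, rfl⟩ := List.mem_map.1 hx
      exact hodd t ht
    · exact List.dvd_prod (List.mem_map.2 ⟨t, ht, rfl⟩)
  have hR := hRSI Ts Ts' D hD hdvd (hLIE Ts Ts' h h' hlen
    (fun t ht => hodd t (List.mem_append_left _ ht))
    (fun t ht => hNZV t (hodd t (List.mem_append_right _ ht))) hv D hD hdvd)
  have hdv : ∀ X : List Tr, (∀ t ∈ X, t ∈ Ts ++ Ts') → ∀ v ∈ VL X, (tot v).1 ∣ D := by
    intro X hX v hvt
    obtain ⟨t, ht, hvt⟩ := List.mem_flatMap.1 hvt
    rw [(hVTS t (0, 1)).1 v hvt, dt_one]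
    exact hdvd t (hX t ht)
  have hdn : ∀ X : List Tr, (∀ t ∈ X, t ∈ Ts ++ Ts') → ∀ e ∈ NLs X, dt e.2.1 e.2.2 ∣ D := by
    intro X hX e he
    obtain ⟨t, ht, he⟩ := List.mem_flatMap.1 he
    rw [(hVTS t (0, 1)).2.1 e he, dt_one]
    exact hdvd t (hX t ht)
  have hC := hCLS D hD (VL Ts) (VL Ts') (by
      intro v hvt
      rcases List.mem_append.1 hvt with hvt | hvt
      · exact hdv Ts (fun t ht => List.mem_append_left _ ht) v hvt
      · exact hdv Ts' (fun t ht => List.mem_append_right _ ht) v hvt)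
    (fun g z hg hz => (hR g hg).1 z hz)
  refine ⟨D, hD, hdvd, fun K φ hK hφ => hC K φ hK hφ, ?_⟩
  intro F hF
  have hp := hPLA D hD (NLs Ts ++ (NLs Ts').map fun e => (-e.1, e.2)) (by
      intro e he
      rcases List.mem_append.1 he with he | he
      · exact hdn Ts (fun t ht => List.mem_append_left _ ht) e he
      · obtain ⟨e', he', rfl⟩ := List.mem_map.1 he
        exact hdn Ts' (fun t ht => List.mem_append_right _ ht) e' he')
    (by
      intro g hg
      have h1 := (hR g hg).2
      have h2 : ∀ l : Cb, evN D (l.map fun e => (-e.1, e.2)) g = -evN D l g := by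
        intro l
        induction l with
        | nil => simp [evN]
        | cons a l ih =>
          simp only [evN, List.map_cons, List.sum_cons] at ih ⊢
          rw [ih]
          ring
      have h3 : evN D (NLs Ts ++ (NLs Ts').map fun e => (-e.1, e.2)) g =
          evN D (NLs Ts) g + evN D ((NLs Ts').map fun e => (-e.1, e.2)) g := by
        simp only [evN, List.map_append, List.sum_append]
      rw [h3, h2, h1, add_neg_cancel]) F hF
  have h2 : ∀ l : Cb, ((l.map fun e => (-e.1, e.2)).map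
      fun e => (e.1 : ℂ) * F e.2.1 e.2.2).sum = -evF F l := by
    intro l
    induction l with
    | nil => simp [evF]
    | cons a l ih =>
      simp only [evF, List.map_cons, List.sum_cons] at ih ⊢
      rw [ih]
      push_cast
      ring
  rw [List.map_append, List.sum_append, h2] at hp
  have h3 : evF F (NLs Ts) - evF F (NLs Ts') = 0 := by
    rw [sub_eq_add_neg]
    exact hp
  exact sub_eq_zero.1 h3

end Pool.Agent.TZ
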