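import Pool.Agent.TZ.StS
import Pool.Agent.TW.Nve

/-!
Theorem Z for connected sums (MP_31fd3b_gt), module GEX: every symmetric function is a function of the slopes.
-/

open scoped BigOperators

namespace Pool.Agent.TZ

open Pool.Agent.LibH11.Sliced Pool.Agent.MTR Pool.Agent.MTA Pool.Agent.UA Pool.Agent.UB
open Pool.Agent.TwoBr Pool.Agent.Mont Pool.Agent.TV Pool.Agent.TW
open Pool.Agent.TB hiding vec

theorem t_GEX : GEX_Stmt := by
  intro D F _ hF
  refine ⟨fun q => F (NVE.Nm (q.1 - q.2)) (NVE.Nm q.2), ?_⟩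
  intro P V hP hV _ hd
  exact NVE.pair hF P V hP hV hd (slp P + slp V) rfl

end Pool.Agent.TZ
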