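import Pool.Agent.TZ.StS
import Pool.Agent.TZ.Ine
import Pool.Agent.TW.AsmA

/-!
Theorem Z for connected sums (MP_31fd3b_gt), module INL: the numbers of edges and of 2-bridge knots in a class.
-/

open scoped BigOperators

namespace Pool.Agent.TZ

open Pool.Agent.LibH11.Sliced Pool.Agent.MTR Pool.Agent.MTA Pool.Agent.UA Pool.Agent.UB
open Pool.Agent.TwoBr Pool.Agent.Mont Pool.Agent.TV Pool.Agent.TW
open Pool.Agent.TB hiding vec

namespace INL

/-- the part which depends on the slopes of the vertices only -/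
noncomputable def A (p : ℚ × ℚ) (m : Multiset (ℚ × Multiset ℚ)) : ℂ :=
  (m.map fun x => -((x.2.card : ℂ) - 2) * ic p (x.1, 0)).sum

/-- the sum over all branches -/
noncomputable def B (p : ℚ × ℚ) (m : Multiset (ℚ × Multiset ℚ)) : ℂ :=
  ((m.bind fun x => x.2.map fun b => (x.1, b)).map (ic p)).sum

theorem A_add (p : ℚ × ℚ) (m n : Multiset (ℚ × Multiset ℚ)) : A p (m + n) = A p m + A p n := by
  unfold A
  rw [Multiset.map_add, Multiset.sum_add]

theorem B_add (p : ℚ × ℚ) (m n : Multiset (ℚ × Multiset ℚ)) : B p (m + n) = B p m + B p n := by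
  unfold B
  rw [Multiset.add_bind, Multiset.map_add, Multiset.sum_add]

theorem evF_nil (F : ℤ × ℤ → ℤ × ℤ → ℂ) : evF F (NLs []) = 0 := by
  simp [evF, NLs]

theorem evF_cons (F : ℤ × ℤ → ℤ × ℤ → ℂ) (t : Tr) (X : List Tr) :
    evF F (NLs (t :: X)) = evF F (NL (0, 1) t) + evF F (NLs X) := by
  simp [evF, NLs]

theorem evF_app (F : ℤ × ℤ → ℤ × ℤ → ℂ) (X Y : List Tr) :
    evF F (NLs (X ++ Y)) = evF F (NLs X) + evF F (NLs Y) := by
  simp [evF, NLs]

theorem one (h1 : EVN_Stmt) (h2 : EGA_Stmt) (h3 : EDS_Stmt) (T : Tr) (hk : 3 ≤ T.kids)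
    (hv : (vec T).1 ≠ 0) (hw : ∀ x ∈ vt0 T, x.1.2 ≠ 0) (p : ℚ × ℚ) :
    evF (Fc p) (NL (0, 1) T) = A p (vs0 T) + B p (vs0 T) -
      2 * ((eg0 T).map fun e => ic p e.1).sum := by
  obtain ⟨he, hb⟩ := h2 T hk hv hw
  have e1 : ((eg0 T).map fun e => ic p e.2) = (eg0 T).map fun e => ic p e.1 :=
    Multiset.map_congr rfl (fun e h => INE.ic_eq h3 (he e h) p)
  have e2 : ((eg0 T).map Prod.fst).map (ic p) = (eg0 T).map fun e => ic p e.1 :=
    Multiset.map_map _ _ _
  have e3 : ((eg0 T).map Prod.snd).map (ic p) = (eg0 T).map fun e => ic p e.2 :=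
    Multiset.map_map _ _ _
  have e4 : B p (vs0 T) = ((rb0 T).map (ic p)).sum +
      2 * ((eg0 T).map fun e => ic p e.1).sum := by
    unfold B
    rw [← INE.br_vs, hb, Multiset.map_add, Multiset.map_add, Multiset.sum_add, Multiset.sum_add,
      e2, e3, e1]
    ring
  have e5 : A p (vs0 T) = ((vt0 T).map fun x => -((x.2.card : ℂ) - 2) * ic p (slp x.1, 0)).sum := by
    unfold A vs0
    rw [Multiset.map_map]
    rfl
  rw [h1 T p hk hv hw, e4, e5]
  ring

theorem V0_cons (G : Tr) (Gs : List Tr) : V0 (G :: Gs) = vt0 G + V0 Gs := rfl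

theorem VS0_cons (G : Tr) (Gs : List Tr) : VS0 (G :: Gs) = vs0 G + VS0 Gs := rfl

theorem EG0_cons (G : Tr) (Gs : List Tr) : EG0 (G :: Gs) = eg0 G + EG0 Gs := rfl

theorem lst (h1 : EVN_Stmt) (h2 : EGA_Stmt) (h3 : EDS_Stmt) (p : ℚ × ℚ) :
    ∀ Gs : List Tr, (∀ T ∈ Gs, 3 ≤ T.kids) → (∀ T ∈ Gs, (vec T).1 ≠ 0) →
      (∀ x ∈ V0 Gs, x.1.2 ≠ 0) →
      evF (Fc p) (NLs Gs) = A p (VS0 Gs) + B p (VS0 Gs) -
        2 * ((EG0 Gs).map fun e => ic p e.1).sum
  | [], _, _, _ => by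
    rw [evF_nil]
    simp [A, B, VS0, EG0]
  | G :: Gs, hk, hv, hw => by
    rw [evF_cons, VS0_cons, EG0_cons, A_add, B_add, Multiset.map_add, Multiset.sum_add,
      one h1 h2 h3 G (hk G List.mem_cons_self) (hv G List.mem_cons_self)
        (fun x hx => hw x (by rw [V0_cons]; exact Multiset.mem_add.2 (Or.inl hx))) p,
      lst h1 h2 h3 p Gs (fun T hT => hk T (List.mem_cons_of_mem _ hT))
        (fun T hT => hv T (List.mem_cons_of_mem _ hT))
        (fun x hx => hw x (by rw [V0_cons]; exact Multiset.mem_add.2 (Or.inr hx)))]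
    ring

theorem rat (h3 : EDS_Stmt) (h4 : NLE_Stmt) {D : ℤ} (hD : D ≠ 0) (p : ℚ × ℚ) :
    ∀ Ws : List Tr, (∀ U ∈ Ws, U.Rat) → (∀ U ∈ Ws, (vec U).1 ∣ D) →
      evF (Fc p) (NLs Ws) = 2 * (Ws.map fun U => Fc p (prT U).1 (prT U).2).sum
  | [], _, _ => by
    rw [evF_nil]
    simp
  | U :: Ws, hr, hd => by
    rw [evF_cons, (h4 D hD (Fc p) (h3.1 D p hD)).1 U (AsmA.T2_of_rat (hr U List.mem_cons_self))
      (hd U List.mem_cons_self), rat h3 h4 hD p Ws (fun T hT => hr T (List.mem_cons_of_mem _ hT))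
        (fun T hT => hd T (List.mem_cons_of_mem _ hT)), List.map_cons, List.sum_cons]
    ring

end INL

theorem t_INL (h1 : EVN_Stmt) (h2 : EGA_Stmt) (h3 : EDS_Stmt) (h4 : NLE_Stmt) : INL_Stmt := by
  intro D Gs Ws Gs' Ws' hD hd hk hr hw hs hN p
  have hv : ∀ T, (vec T).1 ∣ D → (vec T).1 ≠ 0 := by
    intro T h h0
    rw [h0] at h
    exact hD (Int.zero_dvd.1 h)
  have e := hN (Fc p) (h3.1 D p hD)
  rw [INL.evF_app, INL.evF_app,
    INL.lst h1 h2 h3 p Gs (fun T hT => hk T (List.mem_append_left _ hT))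
      (fun T hT => hv T (hd T (List.mem_append_left _ (List.mem_append_left _ hT))))
      (fun x hx => hw x (Multiset.mem_add.2 (Or.inl hx))),
    INL.lst h1 h2 h3 p Gs' (fun T hT => hk T (List.mem_append_right _ hT))
      (fun T hT => hv T (hd T (List.mem_append_right _ (List.mem_append_left _ hT))))
      (fun x hx => hw x (Multiset.mem_add.2 (Or.inr hx))),
    INL.rat h3 h4 hD p Ws (fun U hU => hr U (List.mem_append_left _ hU))
      (fun U hU => hd U (List.mem_append_left _ (List.mem_append_right _ hU))),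
    INL.rat h3 h4 hD p Ws' (fun U hU => hr U (List.mem_append_right _ hU))
      (fun U hU => hd U (List.mem_append_right _ (List.mem_append_right _ hU))), hs] at e
  linear_combination (-1 / 2 : ℂ) * e

end Pool.Agent.TZ
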