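import Pool.Agent.TZ.StS

/-!
Theorem Z for connected sums (MP_31fd3b_gt): MATL, compatibility.
-/

open scoped BigOperators

namespace Pool.Agent.TZ

open Pool.Agent.LibH11.Sliced Pool.Agent.MTR Pool.Agent.MTA Pool.Agent.UA Pool.Agent.UB
open Pool.Agent.TwoBr Pool.Agent.Mont Pool.Agent.TV Pool.Agent.TW
open Pool.Agent.TB hiding vec

namespace MATL

/-- a member of a list is at most the sum -/
theorem le_sum {α β : Type} (f : α → Multiset β) (l : List α) {x : α} (h : x ∈ l) :
    f x ≤ (l.map f).sum := by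
  induction l with
  | nil => exact absurd h List.not_mem_nil
  | cons y l ih =>
    rw [List.map_cons, List.sum_cons]
    rcases List.mem_cons.1 h with h | h
    · rw [h]
      exact le_add_of_nonneg_right (Multiset.zero_le _)
    · exact le_trans (ih h) (le_add_of_nonneg_left (Multiset.zero_le _))

theorem mem_sum {α β : Type} (f : α → Multiset β) (l : List α) {b : β} (h : b ∈ (l.map f).sum) :
    ∃ x ∈ l, b ∈ f x := by
  induction l with
  | nil => exact absurd h (Multiset.notMem_zero _)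
  | cons y l ih =>
    rw [List.map_cons, List.sum_cons] at h
    rcases Multiset.mem_add.1 h with h | h
    · exact ⟨y, List.mem_cons_self, h⟩
    · obtain ⟨x, hx, hb⟩ := ih h
      exact ⟨x, List.mem_cons_of_mem _ hx, hb⟩

theorem sum_add {α β : Type} (f g : α → Multiset β) (l : List α) :
    (l.map fun x => f x + g x).sum = (l.map f).sum + (l.map g).sum := by
  induction l with
  | nil => rfl
  | cons y l ih =>
    rw [List.map_cons, List.sum_cons, ih, List.map_cons, List.sum_cons, List.map_cons,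
      List.sum_cons]
    exact add_add_add_comm _ _ _ _

theorem sum_congr {α β : Type} (f g : α → Multiset β) (l : List α) (h : ∀ x ∈ l, f x = g x) :
    (l.map f).sum = (l.map g).sum := by
  rw [List.map_congr_left h]

theorem sum_bind {α β γ : Type} (f : α → Multiset β) (g : β → Multiset γ) (l : List α) :
    (l.map fun x => (f x).bind g).sum = ((l.map f).sum).bind g := by
  induction l with
  | nil => rfl
  | cons y l ih =>
    rw [List.map_cons, List.sum_cons, ih, List.map_cons, List.sum_cons, Multiset.add_bind]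

theorem sum_map {α β γ : Type} (f : α → Multiset β) (g : β → γ) (l : List α) :
    (l.map fun x => (f x).map g).sum = ((l.map f).sum).map g := by
  induction l with
  | nil => rfl
  | cons y l ih =>
    rw [List.map_cons, List.sum_cons, ih, List.map_cons, List.sum_cons, Multiset.map_add]

theorem br_vs (T : Tr) : br0 T = (vs0 T).bind fun x => x.2.map fun b => (x.1, b) := by
  unfold br0 vs0
  rw [Multiset.bind_map]

theorem BR_VS (Gs : List Tr) : BR0 Gs = (VS0 Gs).bind fun x => x.2.map fun b => (x.1, b) := by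
  unfold BR0 VS0
  rw [← sum_bind]
  exact sum_congr _ _ _ fun T _ => br_vs T

theorem VS_V (Gs : List Tr) : VS0 Gs = (V0 Gs).map fun x => (slp x.1, x.2) := by
  unfold VS0 V0
  rw [← sum_map]
  rfl

/-- the ends of the edges -/
theorem ends (E : Multiset ((ℚ × ℚ) × (ℚ × ℚ))) :
    E.map Prod.fst + E.map Prod.snd = E.bind uo := by
  have h : E.bind uo = E.bind fun e => ({e.1} + {e.2} : Multiset (ℚ × ℚ)) := rfl
  rw [h, Multiset.bind_add, Multiset.bind_singleton, Multiset.bind_singleton]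

theorem bind_uo {E E' : Multiset ((ℚ × ℚ) × (ℚ × ℚ))} (h : E.map uo = E'.map uo) :
    E.bind uo = E'.bind uo := by
  unfold Multiset.bind
  rw [h]

theorem uo_le {E : Multiset ((ℚ × ℚ) × (ℚ × ℚ))} {e : (ℚ × ℚ) × (ℚ × ℚ)} (h : e ∈ E) :
    uo e ≤ E.bind uo := by
  obtain ⟨t, ht⟩ := Multiset.exists_cons_of_mem h
  rw [ht, Multiset.cons_bind]
  exact le_add_of_nonneg_right (Multiset.zero_le _)

/-- two branches in the class -/
theorem two {B : Multiset (ℚ × ℚ)} {p q q' : ℚ × ℚ}
    (hc : ∀ s : Multiset (ℚ × ℚ), s ≤ B → (∀ r ∈ s, Se p r) → s.card ≤ 2) (hp : Se p p)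
    (hq : Se p q) (hq' : Se p q') (h : ({p, q} : Multiset (ℚ × ℚ)) ≤ B)
    (h' : ({p, q'} : Multiset (ℚ × ℚ)) ≤ B) : q = q' := by
  classical
  have hf := hc (B.filter fun r => Se p r) (Multiset.filter_le _ _)
    (fun r hr => (Multiset.mem_filter.1 hr).2)
  have a1 : ({p, q} : Multiset (ℚ × ℚ)) ≤ B.filter fun r => Se p r := by
    refine Multiset.le_filter.2 ⟨h, fun r hr' => ?_⟩
    rw [Multiset.insert_eq_cons, Multiset.mem_cons, Multiset.mem_singleton] at hr'
    rcases hr' with hr' | hr'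
    · rw [hr']
      exact hp
    · rw [hr']
      exact hq
  have a2 : ({p, q'} : Multiset (ℚ × ℚ)) ≤ B.filter fun r => Se p r := by
    refine Multiset.le_filter.2 ⟨h', fun r hr' => ?_⟩
    rw [Multiset.insert_eq_cons, Multiset.mem_cons, Multiset.mem_singleton] at hr'
    rcases hr' with hr' | hr'
    · rw [hr']
      exact hp
    · rw [hr']
      exact hq'
  have b1 := Multiset.eq_of_le_of_card_le a1 hf
  have b2 := Multiset.eq_of_le_of_card_le a2 hf
  have b3 : ({p, q} : Multiset (ℚ × ℚ)) = {p, q'} := b1.trans b2.symm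
  rw [Multiset.insert_eq_cons, Multiset.insert_eq_cons, Multiset.cons_inj_right,
    Multiset.singleton_inj] at b3
  exact b3

end MATL

open MATL in
theorem t_MATL (h1 : EGA_Stmt) (h2 : EDS_Stmt) (h3 : VST_Stmt) : MATL_Stmt := by
  intro Gs Gs' T T' T1 hG hw hd hE hV hU hT hT' hk1 hv1 hvt heg
  have hr := h2.2.2.1.1
  have hs := h2.2.2.1.2.1
  have eB : BR0 Gs = BR0 Gs' := by rw [BR_VS, BR_VS, hV]
  have w0 : ∀ G ∈ Gs ++ Gs', ∀ x ∈ vt0 G, x.1.2 ≠ 0 := by
    intro G hGm x hx
    apply hw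
    rcases List.mem_append.1 hGm with h | h
    · exact Multiset.mem_add.2 (Or.inl (Multiset.mem_of_le (le_sum vt0 Gs h) hx))
    · exact Multiset.mem_add.2 (Or.inr (Multiset.mem_of_le (le_sum vt0 Gs' h) hx))
  have ega : ∀ G ∈ Gs ++ Gs', (∀ e ∈ eg0 G, Se e.1 e.2) ∧ br0 G = rb0 G + (eg0 G).bind uo := by
    intro G hGm
    obtain ⟨a, b⟩ := h1 G (hG G hGm).1 (hG G hGm).2 (w0 G hGm)
    refine ⟨a, ?_⟩
    rw [b, add_assoc, ends]
  have mT : T ∈ Gs ++ Gs' := List.mem_append.2 (Or.inl hT)
  have mT' : T' ∈ Gs ++ Gs' := List.mem_append.2 (Or.inr hT')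
  obtain ⟨he, hb⟩ := ega T mT
  obtain ⟨_, hb'⟩ := ega T' mT'
  obtain ⟨he1, hb1⟩ : (∀ e ∈ eg0 T1, Se e.1 e.2) ∧ br0 T1 = rb0 T1 + (eg0 T1).bind uo := by
    obtain ⟨a, b⟩ := h1 T1 hk1 hv1 (by
      rw [hvt]
      exact w0 T' mT')
    refine ⟨a, ?_⟩
    rw [b, add_assoc, ends]
  have eb1 : br0 T1 = br0 T' := by
    unfold br0
    rw [hvt]
  have er1 : rb0 T1 = rb0 T' := by
    rw [hb1, hb', bind_uo heg] at eb1
    exact add_right_cancel eb1
  have eBG : BR0 Gs = (Gs.map rb0).sum + (EG0 Gs).bind uo := by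
    unfold BR0 EG0
    rw [← sum_bind, ← sum_add]
    exact sum_congr _ _ _ fun G h => (ega G (List.mem_append.2 (Or.inl h))).2
  have eBG' : BR0 Gs' = (Gs'.map rb0).sum + (EG0 Gs').bind uo := by
    unfold BR0 EG0
    rw [← sum_bind, ← sum_add]
    exact sum_congr _ _ _ fun G h => (ega G (List.mem_append.2 (Or.inr h))).2
  have pT : ∀ p q : ℚ × ℚ, (p, q) ∈ eg0 T → (p, q) ∈ EG0 Gs := fun p q h =>
    Multiset.mem_of_le (le_sum eg0 Gs hT) h
  -- the pairs below the branches
  have q1 : ∀ p q : ℚ × ℚ, (p, q) ∈ eg0 T → ({p, q} : Multiset (ℚ × ℚ)) ≤ BR0 Gs := by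
    intro p q h
    refine le_trans ?_ (le_sum br0 Gs hT)
    rw [hb]
    exact le_trans (uo_le h) (le_add_of_nonneg_left (Multiset.zero_le _))
  have q2 : ∀ p q : ℚ × ℚ, (p, q) ∈ eg0 T1 → ({p, q} : Multiset (ℚ × ℚ)) ≤ BR0 Gs := by
    intro p q h
    rw [eB]
    refine le_trans ?_ (le_sum br0 Gs' hT')
    rw [← eb1, hb1]
    exact le_trans (uo_le h) (le_add_of_nonneg_left (Multiset.zero_le _))
  refine ⟨?_, ?_, ?_, ?_⟩
  · intro p q q' h h'
    exact two (fun s hs => hE (p, q) (pT p q h) s hs) (hr p) (he _ h) (he1 _ h') (q1 p q h)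
      (q2 p q' h')
  · intro p q h hp
    have m1 : uo (p, q) ∈ (EG0 Gs').map uo := by
      rw [← hU]
      exact Multiset.mem_map_of_mem uo (pT p q h)
    obtain ⟨e', me', ee'⟩ := Multiset.mem_map.1 m1
    have hp' : p ∈ rb0 T' := by
      rw [← er1]
      exact hp
    have m2 : ({p} + uo (p, q) : Multiset (ℚ × ℚ)) ≤ BR0 Gs := by
      rw [eB, eBG', ← ee']
      exact add_le_add (le_trans (Multiset.singleton_le.2 hp') (le_sum rb0 Gs' hT')) (uo_le me')
    have m3 := hE (p, q) (pT p q h) _ m2 (fun r hr' => by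
      change r ∈ ({p, p, q} : Multiset (ℚ × ℚ)) at hr'
      rw [Multiset.insert_eq_cons, Multiset.insert_eq_cons, Multiset.mem_cons, Multiset.mem_cons,
        Multiset.mem_singleton] at hr'
      rcases hr' with hr' | hr' | hr'
      · rw [hr']
        exact hr p
      · rw [hr']
        exact hr p
      · rw [hr']
        exact he _ h)
    have m4 : ({p} + uo (p, q) : Multiset (ℚ × ℚ)).card = 3 := rfl
    omega
  · intro p q h hp
    have m1 : uo (p, q) ∈ (EG0 Gs).map uo := by
      rw [hU]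
      refine Multiset.mem_of_le (Multiset.map_le_map (le_sum eg0 Gs' hT')) ?_
      rw [← heg]
      exact Multiset.mem_map_of_mem uo h
    obtain ⟨f, mf, ef⟩ := Multiset.mem_map.1 m1
    have m2 : ({p} + uo (p, q) : Multiset (ℚ × ℚ)) ≤ BR0 Gs := by
      rw [eBG, ← ef]
      exact add_le_add (le_trans (Multiset.singleton_le.2 hp) (le_sum rb0 Gs hT)) (uo_le mf)
    have hpq : Se p q := he1 _ h
    have m5 : f.1 = p ∨ f.1 = q := by
      have : f.1 ∈ uo f := by
        unfold uo
        rw [Multiset.insert_eq_cons]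
        exact Multiset.mem_cons_self _ _
      rw [ef] at this
      change f.1 ∈ ({p, q} : Multiset (ℚ × ℚ)) at this
      rwa [Multiset.insert_eq_cons, Multiset.mem_cons, Multiset.mem_singleton] at this
    have m6 : Se f.1 p ∧ Se f.1 q := by
      rcases m5 with m5 | m5
      · rw [m5]
        exact ⟨hr p, hpq⟩
      · rw [m5]
        exact ⟨hs _ _ hpq, hr q⟩
    have m3 := hE f mf _ m2 (fun r hr' => by
      change r ∈ ({p, p, q} : Multiset (ℚ × ℚ)) at hr'
      rw [Multiset.insert_eq_cons, Multiset.insert_eq_cons, Multiset.mem_cons, Multiset.mem_cons,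
        Multiset.mem_singleton] at hr'
      rcases hr' with hr' | hr' | hr'
      · rw [hr']
        exact m6.1
      · rw [hr']
        exact m6.1
      · rw [hr']
        exact m6.2)
    have m4 : ({p} + uo (p, q) : Multiset (ℚ × ℚ)).card = 3 := rfl
    omega
  · intro σ bs bs' m m'
    have k : ∀ U : Tr, vd U (0, 1) ≤ vs0 U := by
      intro U
      unfold vd vs0 vt0
      rw [(h3.1 U 0 (0, 1)).1, Multiset.map_cons]
      exact Multiset.le_cons_self _ _
    have m1 : (σ, bs) ∈ VS0 Gs :=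
      Multiset.mem_of_le (le_trans (k T) (le_sum vs0 Gs hT)) m
    have m2 : (σ, bs') ∈ VS0 Gs := by
      rw [hV]
      refine Multiset.mem_of_le (le_sum vs0 Gs' hT') ?_
      have e : vs0 T' = vs0 T1 := by
        unfold vs0
        rw [hvt]
      rw [e]
      exact Multiset.mem_of_le (k T1) m'
    have e : ((V0 Gs).map fun x => slp x.1) = (VS0 Gs).map Prod.fst := by
      rw [VS_V, Multiset.map_map]
      rfl
    rw [e] at hd
    have := Multiset.inj_on_of_nodup_map hd _ m1 _ m2 rfl
    exact (Prod.mk.inj this).2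

end Pool.Agent.TZ
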