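import Pool.Agent.TZ.StM
import Pool.Agent.TZ.Muc

/-!
Theorem Z (MP_31fd3b_gt), module MLK: mutations preserve long knots. Proof with the 2-colourings of
the components: a diagram is a long knot iff the only colouring with bottom colour `false` is the
colouring `false`.
-/

set_option autoImplicit false

namespace Pool.Agent.TZ

open Pool.Agent.LibH11 Pool.Agent.LibH11.Sliced Pool.Agent.MTR Pool.Agent.MTA Pool.Agent.UA
open Pool.Agent.UB Pool.Agent.TwoBr Pool.Agent.Mont Pool.Agent.TV Pool.Agent.TW
open Pool.Agent.TB hiding vec

namespace Mlk

/-! ### Lists -/

theorem split2 {α : Type*} (a : List α) (i : ℕ) (h : i ≤ a.length) :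
    ∃ l r : List α, a = l ++ r ∧ l.length = i :=
  ⟨a.take i, a.drop i, (List.take_append_drop i a).symm, by simp [h]⟩

theorem split4 {α : Type*} (a : List α) (i : ℕ) (h : i + 2 ≤ a.length) :
    ∃ (l : List α) (x y : α) (r : List α), a = l ++ x :: y :: r ∧ l.length = i := by
  obtain ⟨l, r, rfl, hl⟩ := split2 a i (by omega)
  match r, h with
  | [], h => simp at h; omega
  | [x], h => simp at h; omega
  | x :: y :: r, _ => exact ⟨l, x, y, r, rfl, hl⟩

/-- a colour occurs -/
def an (a : List Bool) : Bool := a.any id

theorem an_append (a b : List Bool) : an (a ++ b) = (an a || an b) := by simp [an]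

theorem an_cons (x : Bool) (a : List Bool) : an (x :: a) = (x || an a) := by simp [an]

theorem an_nil : an [] = false := rfl

theorem an_reverse (a : List Bool) : an a.reverse = an a := by simp [an]

theorem an_false {a : List Bool} (h : an a = false) : ∀ x ∈ a, x = false := by
  intro x hx
  simp only [an, List.any_eq_false] at h
  simpa using h x hx

theorem an_of {a : List Bool} (h : ∀ x ∈ a, x = false) : an a = false := by
  simp only [an, List.any_eq_false]
  intro x hx
  simp [h x hx]

/-! ### Colourings -/

/-- the colours below and above a slice -/
inductive St : Kind → ℕ → List Bool → List Bool → Prop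
  | cup (l r : List Bool) (z : Bool) : St .cup l.length (l ++ r) (l ++ z :: z :: r)
  | cap (l r : List Bool) (z : Bool) : St .cap l.length (l ++ z :: z :: r) (l ++ r)
  | crs (e : Bool) (l r : List Bool) (x y : Bool) :
      St (.crs e) l.length (l ++ x :: y :: r) (l ++ y :: x :: r)

/-- full colourings with the colours `a` at the bottom, `b` at the top, and the flag `f` which says
whether a colour occurs -/
def FC : Diag → List Bool → List Bool → Bool → Prop
  | [], a, b, f => b = a ∧ f = an a
  | p :: w, a, b, f => ∃ (c : List Bool) (f' : Bool), St p.1 p.2 a c ∧ FC w c b f' ∧ f = (an a || f')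

theorem St.len {k : Kind} {i : ℕ} {a b : List Bool} (h : St k i a b) :
    i + k.ins ≤ a.length ∧ b.length = a.length - k.ins + k.outs := by
  cases h <;> simp [Kind.ins, Kind.outs] <;> omega

theorem FC.cnt : ∀ {w : Diag} {a b : List Bool} {f : Bool}, FC w a b f →
    cnt a.length w = some b.length := by
  intro w
  induction w with
  | nil =>
    rintro a b f ⟨rfl, -⟩
    rfl
  | cons p w ih =>
    obtain ⟨k, i⟩ := p
    rintro a b f ⟨c, f', h1, h2, -⟩
    obtain ⟨h3, h4⟩ := h1.len
    simp only [Sliced.cnt]
    rw [if_pos h3, ← h4]
    exact ih h2

theorem FC.an_left : ∀ {w : Diag} {a b : List Bool} {f : Bool}, FC w a b f →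
    (an a || f) = f := by
  intro w
  cases w with
  | nil =>
    rintro a b f ⟨rfl, rfl⟩
    simp
  | cons p w =>
    rintro a b f ⟨c, f', h1, h2, rfl⟩
    simp

theorem FC.an_right : ∀ {w : Diag} {a b : List Bool} {f : Bool}, FC w a b f →
    (f || an b) = f := by
  intro w
  induction w with
  | nil =>
    rintro a b f ⟨rfl, rfl⟩
    simp
  | cons p w ih =>
    rintro a b f ⟨c, f', h1, h2, rfl⟩
    rw [Bool.or_assoc, ih h2]

theorem FC_append : ∀ (x y : Diag) (a b : List Bool) (f : Bool), FC (x ++ y) a b f ↔
    ∃ (c : List Bool) (f1 f2 : Bool), FC x a c f1 ∧ FC y c b f2 ∧ f = (f1 || f2) := by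
  intro x y
  induction x with
  | nil =>
    intro a b f
    constructor
    · intro h
      exact ⟨a, an a, f, ⟨rfl, rfl⟩, h, h.an_left.symm⟩
    · rintro ⟨c, f1, f2, ⟨rfl, rfl⟩, h, rfl⟩
      rw [h.an_left]
      exact h
  | cons p x ih =>
    intro a b f
    constructor
    · rintro ⟨c, f', h1, h2, rfl⟩
      obtain ⟨c', f1, f2, h3, h4, rfl⟩ := (ih c b f').1 h2
      exact ⟨c', an a || f1, f2, ⟨c, f1, h1, h3, rfl⟩, h4, by rw [Bool.or_assoc]⟩
    · rintro ⟨c', f0, f2, ⟨c, f1, h1, h3, rfl⟩, h4, rfl⟩
      exact ⟨c, f1 || f2, h1, (ih c b _).2 ⟨c', f1, f2, h3, h4, rfl⟩, by rw [Bool.or_assoc]⟩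

theorem FC_one (p : Kind × ℕ) (a b : List Bool) (f : Bool) :
    FC [p] a b f ↔ St p.1 p.2 a b ∧ f = (an a || an b) := by
  constructor
  · rintro ⟨c, f', h1, ⟨rfl, rfl⟩, rfl⟩
    exact ⟨h1, rfl⟩
  · rintro ⟨h1, rfl⟩
    exact ⟨b, an b, h1, ⟨rfl, rfl⟩, rfl⟩

/-! ### Strands on the left and on the right -/

theorem St.mid {k : Kind} {i : ℕ} {a b : List Bool} (h : St k i a b) (l r : List Bool) :
    St k (i + l.length) (l ++ a ++ r) (l ++ b ++ r) := by
  cases h with
  | cup l1 r1 z =>
    have := St.cup (l ++ l1) (r1 ++ r) z
    simpa [add_comm] using this
  | cap l1 r1 z =>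
    have := St.cap (l ++ l1) (r1 ++ r) z
    simpa [add_comm] using this
  | crs e l1 r1 x y =>
    have := St.crs e (l ++ l1) (r1 ++ r) x y
    simpa [add_comm] using this

theorem St.unmid {k : Kind} {i : ℕ} {l a r c : List Bool}
    (h : St k (i + l.length) (l ++ a ++ r) c) (hi : i + k.ins ≤ a.length) :
    ∃ b, c = l ++ b ++ r ∧ St k i a b := by
  generalize hj : i + l.length = j at h
  generalize hA : l ++ a ++ r = A at h
  cases h with
  | cup l2 r2 z =>
    obtain ⟨l1, r1, rfl, rfl⟩ := split2 a i (by simpa [Kind.ins] using hi)
    have h1 : (l ++ l1) ++ (r1 ++ r) = l2 ++ r2 := by simpa using hA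
    obtain ⟨rfl, rfl⟩ := List.append_inj h1 (by simp; omega)
    exact ⟨l1 ++ z :: z :: r1, by simp, St.cup l1 r1 z⟩
  | cap l2 r2 z =>
    obtain ⟨l1, x, y, r1, rfl, rfl⟩ := split4 a i (by simpa [Kind.ins] using hi)
    have h1 : (l ++ l1) ++ (x :: y :: (r1 ++ r)) = l2 ++ z :: z :: r2 := by simpa using hA
    obtain ⟨rfl, h2⟩ := List.append_inj h1 (by simp; omega)
    simp only [List.cons.injEq] at h2
    obtain ⟨rfl, rfl, rfl⟩ := h2
    exact ⟨l1 ++ r1, by simp, St.cap l1 r1 _⟩
  | crs e l2 r2 x' y' =>
    obtain ⟨l1, x, y, r1, rfl, rfl⟩ := split4 a i (by simpa [Kind.ins] using hi)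
    have h1 : (l ++ l1) ++ (x :: y :: (r1 ++ r)) = l2 ++ x' :: y' :: r2 := by simpa using hA
    obtain ⟨rfl, h2⟩ := List.append_inj h1 (by simp; omega)
    simp only [List.cons.injEq] at h2
    obtain ⟨rfl, rfl, rfl⟩ := h2
    exact ⟨l1 ++ y :: x :: r1, by simp, St.crs e l1 r1 x y⟩

theorem FC_sh : ∀ (t : Diag) (l a r c : List Bool) (q : ℕ) (f : Bool),
    cnt a.length t = some q → (FC (sh l.length t) (l ++ a ++ r) c f ↔
      ∃ (b : List Bool) (f' : Bool), c = l ++ b ++ r ∧ FC t a b f' ∧ f = (an l || an r || f')) := by
  intro t
  induction t with
  | nil =>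
    intro l a r c q f hq
    constructor
    · rintro ⟨rfl, rfl⟩
      refine ⟨a, an a, rfl, ⟨rfl, rfl⟩, ?_⟩
      rw [an_append, an_append, Bool.or_assoc, Bool.or_assoc, Bool.or_comm (an a)]
    · rintro ⟨b, f', rfl, ⟨rfl, rfl⟩, rfl⟩
      refine ⟨rfl, ?_⟩
      rw [an_append, an_append, Bool.or_assoc, Bool.or_assoc, Bool.or_comm (an b)]
  | cons p t ih =>
    obtain ⟨k, i⟩ := p
    intro l a r c q f hq
    obtain ⟨h1, h2⟩ := cnt_cons_some hq
    constructor
    · rintro ⟨d, f', h3, h4, rfl⟩
      obtain ⟨d', rfl, h5⟩ := St.unmid h3 h1
      rw [← h5.len.2] at h2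
      obtain ⟨b, f'', rfl, h6, rfl⟩ := (ih l d' r c q f' h2).1 h4
      refine ⟨b, an a || f'', rfl, ⟨d', f'', h5, h6, rfl⟩, ?_⟩
      rw [an_append, an_append]
      cases an l <;> cases an a <;> cases an r <;> simp
    · rintro ⟨b, f', rfl, ⟨d, f'', h5, h6, rfl⟩, rfl⟩
      rw [← h5.len.2] at h2
      refine ⟨l ++ d ++ r, an l || an r || f'', St.mid h5 l r,
        (ih l d r _ q _ h2).2 ⟨b, f'', rfl, h6, rfl⟩, ?_⟩
      rw [an_append, an_append]
      cases an l <;> cases an a <;> cases an r <;> simp

/-! ### Symmetries -/

theorem St.flip {k : Kind} {i : ℕ} {a b : List Bool} (h : St k i a b) : St (flipK k) i b a := by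
  cases h with
  | cup l r z => exact St.cap l r z
  | cap l r z => exact St.cup l r z
  | crs e l r x y => exact St.crs e l r y x

theorem flipK_flipK (k : Kind) : flipK (flipK k) = k := by cases k <;> rfl

theorem FC_flip : ∀ (t : Diag) (a b : List Bool) (f : Bool), FC t a b f → FC (flipD t) b a f := by
  intro t
  induction t with
  | nil =>
    rintro a b f ⟨rfl, rfl⟩
    exact ⟨rfl, rfl⟩
  | cons p t ih =>
    rintro a b f ⟨c, f', h1, h2, rfl⟩
    rw [flipD_cons, FC_append]
    have h3 := ih c b f' h2
    refine ⟨c, f', an c || an a, h3, ?_, ?_⟩
    · rw [FC_one]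
      exact ⟨h1.flip, rfl⟩
    · rw [← Bool.or_assoc, h3.an_right, Bool.or_comm]

theorem flipD_flipD (t : Diag) : flipD (flipD t) = t := by
  induction t with
  | nil => rfl
  | cons p t ih =>
    obtain ⟨k, i⟩ := p
    rw [flipD_cons, flipD_append, ih]
    simp only [flipD, List.map_cons, List.map_nil, List.reverse_cons, List.reverse_nil,
      List.nil_append, flipK_flipK, List.cons_append]

theorem St.rev {k : Kind} {i : ℕ} {a b : List Bool} (h : St k i a b) :
    St k (a.length - k.ins - i) a.reverse b.reverse := by
  cases h with
  | cup l r z =>
    have := St.cup r.reverse l.reverse z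
    have e : (l ++ r).length - Kind.cup.ins - l.length = r.reverse.length := by
      simp [Kind.ins]
    rw [e]
    simpa using this
  | cap l r z =>
    have := St.cap r.reverse l.reverse z
    have e : (l ++ z :: z :: r).length - Kind.cap.ins - l.length = r.reverse.length := by
      simp [Kind.ins]
      omega
    rw [e]
    simpa using this
  | crs e l r x y =>
    have := St.crs e r.reverse l.reverse y x
    have e : (l ++ x :: y :: r).length - (Kind.crs e).ins - l.length = r.reverse.length := by
      simp [Kind.ins]
      omega
    rw [e]
    simpa using this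

theorem FC_hD : ∀ (t : Diag) (a b : List Bool) (f : Bool), FC t a b f →
    FC (hD a.length t) a.reverse b.reverse f := by
  intro t
  induction t with
  | nil =>
    rintro a b f ⟨rfl, rfl⟩
    exact ⟨rfl, (an_reverse b).symm⟩
  | cons p t ih =>
    obtain ⟨k, i⟩ := p
    rintro a b f ⟨c, f', h1, h2, rfl⟩
    rw [hD]
    refine ⟨c.reverse, f', h1.rev, ?_, by rw [an_reverse]⟩
    rw [← h1.len.2]
    exact ih c b f' h2

theorem hD_hD : ∀ (t : Diag) {a b : ℕ}, cnt a t = some b → hD a (hD a t) = t := by
  intro t
  induction t with
  | nil => intro a b _; rfl
  | cons p t ih =>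
    obtain ⟨k, i⟩ := p
    intro a b h
    obtain ⟨h1, h2⟩ := cnt_cons_some h
    rw [hD, hD, ih h2]
    congr 2
    omega

/-! ### Parity and complement -/

theorem St.par {k : Kind} {i : ℕ} {a b : List Bool} (h : St k i a b) :
    Even (a.count true + b.count true) := by
  cases h with
  | cup l r z =>
    refine ⟨l.count true + r.count true + [z].count true, ?_⟩
    simp only [List.count_append, List.count_cons, List.count_nil]
    ring
  | cap l r z =>
    refine ⟨l.count true + r.count true + [z].count true, ?_⟩
    simp only [List.count_append, List.count_cons, List.count_nil]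
    ring
  | crs e l r x y =>
    refine ⟨l.count true + r.count true + [x].count true + [y].count true, ?_⟩
    simp only [List.count_append, List.count_cons, List.count_nil]
    ring

theorem FC.par : ∀ {t : Diag} {a b : List Bool} {f : Bool}, FC t a b f →
    Even (a.count true + b.count true) := by
  intro t
  induction t with
  | nil =>
    rintro a b f ⟨rfl, rfl⟩
    exact ⟨_, rfl⟩
  | cons p t ih =>
    rintro a b f ⟨c, f', h1, h2, rfl⟩
    have h3 := h1.par
    have h4 := ih h2
    rw [Nat.even_add] at h3 h4 ⊢
    exact h3.trans h4

theorem St.compl {k : Kind} {i : ℕ} {a b : List Bool} (h : St k i a b) :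
    St k i (a.map not) (b.map not) := by
  cases h with
  | cup l r z =>
    have := St.cup (l.map not) (r.map not) (!z)
    simpa using this
  | cap l r z =>
    have := St.cap (l.map not) (r.map not) (!z)
    simpa using this
  | crs e l r x y =>
    have := St.crs e (l.map not) (r.map not) (!x) (!y)
    simpa using this

theorem FC.compl : ∀ {t : Diag} {a b : List Bool} {f : Bool}, FC t a b f →
    ∃ f', FC t (a.map not) (b.map not) f' := by
  intro t
  induction t with
  | nil =>
    rintro a b f ⟨rfl, rfl⟩
    exact ⟨_, rfl, rfl⟩
  | cons p t ih =>
    rintro a b f ⟨c, f', h1, h2, rfl⟩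
    obtain ⟨f'', h3⟩ := ih h2
    exact ⟨_, _, f'', h1.compl, h3, rfl⟩

theorem FC_zero : ∀ (w : Diag) (n m : ℕ), cnt n w = some m →
    FC w (List.replicate n false) (List.replicate m false) false := by
  intro w
  induction w with
  | nil =>
    intro n m h
    simp only [Sliced.cnt, Option.some.injEq] at h
    subst h
    refine ⟨rfl, ?_⟩
    symm
    apply an_of
    intro x hx
    exact List.eq_of_mem_replicate hx
  | cons p w ih =>
    obtain ⟨k, i⟩ := p
    intro n m h
    obtain ⟨h1, h2⟩ := cnt_cons_some h
    refine ⟨_, false, ?_, ih _ _ h2, ?_⟩
    · cases k with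
      | cup =>
        simp only [Kind.ins, Kind.outs] at h1 ⊢
        have := St.cup (List.replicate i false) (List.replicate (n - i) false) false
        rw [List.length_replicate, ← List.replicate_add] at this
        have e : List.replicate i false ++ false :: false :: List.replicate (n - i) false =
            List.replicate (n - 0 + 2) false := by
          rw [← List.replicate_succ, ← List.replicate_succ, ← List.replicate_add]
          congr 1
          omega
        rw [e, show i + (n - i) = n by omega] at this
        exact this
      | cap =>
        simp only [Kind.ins, Kind.outs] at h1 ⊢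
        have := St.cap (List.replicate i false) (List.replicate (n - 2 - i) false) false
        rw [List.length_replicate, ← List.replicate_add] at this
        have e : List.replicate i false ++ false :: false :: List.replicate (n - 2 - i) false =
            List.replicate n false := by
          rw [← List.replicate_succ, ← List.replicate_succ, ← List.replicate_add]
          congr 1
          omega
        rw [e, show i + (n - 2 - i) = n - 2 + 0 by omega] at this
        exact this
      | crs e =>
        simp only [Kind.ins, Kind.outs] at h1 ⊢
        have := St.crs e (List.replicate i false) (List.replicate (n - 2 - i) false) false false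
        rw [List.length_replicate] at this
        have e : List.replicate i false ++ false :: false :: List.replicate (n - 2 - i) false =
            List.replicate n false := by
          rw [← List.replicate_succ, ← List.replicate_succ, ← List.replicate_add]
          congr 1
          omega
        rw [e, show n = n - 2 + 2 by omega] at this
        have e2 : n - 2 + 2 - 2 + 2 = n - 2 + 2 := by omega
        rw [show n = n - 2 + 2 by omega, e2]
        exact this
    · symm
      rw [Bool.or_false]
      apply an_of
      intro x hx
      exact List.eq_of_mem_replicate hx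

/-! ### Rotations of tangles with two strands -/

theorem klein {t : Diag} {a1 a2 b1 b2 c1 c2 d1 d2 f : Bool}
    (hs : (c1, c2, d1, d2) = (a2, a1, b2, b1) ∨ (c1, c2, d1, d2) = (b1, b2, a1, a2) ∨
      (c1, c2, d1, d2) = (b2, b1, a2, a1))
    (h : FC t [a1, a2] [b1, b2] f) : FC t [c1, c2] [d1, d2] f := by
  have hp := h.par
  obtain ⟨f', hc⟩ := h.compl
  have h1 := h.an_left
  have h2 := h.an_right
  have h3 := hc.an_left
  have h4 := hc.an_right
  rcases hs with hs | hs | hs <;> simp only [Prod.mk.injEq] at hs <;>
    obtain ⟨rfl, rfl, rfl, rfl⟩ := hs <;>
    cases c1 <;> cases c2 <;> cases d1 <;> cases d2 <;>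
    simp_all [an, Nat.even_iff]

theorem len2 {a : List Bool} (h : a.length = 2) : ∃ x y : Bool, a = [x, y] := by
  match a, h with
  | [x, y], _ => exact ⟨x, y, rfl⟩

theorem rot_iff {t t' : Diag} (h : Rot3 t t') (ht : cnt 2 t = some 2) {a b : List Bool} {f : Bool}
    (ha : a.length = 2) : FC t a b f ↔ FC t' a b f := by
  have hlen : ∀ u : Diag, cnt 2 u = some 2 → FC u a b f → b.length = 2 := by
    intro u hu hf
    have h1 := hf.cnt
    rw [ha, hu] at h1
    exact (Option.some.inj h1).symm
  obtain ⟨a1, a2, rfl⟩ := len2 ha
  have key : ∀ u : Diag, cnt 2 u = some 2 → FC u [a1, a2] b f → FC (hD 2 u) [a1, a2] b f := by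
    intro u hc hu
    obtain ⟨b1, b2, rfl⟩ := len2 (hlen u hc hu)
    have h1 := klein (c1 := a2) (c2 := a1) (d1 := b2) (d2 := b1) (Or.inl rfl) hu
    exact FC_hD _ _ _ _ h1
  have key2 : ∀ u : Diag, cnt 2 u = some 2 → FC u [a1, a2] b f → FC (flipD u) [a1, a2] b f := by
    intro u hc hu
    obtain ⟨b1, b2, rfl⟩ := len2 (hlen u hc hu)
    have h1 := klein (c1 := b1) (c2 := b2) (d1 := a1) (d2 := a2) (Or.inr (Or.inl rfl)) hu
    exact FC_flip _ _ _ _ h1
  cases h with
  | hd =>
    refine ⟨key t ht, fun h => ?_⟩
    have h1 := key _ (cnt_hD _ ht) h
    rwa [hD_hD t ht] at h1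
  | fl =>
    refine ⟨key2 t ht, fun h => ?_⟩
    have h1 := key2 _ (cnt_flip _ ht) h
    rwa [flipD_flipD] at h1
  | pd =>
    have h2 := pD_hD (hD 2 t) (a := 2) (by rw [cnt_hD _ ht]; simp)
    rw [hD_hD t ht] at h2
    rw [h2]
    refine ⟨fun h => key2 _ (cnt_hD _ ht) (key t ht h), fun h => ?_⟩
    have h1 := key2 _ (cnt_flip _ (cnt_hD _ ht)) h
    rw [flipD_flipD] at h1
    have h3 := key _ (cnt_hD _ ht) h1
    rwa [hD_hD t ht] at h3

/-! ### Long knots -/

/-- the labels of a state -/
def lbs (s : State) : List ℕ := (List.range s.1).map s.2.1

theorem lbs_length (s : State) : (lbs s).length = s.1 := by simp [lbs]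

theorem lbs_get (s : State) (j : ℕ) (h : j < (lbs s).length) : (lbs s)[j] = s.2.1 j := by
  simp [lbs]

/-- good states, with the label of the open component -/
structure Good (s : State) (x0 : ℕ) : Prop where
  v : ∀ x ∈ lbs s, x < s.2.2
  one : (lbs s).count x0 = 1
  two : ∀ x ∈ lbs s, x ≠ x0 → (lbs s).count x = 2

theorem lbs_cup {n : ℕ} {lab : ℕ → ℕ} {c : ℕ} {l r : List ℕ} (h : lbs (n, lab, c) = l ++ r) :
    lbs (n + 2, (fun j => if j < l.length then lab j else if j < l.length + 2 then c
      else lab (j - 2)), c + 1) = l ++ c :: c :: r := by
  have hn : n = l.length + r.length := by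
    rw [← List.length_append, ← h, lbs_length]
  have hg : ∀ (j : ℕ) (hj : j < (l ++ r).length), (l ++ r)[j] = lab j := by
    intro j hj
    simp only [← h]
    exact lbs_get _ _ _
  apply List.ext_getElem
  · rw [lbs_length]
    simp
    omega
  · intro j h1 h2
    rw [lbs_get]
    simp only [List.length_append, List.length_cons] at h2
    show (if j < l.length then lab j else if j < l.length + 2 then c else lab (j - 2)) = _
    rcases lt_trichotomy j l.length with h3 | h3 | h3
    · rw [if_pos h3, List.getElem_append_left h3, ← hg j (by simp; omega),
        List.getElem_append_left h3]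
    · subst h3
      simp
    · rw [if_neg (by omega), List.getElem_append_right (by omega)]
      obtain ⟨k, rfl⟩ : ∃ k, j = l.length + 1 + k := ⟨j - l.length - 1, by omega⟩
      cases k with
      | zero =>
        rw [if_pos (by omega)]
        have e : l.length + 1 + 0 - l.length = 1 := by omega
        simp [e]
      | succ k =>
        rw [if_neg (by omega)]
        have e : l.length + 1 + (k + 1) - l.length = k + 2 := by omega
        have e2 : l.length + 1 + (k + 1) - 2 = l.length + k := by omega
        simp only [e, e2, List.getElem_cons_succ]
        have h4 := hg (l.length + k) (by simp; omega)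
        rw [← h4, List.getElem_append_right (by omega)]
        simp

theorem lbs_cap {n : ℕ} {lab : ℕ → ℕ} {c : ℕ} {l r : List ℕ} {x y : ℕ}
    (h : lbs (n, lab, c) = l ++ x :: y :: r) :
    lab l.length = x ∧ lab (l.length + 1) = y ∧
    lbs (n - 2, (fun j => if lab (if j < l.length then j else j + 2) = y then x
          else lab (if j < l.length then j else j + 2)), c) =
      (l ++ r).map fun z => if z = y then x else z := by
  have hn : n = l.length + r.length + 2 := by
    have : n = (l ++ x :: y :: r).length := by
      rw [← h, lbs_length]
    rw [this]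
    simp
    omega
  have hg : ∀ (j : ℕ) (hj : j < (l ++ x :: y :: r).length), (l ++ x :: y :: r)[j] = lab j := by
    intro j hj
    simp only [← h]
    exact lbs_get _ _ _
  have hx := hg l.length (by simp)
  have hy := hg (l.length + 1) (by simp)
  refine ⟨?_, ?_, ?_⟩
  · rw [← hx]
    simp
  · rw [← hy]
    simp
  · apply List.ext_getElem
    · rw [lbs_length]
      simp
      omega
    · intro j h1 h2
      rw [lbs_get]
      simp only [List.length_append, List.length_map] at h1 h2
      rw [List.getElem_map]
      have key : lab (if j < l.length then j else j + 2) = (l ++ r)[j]'(by simpa using h2) := by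
        by_cases h3 : j < l.length
        · rw [if_pos h3, List.getElem_append_left h3, ← hg j (by simp; omega),
            List.getElem_append_left h3]
        · rw [if_neg h3, List.getElem_append_right (by omega)]
          obtain ⟨k, rfl⟩ : ∃ k, j = l.length + k := ⟨j - l.length, by omega⟩
          rw [← hg _ (by simp; omega), List.getElem_append_right (by omega)]
          have e : l.length + k + 2 - l.length = k + 2 := by omega
          simp [e]
      simp only [key]

theorem lbs_crs {n : ℕ} {lab : ℕ → ℕ} {c : ℕ} {l r : List ℕ} {x y : ℕ}
    (h : lbs (n, lab, c) = l ++ x :: y :: r) :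
    lbs (n, (fun j => lab (Equiv.swap l.length (l.length + 1) j)), c) = l ++ y :: x :: r := by
  have hn : n = l.length + r.length + 2 := by
    have : n = (l ++ x :: y :: r).length := by
      rw [← h, lbs_length]
    rw [this]
    simp
    omega
  have hg : ∀ (j : ℕ) (hj : j < (l ++ x :: y :: r).length), (l ++ x :: y :: r)[j] = lab j := by
    intro j hj
    simp only [← h]
    exact lbs_get _ _ _
  have hx := hg l.length (by simp)
  have hy := hg (l.length + 1) (by simp)
  apply List.ext_getElem
  · rw [lbs_length]
    simp
    omega
  · intro j h1 h2
    rw [lbs_get]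
    simp only [List.length_append, List.length_cons] at h2
    show lab (Equiv.swap l.length (l.length + 1) j) = _
    rcases lt_trichotomy j l.length with h3 | h3 | h3
    · rw [Equiv.swap_apply_of_ne_of_ne (by omega) (by omega), List.getElem_append_left h3,
        ← hg j (by simp; omega), List.getElem_append_left h3]
    · subst h3
      rw [Equiv.swap_apply_left, ← hy]
      simp
    · obtain ⟨k, rfl⟩ : ∃ k, j = l.length + 1 + k := ⟨j - l.length - 1, by omega⟩
      cases k with
      | zero =>
        simp only [add_zero, Equiv.swap_apply_right]
        rw [← hx]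
        simp
      | succ k =>
        rw [Equiv.swap_apply_of_ne_of_ne (by omega) (by omega), ← hg _ (by simp; omega),
          List.getElem_append_right (by omega), List.getElem_append_right (by omega)]
        have e : l.length + 1 + (k + 1) - l.length = k + 2 := by omega
        simp [e]

theorem St.cup_inv {i : ℕ} {l r c : List Bool} (hl : l.length = i) (h : St .cup i (l ++ r) c) :
    ∃ z, c = l ++ z :: z :: r := by
  generalize hA : l ++ r = A at h
  cases h with
  | cup l2 r2 z =>
    obtain ⟨rfl, rfl⟩ := List.append_inj hA hl
    exact ⟨z, rfl⟩

theorem St.cap_inv {i : ℕ} {l r c : List Bool} {x y : Bool} (hl : l.length = i)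
    (h : St .cap i (l ++ x :: y :: r) c) : x = y ∧ c = l ++ r := by
  generalize hA : l ++ x :: y :: r = A at h
  cases h with
  | cap l2 r2 z =>
    obtain ⟨rfl, h2⟩ := List.append_inj hA hl
    simp only [List.cons.injEq] at h2
    obtain ⟨rfl, rfl, rfl⟩ := h2
    exact ⟨rfl, rfl⟩

theorem St.crs_inv {i : ℕ} {e : Bool} {l r c : List Bool} {x y : Bool} (hl : l.length = i)
    (h : St (.crs e) i (l ++ x :: y :: r) c) : c = l ++ y :: x :: r := by
  generalize hA : l ++ x :: y :: r = A at h
  cases h with
  | crs e l2 r2 x' y' =>
    obtain ⟨rfl, h2⟩ := List.append_inj hA hl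
    simp only [List.cons.injEq] at h2
    obtain ⟨rfl, rfl, rfl⟩ := h2
    rfl

theorem an_map {L : List ℕ} {g : ℕ → Bool} (h : ∀ x ∈ L, g x = false) : an (L.map g) = false := by
  apply an_of
  intro z hz
  obtain ⟨x, hx, rfl⟩ := List.mem_map.1 hz
  exact h x hx

theorem an_map' {L : List ℕ} {g : ℕ → Bool} (h : an (L.map g) = false) : ∀ x ∈ L, g x = false :=
  fun _ hx => an_false h _ (List.mem_map_of_mem hx)

theorem an_of_FC {w : Diag} {a b : List Bool} (h : FC w a b false) : an a = false := by
  have := h.an_left
  simpa using this

/-- the unique step of a full colouring which is not zero -/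
theorem FC_cons_true {k : Kind} {i : ℕ} {w : Diag} {a b : List Bool}
    (h : FC ((k, i) :: w) a b true) (hz : ∀ c, St k i a c → an c = false → an a = false) :
    ∃ c, St k i a c ∧ FC w c b true := by
  obtain ⟨c, f', h1, h2, h3⟩ := h
  cases f' with
  | true => exact ⟨c, h1, h2⟩
  | false =>
    rw [hz c h1 (an_of_FC h2)] at h3
    exact absurd h3 (by simp)

theorem FC_cons_true' {k : Kind} {i : ℕ} {w : Diag} {a b c : List Bool} (h1 : St k i a c)
    (h : FC w c b true) : FC ((k, i) :: w) a b true :=
  ⟨c, true, h1, h, by simp⟩

theorem key : ∀ (w : Diag) (s : State) (x0 : ℕ), Good s x0 → cnt s.1 w = some 1 →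
    (run w s = none ↔
      ∃ g : ℕ → Bool, g x0 = false ∧ ∃ b, FC w ((lbs s).map g) b true) := by
  intro w
  induction w with
  | nil =>
    intro s x0 hs hc
    simp only [Sliced.cnt, Option.some.injEq] at hc
    constructor
    · intro h
      simp [run] at h
    · rintro ⟨g, hg, b, rfl, h⟩
      exfalso
      have h1 : (lbs s).length = 1 := by rw [lbs_length, hc]
      obtain ⟨x, hx⟩ := List.length_eq_one_iff.1 h1
      have h2 := hs.one
      rw [hx, List.count_singleton] at h2
      have h3 : x = x0 := by
        by_contra hne
        rw [if_neg (by simpa using hne)] at h2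
        omega
      rw [hx, h3] at h
      simp [an, hg] at h
  | cons p w ih =>
    obtain ⟨k, i⟩ := p
    intro s x0 hs hc
    obtain ⟨hk, hc2⟩ := cnt_cons_some hc
    obtain ⟨n, lab, c⟩ := s
    simp only at hk hc2
    cases k with
    | cup =>
      simp only [Kind.ins, Kind.outs] at hk hc2
      obtain ⟨l, r, hlr, rfl⟩ := split2 (lbs (n, lab, c)) i (by rw [lbs_length]; exact hk)
      have hL := lbs_cup hlr
      have hrun : run ((Kind.cup, l.length) :: w) (n, lab, c) = run w (n + 2, (fun j =>
          if j < l.length then lab j else if j < l.length + 2 then c else lab (j - 2)), c + 1) := by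
        simp only [run, step]
        rw [if_pos (show l.length ≤ n by omega)]
        rfl
      have hv := hs.v
      have h1 := hs.one
      have h2 := hs.two
      rw [hlr] at hv h1 h2
      have hx0 : x0 ∈ l ++ r := List.count_pos_iff.1 (by omega)
      have hc0 : x0 ≠ c := (hv _ hx0).ne
      have hc1 : c ∉ l ++ r := fun h => lt_irrefl c (hv _ h)
      rw [hrun, ih _ x0 ?_ hc2]
      · constructor
        · rintro ⟨g, hg, b, hb⟩
          refine ⟨g, hg, b, ?_⟩
          rw [hL] at hb
          refine FC_cons_true' ?_ hb
          rw [hlr]
          have := St.cup (l.map g) (r.map g) (g c)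
          simpa using this
        · rintro ⟨g, hg, b, hb⟩
          rw [hlr, List.map_append] at hb
          obtain ⟨c', h3, h4⟩ := FC_cons_true hb (by
            intro c' hc' hz
            obtain ⟨z, rfl⟩ := hc'.cup_inv (by simp)
            rw [an_append, an_cons, an_cons] at hz
            rw [an_append]
            cases hA : an (List.map g l) <;> cases hB : an (List.map g r) <;> simp_all)
          obtain ⟨z, rfl⟩ := h3.cup_inv (by simp)
          refine ⟨Function.update g c z, by rw [Function.update_of_ne hc0]; exact hg, b, ?_⟩
          rw [hL]
          have e : ∀ L : List ℕ, c ∉ L → L.map (Function.update g c z) = L.map g := by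
            intro L hcL
            apply List.map_congr_left
            intro x hx
            rw [Function.update_of_ne]
            rintro rfl
            exact hcL hx
          rw [List.map_append, List.map_cons, List.map_cons, Function.update_self,
            e l (fun h => hc1 (List.mem_append_left _ h)),
            e r (fun h => hc1 (List.mem_append_right _ h))]
          exact h4
      · constructor
        · rw [hL]
          intro x hx
          simp only [List.mem_append, List.mem_cons] at hx
          show x < c + 1
          rcases hx with hx | rfl | rfl | hx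
          · exact Nat.lt_succ_of_lt (hv _ (List.mem_append_left _ hx))
          · exact Nat.lt_succ_self _
          · exact Nat.lt_succ_self _
          · exact Nat.lt_succ_of_lt (hv _ (List.mem_append_right _ hx))
        · rw [hL, List.count_append, List.count_cons_of_ne hc0.symm, List.count_cons_of_ne hc0.symm,
            ← List.count_append]
          exact h1
        · rw [hL]
          intro x hx hne
          by_cases hxc : x = c
          · subst hxc
            have := List.count_eq_zero_of_not_mem hc1
            rw [List.count_append] at this
            simp only [List.count_append, List.count_cons_self]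
            omega
          · rw [List.count_append, List.count_cons_of_ne (Ne.symm hxc),
              List.count_cons_of_ne (Ne.symm hxc), ← List.count_append]
            apply h2 _ _ hne
            simp only [List.mem_append, List.mem_cons] at hx ⊢
            tauto
    | cap =>
      simp only [Kind.ins, Kind.outs] at hk hc2
      obtain ⟨l, x, y, r, hlr, rfl⟩ := split4 (lbs (n, lab, c)) i (by rw [lbs_length]; exact hk)
      obtain ⟨hx, hy, hL⟩ := lbs_cap hlr
      have hv := hs.v
      have h1 := hs.one
      have h2 := hs.two
      rw [hlr] at hv h1 h2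
      simp only [List.count_append, List.count_cons] at h1 h2
      by_cases hxy : x = y
      · subst hxy
        have hrun : run ((Kind.cap, l.length) :: w) (n, lab, c) = none := by
          simp only [run, step]
          rw [if_neg]
          · rfl
          · rintro ⟨-, h⟩
            exact h (by rw [hx, hy])
        have hne : x ≠ x0 := by
          rintro rfl
          simp at h1
          omega
        have h3 := h2 x (by simp) hne
        simp only [beq_self_eq_true, if_true] at h3
        have h4 : x ∉ l ++ r := by
          intro h
          have := List.count_pos_iff.2 h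
          rw [List.count_append] at this
          omega
        rw [hrun]
        simp only [true_iff]
        refine ⟨fun z => decide (z = x), by simpa using hne.symm, List.replicate 1 false,
          (l ++ r).map (fun z => decide (z = x)), false, ?_, ?_, ?_⟩
        · rw [hlr]
          have := St.cap (l.map (fun z => decide (z = x))) (r.map (fun z => decide (z = x))) true
          simpa using this
        · have e : (l ++ r).map (fun z => decide (z = x)) = List.replicate (n - 2 + 0) false := by
            rw [List.eq_replicate_iff]
            constructor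
            · have := congrArg List.length hlr
              rw [lbs_length] at this
              simp at this ⊢
              omega
            · intro z hz
              obtain ⟨u, hu, rfl⟩ := List.mem_map.1 hz
              simp only [decide_eq_false_iff_not]
              rintro rfl
              exact h4 hu
          rw [e]
          exact FC_zero _ _ _ hc2
        · rw [hlr]
          simp [an_append, an_cons]
      · have hrun : run ((Kind.cap, l.length) :: w) (n, lab, c) = run w (n - 2, (fun j =>
            if lab (if j < l.length then j else j + 2) = y then x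
            else lab (if j < l.length then j else j + 2)), c) := by
          simp only [run, step]
          rw [if_pos ⟨hk, by rw [hx, hy]; exact hxy⟩]
          simp only [Option.bind_some, hx, hy]
        set m : ℕ → ℕ := fun z => if z = y then x else z with hm
        have mx : m x = x := by simp [hm]
        have my : m y = x := by simp [hm]
        have mo : ∀ z, z ≠ y → m z = z := by
          intro z hz
          simp [hm, hz]
        have cy : ∀ L : List ℕ, (L.map m).count y = 0 := by
          intro L
          apply List.count_eq_zero_of_not_mem
          intro h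
          obtain ⟨z, -, hz⟩ := List.mem_map.1 h
          by_cases hzy : z = y
          · rw [hzy, my] at hz
            exact hxy hz
          · rw [mo z hzy] at hz
            exact hzy hz
        have co : ∀ (L : List ℕ) (z : ℕ), z ≠ x → z ≠ y → (L.map m).count z = L.count z := by
          intro L z hzx hzy
          induction L with
          | nil => rfl
          | cons u L ihL =>
            rw [List.map_cons, List.count_cons, List.count_cons, ihL]
            congr 1
            by_cases huy : u = y
            · rw [huy, my]
              simp [Ne.symm hzx, Ne.symm hzy]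
            · rw [mo u huy]
        have cx : ∀ (L : List ℕ), (L.map m).count x = L.count x + L.count y := by
          intro L
          induction L with
          | nil => rfl
          | cons u L ihL =>
            rw [List.map_cons, List.count_cons, List.count_cons, List.count_cons, ihL]
            by_cases huy : u = y
            · rw [huy, my]
              simp [Ne.symm hxy]
              omega
            · rw [mo u huy]
              simp [huy]
              omega
        have hgood : Good (n - 2, (fun j =>
            if lab (if j < l.length then j else j + 2) = y then x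
            else lab (if j < l.length then j else j + 2)), c) (m x0) := by
          constructor
          · rw [hL]
            intro z hz
            obtain ⟨u, hu, rfl⟩ := List.mem_map.1 hz
            show m u < c
            by_cases huy : u = y
            · rw [huy, my]
              exact hv x (by simp)
            · rw [mo u huy]
              apply hv
              simp only [List.mem_append, List.mem_cons] at hu ⊢
              tauto
          · rw [hL]
            by_cases h3 : x0 = y
            · subst h3
              rw [my, cx]
              have h4 := h2 x (by simp) hxy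
              simp only [List.count_append]
              simp [hxy, Ne.symm hxy] at h1 h4
              omega
            · rw [mo x0 h3]
              by_cases h5 : x0 = x
              · subst h5
                rw [cx]
                have h4 := h2 y (by simp) (Ne.symm hxy)
                simp only [List.count_append]
                simp [hxy, Ne.symm hxy] at h1 h4
                omega
              · rw [co _ _ h5 h3]
                simp only [List.count_append]
                simp [Ne.symm h3, Ne.symm h5] at h1
                omega
          · rw [hL]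
            intro z hz hne
            have hzy : z ≠ y := by
              rintro rfl
              exact List.count_eq_zero.1 (cy (l ++ r)) hz
            by_cases hzx : z = x
            · subst hzx
              have hx0x : z ≠ x0 := by
                rintro rfl
                exact hne mx.symm
              have hx0y : y ≠ x0 := by
                rintro rfl
                exact hne my.symm
              have h3 := h2 z (by simp) hx0x
              have h4 := h2 y (by simp) hx0y
              rw [cx]
              simp only [List.count_append]
              simp [hxy, Ne.symm hxy] at h3 h4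
              omega
            · rw [co _ _ hzx hzy]
              have hz' : z ∈ l ++ r := by
                rw [← List.count_pos_iff] at hz ⊢
                rwa [co _ _ hzx hzy] at hz
              have hzx0 : z ≠ x0 := by
                rintro rfl
                exact hne (mo z hzy).symm
              have h3 := h2 z (by
                simp only [List.mem_append, List.mem_cons] at hz' ⊢
                tauto) hzx0
              simp only [List.count_append]
              simp [Ne.symm hzx, Ne.symm hzy] at h3
              omega
        rw [hrun, ih _ (m x0) hgood hc2]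
        constructor
        · rintro ⟨g, hg, b, hb⟩
          refine ⟨fun z => g (m z), hg, b, ?_⟩
          rw [hL] at hb
          refine FC_cons_true' ?_ hb
          rw [hlr]
          have := St.cap (l.map (fun z => g (m z))) (r.map (fun z => g (m z))) (g x)
          simpa [mx, my, Function.comp_def] using this
        · rintro ⟨g, hg, b, hb⟩
          rw [hlr, List.map_append, List.map_cons, List.map_cons] at hb
          obtain ⟨c', h3, h4⟩ := FC_cons_true hb (by
            intro c' hc' hz
            obtain ⟨e1, rfl⟩ := hc'.cap_inv (by simp)
            have h5 : g x = false := by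
              by_cases h6 : x = x0
              · rw [h6, hg]
              by_cases h7 : y = x0
              · rw [e1, h7, hg]
              have h8 := h2 x (by simp) h6
              simp [Ne.symm hxy] at h8
              have h9 : x ∈ l ++ r := by
                rw [← List.count_pos_iff, List.count_append]
                omega
              rw [← List.map_append] at hz
              exact an_map' hz x h9
            rw [an_append, an_cons, an_cons, ← e1, h5, Bool.false_or, Bool.false_or, ← an_append]
            exact hz)
          obtain ⟨e1, rfl⟩ := h3.cap_inv (by simp)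
          have e2 : ∀ z, g (m z) = g z := by
            intro z
            by_cases hzy : z = y
            · rw [hzy, my, e1]
            · rw [mo z hzy]
          refine ⟨g, by rw [e2, hg], b, ?_⟩
          rw [hL]
          have e3 : ((l ++ r).map m).map g = l.map g ++ r.map g := by
            rw [List.map_map, ← List.map_append]
            apply List.map_congr_left
            intro z _
            exact e2 z
          rw [e3]
          exact h4
    | crs e =>
      simp only [Kind.ins, Kind.outs] at hk hc2
      obtain ⟨l, x, y, r, hlr, rfl⟩ := split4 (lbs (n, lab, c)) i (by rw [lbs_length]; exact hk)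
      have hL := lbs_crs hlr
      have hv := hs.v
      have h1 := hs.one
      have h2 := hs.two
      rw [hlr] at hv h1 h2
      have hrun : run ((Kind.crs e, l.length) :: w) (n, lab, c) = run w (n, (fun j =>
          lab (Equiv.swap l.length (l.length + 1) j)), c) := by
        simp only [run, step]
        rw [if_pos hk]
        rfl
      have hP : (l ++ y :: x :: r).Perm (l ++ x :: y :: r) :=
        List.Perm.append_left l (List.Perm.swap x y r)
      have hn : n - 2 + 2 = n := by omega
      rw [hn] at hc2
      rw [hrun, ih _ x0 ?_ hc2]
      · constructor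
        · rintro ⟨g, hg, b, hb⟩
          refine ⟨g, hg, b, ?_⟩
          rw [hL] at hb
          refine FC_cons_true' ?_ hb
          rw [hlr]
          have := St.crs e (l.map g) (r.map g) (g x) (g y)
          simpa using this
        · rintro ⟨g, hg, b, hb⟩
          rw [hlr, List.map_append, List.map_cons, List.map_cons] at hb
          obtain ⟨c', h3, h4⟩ := FC_cons_true hb (by
            intro c' hc' hz
            obtain rfl := hc'.crs_inv (by simp)
            rw [an_append, an_cons, an_cons] at hz ⊢
            cases hA : an (List.map g l) <;> cases hB : an (List.map g r) <;>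
              cases hC : g x <;> cases hD : g y <;> simp_all)
          obtain rfl := h3.crs_inv (by simp)
          refine ⟨g, hg, b, ?_⟩
          rw [hL, List.map_append, List.map_cons, List.map_cons]
          exact h4
      · constructor
        · rw [hL]
          intro z hz
          exact hv z (hP.mem_iff.1 hz)
        · rw [hL, hP.count_eq]
          exact h1
        · rw [hL]
          intro z hz hne
          rw [hP.count_eq]
          exact h2 z (hP.mem_iff.1 hz) hne

theorem long_iff (w : Diag) : IsLongKnot w ↔
    cnt 1 w = some 1 ∧ ∀ b f, FC w [false] b f → f = false := by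
  have hgood : Good (1, fun _ => 0, 1) 0 := by
    constructor
    · intro x hx
      simp [lbs] at hx
      simp [hx]
    · simp [lbs]
    · intro x hx hne
      simp [lbs] at hx
      exact absurd hx hne
  have hk := fun h => key w (1, fun _ => 0, 1) 0 hgood h
  have e : lbs (1, fun _ => 0, 1) = [0] := rfl
  rw [e] at hk
  constructor
  · rintro ⟨lab, c, h⟩
    have hc := run_cnt _ _ _ h
    refine ⟨hc, ?_⟩
    intro b f hf
    cases f with
    | false => rfl
    | true =>
      have := (hk hc).2 ⟨fun _ => false, rfl, b, hf⟩
      rw [h] at this
      exact absurd this (by simp)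
  · rintro ⟨hc, h⟩
    cases hr : run w (1, fun _ => 0, 1) with
    | none =>
      obtain ⟨g, hg, b, hb⟩ := (hk hc).1 hr
      rw [List.map_cons, hg, List.map_nil] at hb
      exact absurd (h _ _ hb) (by simp)
    | some t =>
      have h1 := run_cnt _ _ _ hr
      obtain ⟨n, lab, c⟩ := t
      simp only at h1
      rw [hc] at h1
      have h2 : n = 1 := (Option.some.inj h1).symm
      subst h2
      exact ⟨lab, c, hr⟩

theorem mid_iff {t t' : Diag} (h : Rot3 t t') (ht : cnt 2 t = some 2) {a b : List Bool} {f : Bool}
    {i : ℕ} (ha : i + 2 ≤ a.length) : FC (sh i t) a b f ↔ FC (sh i t') a b f := by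
  obtain ⟨l, x, y, r, rfl, rfl⟩ := split4 a i ha
  have e : l ++ x :: y :: r = l ++ [x, y] ++ r := by simp
  rw [e, FC_sh t l [x, y] r b 2 f ht, FC_sh t' l [x, y] r b 2 f (Muc.cnt_rot3 h ht)]
  constructor
  · rintro ⟨b', f', h1, h2, h3⟩
    exact ⟨b', f', h1, (rot_iff h ht rfl).1 h2, h3⟩
  · rintro ⟨b', f', h1, h2, h3⟩
    exact ⟨b', f', h1, (rot_iff h ht rfl).2 h2, h3⟩

theorem mut_iff {u t t' v : Diag} {i m : ℕ} (hu : cnt 1 u = some m) (hi : i + 2 ≤ m)
    (ht : cnt 2 t = some 2) (h : Rot3 t t') {b : List Bool} {f : Bool} :
    FC (u ++ sh i t ++ v) [false] b f ↔ FC (u ++ sh i t' ++ v) [false] b f := by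
  have key1 : ∀ (c : List Bool) (f1 : Bool), FC (u ++ sh i t) [false] c f1 ↔
      FC (u ++ sh i t') [false] c f1 := by
    intro c f1
    rw [FC_append, FC_append]
    have hlen : ∀ (d : List Bool) (f2 : Bool), FC u [false] d f2 → i + 2 ≤ d.length := by
      intro d f2 hd
      have h1 := hd.cnt
      rw [List.length_singleton, hu] at h1
      rw [← Option.some.inj h1]
      exact hi
    constructor
    · rintro ⟨d, f2, f3, h1, h2, h3⟩
      exact ⟨d, f2, f3, h1, (mid_iff h ht (hlen _ _ h1)).1 h2, h3⟩
    · rintro ⟨d, f2, f3, h1, h2, h3⟩
      exact ⟨d, f2, f3, h1, (mid_iff h ht (hlen _ _ h1)).2 h2, h3⟩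
  rw [FC_append, FC_append]
  simp only [key1]

end Mlk

open Mlk in
/-- MLK: mutations and moves preserve long knots. -/
theorem t_MLK : MLK_Stmt := by
  intro x y h
  refine Mu.rec (motive := fun x y _ => (IsLongKnot x ↔ IsLongKnot y)) ?_ ?_ ?_ ?_ h
  · intro x y h
    exact ⟨h.isLongKnot, h.symm.isLongKnot⟩
  · intro u t t' v i m k hu hi ht hr hv
    rw [long_iff, long_iff]
    have h1 := Muc.cnt_eq (Mu.mut u t t' v i m k hu hi ht hr hv)
    rw [h1]
    simp only [mut_iff hu hi ht hr]
  · intro x y _ ih
    exact ih.symm
  · intro x y z _ _ ih1 ih2
    exact ih1.trans ih2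

end Pool.Agent.TZ
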