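import Pool.Agent.TZ.StS
import Pool.Agent.TZ.Muc

/-!
Theorem Z for connected sums (MP_31fd3b_gt), module MSM: mutations of connected sums (helper40).
-/

set_option autoImplicit false

open scoped BigOperators

namespace Pool.Agent.TZ

open Pool.Agent.LibH11 Pool.Agent.LibH11.Sliced Pool.Agent.MTR Pool.Agent.MTA Pool.Agent.UA
open Pool.Agent.UB Pool.Agent.TwoBr Pool.Agent.Mont Pool.Agent.TV Pool.Agent.TW
open Pool.Agent.TB hiding vec

namespace Msm

theorem cls_append (l l' : List Tr) : cls (l ++ l') = cls l ++ cls l' := by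
  simp [cls]

theorem cls_cons (T : Tr) (l : List Tr) : cls (T :: l) = cl T.dg ++ cls l := by
  simp [cls]

/-- composition of diagrams with one strand -/
theorem comp1 {x x' y y' : Diag} (h1 : Mu 1 x x') (h2 : Mu 1 y y') (hx : cnt 1 x = some 1)
    (hy : cnt 1 y = some 1) : Mu 1 (x ++ y) (x' ++ y') := by
  have hx' : cnt 1 x' = some 1 := (Muc.cnt_eq h1).symm.trans hx
  refine (Muc.right h1 y ?_).trans (Muc.left x' hx' h2)
  rw [cnt_app hx, hy]
  simp

end Msm

open Msm in
theorem t_MSM (_h1 : MUC_Stmt) (h2 : Pool.Agent.TX.PCX_Stmt) (h3 : FCG_Stmt) : MSM_Stmt := by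
  obtain ⟨-, -, -, hcl, hdg, hcls, -⟩ := h3
  intro Gs Hs Gs' Us Us' hF hP hU
  have hc : ∀ T : Tr, cnt 1 (cl T.dg) = some 1 := fun T => (hcl T.dg (hdg T)).2
  have hG : Mu 1 (cls Gs) (cls Hs) := by
    clear hP
    induction hF with
    | nil => exact .eqd (EqD.refl _)
    | cons h _ ih =>
      rw [cls_cons, cls_cons]
      exact comp1 h ih (hc _) (hcls _)
  have hH : Mu 1 (cls Hs) (cls Gs') := .eqd (h2.1 _ _ hP)
  rw [cls_append, cls_append]
  exact comp1 (hG.trans hH) (.eqd hU) (hcls _) (hcls _)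

end Pool.Agent.TZ
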