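import Pool.Agent.TZ.StS

/-!
PML: a matching of two lists.
-/

open scoped BigOperators

namespace Pool.Agent.TZ

theorem t_PML : PML_Stmt := by
  classical
  intro α β f R l
  induction l with
  | nil =>
    intro l' hne _ hsum _
    cases l' with
    | nil => exact ⟨[], List.Perm.refl _, List.Forall₂.nil⟩
    | cons y t =>
      exfalso
      have hy := hne y (by simp)
      obtain ⟨a, ha⟩ := Multiset.exists_mem_of_ne_zero hy
      have h0 : a ∈ (((y :: t).map f).sum) := by
        rw [List.map_cons, List.sum_cons]
        exact Multiset.mem_add.mpr (Or.inl ha)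
      rw [← hsum, List.map_nil, List.sum_nil] at h0
      exact Multiset.notMem_zero _ h0
  | cons x l0 ih =>
    intro l' hne hnd hsum H
    obtain ⟨y, hy, hfy, hR⟩ := H x (by simp)
    obtain ⟨s, t, rfl⟩ := List.append_of_mem hy
    have hp : (s ++ y :: t).Perm (y :: (s ++ t)) := List.perm_middle
    have hs1 : ((s ++ y :: t).map f).sum = f y + ((s ++ t).map f).sum := by
      rw [(hp.map f).sum_eq, List.map_cons, List.sum_cons]
    rw [List.map_cons, List.sum_cons] at hnd
    have hcanc : (l0.map f).sum = ((s ++ t).map f).sum := by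
      have h2 : f x + (l0.map f).sum = f x + ((s ++ t).map f).sum := by
        rw [← List.sum_cons, ← List.map_cons, hsum, hs1, hfy]
      exact add_left_cancel h2
    obtain ⟨hn1, hn2, hdis⟩ := Multiset.nodup_add.mp hnd
    have hmem : ∀ z ∈ l0, ∀ a ∈ f z, a ∈ (l0.map f).sum := by
      intro z hz a ha
      obtain ⟨u, v, rfl⟩ := List.append_of_mem hz
      have hp2 : (u ++ z :: v).Perm (z :: (u ++ v)) := List.perm_middle
      rw [(hp2.map f).sum_eq, List.map_cons, List.sum_cons]
      exact Multiset.mem_add.mpr (Or.inl ha)
    obtain ⟨l2, hl2, hF⟩ := ih (s ++ t) (by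
        intro z hz
        apply hne
        simp only [List.mem_append, List.mem_cons] at hz ⊢
        tauto) hn2 hcanc (by
        intro z hz
        obtain ⟨w, hw, hfw, hRw⟩ := H z (by simp [hz])
        refine ⟨w, ?_, hfw, hRw⟩
        simp only [List.mem_append, List.mem_cons] at hw ⊢
        rcases hw with hw | hw | hw
        · exact Or.inl hw
        · exfalso
          subst hw
          have hx0 : f x ≠ 0 := hne x (by simp)
          obtain ⟨a, ha⟩ := Multiset.exists_mem_of_ne_zero hx0
          have ha2 : a ∈ f z := by rw [hfw, ← hfy]; exact ha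
          exact Multiset.disjoint_left.mp hdis ha (hmem z hz a ha2)
        · exact Or.inr hw)
    exact ⟨y :: l2, (hl2.cons y).trans hp.symm, List.Forall₂.cons hR hF⟩

end Pool.Agent.TZ
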