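import Pool.Agent.TZ.StS
import Pool.Agent.TZ.Tab

/-!
Theorem Z for connected sums (MP_31fd3b_gt), module TABL: first order data determine the vertices of
lists of generic trees.
-/

open scoped BigOperators

namespace Pool.Agent.TZ

open Pool.Agent.LibH11.Sliced Pool.Agent.MTR Pool.Agent.MTA Pool.Agent.UA Pool.Agent.UB
open Pool.Agent.TwoBr Pool.Agent.Mont Pool.Agent.TV Pool.Agent.TW
open Pool.Agent.TB hiding vec

namespace Tabl

theorem mem_sum {X : Type} (f : Tr → Multiset X) (l : List Tr) (x : X) (h : x ∈ (l.map f).sum) :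
    ∃ t ∈ l, x ∈ f t := by
  induction l with
  | nil => simp at h
  | cons a l ih =>
    rw [List.map_cons, List.sum_cons, Multiset.mem_add] at h
    rcases h with h | h
    · exact ⟨a, List.mem_cons_self, h⟩
    · obtain ⟨t, ht, hx⟩ := ih h
      exact ⟨t, List.mem_cons_of_mem _ ht, hx⟩

theorem vs_eq (Gs : List Tr) : VS0 Gs = (V0 Gs).map fun x => (slp x.1, x.2) := by
  induction Gs with
  | nil => simp [VS0, V0]
  | cons a l ih =>
    unfold VS0 V0 at ih ⊢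
    rw [List.map_cons, List.sum_cons, List.map_cons, List.sum_cons, Multiset.map_add, ih]
    rfl

theorem nodup {Gs Us : List Tr} (h : NdS Gs Us) : (VS0 Gs).Nodup := by
  have h0 := h.dif
  have h1 : ((V0 Gs).map fun x => slp x.1) = (VS0 Gs).map Prod.fst := by
    rw [vs_eq, Multiset.map_map]
    rfl
  rw [h1] at h0
  exact h0.of_map

theorem half (hVTB : VTB_Stmt) (hNDN : NDN_Stmt) {D : ℤ} {Gs Us Gs' Us' : List Tr} (hD : D ≠ 0)
    (hT : NdS Gs Us) (hT' : NdS Gs' Us') (hd : ∀ t ∈ Gs, (vec t).1 ∣ D)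
    (hd' : ∀ t ∈ Gs', (vec t).1 ∣ D)
    (hsum : ∀ (K : ℤ) (φ : ℚ → ℂ), K ≠ 0 → Per1 φ →
      ((V0 Gs).map fun x => if Kt D x.1 = K then alN φ (slp x.1) x.2 else 0).sum =
        ((V0 Gs').map fun x => if Kt D x.1 = K then alN φ (slp x.1) x.2 else 0).sum) :
    ∀ z ∈ VS0 Gs, z ∈ VS0 Gs' := by
  intro z hz
  rw [vs_eq] at hz
  obtain ⟨x, hx, rfl⟩ := Multiset.mem_map.1 hz
  -- facts on the vertices
  have vtb : ∀ {Us Vs : List Tr}, NdS Us Vs → ∀ y ∈ V0 Us, ∃ U ∈ Us, y.1.1 = (vec U).1 ∧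
      3 ≤ y.2.card ∧ (∀ b ∈ y.2, Int.fract b = b) ∧ ∃ n : ℤ, y.2.sum - slp y.1 = n := by
    intro Us Vs hU y hy
    obtain ⟨U, hUm, hyU⟩ := mem_sum vt0 Us y hy
    obtain ⟨h1, h2, h3, h4⟩ := hVTB U (hU.root U hUm) y hyU
    exact ⟨U, hUm, h1, h2, h3, h4 (hU.wt y hy)⟩
  have fact : ∀ {Us Vs : List Tr}, NdS Us Vs → (∀ t ∈ Us, (vec t).1 ∣ D) → ∀ y ∈ V0 Us,
      Kt D y.1 ≠ 0 ∧ (D : ℚ) / Kt D y.1 = slp y.1 := by
    intro Us Vs hU hdU y hy
    obtain ⟨U, hUm, h1, -, -, -⟩ := vtb hU y hy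
    have h2 := hU.wt y hy
    have h3 : y.1.1 ∣ D := by rw [h1]; exact hdU U hUm
    have h4 : Kt D y.1 ≠ 0 := by
      obtain ⟨q, hq⟩ := h3
      have h0 : y.1.1 ≠ 0 := by
        rintro h0
        exact hD (by rw [hq, h0, zero_mul])
      have h5 : D / y.1.1 = q := by
        rw [hq]
        exact Int.mul_ediv_cancel_left q h0
      unfold Kt
      rw [h5]
      refine mul_ne_zero ?_ h2
      rintro rfl
      exact hD (by rw [hq, mul_zero])
    exact ⟨h4, Cln.D_div hD h3 h4 rfl⟩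
  obtain ⟨K, hK⟩ : ∃ K, K = Kt D x.1 := ⟨_, rfl⟩
  have hx1 := fact hT hd x hx
  rw [← hK] at hx1
  -- the class sums
  have hcl : ∀ {Us Vs : List Tr}, NdS Us Vs → (∀ t ∈ Us, (vec t).1 ∣ D) → ∀ y ∈ V0 Us,
      Kt D y.1 = K → ∀ φ : ℚ → ℂ,
      ((V0 Us).map fun x => if Kt D x.1 = K then alN φ (slp x.1) x.2 else 0).sum =
        alN φ (slp y.1) y.2 := by
    intro Us Vs hU hdU y hy hyK φ
    refine Tab.sum_one (V0 Us) (fun x => slp x.1) (fun x => alN φ (slp x.1) x.2)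
      (fun x => Kt D x.1 = K) hU.dif hy hyK ?_
    intro w hw hwK
    have h1 := (fact hU hdU w hw).2
    have h2 := (fact hU hdU y hy).2
    rw [hwK] at h1
    rw [hyK] at h2
    change slp w.1 = slp y.1
    rw [← h1, ← h2]
  have heq : ∀ φ : ℚ → ℂ, Per1 φ →
      ((V0 Gs').map fun x => if Kt D x.1 = K then alN φ (slp x.1) x.2 else 0).sum =
        alN φ (slp x.1) x.2 := by
    intro φ hφ
    rw [← hsum K φ hx1.1 hφ, hcl hT hd x hx hK.symm φ]
  obtain ⟨-, -, -, hb1, hb2, hb3⟩ := vtb hT x hx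
  obtain ⟨⟨φ, hφ, hne⟩, huniq⟩ := hNDN (slp x.1) x.2 hb1 hb2 (hT.nz x hx) (hT.ndg x hx) hb3
  -- the vertex of the other list
  obtain ⟨x', hx', hxK⟩ : ∃ x' ∈ V0 Gs', Kt D x'.1 = K := by
    by_contra hcon
    push Not at hcon
    apply hne
    rw [← heq φ hφ]
    exact Tab.sum_zero (V0 Gs') (fun x => alN φ (slp x.1) x.2) (fun x => Kt D x.1 = K) hcon
  have hs : slp x'.1 = slp x.1 := by
    have h1 := (fact hT' hd' x' hx').2
    rw [hxK] at h1
    rw [← h1, hx1.2]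
  obtain ⟨-, -, -, hc1, hc2, hc3⟩ := vtb hT' x' hx'
  have h2 : x.2 = x'.2 := by
    refine huniq x'.2 hc1 hc2 (hT'.nz x' hx') ?_ ?_ ?_
    · rw [← hs]
      exact hT'.ndg x' hx'
    · rw [← hs]
      exact hc3
    · intro ψ hψ
      rw [← heq ψ hψ, hcl hT' hd' x' hx' hxK ψ, hs]
  rw [vs_eq, h2, ← hs]
  exact Multiset.mem_map_of_mem (fun x : (ℤ × ℤ) × Multiset ℚ => (slp x.1, x.2)) hx'

end Tabl

theorem t_TABL (h1 : VTB_Stmt) (h2 : NDN_Stmt) : TABL_Stmt := by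
  intro D Gs Us Gs' Us' hD hT hT' hd hsum
  have hd1 : ∀ t ∈ Gs, (vec t).1 ∣ D := fun t ht => hd t (List.mem_append_left _ ht)
  have hd2 : ∀ t ∈ Gs', (vec t).1 ∣ D := fun t ht => hd t (List.mem_append_right _ ht)
  refine (Multiset.Nodup.ext (Tabl.nodup hT) (Tabl.nodup hT')).2 fun z => ⟨?_, ?_⟩
  · exact Tabl.half h1 h2 hD hT hT' hd1 hd2 hsum z
  · exact Tabl.half h1 h2 hD hT' hT hd2 hd1
      (fun K φ hK hφ => (hsum K φ hK hφ).symm) z

end Pool.Agent.TZ
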