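import Pool.Agent.TZ.StS
import Pool.Agent.TX.AsmY

/-!
Theorem Z for connected sums (MP_31fd3b_gt), module TWB: the 2-bridge summands.
-/

set_option autoImplicit false

open scoped BigOperators

namespace Pool.Agent.TZ

open Pool.Agent.LibH11.Sliced Pool.Agent.MTR Pool.Agent.MTA Pool.Agent.UA Pool.Agent.UB
open Pool.Agent.TwoBr Pool.Agent.Mont Pool.Agent.TV Pool.Agent.TW
open Pool.Agent.TB hiding vec

namespace Twb

theorem long_pw (h3 : FIT_Stmt) : IsLongKnot (cl (Tr.pw 1).dg) :=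
  ((h3.2.2.1 1 (by norm_num)).2).symm.isLongKnot AsmB.long_nil

/-- the hypotheses of `CMB` -/
theorem ok (h3 : FIT_Stmt) {Us : List Tr} {a : ℕ}
    (hU : ∀ U ∈ Us, U.Rat ∧ IsLongKnot (cl U.dg)) :
    ∀ x ∈ Us ++ List.replicate a (Tr.pw 1), T2 x ∧ IsLongKnot (cl x.dg) := by
  intro x hx
  rcases List.mem_append.1 hx with hx | hx
  · exact ⟨AsmA.T2_of_rat (hU x hx).1, (hU x hx).2⟩
  · rw [(List.mem_replicate.1 hx).2]
    exact ⟨AsmA.T2_of_rat (show (Tr.pw 1).Rat from trivial), long_pw h3⟩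

end Twb

open Twb in
theorem t_TWB (h1 : SYF_Stmt) (h2 : CMB_Stmt) (h3 : FIT_Stmt) (h4 : FCG_Stmt) : TWB_Stmt := by
  intro D Us Us' a b hD hU hF
  obtain ⟨xs, -, x1, x2⟩ := h2 (Us ++ List.replicate a (Tr.pw 1))
    (Us' ++ List.replicate b (Tr.pw 1)) (by
      intro x hx
      rcases List.mem_append.1 hx with hx | hx
      · exact ok h3 (fun U h => hU U (List.mem_append_left _ h)) x hx
      · exact ok h3 (fun U h => hU U (List.mem_append_right _ h)) x hx)
    (fun w => hF (FF w) (h1.1 w D hD))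
  exact (AsmT.pad h4 h3 Us a).symm.trans (x1.trans (x2.symm.trans (AsmT.pad h4 h3 Us' b)))

end Pool.Agent.TZ
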