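import Pool.Agent.TZ.StS
import Pool.Agent.TZ.Spn

/-!
Theorem Z for connected sums (MP_31fd3b_gt), VDE: compatible trees have the same vertices.
-/

open scoped BigOperators

namespace Pool.Agent.TZ

open Pool.Agent.LibH11.Sliced Pool.Agent.MTR Pool.Agent.MTA Pool.Agent.UA Pool.Agent.UB
open Pool.Agent.TwoBr Pool.Agent.Mont Pool.Agent.TV Pool.Agent.TW
open Pool.Agent.TB hiding vec

namespace Vde

open Spn

/-- the induction hypothesis -/
def IH (n : ℕ) : Prop :=
  ∀ (c c' : Tr) (P P' : ℤ × ℤ), c.size < n → Good c P → Good c' P' → slp P = slp P' →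
    slp (vec c) = slp (vec c') → cf c = cf c' → Cmp c c' P P' → vd c P = vd c' P'

theorem vd_cons (h1 : VST_Stmt) (a b : Tr) (L : ℤ × ℤ) :
    vd (.cons a b) L =
      (vt a {Int.fract (slp (rv (addv L (vec b))))} (decide (2 ≤ a.kids))
        (rv (addv L (vec b)))).map (fun x => (slp x.1, x.2)) +
        vd b (addv L (rv (vec a))) := by
  unfold vd
  rw [vt_cons, Multiset.map_add, (h1.1 b _ _).2]

/-- the step: the first children correspond and have the same slope -/
theorem step (h1 : VST_Stmt) (h2 : CHN_Stmt) (h4 : SHF_Stmt)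
    (a b1 a2 b2 : Tr) (L L' : ℤ × ℤ) (ih : IH (Tr.cons a b1).size)
    (g : Good (.cons a b1) L) (g' : Good (.cons a2 b2) L') (hL : slp L = slp L')
    (hv : slp (vec (.cons a b1)) = slp (vec (.cons a2 b2)))
    (hcf : cf (.cons a b1) = cf (.cons a2 b2)) (hC : Cmp (.cons a b1) (.cons a2 b2) L L')
    (ha : slp (rv (vec a)) = slp (rv (vec a2))) :
    vd (.cons a b1) L = vd (.cons a2 b2) L' := by
  obtain ⟨hA, gr⟩ := good_right h1 g
  obtain ⟨hA', gr'⟩ := good_right h1 g'
  have hrv : (rv (vec a)).2 ≠ 0 := hA
  have hrv' : (rv (vec a2)).2 ≠ 0 := hA'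
  have e1 : slp (vec b1) = slp (vec b2) := by
    rw [vec_cons, vec_cons, slp_add hrv gr.v, slp_add hrv' gr'.v, ha] at hv
    linarith
  have e2 : slp (addv L (vec (.cons a b1))) = slp (addv L' (vec (.cons a2 b2))) := by
    rw [slp_add g.l g.v, slp_add g'.l g'.v, hL, hv]
  have hcf' : cf b1 = cf b2 := by
    rw [cf_cons, cf_cons, ha] at hcf
    exact (Multiset.cons_inj_right _).1 hcf
  rw [vd_cons h1, vd_cons h1]
  refine congrArg₂ (· + ·) ?_ ?_
  · -- the first child
    by_cases hr : a.Rat
    · -- rational children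
      have hr' : a2.Rat := by
        by_contra hn
        obtain ⟨es2, X2, hX2, hk2, -⟩ := h2.2.2.1 a2 hn
        have h11 := (good_left h1 h2 g' hX2 hk2).2.2.2.2.2
        refine hC.rat' _ _ h11 ?_
        rw [← e2, ← ha]
        exact rb_left h2 hr
      have z1 := h2.2.1 a (rv (addv L (vec b1))) {Int.fract (slp (rv (addv L (vec b1))))} hr
      have z2 := h2.2.1 a2 (rv (addv L' (vec b2))) {Int.fract (slp (rv (addv L' (vec b2))))} hr'
      rw [z1.1, z2.1, z1.2.1, z2.2.1]
    · have hr' : ¬ a2.Rat := by
        intro hr2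
        obtain ⟨es, X, hX, hk, -⟩ := h2.2.2.1 a hr
        have h11 := (good_left h1 h2 g hX hk).2.2.2.2.2
        refine hC.rat _ _ h11 ?_
        rw [e2, ha]
        exact rb_left h2 hr2
      obtain ⟨es, X, hX, hk, hs⟩ := h2.2.2.1 a hr
      obtain ⟨es2, X2, hX2, hk2, hs2⟩ := h2.2.2.1 a2 hr'
      obtain ⟨gX, q1, q2, q3, q4, q5⟩ := good_left h1 h2 g hX hk
      obtain ⟨gX2, r1, r2, r3, r4, r5⟩ := good_left h1 h2 g' hX2 hk2
      set C := rv (addv L (vec b1)) with hCdef
      set C2 := rv (addv L' (vec b2)) with hC2def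
      set P := lch es C with hP
      set P2 := lch es2 C2 with hP2
      rw [e2, ha] at q5
      have hq := hC.mate _ _ _ q5 r5
      rw [Prod.mk.injEq] at hq
      obtain ⟨hq1, hq2⟩ := hq
      obtain ⟨n, hn⟩ := Int.fract_eq_fract.1 hq2.symm
      -- the shifted tree
      obtain ⟨s1, s2, s3, s4, -⟩ := h4
      set X3 := X2.shift (-n) with hX3
      set P3 := addv P2 (-n, 1) with hP3
      have hsh : X3.shift n = X2 := by
        rw [hX3, s2, neg_add_cancel, s3]
      have hback : addv P3 (n, 1) = P2 := by
        rw [hP3]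
        exact ad_ad P2 n
      have hslP : slp P3 = slp P := by
        rw [hP3, show ((-n, 1) : ℤ × ℤ) = (-n, 1) from rfl, slp_ad gX2.l]
        push_cast
        linarith
      obtain ⟨t1, t2, t3, t4⟩ := s1 X2 (-n)
      rw [← hX3] at t1 t2 t3 t4
      rw [neg_neg] at t1
      have hvX3 : (vec X3).2 ≠ 0 := by
        rw [t1, addv_snd, mul_one]
        exact gX2.v
      have hslV : slp (vec X3) = slp (vec X) := by
        rw [t1, slp_ad gX2.v]
        have u1 := slp_add gX.l gX.v
        have u2 := slp_add gX2.l gX2.v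
        linarith
      have hdat : ∀ (acc : Multiset ℚ) (f : Bool), vt X3 acc f P3 = vt X2 acc f P2 ∧
          eg X3 f P3 = eg X2 f P2 ∧ rb X3 f P3 = rb X2 f P2 := by
        intro acc f
        have := s4 X2 (-n) acc f P3
        rw [← hX3, neg_neg, hback] at this
        exact this
      have gX3 : Good X3 P3 := by
        refine ⟨?_, hvX3, ?_, ?_⟩
        · rw [hP3, addv_snd, mul_one]
          exact gX2.l
        · have h11 := gX2.d
          rw [t1, hP3]
          have h12 : dt (addv P2 (-n, 1)) (addv (vec X2) (n, 1)) = dt P2 (vec X2) := by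
            simp only [dt, addv]
            ring
          rw [h12]
          exact h11
        · rw [(hdat 0 false).1]
          exact gX2.w
      have hcfX : cf X = cf X3 := by
        rw [t4]
        have h11 := hC.vert _ _ _ q1 (by rw [hq1]; exact r1)
        rw [hq2] at h11
        exact (Multiset.cons_inj_right _).1 h11
      have hCX : Cmp X X3 P P3 := by
        constructor
        · intro p q q' hp hp'
          rw [(hdat 0 true).2.1] at hp'
          exact hC.mate p q q' (q3 _ hp) (r3 _ hp')
        · intro p q hp hp'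
          rw [(hdat 0 true).2.2] at hp'
          exact hC.rat p q (q3 _ hp) (r4 _ hp')
        · intro p q hp hp'
          rw [(hdat 0 true).2.1] at hp
          exact hC.rat' p q (r3 _ hp) (q4 _ hp')
        · intro σ bs bs' hb hb'
          refine hC.vert σ bs bs' (q2 _ hb) (r2 _ ?_)
          unfold vd at hb' ⊢
          rw [(hdat 0 false).1] at hb'
          exact hb'
      have m1 : vd X P = vd X3 P3 := by
        refine ih X X3 P P3 ?_ gX gX3 hslP.symm hslV.symm hcfX hCX
        have : (Tr.cons a b1).size = a.size + 2 + b1.size := rfl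
        omega
      have m2 : vd X3 P3 = vd X2 P2 := by
        unfold vd
        rw [(hdat 0 false).1]
      have z1 := (h2.2.2.2.1 es X C hk).1
      have z2 := (h2.2.2.2.1 es2 X2 C2 hk2).1
      rw [hX, hX2, z1, z2, (h1.1 X _ _).1, (h1.1 X2 _ _).1, Multiset.map_cons, Multiset.map_cons]
      have z3 : (slp (addv P (vec X)), {Int.fract (slp P)} + cf X) =
          (slp (addv P2 (vec X2)), {Int.fract (slp P2)} + cf X2) := by
        rw [Prod.mk.injEq]
        refine ⟨hq1, ?_⟩
        have h11 := hC.vert _ _ _ q1 (by rw [hq1]; exact r1)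
        rw [Multiset.singleton_add, Multiset.singleton_add]
        exact h11
      exact congrArg₂ Multiset.cons z3 (m1.trans m2)
  · -- the rest
    refine ih b1 b2 _ _ ?_ gr gr' ?_ e1 hcf' ?_
    · have : (Tr.cons a b1).size = a.size + 2 + b1.size := rfl
      omega
    · rw [slp_add g.l hrv, slp_add g'.l hrv', hL, ha]
    · constructor
      · intro p q q' hp hp'
        exact hC.mate p q q' (by rw [eg_cons]; exact Multiset.mem_add.2 (Or.inr hp))
          (by rw [eg_cons]; exact Multiset.mem_add.2 (Or.inr hp'))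
      · intro p q hp hp'
        exact hC.rat p q (by rw [eg_cons]; exact Multiset.mem_add.2 (Or.inr hp))
          (by rw [rb_cons]; exact Multiset.mem_add.2 (Or.inr hp'))
      · intro p q hp hp'
        exact hC.rat' p q (by rw [eg_cons]; exact Multiset.mem_add.2 (Or.inr hp))
          (by rw [rb_cons]; exact Multiset.mem_add.2 (Or.inr hp'))
      · intro σ bs bs' hb hb'
        exact hC.vert σ bs bs' (vd_right h1 hb) (vd_right h1 hb')

end Vde

open Spn Vde in
/-- VDE. -/
theorem t_VDE (h1 : VST_Stmt) (h2 : CHN_Stmt) (h3 : PRM_Stmt) (h4 : SHF_Stmt) (h5 : SFT_Stmt) :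
    VDE_Stmt := by
  suffices key : ∀ (N : ℕ) (b b' : Tr) (L L' : ℤ × ℤ), b.size = N → Good b L → Good b' L' →
      slp L = slp L' → slp (vec b) = slp (vec b') → cf b = cf b' → Cmp b b' L L' →
      vd b L = vd b' L' by
    intro b b' L L' a1 a2 a3 a4 a5 a6 a7 a8 a9 a10 a11 a12
    exact key b.size b b' L L' rfl ⟨a1, a3, a5, a10⟩ ⟨a2, a4, a6, a11⟩ a7 a8 a9 a12
  intro N
  induction N using Nat.strong_induction_on with
  | _ N ihN =>
  intro b b' L L' hN g g' hL hv hcf hC
  cases b with
  | pw e =>
    cases b' with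
    | pw e' =>
      have h11 : slp (vec (.pw e)) = -(e : ℚ) := by
        simp [slp, vec]
      have h12 : slp (vec (.pw e')) = -(e' : ℚ) := by
        simp [slp, vec]
      rw [h11, h12] at hv
      have h13 : e = e' := by
        have : (e : ℚ) = e' := by linarith
        exact_mod_cast this
      rfl
    | cons x y =>
      rw [cf_cons] at hcf
      exact absurd hcf.symm (Multiset.cons_ne_zero)
  | cons a b1 =>
    have hIH : Vde.IH (Tr.cons a b1).size := by
      intro c c' P P' hc
      exact ihN c.size (by rw [← hN]; exact hc) c c' P P' rfl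
    -- the corresponding child
    have hmem : Int.fract (slp (rv (vec a))) ∈ cf b' := by
      rw [← hcf, cf_cons]
      exact Multiset.mem_cons_self _ _
    rw [h1.2.1 b', Multiset.mem_coe, List.mem_map] at hmem
    obtain ⟨a', ha', hfr⟩ := hmem
    obtain ⟨b1', k1, k2, -, -, k5, k6⟩ := h3 b' a' ha'
    have g1 : Good (.cons a' b1') L' := by
      refine ⟨g'.l, by rw [k2]; exact g'.v, by rw [k2]; exact g'.d, ?_⟩
      rw [(k6 0 false L').1]
      exact g'.w
    obtain ⟨hA', -⟩ := good_right h1 g1
    obtain ⟨k, hk⟩ := Int.fract_eq_fract.1 hfr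
    obtain ⟨j1, j2, j3, j4, -, j6, -, j8, j9, j10, j11⟩ := h5 a' b1' k L' hA'
      (.cons (.cons a' (.pw k)) (.pw 0)) (b1'.shift (-k)) rfl rfl
    set a2 : Tr := .cons (.cons a' (.pw k)) (.pw 0) with ha2
    set b2 : Tr := b1'.shift (-k) with hb2
    have g2 : Good (.cons a2 b2) L' := by
      refine ⟨g'.l, ?_, ?_, j11 g1.w⟩
      · rw [j2]
        intro h0
        apply g1.v
        have : (-(vec (.cons a' b1'))).2 = -(vec (.cons a' b1')).2 := rfl
        rw [this] at h0
        exact neg_eq_zero.1 h0
      · rw [j2]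
        intro h0
        apply g1.d
        unfold dt at h0 ⊢
        simp only [addv] at h0 ⊢
        have e1 : (-(vec (.cons a' b1'))).2 = -(vec (.cons a' b1')).2 := rfl
        have e2 : (-(vec (.cons a' b1'))).1 = -(vec (.cons a' b1')).1 := rfl
        rw [e1, e2] at h0
        linarith
    have hC2 : Cmp (.cons a b1) (.cons a2 b2) L L' := by
      have eeg : eg (.cons a2 b2) true L' = eg b' true L' := by
        rw [j8, (k6 0 true L').2.1]
      have erb : rb (.cons a2 b2) true L' = rb b' true L' := by
        rw [j9, (k6 0 true L').2.2]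
      have evd : vd (.cons a2 b2) L' = vd b' L' := by
        rw [j10]
        unfold vd
        rw [(k6 0 false L').1]
      constructor
      · intro p q q' hp hp'
        rw [eeg] at hp'
        exact hC.mate p q q' hp hp'
      · intro p q hp hp'
        rw [erb] at hp'
        exact hC.rat p q hp hp'
      · intro p q hp hp'
        rw [eeg] at hp
        exact hC.rat' p q hp hp'
      · intro σ bs bs' hb hb'
        rw [evd] at hb'
        exact hC.vert σ bs bs' hb hb'
    have hst := Vde.step h1 h2 h4 a b1 a2 b2 L L' hIH g g2 hL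
      (by rw [j2, slp_neg, k2]; exact hv) (by rw [j6, k5]; exact hcf) hC2
      (by rw [j3]; linarith)
    rw [hst, j10]
    unfold vd
    rw [(k6 0 false L').1]

end Pool.Agent.TZ
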