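import Pool.Agent.TZ.Final
import Pool.Agent.TZ.AsmS
import Pool.Agent.TZ.Cll
import Pool.Agent.TZ.Crd
import Pool.Agent.TZ.Eql
import Pool.Agent.TZ.Evg
import Pool.Agent.TZ.Fgv
import Pool.Agent.TZ.Fodl
import Pool.Agent.TZ.Gex
import Pool.Agent.TZ.Inl
import Pool.Agent.TZ.Matl
import Pool.Agent.TZ.Mlk
import Pool.Agent.TZ.Msm
import Pool.Agent.TZ.Pml
import Pool.Agent.TZ.Tabl
import Pool.Agent.TZ.Twb
import Pool.Agent.TZ.Vde

/-!
Theorem Z for connected sums (MP_31fd3b_gt). All modules together (helper16).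
-/

namespace Pool.Agent.TZ

open Pool.Agent.LibH11.Sliced Pool.Agent.MTR Pool.Agent.MT Pool.Agent.MTA Pool.Agent.UA
open Pool.Agent.UB Pool.Agent.TwoBr Pool.Agent.Mont Pool.Agent.TV Pool.Agent.TW
open Pool.Agent.TB hiding vec

/-- **Theorem Z** for connected sums, for trees and complex valued invariants. -/
theorem fins_all : FINS_Stmt := by
  have jpv : JPV_Stmt := t_JPV
  have jdv : JDV_Stmt := t_JDV jpv
  have ratj : RATJ_Stmt := t_RATJ jpv t_RATG jdv
  have ru := t_RU jpv t_RATG ratj jdv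
  have sfin := sfin_all
  have rsi := t_RSI (t_XXF (t_AID sfin) sfin) (t_RSV (t_GQ sfin) t_VTS sfin) t_PF t_VTS
  have cls := TW.t_CLS (t_CQE t_VTS) (t_MUKS t_FIB)
  have pla := t_PLA (t_GSY sfin) (t_PLN sfin) t_PLC t_FIB
  have h1 := t_FSY
  have h2 := t_FEQ h1
  have h3 := t_FCG
  have h4 := t_FRO h1 h2 h3
  have h5 := t_FFL h1
  have h6 := t_FIT h3
  have h7 := t_FR3 h1 h2 h3 h4 h5
  have h8 := t_FC0 h1 h2 h3 h4 h5
  have rti := t_RTI h1 h2 h3 h4 h5
  have str := t_STR h4 h3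
  have onem := t_ONEM rti str h3
  have rtc := t_RTC rti h8 h5 h3
  have com : TS.COM_Stmt := TS.com (TS.bead TS.natx)
  have kdf := t_KDF com h5 h3 onem rtc
  have rtu := t_RTU t_RATG h7 h5 h4 h3 h1 h2 fta_all h6 rti ru
  have syf := t_SYF rtu ru rti h8 h5 h3 h1 fta_all
  have cmb := t_CMB kdf syf h3
  have vst := t_VST
  have chn := t_CHN
  have vtb := t_VTB
  have eds := t_EDS
  have evn := t_EVN eds chn vst
  have ega := t_EGA chn vst eds
  have muc := t_MUC
  have mur := t_MUR muc h4 h7 h8 h3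
  have mtt := t_MUT muc mur h3 fta_all
  have prm := t_PRM mtt
  have shf := t_SHF
  have sft := t_SFT mtt shf
  have rtz := t_RTZ chn prm vst vtb mtt ega eds
  have qac := t_QAC t_ACZ muc mur h3 fta_all
  have spn := t_SPN vst chn prm shf sft mtt t_CUS qac rtu ru
  have hzt := zt_basic
  have hego := ego hzt
  have hstb := stb hzt hego (insg_thm hego)
  have nzv : ∀ t : Tr, Odd (vec t).1 → NVP t :=
    t_NZV (t_STU (t_FHT hzt) hstb) (MTA.prs hzt hego) hego
  have nle := t_NLE t_VTS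
  have fodl := t_FODL liew_all nzv rsi cls pla t_VTS
  have cll := t_CLL t_CLN vst chn
  have tabl := t_TABL vtb t_NDN
  have evg := t_EVG vst chn
  have fgv := t_FGV evg ega t_GEX
  have inl := t_INL evn ega eds nle
  have crd := t_CRD chn
  have eql := t_EQL ega eds crd
  have matl := t_MATL ega eds vst
  have vde := t_VDE vst chn prm shf sft
  have twb := t_TWB syf cmb h6 h3
  exact t_FINS t_ODK fodl cll tabl inl eql matl rtz spn vde vst mtt t_PML twb fgv nle h3 h6 t_LKB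

/-- mutations of connected sums -/
theorem msm_all : MSM_Stmt :=
  t_MSM t_MUC (TX.t_PCX (TX.t_GCX (TX.t_PTX (TX.t_SLX (TX.t_RCX t_FSY) (TS.bead TS.natx))
    (TX.t_RCX t_FSY))) t_FCG) t_FCG

/-- mutations of long knots are long knots -/
theorem mlk_all : MLK_Stmt := t_MLK

end Pool.Agent.TZ
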