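import Pool.Agent.TZ.StT
import Pool.Agent.TZ.Ndn

/-!
Theorem Z (MP_31fd3b_gt), third version: NDM, the alternating sums of a nondegenerate vertex and of several vertices.
-/

open scoped BigOperators

namespace Pool.Agent.TZ

open Pool.Agent.LibH11.Sliced Pool.Agent.MTR Pool.Agent.MTA Pool.Agent.UA Pool.Agent.UB
open Pool.Agent.TwoBr Pool.Agent.Mont Pool.Agent.TV Pool.Agent.TW
open Pool.Agent.TB hiding vec

namespace NDM

/-- the involution `a ↦ σ - a` modulo 1 -/
def io (σ a : ℚ) : ℚ := Int.fract (σ - a)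

theorem io_io (σ a : ℚ) (h : Int.fract a = a) : io σ (io σ a) = a := by
  have h1 : Int.fract (σ - Int.fract (σ - a)) = Int.fract a := by
    rw [Int.fract_eq_fract]
    refine ⟨⌊σ - a⌋, ?_⟩
    have := Int.self_sub_floor (σ - a)
    linarith
  unfold io
  rw [h1, h]

theorem pairing {M : Type*} [AddCommMonoid M] (F : Finset ℚ) (i : ℚ → ℚ) (h1 : ∀ a ∈ F, i a ∈ F)
    (h2 : ∀ a ∈ F, i (i a) = a) (h3 : ∀ a ∈ F, i a ≠ a) (g : ℚ → M) :
    ∑ a ∈ F, g a = ∑ a ∈ F.filter (fun a => a < i a), (g a + g (i a)) := by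
  rw [Finset.sum_add_distrib, ← Finset.sum_filter_add_sum_filter_not F (fun a => a < i a)]
  congr 1
  symm
  apply Finset.sum_nbij' i i
  · intro a ha
    rw [Finset.mem_filter] at ha ⊢
    refine ⟨h1 a ha.1, ?_⟩
    rw [h2 a ha.1]
    exact not_lt.mpr ha.2.le
  · intro a ha
    rw [Finset.mem_filter] at ha ⊢
    refine ⟨h1 a ha.1, ?_⟩
    rw [h2 a ha.1]
    exact lt_of_le_of_ne (not_lt.mp ha.2) (h3 a ha.1)
  · intro a ha
    exact h2 a (Finset.mem_filter.mp ha).1
  · intro a ha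
    exact h2 a (Finset.mem_filter.mp ha).1
  · intro a _
    rfl

/-- the contribution of the classes outside of `G` -/
theorem core (σ : ℚ) (bs U : Multiset ℚ) (hf : ∀ b ∈ bs, Int.fract b = b)
    (hU : ∀ b ∈ U, Int.fract b = b) (G : Finset ℚ)
    (hp : ∀ a, Int.fract a = a → a ∉ G →
      (U.count a : ℤ) - bs.count a = (U.count (io σ a) : ℤ) - bs.count (io σ a))
    (hpos : ∀ a, Int.fract a = a → a ∉ G → (bs.count a : ℤ) ≤ U.count a)
    (hG : ∀ a, Int.fract a = a → a ∉ G → io σ a ∉ G ∧ io σ a ≠ a) :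
    ∃ P Z : ℤ, 0 ≤ P ∧
      (U.card : ℤ) - bs.card = ∑ a ∈ G, ((U.count a : ℤ) - bs.count a) + 2 * P ∧
      U.sum - bs.sum = ∑ a ∈ G, ((U.count a : ℚ) - bs.count a) * a + P * σ - Z ∧
      (P = 0 → ∀ a, a ∉ G → U.count a = bs.count a) := by
  classical
  set F0 : Finset ℚ := bs.toFinset ∪ U.toFinset with hF0
  set F1 : Finset ℚ := F0 ∪ F0.image (io σ) with hF1
  set F : Finset ℚ := F1.filter (fun a => a ∉ G) with hF
  have m0 : ∀ a ∈ F0, Int.fract a = a := by
    intro a ha
    rw [hF0, Finset.mem_union, Multiset.mem_toFinset, Multiset.mem_toFinset] at ha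
    rcases ha with ha | ha
    · exact hf a ha
    · exact hU a ha
  have m1 : ∀ a ∈ F1, Int.fract a = a := by
    intro a ha
    rw [hF1, Finset.mem_union, Finset.mem_image] at ha
    rcases ha with ha | ⟨b, _, rfl⟩
    · exact m0 a ha
    · exact Int.fract_fract _
  have c1 : ∀ a ∈ F1, io σ a ∈ F1 := by
    intro a ha
    rw [hF1, Finset.mem_union, Finset.mem_image] at ha
    rw [hF1, Finset.mem_union, Finset.mem_image]
    rcases ha with ha | ⟨b, hb, rfl⟩
    · exact Or.inr ⟨a, ha, rfl⟩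
    · left
      rw [io_io σ b (m0 b hb)]
      exact hb
  have f1 : ∀ a ∈ F, Int.fract a = a ∧ a ∉ G := by
    intro a ha
    rw [hF, Finset.mem_filter] at ha
    exact ⟨m1 a ha.1, ha.2⟩
  have f2 : ∀ a ∈ F, io σ a ∈ F := by
    intro a ha
    have h1 := f1 a ha
    rw [hF, Finset.mem_filter] at ha ⊢
    exact ⟨c1 a ha.1, (hG a h1.1 h1.2).1⟩
  have f3 : ∀ a ∈ F, io σ (io σ a) = a := fun a ha => io_io σ a (f1 a ha).1
  have f4 : ∀ a ∈ F, io σ a ≠ a := fun a ha => (hG a (f1 a ha).1 (f1 a ha).2).2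
  have z0 : ∀ a, a ∉ F0 → U.count a = 0 ∧ bs.count a = 0 := by
    intro a ha
    rw [hF0, Finset.mem_union, Multiset.mem_toFinset, Multiset.mem_toFinset, not_or] at ha
    exact ⟨Multiset.count_eq_zero.mpr ha.2, Multiset.count_eq_zero.mpr ha.1⟩
  have out : ∀ a, a ∉ G → a ∉ F → U.count a = bs.count a := by
    intro a h1 h2
    have h3 : a ∉ F0 := by
      intro h4
      apply h2
      rw [hF, Finset.mem_filter]
      exact ⟨by rw [hF1]; exact Finset.mem_union_left _ h4, h1⟩
    rw [(z0 a h3).1, (z0 a h3).2]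
  have hd : Disjoint G F := by
    rw [Finset.disjoint_right]
    exact fun a ha => (f1 a ha).2
  obtain ⟨d1, d2⟩ := NDN.diff U bs (G ∪ F) (fun a ha => by
    rw [Finset.mem_union, not_or] at ha
    exact out a ha.1 ha.2)
  rw [Finset.sum_union hd] at d1 d2
  set H : Finset ℚ := F.filter (fun a => a < io σ a) with hH
  have hHF : ∀ a ∈ H, a ∈ F := fun a ha => (Finset.mem_filter.mp ha).1
  set P : ℤ := ∑ a ∈ H, ((U.count a : ℤ) - bs.count a) with hP
  set Z : ℤ := ∑ a ∈ H, ((U.count a : ℤ) - bs.count a) * ⌊σ - a⌋ with hZ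
  have e1 : ∑ a ∈ F, ((U.count a : ℤ) - bs.count a) = 2 * P := by
    rw [pairing F (io σ) f2 f3 f4, hP, Finset.mul_sum]
    apply Finset.sum_congr rfl
    intro a ha
    have h1 := f1 a (hHF a ha)
    rw [← hp a h1.1 h1.2]
    ring
  have e2 : ∑ a ∈ F, ((U.count a : ℚ) - bs.count a) * a = P * σ - Z := by
    rw [pairing F (io σ) f2 f3 f4, hP, hZ]
    push_cast
    rw [Finset.sum_mul, ← Finset.sum_sub_distrib]
    apply Finset.sum_congr rfl
    intro a ha
    have h1 := f1 a (hHF a ha)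
    have h2 : (U.count a : ℚ) - bs.count a = (U.count (io σ a) : ℚ) - bs.count (io σ a) := by
      exact_mod_cast hp a h1.1 h1.2
    rw [← h2]
    have h3 : io σ a = σ - a - ⌊σ - a⌋ := (Int.self_sub_floor _).symm
    rw [h3]
    ring
  have pp : ∀ a ∈ F, 0 ≤ (U.count a : ℤ) - bs.count a := by
    intro a ha
    have := hpos a (f1 a ha).1 (f1 a ha).2
    linarith
  refine ⟨P, Z, ?_, ?_, ?_, ?_⟩
  · exact Finset.sum_nonneg fun a ha => pp a (hHF a ha)
  · rw [d1, e1]
  · rw [d2, e2]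
    ring
  · intro h0 a ha
    by_cases haF : a ∈ F
    · rw [h0, mul_zero] at e1
      have := (Finset.sum_eq_zero_iff_of_nonneg pp).mp e1 a haF
      omega
    · exact out a ha haF

/-- the aggregated data -/
theorem agg (σ : ℚ) (Cs : Multiset (Multiset ℚ))
    (h : ∀ c ∈ Cs, (∀ b ∈ c, Int.fract b = b) ∧ ∃ n : ℤ, c.sum - σ = n) :
    (∀ b ∈ Cs.sum, Int.fract b = b) ∧ (∃ n : ℤ, Cs.sum.sum - Cs.card * σ = n) ∧
      (Cs.map fun c => c.card + 1).sum = Cs.sum.card + Cs.card ∧
      ∀ β, (Cs.map fun c => NDN.va σ c β).sum =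
        ((Cs.sum.card : ℤ) - 2 * Cs.card) * ((if Int.fract β = 0 then 1 else 0) -
          (if Int.fract β = Int.fract σ then 1 else 0)) - Cs.sum.count (Int.fract β) +
            Cs.sum.count (Int.fract (σ - β)) := by
  classical
  induction Cs using Multiset.induction_on with
  | empty => exact ⟨by simp, ⟨0, by simp⟩, by simp, by simp⟩
  | cons c s ih =>
    obtain ⟨i1, ⟨n, i2⟩, i3, i4⟩ := ih (fun c hc => h c (Multiset.mem_cons_of_mem hc))
    obtain ⟨h1, m, h2⟩ := h c (Multiset.mem_cons_self c s)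
    refine ⟨?_, ⟨n + m, ?_⟩, ?_, ?_⟩
    · intro b hb
      rw [Multiset.sum_cons, Multiset.mem_add] at hb
      rcases hb with hb | hb
      · exact h1 b hb
      · exact i1 b hb
    · rw [Multiset.sum_cons, Multiset.sum_add, Multiset.card_cons]
      push_cast
      linarith
    · rw [Multiset.map_cons, Multiset.sum_cons, Multiset.sum_cons, Multiset.card_add,
        Multiset.card_cons, i3]
      ring
    · intro β
      rw [Multiset.map_cons, Multiset.sum_cons, i4 β, Multiset.sum_cons, Multiset.card_add,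
        Multiset.card_cons, Multiset.count_add, Multiset.count_add]
      unfold NDN.va
      push_cast
      ring

/-- the hypothesis at indicator functions -/
theorem hyp (σ : ℚ) (bs : Multiset ℚ) (Cs : Multiset (Multiset ℚ))
    (hf : ∀ b ∈ bs, Int.fract b = b) (h : ∀ c ∈ Cs, (∀ b ∈ c, Int.fract b = b))
    (hv : ∀ φ : ℚ → ℂ, Per1 φ → alN φ σ bs = (Cs.map fun c => alN φ σ c).sum) (β : ℚ) :
    NDN.va σ bs β = (Cs.map fun c => NDN.va σ c β).sum := by
  have h1 := hv (NDN.dl β) (NDN.per_dl β)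
  rw [NDN.alN_dl σ bs hf β] at h1
  have h2 : (Cs.map fun c => alN (NDN.dl β) σ c).sum =
      (((Cs.map fun c => NDN.va σ c β).sum : ℤ) : ℂ) := by
    clear h1 hv
    induction Cs using Multiset.induction_on with
    | empty => simp
    | cons c s ih =>
      rw [Multiset.map_cons, Multiset.sum_cons, Multiset.map_cons, Multiset.sum_cons,
        ih (fun c hc => h c (Multiset.mem_cons_of_mem hc)),
        NDN.alN_dl σ c (h c (Multiset.mem_cons_self c s)) β]
      push_cast
      ring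
  rw [h2] at h1
  exact_mod_cast h1

end NDM

theorem t_NDM (h1 : NDN_Stmt) : NDM_Stmt := by
  classical
  intro σ bs Cs h3 hf h0 hn hs hC hv
  obtain ⟨u1, ⟨n1, u2⟩, u3, u4⟩ := NDM.agg σ Cs hC
  have hva := NDM.hyp σ bs Cs hf (fun c hc => (hC c hc).1) hv
  obtain ⟨n2, hs⟩ := hs
  -- `Cs` is not empty
  have hk : 1 ≤ Cs.card := by
    by_contra hc
    have hc0 : Cs = 0 := Multiset.card_eq_zero.mp (by omega)
    obtain ⟨β, hβ⟩ := NDN.parta σ bs h3 hf h0 hn
    apply hβ
    rw [hva β, hc0]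
    simp
  set U : Multiset ℚ := Cs.sum with hU
  set k : ℕ := Cs.card with hkd
  rw [u3]
  have z0 : bs.count 0 = 0 := Multiset.count_eq_zero.mpr h0
  -- it is enough to compare the counts
  have fin : k = 1 → (∀ a, U.count a = bs.count a) → Cs = {bs} := by
    intro hk1 hc
    obtain ⟨c, hc1⟩ := Multiset.card_eq_one.mp (hkd ▸ hk1)
    have h2 : U = c := by
      rw [hU, hc1, Multiset.sum_singleton]
    have h4 : c = bs := by
      rw [← h2]
      exact Multiset.ext.mpr hc
    rw [hc1, h4]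
  -- the differences
  have key : ∀ a, Int.fract a = a → (a = 0 ∧ Int.fract σ = 0 ∨ a ≠ 0 ∧ a ≠ Int.fract σ) →
      (U.count a : ℤ) - bs.count a = (U.count (NDM.io σ a) : ℤ) - bs.count (NDM.io σ a) := by
    intro a ha hb
    have h4 := hva a
    rw [u4 a] at h4
    unfold NDN.va at h4
    rw [ha] at h4
    have h5 : ((if a = 0 then 1 else 0 : ℤ) - (if a = Int.fract σ then 1 else 0)) = 0 := by
      rcases hb with ⟨e1, e2⟩ | ⟨e1, e2⟩
      · rw [if_pos e1, if_pos (by rw [e1, e2]), sub_self]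
      · rw [if_neg e1, if_neg e2, sub_self]
    rw [h5] at h4
    unfold NDM.io
    linarith
  have pos : ∀ a, Int.fract a = a → (a = 0 ∧ Int.fract σ = 0 ∨ a ≠ 0 ∧ a ≠ Int.fract σ) →
      NDM.io σ a ≠ a → (bs.count a : ℤ) ≤ U.count a := by
    intro a ha hb hc
    have h4 := key a ha hb
    have h5 := NDN.ndg1 hn a (fun h => hc (by
      unfold NDM.io
      rw [← h, ha]))
    rw [ha] at h5
    change bs.count a = 0 ∨ bs.count (NDM.io σ a) = 0 at h5
    rcases h5 with h5 | h5
    · rw [h5]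
      positivity
    · rw [h5] at h4
      have : (0 : ℤ) ≤ U.count (NDM.io σ a) := by positivity
      push_cast at h4
      linarith
  by_cases hσ : Int.fract σ = 0
  · have eσ : σ = ⌊σ⌋ := by
      have := Int.self_sub_floor σ
      rw [hσ] at this
      linarith
    have hh : Int.fract (1 / 2 : ℚ) = 1 / 2 := by
      rw [Int.fract_eq_iff]
      refine ⟨by norm_num, by norm_num, 0, by norm_num⟩
    have hal : ∀ a : ℚ, Int.fract a = a → a ∉ ({0, 1 / 2} : Finset ℚ) →
        (a = 0 ∧ Int.fract σ = 0 ∨ a ≠ 0 ∧ a ≠ Int.fract σ) := by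
      intro a _ hb
      simp only [Finset.mem_insert, Finset.mem_singleton, not_or] at hb
      exact Or.inr ⟨hb.1, by rw [hσ]; exact hb.1⟩
    have hG : ∀ a : ℚ, Int.fract a = a → a ∉ ({0, 1 / 2} : Finset ℚ) →
        NDM.io σ a ∉ ({0, 1 / 2} : Finset ℚ) ∧ NDM.io σ a ≠ a := by
      intro a ha hb
      simp only [Finset.mem_insert, Finset.mem_singleton, not_or] at hb ⊢
      refine ⟨⟨?_, ?_⟩, ?_⟩
      · intro h
        apply hb.1
        rw [← ha, ← hσ, Int.fract_eq_fract]
        unfold NDM.io at h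
        have h2 := Int.self_sub_floor (σ - a)
        rw [h] at h2
        exact ⟨-⌊σ - a⌋, by push_cast; linarith⟩
      · intro h
        apply hb.2
        rw [← ha, ← hh, Int.fract_eq_fract]
        unfold NDM.io at h
        have h2 := Int.self_sub_floor (σ - a)
        rw [h] at h2
        exact ⟨⌊σ⌋ - ⌊σ - a⌋ - 1, by push_cast; linarith⟩
      · intro h
        apply hb.2
        unfold NDM.io at h
        have h2 := Int.self_sub_floor (σ - a)
        rw [h] at h2
        exact NDN.half hb.1 ha (⌊σ⌋ - ⌊σ - a⌋) (by push_cast; linarith)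
    obtain ⟨P, Z, p1, p2, p3, p4⟩ := NDM.core σ bs U hf u1 {0, 1 / 2}
      (fun a ha hb => key a ha (hal a ha hb)) (fun a ha hb => pos a ha (hal a ha hb) (hG a ha hb).2)
      hG
    rw [Finset.sum_pair (by norm_num)] at p2 p3
    have c1 := NDN.ndg2 hn (1 / 2) (by
      rw [Int.fract_eq_fract]
      exact ⟨1 - ⌊σ⌋, by push_cast; linarith⟩)
    rw [hh] at c1
    have h6 : ((U.count (1 / 2) : ℚ) - bs.count (1 / 2)) =
        2 * ((n1 - n2 + (k - 1) * ⌊σ⌋ - P * ⌊σ⌋ + Z : ℤ) : ℚ) := by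
      push_cast
      rw [← eσ]
      linarith
    have h7 : ((U.count (1 / 2) : ℤ) - bs.count (1 / 2)) =
        2 * (n1 - n2 + (k - 1) * ⌊σ⌋ - P * ⌊σ⌋ + Z) := by exact_mod_cast h6
    generalize (n1 - n2 + (k - 1) * ⌊σ⌋ - P * ⌊σ⌋ + Z : ℤ) = Y at h7
    rw [z0] at p2
    refine ⟨by omega, fun he => fin (by omega) ?_⟩
    intro a
    by_cases ha : a ∈ ({0, 1 / 2} : Finset ℚ)
    · simp only [Finset.mem_insert, Finset.mem_singleton] at ha
      rcases ha with ha | ha <;> rw [ha] <;> omega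
    · exact p4 (by omega) a ha
  · -- the exceptional classes are `0`, `σ`, `σ / 2`, `σ / 2 + 1 / 2`
    set s : ℚ := Int.fract σ with hsd
    set t : ℚ := Int.fract (σ / 2) with htd
    set t' : ℚ := Int.fract (σ / 2 + 1 / 2) with htd'
    have es : s = σ - ⌊σ⌋ := (Int.self_sub_floor σ).symm
    have et : t = σ / 2 - ⌊σ / 2⌋ := (Int.self_sub_floor _).symm
    have et' : t' = σ / 2 + 1 / 2 - ⌊σ / 2 + 1 / 2⌋ := (Int.self_sub_floor _).symm
    have nt : t ≠ t' := by
      intro h
      rw [et, et'] at h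
      have h1 : ((⌊σ / 2 + 1 / 2⌋ : ℤ) : ℚ) - ⌊σ / 2⌋ = 1 / 2 := by linarith
      have h2 : (2 : ℚ) * (((⌊σ / 2 + 1 / 2⌋ : ℤ) : ℚ) - ⌊σ / 2⌋) = 1 := by linarith
      have h3 : (2 : ℤ) * (⌊σ / 2 + 1 / 2⌋ - ⌊σ / 2⌋) = 1 := by exact_mod_cast h2
      omega
    have noi : ∀ z : ℤ, σ ≠ z := by
      intro z h
      apply hσ
      rw [hsd, h, Int.fract_intCast]
    have nst : s ≠ t := by
      intro h
      rw [es, et] at h
      exact noi (2 * (⌊σ⌋ - ⌊σ / 2⌋)) (by push_cast; linarith)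
    have nst' : s ≠ t' := by
      intro h
      rw [es, et'] at h
      exact noi (2 * (⌊σ⌋ - ⌊σ / 2 + 1 / 2⌋) + 1) (by push_cast; linarith)
    have n0s : (0 : ℚ) ≠ s := fun h => hσ h.symm
    have n0t : (0 : ℚ) ≠ t := by
      intro h
      rw [et] at h
      exact noi (2 * ⌊σ / 2⌋) (by push_cast; linarith)
    have n0t' : (0 : ℚ) ≠ t' := by
      intro h
      rw [et'] at h
      exact noi (2 * ⌊σ / 2 + 1 / 2⌋ - 1) (by push_cast; linarith)
    have hal : ∀ a : ℚ, Int.fract a = a → a ∉ ({0, s, t, t'} : Finset ℚ) →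
        (a = 0 ∧ s = 0 ∨ a ≠ 0 ∧ a ≠ s) := by
      intro a _ hb
      simp only [Finset.mem_insert, Finset.mem_singleton, not_or] at hb
      exact Or.inr ⟨hb.1, hb.2.1⟩
    have hG : ∀ a : ℚ, Int.fract a = a → a ∉ ({0, s, t, t'} : Finset ℚ) →
        NDM.io σ a ∉ ({0, s, t, t'} : Finset ℚ) ∧ NDM.io σ a ≠ a := by
      intro a ha hb
      simp only [Finset.mem_insert, Finset.mem_singleton, not_or] at hb ⊢
      obtain ⟨b1, b2, b3, b4⟩ := hb
      have h2 := Int.self_sub_floor (σ - a)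
      refine ⟨⟨?_, ?_, ?_, ?_⟩, ?_⟩
      · intro h
        apply b2
        rw [← ha, hsd, Int.fract_eq_fract]
        unfold NDM.io at h
        rw [h] at h2
        exact ⟨-⌊σ - a⌋, by push_cast; linarith⟩
      · intro h
        apply b1
        rw [← ha, ← Int.fract_zero, Int.fract_eq_fract]
        unfold NDM.io at h
        rw [h, es] at h2
        exact ⟨⌊σ⌋ - ⌊σ - a⌋, by push_cast; linarith⟩
      · intro h
        apply b3
        rw [← ha, htd, Int.fract_eq_fract]
        unfold NDM.io at h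
        rw [h, et] at h2
        exact ⟨⌊σ / 2⌋ - ⌊σ - a⌋, by push_cast; linarith⟩
      · intro h
        apply b4
        rw [← ha, htd', Int.fract_eq_fract]
        unfold NDM.io at h
        rw [h, et'] at h2
        exact ⟨⌊σ / 2 + 1 / 2⌋ - ⌊σ - a⌋ - 1, by push_cast; linarith⟩
      · intro h
        unfold NDM.io at h
        rw [h] at h2
        rcases Int.even_or_odd' (-⌊σ - a⌋) with ⟨y, hy | hy⟩
        · apply b3
          rw [← ha, htd, Int.fract_eq_fract]
          refine ⟨y, ?_⟩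
          have hy' : -((⌊σ - a⌋ : ℤ) : ℚ) = 2 * y := by exact_mod_cast hy
          linarith
        · apply b4
          rw [← ha, htd', Int.fract_eq_fract]
          refine ⟨y, ?_⟩
          have hy' : -((⌊σ - a⌋ : ℤ) : ℚ) = 2 * y + 1 := by exact_mod_cast hy
          linarith
    obtain ⟨P, Z, p1, p2, p3, p4⟩ := NDM.core σ bs U hf u1 {0, s, t, t'}
      (fun a ha hb => key a ha (hal a ha hb)) (fun a ha hb => pos a ha (hal a ha hb) (hG a ha hb).2)
      hG
    rw [Finset.sum_insert (by simp [n0s, n0t, n0t']), Finset.sum_insert (by simp [nst, nst']),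
      Finset.sum_insert (by simp [nt]), Finset.sum_singleton] at p2 p3
    -- the value at `0`
    have h4 := hva 0
    rw [u4 0] at h4
    unfold NDN.va at h4
    have hs0 : Int.fract (σ - 0) = s := by rw [sub_zero]
    rw [Int.fract_zero, if_pos rfl, if_neg n0s, hs0, z0] at h4
    have b1b : bs.count t ≤ 1 := by
      have := NDN.ndg2 hn (σ / 2) (by rw [show σ - σ / 2 = σ / 2 by ring])
      exact this
    have b2b : bs.count t' ≤ 1 := by
      have := NDN.ndg2 hn (σ / 2 + 1 / 2) (by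
        rw [Int.fract_eq_fract]
        exact ⟨1, by push_cast; ring⟩)
      exact this
    rw [z0] at p2
    have h5 : 2 * ((k : ℤ) - 1) = 2 * ((U.count s : ℤ) - bs.count s) +
        (((U.count t : ℤ) - bs.count t) + ((U.count t' : ℤ) - bs.count t')) + 2 * P := by
      push_cast at h4 p2
      linarith
    have h5q : 2 * ((k : ℚ) - 1) = 2 * ((U.count s : ℚ) - bs.count s) +
        (((U.count t : ℚ) - bs.count t) + ((U.count t' : ℚ) - bs.count t')) + 2 * P := by
      exact_mod_cast h5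
    have h6 : ((U.count t' : ℚ) - bs.count t') / 2 =
        ((n1 - n2 + ((U.count s : ℤ) - bs.count s) * ⌊σ⌋ + ((U.count t : ℤ) - bs.count t) * ⌊σ / 2⌋ +
          ((U.count t' : ℤ) - bs.count t') * ⌊σ / 2 + 1 / 2⌋ + Z : ℤ) : ℚ) := by
      push_cast
      have e1 : U.sum - bs.sum = ((k : ℚ) - 1) * σ + ((n1 : ℚ) - n2) := by linarith
      linear_combination e1 - p3 - ((U.count s : ℚ) - bs.count s) * es -
        ((U.count t : ℚ) - bs.count t) * et - ((U.count t' : ℚ) - bs.count t') * et' +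
        (σ / 2) * h5q
    set K : ℤ := n1 - n2 + ((U.count s : ℤ) - bs.count s) * ⌊σ⌋ +
      ((U.count t : ℤ) - bs.count t) * ⌊σ / 2⌋ +
          ((U.count t' : ℤ) - bs.count t') * ⌊σ / 2 + 1 / 2⌋ + Z with hK
    have h7 : ((U.count t' : ℚ) - bs.count t') = 2 * (K : ℚ) := by linarith
    have h8 : ((U.count t' : ℤ) - bs.count t') = 2 * K := by exact_mod_cast h7
    clear_value K
    refine ⟨by omega, fun he => fin (by omega) ?_⟩
    intro a
    by_cases ha : a ∈ ({0, s, t, t'} : Finset ℚ)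
    · simp only [Finset.mem_insert, Finset.mem_singleton] at ha
      rcases ha with ha | ha | ha | ha <;> rw [ha] <;> omega
    · exact p4 (by omega) a ha

end Pool.Agent.TZ
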