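import Pool.Agent.TZ.StT
import Pool.Agent.TZ.Tabl

/-!
Theorem Z for connected sums (MP_31fd3b_gt), module TABM (helper57): the vertices, the second list not more complex.
-/

open scoped BigOperators

namespace Pool.Agent.TZ

open Pool.Agent.LibH11.Sliced Pool.Agent.MTR Pool.Agent.MTA Pool.Agent.UA Pool.Agent.UB
open Pool.Agent.TwoBr Pool.Agent.Mont Pool.Agent.TV Pool.Agent.TW
open Pool.Agent.TB hiding vec

namespace Tabm

/-- a sum with a condition is the sum over the filter -/
theorem sum_ite {X : Type} (s : Multiset X) (P : X → Prop) [DecidablePred P] (g : X → ℂ) :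
    (s.map fun x => if P x then g x else 0).sum = ((s.filter P).map g).sum := by
  induction s using Multiset.induction_on with
  | empty => simp
  | cons a s ih =>
    rw [Multiset.map_cons, Multiset.sum_cons, ih]
    by_cases h : P a
    · rw [if_pos h, Multiset.filter_cons_of_pos _ h, Multiset.map_cons, Multiset.sum_cons]
    · rw [if_neg h, Multiset.filter_cons_of_neg _ h, zero_add]

/-- the combinatorial part -/
theorem comb {X : Type} [DecidableEq X] (A B : Multiset X) (κ : X → ℤ) (w : X → ℕ) {Y : Type} (F : X → Y)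
    (hA : (A.map κ).Nodup)
    (h : ∀ x ∈ A, w x ≤ ((B.filter fun y => κ y = κ x).map w).sum ∧
      (((B.filter fun y => κ y = κ x).map w).sum = w x →
        (B.filter fun y => κ y = κ x).map F = {F x})) (S : Multiset X) (hS : S ≤ A) :
    (S.map w).sum ≤ ((B.filter fun y => κ y ∈ S.map κ).map w).sum ∧
      (((B.filter fun y => κ y ∈ S.map κ).map w).sum = (S.map w).sum →
        (B.filter fun y => κ y ∈ S.map κ).map F = S.map F) := by
  induction S using Multiset.induction_on with
  | empty => simp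
  | cons a S ih =>
    have hS' : S ≤ A := (Multiset.le_cons_self S a).trans hS
    have ha : a ∈ A := Multiset.mem_of_le hS (Multiset.mem_cons_self a S)
    obtain ⟨i1, i2⟩ := ih hS'
    obtain ⟨h1, h2⟩ := h a ha
    have hnd : (((a ::ₘ S).map κ)).Nodup := Multiset.nodup_of_le (Multiset.map_le_map hS) hA
    rw [Multiset.map_cons, Multiset.nodup_cons] at hnd
    have hsplit : (B.filter fun y => κ y ∈ (a ::ₘ S).map κ) =
        (B.filter fun y => κ y = κ a) + B.filter fun y => κ y ∈ S.map κ := by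
      rw [Multiset.filter_add_filter]
      have e1 : (B.filter fun y => κ y = κ a ∧ κ y ∈ S.map κ) = 0 := by
        rw [Multiset.filter_eq_nil]
        rintro y - ⟨h3, h4⟩
        rw [h3] at h4
        exact hnd.1 h4
      rw [e1, add_zero]
      refine Multiset.filter_congr fun y _ => ?_
      rw [Multiset.map_cons, Multiset.mem_cons]
    rw [hsplit, Multiset.map_add, Multiset.sum_add, Multiset.map_cons, Multiset.sum_cons,
      Multiset.map_add, Multiset.map_cons]
    refine ⟨by omega, fun h3 => ?_⟩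
    rw [h2 (by omega), i2 (by omega), Multiset.singleton_add]

end Tabm

theorem t_TABM (h1 : VTB_Stmt) (h2 : NDM_Stmt) : TABM_Stmt := by
  classical
  intro D Gs Us Gs' hD hT hroot hd hsum hcx
  have hd1 : ∀ t ∈ Gs, (vec t).1 ∣ D := fun t ht => hd t (List.mem_append_left _ ht)
  have hd2 : ∀ t ∈ Gs', (vec t).1 ∣ D := fun t ht => hd t (List.mem_append_right _ ht)
  -- facts on the vertices
  have vtb : ∀ {Us : List Tr}, (∀ T ∈ Us, 3 ≤ T.kids) → (∀ t ∈ Us, (vec t).1 ∣ D) → ∀ y ∈ V0 Us,
      y.1.1 ∣ D ∧ 3 ≤ y.2.card ∧ (∀ b ∈ y.2, Int.fract b = b) ∧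
        (y.1.2 ≠ 0 → ∃ n : ℤ, y.2.sum - slp y.1 = n) := by
    intro Us hU hdU y hy
    obtain ⟨U, hUm, hyU⟩ := Tabl.mem_sum vt0 Us y hy
    obtain ⟨g1, g2, g3, g4⟩ := h1 U (hU U hUm) y hyU
    exact ⟨by rw [g1]; exact hdU U hUm, g2, g3, g4⟩
  have fact : ∀ y ∈ V0 Gs, Kt D y.1 ≠ 0 := by
    intro y hy
    have g2 := hT.wt y hy
    obtain ⟨q, hq⟩ := (vtb hT.root hd1 y hy).1
    have g0 : y.1.1 ≠ 0 := by
      rintro g0
      exact hD (by rw [hq, g0, zero_mul])
    have g5 : D / y.1.1 = q := by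
      rw [hq]
      exact Int.mul_ediv_cancel_left q g0
    unfold Kt
    rw [g5]
    refine mul_ne_zero ?_ g2
    rintro rfl
    exact hD (by rw [hq, mul_zero])
  have hdif : ((V0 Gs).map fun x => Kt D x.1).Nodup := by
    have e1 : (V0 Gs).map (fun x => slp x.1) =
        ((V0 Gs).map fun x => Kt D x.1).map fun K : ℤ => (D : ℚ) / K := by
      rw [Multiset.map_map]
      refine Multiset.map_congr rfl fun x hx => ?_
      exact (Cln.D_div hD (vtb hT.root hd1 x hx).1 (fact x hx) rfl).symm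
    have e2 := hT.dif
    rw [e1] at e2
    exact e2.of_map
  have key : ∀ x ∈ V0 Gs, x.2.card + 1 ≤
        (((V0 Gs').filter fun y => Kt D y.1 = Kt D x.1).map fun y => y.2.card + 1).sum ∧
      ((((V0 Gs').filter fun y => Kt D y.1 = Kt D x.1).map fun y => y.2.card + 1).sum =
        x.2.card + 1 →
        ((V0 Gs').filter fun y => Kt D y.1 = Kt D x.1).map (fun y => (slp y.1, y.2)) =
          {(slp x.1, x.2)}) := by
    intro x hx
    have hK := fact x hx
    obtain ⟨v1, v2, v3, v4⟩ := vtb hT.root hd1 x hx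
    have hslp : ∀ y ∈ (V0 Gs').filter fun y => Kt D y.1 = Kt D x.1, slp y.1 = slp x.1 := by
      intro y hy
      rw [Multiset.mem_filter] at hy
      rw [← Cln.D_div hD (vtb hroot hd2 y hy.1).1 hK hy.2, ← Cln.D_div hD v1 hK rfl]
    have hal : ∀ φ : ℚ → ℂ, Per1 φ → alN φ (slp x.1) x.2 =
        ((((V0 Gs').filter fun y => Kt D y.1 = Kt D x.1).map Prod.snd).map fun c =>
          alN φ (slp x.1) c).sum := by
      intro φ hφ
      have e1 := hsum (Kt D x.1) φ hK hφ
      rw [Tab.sum_one (V0 Gs) (fun y => slp y.1) (fun y => alN φ (slp y.1) y.2)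
        (fun y => Kt D y.1 = Kt D x.1) hT.dif hx rfl (fun w hw hwK => by
          rw [← Cln.D_div hD (vtb hT.root hd1 w hw).1 hK hwK, ← Cln.D_div hD v1 hK rfl]),
        Tabm.sum_ite] at e1
      rw [e1, Multiset.map_map]
      congr 1
      refine Multiset.map_congr rfl fun y hy => ?_
      rw [hslp y hy]
      rfl
    obtain ⟨n1, n2⟩ := h2 (slp x.1) x.2
      (((V0 Gs').filter fun y => Kt D y.1 = Kt D x.1).map Prod.snd) v2 v3 (hT.nz x hx)
      (hT.ndg x hx) (v4 (hT.wt x hx)) (by
        intro c hc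
        obtain ⟨y, hy, rfl⟩ := Multiset.mem_map.1 hc
        have hy' := (Multiset.mem_filter.1 hy)
        obtain ⟨u1, u2, u3, u4⟩ := vtb hroot hd2 y hy'.1
        refine ⟨u3, ?_⟩
        rw [← hslp y hy]
        refine u4 ?_
        intro h0
        apply hK
        rw [← hy'.2, Kt, h0, mul_zero]) hal
    rw [Multiset.map_map] at n1 n2
    refine ⟨n1, fun h3 => ?_⟩
    have h4 := n2 h3
    have h5 : ((V0 Gs').filter fun y => Kt D y.1 = Kt D x.1).map (fun y => (slp y.1, y.2)) =
        (((V0 Gs').filter fun y => Kt D y.1 = Kt D x.1).map Prod.snd).map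
          fun c => (slp x.1, c) := by
      rw [Multiset.map_map]
      refine Multiset.map_congr rfl fun y hy => ?_
      rw [hslp y hy]
      rfl
    rw [h5, h4, Multiset.map_singleton]
  obtain ⟨c1, c2⟩ := Tabm.comb (V0 Gs) (V0 Gs') (fun x => Kt D x.1) (fun x => x.2.card + 1)
    (fun x => (slp x.1, x.2)) hdif key (V0 Gs) le_rfl
  have hsplit := Multiset.filter_add_not
    (fun y : (ℤ × ℤ) × Multiset ℚ => Kt D y.1 ∈ (V0 Gs).map fun x => Kt D x.1) (V0 Gs')
  have hcx' : cx Gs' =
      (((V0 Gs').filter fun y => Kt D y.1 ∈ (V0 Gs).map fun x => Kt D x.1).map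
        fun x => x.2.card + 1).sum +
      (((V0 Gs').filter fun y => ¬ Kt D y.1 ∈ (V0 Gs).map fun x => Kt D x.1).map
        fun x => x.2.card + 1).sum := by
    rw [← Multiset.sum_add, ← Multiset.map_add, hsplit]
    rfl
  have hcx0 : cx Gs = ((V0 Gs).map fun x => x.2.card + 1).sum := rfl
  have hz : (((V0 Gs').filter fun y => ¬ Kt D y.1 ∈ (V0 Gs).map fun x => Kt D x.1).map
        fun x => x.2.card + 1).sum = 0 := by omega
  have hz' : ((V0 Gs').filter fun y => ¬ Kt D y.1 ∈ (V0 Gs).map fun x => Kt D x.1) = 0 := by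
    by_contra hne
    obtain ⟨y, hy⟩ := Multiset.exists_mem_of_ne_zero hne
    have h6 := Multiset.single_le_sum (s := ((V0 Gs').filter fun y =>
      ¬ Kt D y.1 ∈ (V0 Gs).map fun x => Kt D x.1).map fun x => x.2.card + 1)
      (fun _ _ => Nat.zero_le _) (y.2.card + 1) (Multiset.mem_map_of_mem _ hy)
    rw [hz] at h6
    omega
  rw [hz', add_zero] at hsplit
  refine ⟨?_, ?_⟩
  · rw [Tabl.vs_eq, Tabl.vs_eq, ← c2 (by omega), hsplit]
  · intro y hy h0
    rw [← hsplit, Multiset.mem_filter] at hy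
    obtain ⟨x, hx, hxy⟩ := Multiset.mem_map.1 hy.2
    have h7 := fact x hx
    apply h7
    rw [hxy, Kt, h0, mul_zero]

end Pool.Agent.TZ
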