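import Pool.Agent.TZ.FinalS
import Pool.Agent.TZ.AsmU
import Pool.Agent.TZ.Ndm
import Pool.Agent.TZ.Tabm
import Pool.Agent.TZ.Eqm

/-!
Theorem Z (MP_31fd3b_gt), third version. All modules together (helper16).
-/

namespace Pool.Agent.TZ

open Pool.Agent.LibH11.Sliced Pool.Agent.MTR Pool.Agent.MT Pool.Agent.MTA Pool.Agent.UA
open Pool.Agent.UB Pool.Agent.TwoBr Pool.Agent.Mont Pool.Agent.TV Pool.Agent.TW
open Pool.Agent.TB hiding vec

/-- **Theorem Z**, third version, for trees and complex valued invariants. -/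
theorem fint_all : FINT_Stmt := by
  have sfin := sfin_all
  have rsi := t_RSI (t_XXF (t_AID sfin) sfin) (t_RSV (t_GQ sfin) t_VTS sfin) t_PF t_VTS
  have cls := TW.t_CLS (t_CQE t_VTS) (t_MUKS t_FIB)
  have pla := t_PLA (t_GSY sfin) (t_PLN sfin) t_PLC t_FIB
  have h3 := t_FCG
  have h6 := t_FIT h3
  have vst := t_VST
  have chn := t_CHN
  have vtb := t_VTB
  have eds := t_EDS
  have evn := t_EVN eds chn vst
  have ega := t_EGA chn vst eds
  have hzt := zt_basic
  have hego := ego hzt
  have hstb := stb hzt hego (insg_thm hego)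
  have nzv : ∀ t : Tr, Odd (vec t).1 → NVP t :=
    t_NZV (t_STU (t_FHT hzt) hstb) (MTA.prs hzt hego) hego
  have nle := t_NLE t_VTS
  have fodl := t_FODL liew_all nzv rsi cls pla t_VTS
  have cll := t_CLL t_CLN vst chn
  have tabl := t_TABL vtb t_NDN
  have tabm := t_TABM vtb (t_NDM t_NDN)
  have inl := t_INL evn ega eds nle
  have eqm := t_EQM ega eds (t_CRD chn)
  exact t_FINT fins_all t_ODK fodl cll tabl tabm inl eqm vst h3 h6 t_LKB

end Pool.Agent.TZ
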