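import Pool.Agent.TZ.Vtb
import Pool.Agent.TZ.StC

/-!
Theorem Z (MP_31fd3b_gt), module RTZ: another vertex as the root.
-/

open scoped BigOperators

namespace Pool.Agent.TZ

open Pool.Agent.LibH11.Sliced Pool.Agent.MTR Pool.Agent.MTA Pool.Agent.UA Pool.Agent.UB
open Pool.Agent.TwoBr Pool.Agent.Mont Pool.Agent.TV Pool.Agent.TW
open Pool.Agent.TB hiding vec

namespace Rtz

/-- the unordered edges -/
noncomputable def ue (T : Tr) : Multiset (Multiset (ℚ × ℚ)) :=
  (eg0 T).map fun e => ({e.1, e.2} : Multiset (ℚ × ℚ))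

/-- the relation between a tree and the one with another root -/
def Rel (T T1 : Tr) : Prop :=
  Gen T1 ∧ (vec T1).1 ≠ 0 ∧ Mu 1 (cl T.dg) (cl T1.dg) ∧ vt0 T1 = vt0 T ∧ ue T1 = ue T

theorem Rel.trans {T T1 T2 : Tr} (h : Rel T T1) (h' : Rel T1 T2) : Rel T T2 :=
  ⟨h'.1, h'.2.1, h.2.2.1.trans h'.2.2.1, h'.2.2.2.1.trans h.2.2.2.1,
    h'.2.2.2.2.trans h.2.2.2.2⟩

theorem addv_one (v : ℤ × ℤ) : addv (0, 1) v = v := by
  refine Prod.ext ?_ ?_ <;> simp [addv]

theorem addv_assoc (u v w : ℤ × ℤ) : addv (addv u v) w = addv u (addv v w) := by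
  refine Prod.ext ?_ ?_ <;> simp only [addv] <;> ring

theorem addv_comm (u v : ℤ × ℤ) : addv u v = addv v u := by
  refine Prod.ext ?_ ?_ <;> simp only [addv] <;> ring

theorem addv_cancel {u v w : ℤ × ℤ} (hu : u.2 ≠ 0) (h : addv u v = addv u w) : v = w := by
  have h1 := congrArg Prod.fst h
  have h2 := congrArg Prod.snd h
  simp only [addv] at h1 h2
  have h3 : v.2 = w.2 := mul_left_cancel₀ hu h2
  rw [h3] at h1
  have h4 : v.1 * u.2 = w.1 * u.2 := by linarith
  exact Prod.ext (mul_right_cancel₀ hu h4) h3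

/-- genericity in terms of the data -/
theorem gen_congr {T T1 : Tr} (hT : Gen T) (h1 : 3 ≤ T1.kids) (h2 : vt0 T1 = vt0 T)
    (h3 : ∀ e ∈ eg0 T1, ∃ e' ∈ eg0 T, ∀ q, Se e.1 q → Se e'.1 q) : Gen T1 where
  root := h1
  wt := by rw [h2]; exact hT.wt
  nz := by rw [h2]; exact hT.nz
  ndg := by rw [h2]; exact hT.ndg
  dif := by rw [h2]; exact hT.dif
  edg := by
    intro e he s hs hq
    obtain ⟨e', he', h⟩ := h3 e he
    refine hT.edg e' he' s ?_ fun q hqs => h q (hq q hqs)
    unfold br0 at hs ⊢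
    rw [h2] at hs
    exact hs

/-- the determinant is determined by the vertices -/
theorem det_congr (hVST : VST_Stmt) (hVTB : VTB_Stmt) {T T1 : Tr} (h : 3 ≤ T.kids)
    (h1 : 3 ≤ T1.kids) (h2 : vt0 T1 = vt0 T) : (vec T1).1 = (vec T).1 := by
  have h3 := (hVST.1 T 0 (0, 1)).1
  have h4 : (addv (0, 1) (vec T), 0 + cf T) ∈ vt0 T := by
    unfold vt0
    rw [h3]
    exact Multiset.mem_cons_self _ _
  have h5 := (hVTB T h _ h4).1
  rw [← h2] at h4
  have h6 := (hVTB T1 h1 _ h4).1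
  rw [← h6, ← h5]

/-- replacing a tree by an equivalent one with the same data -/
theorem rel_prm (hVST : VST_Stmt) (hVTB : VTB_Stmt) (hMUT : MUT_Stmt) {T T1 : Tr} (hT : Gen T)
    (hd : (vec T).1 ≠ 0) (hm : Mu 2 T.dg T1.dg) (hk : T1.kids = T.kids)
    (h : ∀ (acc : Multiset ℚ) (f : Bool) (L : ℤ × ℤ), vt T1 acc f L = vt T acc f L ∧
      eg T1 f L = eg T f L ∧ rb T1 f L = rb T f L) : Rel T T1 := by
  have h2 : vt0 T1 = vt0 T := (h 0 true (0, 1)).1
  have h3 : eg0 T1 = eg0 T := (h 0 true (0, 1)).2.1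
  have hk' : 3 ≤ T1.kids := by rw [hk]; exact hT.root
  refine ⟨gen_congr hT hk' h2 ?_, ?_, hMUT.2.2.2.2.1 _ _ hm, h2, ?_⟩
  · intro e he
    rw [h3] at he
    exact ⟨e, he, fun q hq => hq⟩
  · rw [det_congr hVST hVTB hT.root hk' h2]
    exact hd
  · unfold ue
    rw [h3]

/-- One step: exchange of the two ends of an edge. -/
theorem step (hCHN : CHN_Stmt) (hVST : VST_Stmt) (hVTB : VTB_Stmt) (hMUT : MUT_Stmt)
    (hEGA : EGA_Stmt) (hEDS : EDS_Stmt) (es : List ℤ) (X b : Tr)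
    (hT : Gen (.cons (chn es X) b)) (hd : (vec (.cons (chn es X) b)).1 ≠ 0) (hX : 2 ≤ X.kids) :
    Rel (.cons (chn es X) b) (.cons (chn es.reverse b) X) := by
  obtain ⟨-, -, -, c4, c5, -, c7⟩ := hCHN
  have hb : 2 ≤ b.kids := by
    have := hT.root
    simp only [Tr.kids] at this
    omega
  obtain ⟨P, hP⟩ : ∃ P, P = rv (cvec es.reverse (vec b)) := ⟨_, rfl⟩
  obtain ⟨Q, hQ⟩ : ∃ Q, Q = rv (cvec es (vec X)) := ⟨_, rfl⟩
  have a1 : lch es (rv (addv (0, 1) (vec b))) = P := by rw [addv_one, c7, hP]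
  have a2 : addv (0, 1) (rv (vec (chn es X))) = Q := by rw [addv_one, c5, hQ]
  have a3 : lch es.reverse (rv (addv (0, 1) (vec X))) = Q := by
    rw [addv_one, c7, List.reverse_reverse, hQ]
  have a4 : addv (0, 1) (rv (vec (chn es.reverse b))) = P := by rw [addv_one, c5, hP]
  have a2' : rv (vec (chn es X)) = Q := by rw [c5, hQ]
  have a4' : rv (vec (chn es.reverse b)) = P := by rw [c5, hP]
  have e1 : vt0 (.cons (chn es X) b) =
      vt X {Int.fract (slp P)} true P + vt b {Int.fract (slp Q)} true Q := by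
    unfold vt0
    rw [vt, (c4 es X _ hX).1, a1, a2, a2']
    rfl
  have e2 : vt0 (.cons (chn es.reverse b) X) =
      vt b {Int.fract (slp Q)} true Q + vt X {Int.fract (slp P)} true P := by
    unfold vt0
    rw [vt, (c4 es.reverse b _ hb).1, a3, a4, a4']
    rfl
  have s1 : addv (0, 1) (vec (.cons (chn es X) b)) = addv Q (vec b) := by
    rw [addv_one, ← a2']
    rfl
  have s2 : addv (0, 1) (vec (.cons (chn es.reverse b) X)) = addv P (vec X) := by
    rw [addv_one, ← a4']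
    rfl
  have g1 : eg0 (.cons (chn es X) b) =
      {((slp (addv Q (vec b)), Int.fract (slp Q)), (slp (addv P (vec X)), Int.fract (slp P)))} +
        eg X true P + eg b true Q := by
    unfold eg0
    rw [eg, (c4 es X _ hX).2.1, s1, a2, a1]
    unfold ed1
    rw [(c4 es X _ hX).2.2.2, a1, a2', if_pos rfl]
  have g2 : eg0 (.cons (chn es.reverse b) X) =
      {((slp (addv P (vec X)), Int.fract (slp P)), (slp (addv Q (vec b)), Int.fract (slp Q)))} +
        eg b true Q + eg X true P := by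
    unfold eg0
    rw [eg, (c4 es.reverse b _ hb).2.1, s2, a4, a3]
    unfold ed1
    rw [(c4 es.reverse b _ hb).2.2.2, a3, a4', if_pos rfl]
  have hk : 3 ≤ (Tr.cons (chn es.reverse b) X).kids := by
    simp only [Tr.kids]
    omega
  have hvt : vt0 (.cons (chn es.reverse b) X) = vt0 (.cons (chn es X) b) := by
    rw [e1, e2, add_comm]
  have hSe := (hEGA _ hT.root hd hT.wt).1
  refine ⟨gen_congr hT hk hvt ?_, ?_, hMUT.2.2.2.2.2.1 es X b, hvt, ?_⟩
  · intro e he
    rw [g2, Multiset.mem_add, Multiset.mem_add, Multiset.mem_singleton] at he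
    rcases he with (he | he) | he
    · refine ⟨((slp (addv Q (vec b)), Int.fract (slp Q)),
        (slp (addv P (vec X)), Int.fract (slp P))), ?_, ?_⟩
      · rw [g1]
        exact Multiset.mem_add.2 (Or.inl (Multiset.mem_add.2 (Or.inl
          (Multiset.mem_singleton_self _))))
      · intro q hq
        have h1 := hSe ((slp (addv Q (vec b)), Int.fract (slp Q)),
          (slp (addv P (vec X)), Int.fract (slp P))) (by
            rw [g1]
            exact Multiset.mem_add.2 (Or.inl (Multiset.mem_add.2 (Or.inl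
              (Multiset.mem_singleton_self _)))))
        rw [he] at hq
        exact hEDS.2.2.1.2.2 _ _ _ h1 hq
    · refine ⟨e, ?_, fun q hq => hq⟩
      rw [g1]
      exact Multiset.mem_add.2 (Or.inr he)
    · refine ⟨e, ?_, fun q hq => hq⟩
      rw [g1]
      exact Multiset.mem_add.2 (Or.inl (Multiset.mem_add.2 (Or.inr he)))
  · rw [det_congr hVST hVTB hT.root hk hvt]
    exact hd
  · unfold ue
    rw [g1, g2]
    simp only [Multiset.map_add, Multiset.map_singleton]
    rw [Multiset.pair_comm]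
    abel

/-- A vertex which is not the top vertex is in the part of a child. -/
theorem split (hVST : VST_Stmt) (X : Tr) : ∀ (P : ℤ × ℤ) (x : (ℤ × ℤ) × Multiset ℚ),
    x ∈ vt X 0 false P → ∃ (c : Tr) (V : ℤ × ℤ), c ∈ chl X ∧
      vec X = addv (rv (vec c)) V ∧
      x ∈ vt c {Int.fract (slp (rv (addv P V)))} (decide (2 ≤ c.kids)) (rv (addv P V)) := by
  induction X with
  | pw e =>
    intro P x hx
    exact absurd hx (Multiset.notMem_zero x)
  | cons a b _ ihb =>
    intro P x hx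
    rw [vt, Multiset.mem_add] at hx
    rcases hx with hx | hx
    · exact ⟨a, vec b, List.mem_cons_self, rfl, hx⟩
    · rw [(hVST.1 b _ _).2] at hx
      obtain ⟨c, V, hc, hV, hxc⟩ := ihb _ x hx
      refine ⟨c, addv (rv (vec a)) V, List.mem_cons_of_mem _ hc, ?_, ?_⟩
      · have h1 : vec (.cons a b) = addv (rv (vec a)) (vec b) := rfl
        rw [h1, hV, ← addv_assoc, addv_comm (rv (vec a)), addv_assoc]
      · rw [addv_assoc] at hxc
        exact hxc

/-- From the child which contains the vertex to the tree with this child in the first place. -/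
theorem front (hPRM : PRM_Stmt) (hVST : VST_Stmt) (hVTB : VTB_Stmt) (hMUT : MUT_Stmt) {T : Tr}
    (hT : Gen T) (hd : (vec T).1 ≠ 0) (h2 : (vec T).2 ≠ 0) {c : Tr} (hc : c ∈ chl T)
    {V : ℤ × ℤ} (hV : vec T = addv (rv (vec c)) V) :
    ∃ y : Tr, Rel T (.cons c y) ∧ vec y = V := by
  obtain ⟨y, hm, hv, hk, -, -, h⟩ := hPRM T c hc
  refine ⟨y, rel_prm hVST hVTB hMUT hT hd hm hk h, ?_⟩
  have h3 : addv (rv (vec c)) (vec y) = addv (rv (vec c)) V := by
    rw [← hV, ← hv]
    rfl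
  refine addv_cancel ?_ h3
  intro h0
  apply h2
  rw [hV]
  simp [addv, h0]

theorem main (hCHN : CHN_Stmt) (hPRM : PRM_Stmt) (hVST : VST_Stmt) (hVTB : VTB_Stmt)
    (hMUT : MUT_Stmt) (hEGA : EGA_Stmt) (hEDS : EDS_Stmt) (N : ℕ) : ∀ a b : Tr,
    a.size < N → Gen (.cons a b) → (vec (.cons a b)).1 ≠ 0 →
    ∀ x ∈ vt a {Int.fract (slp (rv (addv (0, 1) (vec b))))} (decide (2 ≤ a.kids))
      (rv (addv (0, 1) (vec b))), ∃ T1 : Tr, Rel (.cons a b) T1 ∧ slp (vec T1) = slp x.1 := by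
  induction N with
  | zero =>
    intro a b h
    exact absurd h (Nat.not_lt_zero _)
  | succ N ih =>
    intro a b hsize hT hd x hx
    have hrat : ¬ a.Rat := by
      intro hr
      obtain ⟨h1, h2, -⟩ := hCHN.2.1 a (rv (addv (0, 1) (vec b)))
        {Int.fract (slp (rv (addv (0, 1) (vec b))))} hr
      rw [h1, h2] at hx
      exact Multiset.notMem_zero x hx
    obtain ⟨es, X, rfl, hX, hXs⟩ := hCHN.2.2.1 a hrat
    have hstep := step hCHN hVST hVTB hMUT hEGA hEDS es X b hT hd hX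
    obtain ⟨P, hP⟩ : ∃ P, P = rv (vec (chn es.reverse b)) := ⟨_, rfl⟩
    have hP' : lch es (rv (addv (0, 1) (vec b))) = P := by
      rw [addv_one, hCHN.2.2.2.2.2.2, hP, hCHN.2.2.2.2.1]
    have hvT1 : vec (.cons (chn es.reverse b) X) = addv P (vec X) := by
      rw [hP]
      rfl
    have hx0 := hx
    rw [(hCHN.2.2.2.1 es X _ hX).1, hP'] at hx
    have htop : (addv P (vec X)).2 ≠ 0 := by
      have h1 := hT.wt (addv P (vec X), {Int.fract (slp P)} + cf X) (by
        unfold vt0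
        rw [vt, (hCHN.2.2.2.1 es X _ hX).1, hP', (hVST.1 X _ P).1]
        exact Multiset.mem_add.2 (Or.inl (Multiset.mem_cons_self _ _)))
      exact h1
    rw [(hVST.1 X _ P).1, Multiset.mem_cons] at hx
    rcases hx with hx | hx
    · refine ⟨_, hstep, ?_⟩
      rw [hx, hvT1]
    · obtain ⟨c, V, hc, hV, hxc⟩ := split hVST X P x hx
      have hc' : c ∈ chl (.cons (chn es.reverse b) X) := List.mem_cons_of_mem _ hc
      have hV' : vec (.cons (chn es.reverse b) X) = addv (rv (vec c)) (addv P V) := by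
        rw [hvT1, hV, ← addv_assoc, addv_comm P, addv_assoc]
      have h2 : (vec (.cons (chn es.reverse b) X)).2 ≠ 0 := by
        rw [hvT1]
        exact htop
      obtain ⟨y, hRy, hy⟩ := front hPRM hVST hVTB hMUT hstep.1 hstep.2.1 h2 hc' hV'
      have hcs : c.size < N := by
        have := hVST.2.2 X c hc
        omega
      obtain ⟨T1, hT1, hs⟩ := ih c y hcs hRy.1 hRy.2.1 x (by
        rw [hy, addv_one]
        exact hxc)
      exact ⟨T1, (hstep.trans hRy).trans hT1, hs⟩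

end Rtz

open Rtz

theorem t_RTZ (hCHN : CHN_Stmt) (hPRM : PRM_Stmt) (hVST : VST_Stmt) (hVTB : VTB_Stmt)
    (hMUT : MUT_Stmt) (hEGA : EGA_Stmt) (hEDS : EDS_Stmt) : RTZ_Stmt := by
  intro T hT hd x hx
  have h0 := (hVST.1 T 0 (0, 1)).1
  have htop : (vec T).2 ≠ 0 := by
    have h1 := hT.wt (addv (0, 1) (vec T), 0 + cf T) (by
      unfold vt0
      rw [h0]
      exact Multiset.mem_cons_self _ _)
    rw [addv_one] at h1
    exact h1
  unfold vt0 at hx
  rw [h0, Multiset.mem_cons] at hx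
  rcases hx with hx | hx
  · refine ⟨T, hT, hd, Mu.eqd (EqD.refl _), rfl, ?_, rfl⟩
    rw [hx, addv_one]
  · obtain ⟨c, V, hc, hV, hxc⟩ := split hVST T (0, 1) x hx
    obtain ⟨y, hRy, hy⟩ := front hPRM hVST hVTB hMUT hT hd htop hc hV
    obtain ⟨T1, hT1, hs⟩ := Rtz.main hCHN hPRM hVST hVTB hMUT hEGA hEDS (c.size + 1) c y
      (Nat.lt_succ_self _) hRy.1 hRy.2.1 x (by
        rw [hy]
        exact hxc)
    obtain ⟨r1, r2, r3, r4, r5⟩ := hRy.trans hT1
    exact ⟨T1, r1, r2, r3, r4, hs, r5⟩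

end Pool.Agent.TZ
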