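import Pool.Agent.TZ.Defs

/-!
Theorem Z (MP_31fd3b_gt), algebraic part: statements of the modules with their proofs. All formulas
were checked numerically (3000 random trees).

Conventions: `+` stands for `addv` (commutative, associative, `(0, 1)` is neutral), `rv (x, y) = (-y, x)`. The branches at a
vertex of a tree in the context `L` are: the outside with the vector `L` and the children `a` with the vectors
`rv (vec a)`; the total vector is the sum of all of them and of `(-e, 1)`, its slope `σ` is the sum of the slopes minus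
`e`. The child `a` of `cons a b` is in the context `C = rv (L + vec b)`, the tree `b` is in the context `L + rv (vec a)`. A vertex
is counted (flag `f`) if it is the root or if it has at least two children, so at least three branches.
-/

open scoped BigOperators

namespace Pool.Agent.TZ

open Pool.Agent.LibH11.Sliced Pool.Agent.MTR Pool.Agent.MTA Pool.Agent.UA Pool.Agent.UB
open Pool.Agent.TwoBr Pool.Agent.Mont Pool.Agent.TV Pool.Agent.TW
open Pool.Agent.TB hiding vec

/-! ## 1. From the invariants to the first order data -/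

/-- FODM (uses LIEW, NZV, RSI, CLS, PLA, VTS; all proved, see below): copy of the first half of
`TX.algx` (Pool/Agent/TX/AsmX.lean) with `Ts = [T]`, `Ts' = [T']`.

Proof. `cls [T] = cl T.dg ++ []` (`List.append_nil` after `simp [cls]`; transport `h`, `h'` and `hv` along the equality of the
diagrams, e.g. by `subst`/`▸` or by proving `cls [T] = cl T.dg` and rewriting). Put `D = (vec T).1 * (vec T').1`, odd, so both
divide it. The theorem must have the form
`theorem t_FODM (hLIE : LIEW_Stmt) (hNZV : ∀ t : Tr, Odd (vec t).1 → NVP t) (hRSI : RSI_Stmt) (hCLS : TW.CLS_Stmt)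
(hPLA : PLA_Stmt) (hVTS : VTS_Stmt) : FODM_Stmt`. As in `algx`: `hR := hRSI [T] [T'] D hD hdvd (hLIE ..)`, then `hCLS` gives the class
sums of `VL [T] = vts (0, 1) T`, and `hPLA` the values of `evF` (the part `hP` there), `NLs [T] = NL (0, 1) T` (`AsmX.VL_single`,
`simp [NLs]`). -/
def FODM_Stmt : Prop :=
  ∀ (T T' : Tr) (h : IsLongKnot (cl T.dg)) (h' : IsLongKnot (cl T'.dg)),
    Odd (vec T).1 → Odd (vec T').1 →
    (∀ v : Knot → ℂ, IsFiniteType v → v (ofDiag (cl T.dg) h) = v (ofDiag (cl T'.dg) h')) →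
    Fod T T'

/-! ## 2. Structure of the vertices -/

/-- VST: the top vertex.

Proof. (1) Induction on `T`. `.pw e`: by definition (`cf (.pw e) = 0`). `.cons a b`: the part of `a` does not depend on `acc`, `f`;
apply the induction hypothesis to `b` in the context `L + rv (vec a)`: the total vector is the same (associativity),
`(β ::ₘ acc) + cf b = acc + cf (.cons a b)`. (2) `f = false`: the same induction. (3) `cf` and `chl`: induction. -/
def VST_Stmt : Prop :=
  (∀ (T : Tr) (acc : Multiset ℚ) (L : ℤ × ℤ),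
    vt T acc true L = (addv L (vec T), acc + cf T) ::ₘ vt T 0 false L ∧
      vt T acc false L = vt T 0 false L) ∧
  (∀ T : Tr, cf T = ((chl T).map fun a => Int.fract (slp (rv (vec a))) : List ℚ)) ∧
  ∀ (T a : Tr), a ∈ chl T → a.size < T.size

/-- CHN: chains.

Proof. (1) `a.Rat` with at most one child: induction on `a` (`.cons a b` with `b.kids = 0`, so `b = .pw e`, the flag of `a` is
`false` again because a rational tree has at most one child). Conversely if `top a L = none` then `b.kids = 0` and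
`top a C = none`: induction. (2) Induction on `a`: if `a` is not rational then `a = .cons a' b`; if `b.kids = 0` then `b = .pw e`, `a'`
is not rational, apply the induction hypothesis to `a'` and take `e :: es`; otherwise `es = []`. (3) Induction on `es`, for all `C`.
`es = []`: `a = X`, the flag is `true`; `X = .cons x y`, `y.kids ≠ 0`. `e :: es`: `a = .cons (chn es X) (.pw e)` has one child, its flag is
`false`, and all functions are the ones of `chn es X` in the context `rv (C + (-e, 1))` (the part of `.pw e` with the flag `false` is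
`0`, `ed1` and `rb1` with the flag `false` are `0`). (4) Induction on `es`. (5) `dt C (rv w + (-e, 1)) = dt (C + (-e, 1)) (rv w) =
dt (rv (C + (-e, 1))) w` (`SFIN`, last part, or direct calculation with `ring`), induction on `es`. (6) Induction on `es` for all
`v`: `lch (e :: es) (rv v) = lch es (rv (rv v + (-e, 1))) = lch es (rv (cvec [e] v)) = rv (cvec es.reverse (cvec [e] v))`, and
`cvec (xs ++ ys) v = cvec xs (cvec ys v)`. -/
def CHN_Stmt : Prop :=
  (∀ (a : Tr) (L : ℤ × ℤ), (a.Rat ↔ top a L = none)) ∧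
  (∀ (a : Tr) (L : ℤ × ℤ) (acc : Multiset ℚ), a.Rat → decide (2 ≤ a.kids) = false ∧
    vt a acc false L = 0 ∧ eg a false L = 0 ∧ rb a false L = 0) ∧
  (∀ a : Tr, ¬ a.Rat → ∃ (es : List ℤ) (X : Tr), a = chn es X ∧ 2 ≤ X.kids ∧ X.size ≤ a.size) ∧
  (∀ (es : List ℤ) (X : Tr) (C : ℤ × ℤ), 2 ≤ X.kids →
    vt (chn es X) {Int.fract (slp C)} (decide (2 ≤ (chn es X).kids)) C =
        vt X {Int.fract (slp (lch es C))} true (lch es C) ∧
      eg (chn es X) (decide (2 ≤ (chn es X).kids)) C = eg X true (lch es C) ∧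
      rb (chn es X) (decide (2 ≤ (chn es X).kids)) C = rb X true (lch es C) ∧
      top (chn es X) C = some (slp (addv (lch es C) (vec X)), Int.fract (slp (lch es C)))) ∧
  (∀ (es : List ℤ) (X : Tr), vec (chn es X) = cvec es (vec X)) ∧
  (∀ (es : List ℤ) (C v : ℤ × ℤ), dt C (cvec es v) = dt (lch es C) v) ∧
  ∀ (es : List ℤ) (v : ℤ × ℤ), lch es (rv v) = rv (cvec es.reverse v)

/-- VTB (uses CHN (2) or a direct induction): facts on the vertices of a closed tree.

Proof. Claim for all `T`, `acc`, `f`, `L`: if `∀ b ∈ acc, Int.fract b = b`, `(f = true → 3 ≤ acc.card + T.kids)` and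
(`L.2 ≠ 0 → ∃ n : ℤ, acc.sum - slp L = n`) then the four properties hold for all `x ∈ vt T acc f L` with
`x.1.1 = dt L (vec T)`. Induction on `T`. `.pw e`: `x = (L + (-e, 1), acc)`, `slp x.1 = slp L - e`. `.cons a b`: for `a` in the context
`C = rv (L + vec b)`: `acc = {Int.fract (slp C)}`, `dt C (vec a) = dt L (vec (.cons a b))` (`dt (rv P) V = dt P (rv V)`,
`dt P V = (P + V).1`), flag `decide (2 ≤ a.kids)`. For `b`: the new branch `Int.fract (slp (rv (vec a)))`, and
`slp (L + rv (vec a)) = slp L + slp (rv (vec a))` if `(L + rv (vec a)).2 = L.2 * (rv (vec a)).2 ≠ 0`. For the closed tree: `acc = 0`,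
`L = (0, 1)`, `slp L = 0`, `dt (0, 1) (vec T) = (vec T).1`. -/
def VTB_Stmt : Prop :=
  ∀ T : Tr, 3 ≤ T.kids → ∀ x ∈ vt0 T, x.1.1 = (vec T).1 ∧ 3 ≤ x.2.card ∧
    (∀ b ∈ x.2, Int.fract b = b) ∧ (x.1.2 ≠ 0 → ∃ n : ℤ, x.2.sum - slp x.1 = n)

/-! ## 3. Classes of vertices -/

/-- CLN (uses VTS of TV if convenient): the class sums in terms of the vertices with any number of
branches.

Proof. For a tree `T` in the context `L` let `h(L, T)` be the left sum for `vts L T`, and for `(acc, f)` let `V(acc, f, L, T)` be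
the right sum for `vt T acc f L`; `t = L + vec T`, `σ = slp t`, `[K] = 1` if `Kt D t = K` and `0` otherwise. Assume
`dt L (vec T) = t.1 ∣ D` (it is the same number for all vertices below). If `Kt D t = K ≠ 0` then `t.2 ≠ 0`, all weights at this
vertex are nonzero, slopes are additive, and `(D : ℚ) / K = σ` (compare ALZ (1) of TW). Claims:
(a) `V(acc, true, L, T) = h(L, T) + [K] ((acc.card - 1) (φ 0 - φ σ) - ∑_{β ∈ acc} (φ β - φ (σ - β)) + φ (slp L) - φ (σ - slp L))`;
(b) `V({Int.fract (slp C)}, f, C, a) = h(C, a)` for `f = true` and, if `a.kids ≤ 1`, also for `f = false`.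
(b) follows from (a) for the same tree: for `f = true` the bracket is `0 - (φ β - φ (σ - β)) + φ (slp C) - φ (σ - slp C) = 0`,
`β = Int.fract (slp C)` (period 1). For `f = false` and `a.kids ≤ 1` the difference is the term of the top vertex (VST (1)), which
has one or two branches: `alN = 0`, because for `a = .pw e` it has the branch `β = Int.fract (slp C)`, `σ = slp C - e`, so
`φ σ = φ β`, `φ (σ - β) = φ 0`; for `a = .cons a' (.pw e)` it has two branches `β`, `γ` with `β + γ ≡ σ` modulo 1, so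
`φ (σ - β) = φ γ`, `φ (σ - γ) = φ β` (if `[K] = 1`; otherwise the term is `0`).
(a) by induction on `T`. `.pw e`: `h = 0`, `alN φ σ acc = (acc.card - 2) (φ 0 - φ σ) - ∑ ..`, and `φ (slp L) = φ σ`,
`φ (σ - slp L) = φ 0` (`slp L = σ + e`). `.cons a b`: by (b) `V = h(C, a) + V(β_a ::ₘ acc, true, L + rv (vec a), b)`,
`β_a = Int.fract (slp (rv (vec a)))`; the total vector is the same; insert the induction hypothesis for `b`,
`slp (L + rv (vec a)) = σ - slp (vec b)`, and `h(L, .cons a b) = [K] al φ σ (slp L) (slp (rv (vec a))) (slp (vec b)) + h(C, a) +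
h(L + rv (vec a), b)`, `al φ σ b0 b1 b2 = φ 0 - φ σ - (φ b0 + φ b1 + φ b2) + (φ (σ - b0) + φ (σ - b1) + φ (σ - b2))`.
Closed tree: `acc = 0`, `L = (0, 1)`: the bracket is `-(φ 0 - φ σ) + φ 0 - φ σ = 0`. -/
def CLN_Stmt : Prop :=
  ∀ (D : ℤ) (T : Tr) (φ : ℚ → ℂ) (K : ℤ), D ≠ 0 → (vec T).1 ∣ D → K ≠ 0 → Per1 φ →
    ((vts (0, 1) T).map fun v => if Kv D v = K then alv φ D v else 0).sum =
      ((vt0 T).map fun x => if Kt D x.1 = K then alN φ (slp x.1) x.2 else 0).sum

/-- NDN: the alternating sums determine the slopes of a nondegenerate vertex.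

Proof. Write `≡` for congruence modulo 1. For a rational number `β` let `n(β)` be the number of the elements of `bs` which are
`≡ β` (`bs.count (Int.fract β)`), `n'` the same for `cs`, `N = bs.card`, `N'`. `n(0) = 0`. By `Ndg`: if `2 β ≢ σ` then `n(β) = 0` or
`n(σ - β) = 0`; if `2 β ≡ σ` then `n(β) ≤ 1`. With the indicator function `φ` of `β + ℤ`:
`alN = (N - 2) ([β ≡ 0] - [β ≡ σ]) - n(β) + n(σ - β)`.
(a) `σ ≢ 0`: the indicator function of `ℤ` gives `N - 2 + n(σ) > 0`. `σ ≡ 0`: not all `b` satisfy `2 b ≡ 0` (they would be `≡ 1/2`, at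
most one of them is); take `β = b`: the value is `-n(b) + n(-b) = -n(b) < 0`.
(b) For `β ≢ 0, σ`: `n(β) - n(σ - β) = n'(β) - n'(σ - β)`, so `n(β) = n'(β)` if `2 β ≢ σ` (`n(β) = max (n(β) - n(σ - β)) 0`).
First case `σ ≡ 0`: this holds for all `β ≢ 0, 1/2`, `n(0) = n'(0) = 0`, and `n(1/2), n'(1/2) ≤ 1`; the sums of `bs` and `cs` are
integers, so `(n(1/2) - n'(1/2)) / 2` is an integer and `n(1/2) = n'(1/2)`.
Second case `σ ≢ 0`: `β = σ` gives `N + n(σ) = N' + n'(σ)` (`n(0) = 0`). The two classes with `2 β ≡ σ` are `τ`, `τ + 1/2` (different from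
`0` and `σ`); put `d = n(σ) - n'(σ)`, `d1 = n(τ) - n'(τ)`, `d2 = n(τ + 1/2) - n'(τ + 1/2)`, so `N - N' = d + d1 + d2 = -d`,
`2 d = -(d1 + d2)`, `|d1|, |d2| ≤ 1`; the difference of the sums is an integer: `d σ + d1 τ + d2 (τ + 1/2) ≡ 0`. If `d1 + d2 = 0`
then `d = 0` and `d1 τ + d2 (τ + 1/2) ≡ d2 / 2`, so `d1 = d2 = 0`. If `d1 = d2 = ±1` then `d = ∓1` and the difference is
`≡ ∓σ ± (2 τ + 1/2) ≡ 1/2`, a contradiction. So `n = n'`, and `bs = cs` (`Multiset.ext`, all elements are their own fractional parts). -/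
def NDN_Stmt : Prop :=
  ∀ (σ : ℚ) (bs : Multiset ℚ), 3 ≤ bs.card → (∀ b ∈ bs, Int.fract b = b) → (0 : ℚ) ∉ bs →
    Ndg σ bs → (∃ n : ℤ, bs.sum - σ = n) →
    (∃ φ : ℚ → ℂ, Per1 φ ∧ alN φ σ bs ≠ 0) ∧
    ∀ cs : Multiset ℚ, 3 ≤ cs.card → (∀ b ∈ cs, Int.fract b = b) → (0 : ℚ) ∉ cs → Ndg σ cs →
      (∃ n : ℤ, cs.sum - σ = n) → (∀ φ : ℚ → ℂ, Per1 φ → alN φ σ bs = alN φ σ cs) → bs = cs

/-- TAB (uses CLN, VTB, NDN): first order data determine the vertices of generic trees.

Proof. Let `D` be as in `Fod`, `D ≠ 0`. For `x ∈ vt0 T`: `x.1.1 = (vec T).1 ∣ D` (VTB), `x.1.2 ≠ 0`, so `Kt D x.1 ≠ 0` and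
`(D : ℚ) / Kt D x.1 = slp x.1`: `Kt D x.1` determines `slp x.1` and conversely; by `dif` at most one `x ∈ vt0 T` (with multiplicity) has
`Kt D x.1 = K`. The same for `T'`. So for every `K ≠ 0` the class sum (CLN) is `alN φ (slp x.1) x.2` for this `x` or `0` if there is
none. If `x ∈ vt0 T` then by NDN (a) there is `φ` with a nonzero sum for `K = Kt D x.1`, so there is `x' ∈ vt0 T'` with
`Kt D x'.1 = K`, `slp x'.1 = slp x.1` and `alN φ σ x.2 = alN φ σ x'.2` for all `φ`, so `x'.2 = x.2` by NDN (b). By symmetry the elements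
of `vs0 T` and `vs0 T'` are the same, and both are without repetitions by `dif` (`Multiset.Nodup.of_map`,
`Multiset.Nodup.ext`). -/
def TAB_Stmt : Prop := ∀ T T' : Tr, Gen T → Gen T' → Fod T T' → vs0 T = vs0 T'

/-! ## 4. Edges -/

/-- EDS: the forms.

Proof. `fmv P V x y = (P.1 y + P.2 x) (x V.2 - y V.1) / dt P V`, `dt P V = P.1 V.2 + V.1 P.2`. (1) Identities (all with `ring` after
unfolding): `fmv V P x y = fmv P V x (-y)`; `fmv (rv P) V x y = fmv P (rv V) (-y) x`; `fmv (addv P (k, 1)) V x y =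
fmv P (addv V (k, 1)) (x + k y) y`; `fmv (k • P) V = fmv P V` if `k ≠ 0`. (Also for `dt = 0`, when both sides are `0`; `dt (rv P) V =
dt P (rv V)`, `dt (addv P (k, 1)) V = dt P (addv V (k, 1))`, `dt (k • P) V = k * dt P V`.) (2) `Eqf` is an equivalence relation (inverse
matrix, product of matrices). (3) `P.2, V.2, dt P V ≠ 0`: divide numerator and denominator by `P.2 V.2`:
`fmv P V x y = (x - b y) (x - b y + σ y) / σ` with `b = slp V`, `σ = slp P + slp V`, so `σ - b = slp P`. (4) `fm σ (b + n) (x + n y) y =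
fm σ b x y`; `fm σ (σ - b) x (-y) = fm σ b x y`: `(x + (σ - b) y) (x + (σ - b) y - σ y) = (x + (σ - b) y) (x - b y)`. (5) `Sym D (Fc p)`: if two
functions are equivalent then so are the propositions in `Fc`; in `scale` `dt (k • P) V ∣ D ≠ 0` gives `k ≠ 0`. (6) `Fc p P V`:
(3) and `Eqf (fm σ b) (fm σ (Int.fract b))` by (4), `Int.fract b = b + (-⌊b⌋)`. -/
def EDS_Stmt : Prop :=
  (∀ (D : ℤ) (p : ℚ × ℚ), D ≠ 0 → Sym D (Fc p)) ∧
  (∀ (p : ℚ × ℚ) (P V : ℤ × ℤ), P.2 ≠ 0 → V.2 ≠ 0 → dt P V ≠ 0 →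
    Fc p P V = ic p (slp P + slp V, Int.fract (slp V))) ∧
  ((∀ p, Se p p) ∧ (∀ p q, Se p q → Se q p) ∧ (∀ p q r, Se p q → Se q r → Se p r)) ∧
  ((∀ (σ b : ℚ) (n : ℤ), Se (σ, b) (σ, b + n)) ∧ ∀ σ b : ℚ, Se (σ, b) (σ, σ - b)) ∧
  ((∀ f g, Eqf f g → Eqf g f) ∧ ∀ f g h, Eqf f g → Eqf g h → Eqf f h) ∧
  ((∀ P V, Eqf (fmv P V) (fmv V P)) ∧ (∀ P V, Eqf (fmv (rv P) V) (fmv P (rv V))) ∧
    ∀ (P V : ℤ × ℤ) (k : ℤ), Eqf (fmv (addv P (k, 1)) V) (fmv P (addv V (k, 1)))) ∧
  ∀ P V : ℤ × ℤ, P.2 ≠ 0 → V.2 ≠ 0 → dt P V ≠ 0 →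
    Eqf (fmv P V) (fm (slp P + slp V) (Int.fract (slp V)))

/-- EVN (uses EDS, NLE of TW): the value of the combination of a closed tree.

Proof. `F = Fc p` is symmetric for `D = (vec T).1` (EDS); all pairs `(P, V)` which occur have `dt P V = (vec T).1`. Put
`S(L, T) = evF F (NL L T) - F L (vec T)`, `t = L + vec T`, `[t] = F t (0, 1)`.
(i) `S(L, .pw e) = F L (-e, 1) = [t]` (`shift` with `V = (0, 1)`).
(ii) `S(L, .cons a b) = -[t] + S(C, a) + S(L + rv (vec a), b)` if `t.2 ≠ 0`: `NL L (.cons a b)` has the values `-[t] + F (rv a + b) L +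
F (L + b) (rv a) + F (L + rv a) b` (vertex), `-2 F (L + b) (rv a) - 2 F (L + rv a) b`, and `F C a = F (L + b) (rv a)` (`rot`),
`F (rv a + b) L = F L (vec (.cons a b))` (`swap`).
(iii) `S(L, .cons a (.pw e)) = S(C, a)` for all weights: NLE, proof of part (1): if one vector of the vertex is `(k, 1)` and the
two others are `U`, `W` then `evF F (nv v) = 2 F (U + (k, 1)) W`; here `U = L`, `W = rv (vec a)`, `k = -e`; and
`F L (vec (.cons a (.pw e))) = F (L + (-e, 1)) (rv (vec a)) = F C (vec a)`. (The lemma on `nv` is in Pool/Agent/TW/Nle.lean; look for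
it there, or prove it again.)
(iv) `S(C, a) = F C (vec a)` for rational `a`: (iii), (i) and `F C (vec a) = F C' (vec a')` for `a = .cons a' (.pw e)` (as in (iii)).
(v) By (ii), (i): for a tree whose top vertex has `t.2 ≠ 0`: `S(L, T) = -(T.kids - 1) [t] + ∑ S(C_i, a_i)` over the children.
Claim (induction on `T`): for all `L`, `acc` with `dt L (vec T) = ± (vec T0).1 ≠ 0`, `x.1.2 ≠ 0` for all `x ∈ vt T acc true L`:
`S(L, T) = ∑_{x ∈ vt T acc true L} -(x.2.card - 2) ic p (slp x.1, 0) + ∑_{r ∈ rb T true L} ic p r + (acc.card - 1) [t]`; and for a child `a`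
in the context `C` with the flag `f = decide (2 ≤ a.kids)` and `¬ a.Rat`: `S(C, a) = ∑_{x ∈ vt a {..} f C} .. + ∑_{r ∈ rb a f C} ic p r` (for
`a.kids ≥ 2` this is the first claim with `acc.card = 1`; for `a = .cons a' (.pw e)` it is the claim for `a'` by (iii)); and for
rational `a`: `S(C, a) = F C (vec a) = F (L + vec b) (rv (vec a)) = ic p (σ, Int.fract (slp (rv (vec a))))`, the term of `rb1`.
`[t] = ic p (slp t, 0)` by EDS with `P = t`, `V = (0, 1)`. `T = .pw e` in the first claim: `x.2 = acc`, the right side is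
`-(acc.card - 2) [t] + (acc.card - 1) [t] = [t]`. `T = .cons a b`: the new branch increases `acc.card` by 1, compensated by `-[t]`.
Closed tree: `evF F (NL (0, 1) T) = S((0, 1), T) + F (0, 1) (vec T)`, `acc = 0`, `t = vec T`, `F (0, 1) (vec T) = [t]` (`swap`). -/
def EVN_Stmt : Prop :=
  ∀ (T : Tr) (p : ℚ × ℚ), 3 ≤ T.kids → (vec T).1 ≠ 0 → (∀ x ∈ vt0 T, x.1.2 ≠ 0) →
    evF (Fc p) (NL (0, 1) T) =
      ((vt0 T).map fun x => -((x.2.card : ℂ) - 2) * ic p (slp x.1, 0)).sum +
        ((rb0 T).map (ic p)).sum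

/-- EGA (uses CHN, VST, EDS): edges and branches.

Proof. Let `B x = x.2.map fun b => (slp x.1, b)`. (2) Claims, by induction on `T` (for all `acc`, `L`):
`(vt T acc true L).bind B = rb T true L + (eg T true L).map fst + (eg T true L).map snd + acc.map (fun b => (σ, b))`, `σ =
slp (L + vec T)`; `(vt T acc false L).bind B = rb T false L + (eg T false L).map fst + (eg T false L).map snd`; and for a child `a` in
the context `C` with `f = decide (2 ≤ a.kids)`: `(vt a {Int.fract (slp C)} f C).bind B = rb a f C + (eg a f C).map fst +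
(eg a f C).map snd + Q`, `Q = {q}` if `top a C = some q` and `0` if `top a C = none`. The last claim: `a.kids ≥ 2`: the first claim,
`top a C = some (σ, Int.fract (slp C))`; `a = .cons a' (.pw e)`: the claim for `a'` in the context `rv (C + (-e, 1))` (`top a C` is the
same); `a = .pw e`: all terms are `0`. First claim for `.cons a b`: `ed1` and `rb1` contribute together the branch
`(σ, Int.fract (slp (rv (vec a))))` and the end `Q`; the rest is the claims for `a` and for `b` (with one more element in `acc`).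
(1) Claim: for all `T`, `f`, `L` with `dt L (vec T) ≠ 0` and `x.1.2 ≠ 0` for all `x ∈ vt T acc f L`: all `e ∈ eg T f L` satisfy
`Se e.1 e.2`. Induction on `T`; for `.cons a b` only the edge in `ed1` is new: `f = true`, `top a C = some q`, so `a` is not rational, `a = chn es X`,
`2 ≤ X.kids`, `q = (slp (P + vec X), Int.fract (slp P))`, `P = lch es C` (CHN). The total vectors `t = L + vec T` and `P + vec X` of the two vertices
have nonzero second component (VST: both are in `vt`), so all weights are nonzero: by the last part of EDS `e.1 = (σ, Int.fract (slp (rv (vec a))))`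
has the form `fmv (L + vec b) (rv (vec a))` up to equivalence, and `q` has the form `fmv (vec X) P`. The chain of equivalences:
`fmv (L + vec b) (rv (vec a)) ~ fmv (rv (L + vec b)) (vec a) = fmv C (cvec es (vec X)) ~ fmv (lch es C) (vec X) ~ fmv (vec X) P` with
`fmv C (rv w + (-e, 1)) ~ fmv (C + (-e, 1)) (rv w) ~ fmv (rv (C + (-e, 1))) w` for each vertex of the chain. (`dt` is the same
everywhere.) -/
def EGA_Stmt : Prop :=
  ∀ T : Tr, 3 ≤ T.kids → (vec T).1 ≠ 0 → (∀ x ∈ vt0 T, x.1.2 ≠ 0) →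
    (∀ e ∈ eg0 T, Se e.1 e.2) ∧ br0 T = rb0 T + (eg0 T).map Prod.fst + (eg0 T).map Prod.snd

/-- INE (uses EVN, EGA, EDS): the classes of the edges.

Proof. `Fc p` is symmetric (EDS), so by `Fod` the values `evF` agree. In EVN the first sum depends only on `vs0` (it is the sum of
`fun x => -(x.2.card - 2) * ic p (x.1, 0)` over `vs0 T`), so `∑_{rb0 T} ic p = ∑_{rb0 T'} ic p`. `br0 T = (vs0 T).bind fun x =>
x.2.map fun b => (x.1, b)` depends only on `vs0` as well, so by EGA (2) `∑_{eg0} (ic p e.1 + ic p e.2)` is the same for both, and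
`ic p e.1 = ic p e.2` by EGA (1) and EDS. Divide by 2. -/
def INE_Stmt : Prop :=
  ∀ T T' : Tr, Gen T → Gen T' → Fod T T' → vs0 T = vs0 T' → ∀ p : ℚ × ℚ,
    ((eg0 T).map fun e => ic p e.1).sum = ((eg0 T').map fun e => ic p e.1).sum

/-- MATE (uses EGA, EDS, VST): compatibility of two generic trees.

Proof. `eg T true (0, 1) = eg0 T`, `rb T true (0, 1) = rb0 T`; `br0 T = br0 T'`. `mate`: `(p, q) ∈ eg0 T`, `(p, q') ∈ eg0 T'`. By EGA
`{p, q} ≤ br0 T` and `{p, q'} ≤ br0 T' = br0 T`, all of them are in the class of `p` (`Se p p`, `Se p q`, `Se p q'`). The multiset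
`s` of all `r ∈ br0 T` with `Se p r` (`Multiset.filter`, classical) has `s.card ≤ 2` by `edg` for the edge `(p, q)` of `T`, so
`s = {p, q} = {p, q'}` and `q = q'`. `rat`: `(p, q) ∈ eg0 T`, `p ∈ rb0 T'`: the sum of `ic p` over the `e.1`, `e ∈ eg0 T`, is at least 1 (all
summands are `0` or `1`, `ic p p = 1`), so there is `e' ∈ eg0 T'` with `Se p e'.1`, hence `Se p e'.2` (EGA (1)), and
`{p, e'.1, e'.2} ≤ br0 T' = br0 T` (EGA (2)) has three elements in the class of `p`, a contradiction to `edg` for `(p, q)`.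
`rat'`: the same with `T` and `T'` exchanged. `vert`: by VST (1) `vd T (0, 1) ≤ vs0 T` and `vd T' (0, 1) ≤ vs0 T' = vs0 T`, and by `dif`
two elements of `vs0 T` with the same first component are equal (`Multiset.inj_on_of_nodup_map`). -/
def MATE_Stmt : Prop :=
  ∀ T T' : Tr, Gen T → Gen T' → (vec T).1 ≠ 0 → (vec T').1 ≠ 0 → vs0 T = vs0 T' →
    (∀ p : ℚ × ℚ, ((eg0 T).map fun e => ic p e.1).sum = ((eg0 T').map fun e => ic p e.1).sum) →
    Cmp T T' (0, 1) (0, 1)

end Pool.Agent.TZ
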