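import Pool.Agent.TZ.Defs

/-!
Theorem Z (MP_31fd3b_gt): mutations preserve the number of components. Statement with its proof.
-/

namespace Pool.Agent.TZ

open Pool.Agent.LibH11.Sliced Pool.Agent.MTR Pool.Agent.MTA Pool.Agent.UA Pool.Agent.UB
open Pool.Agent.TwoBr Pool.Agent.Mont Pool.Agent.TV Pool.Agent.TW
open Pool.Agent.TB hiding vec

/-- MLK: mutations and moves preserve long knots.

Proof (2-colourings of the components; any other proof is welcome). Colours are `Bool`, a colouring of a level with `n`
strands is `a : ℕ → Bool`, of which only the values at `j < n` matter. Full colourings: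
`FC : Diag → ℕ → (ℕ → Bool) → (ℕ → Bool) → Bool → Prop` (bottom colours `a`, top colours `b`, flag `f = true` iff some colour on some
level is `true`), recursively: `FC [] n a b f`: `a`, `b` agree on `j < n` and `f = true ↔ ∃ j < n, a j = true`.
`FC ((crs e, i) :: w) n a b f`: `FC w n (fun j => a (swap i (i + 1) j)) b f`. `FC ((cap, i) :: w) n a b f`: `a i = a (i + 1)` and there is `f'` with
`FC w (n - 2) (fun j => a (if j < i then j else j + 2)) b f'` and `f = (f' || a i)`. `FC ((cup, i) :: w) n a b f`: there is `z` with
`FC w (n + 2) (fun j => if j < i then a j else if j < i + 2 then z else a (j - 2)) b f`. (Use it only if `cnt n w = some m`.)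
(1) `FC` depends only on the values of `a` below `n` and of `b` below `m`. (2) Composition: `FC (x ++ y) n a b f` iff there are `c`, `f1`, `f2` with
`FC x n a c f1`, `FC y k c b f2`, `f = (f1 || f2)` (`cnt n x = some k`). (3) Strands on the left and right: if `cnt p t = some q`, `i + p ≤ n`:
`FC (sh i t) n a b f` iff `b j = a j` for `j < i`, `b (q + j) = a (p + j)` for `i ≤ j < n - p`, and there is `f'` with `FC t p (fun j => a (i + j))
(fun j => b (i + j)) f'` and `f = (f' || [a is true at a strand outside])`. (4) Symmetries: `FC (hD p t) p a b f` iff
`FC t p (a reversed) (b reversed) f` (`a reversed = fun j => a (p - 1 - j)`); `FC (flipD t) q b a f` iff `FC t p a b f` (`cnt p t = some q`).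
(5) `FC t p a b f` implies that the number of the `true` values of `a` below `p` and of `b` below `q` together is even, and that there is `f'` with
`FC t p (!a) (!b) f'` (complement; add the colouring with all colours `true`); `FC t p a b f` with some `a j = true` or `b j = true`
implies `f = true`; the zero colouring: `FC t p 0 0 false`.
(6) For `p = q = 2`: `FC t' 2 a b f ↔ FC t 2 a b f` if `Rot3 t t'`: by (4) `FC t'` is `FC t` with the four colours permuted by an element of the Klein
group (reversal of both pairs, exchange of the pairs, both; `pD 2 t = flipD (hD 2 t)`). If the four colours are not all equal, then an even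
pattern (two `true`, two `false`) is mapped to itself or to its complement, the flag is `true` in both cases, and for odd patterns there
is no full colouring (5). If all four are equal the pattern is fixed.
(7) `IsLongKnot w ↔ cnt 1 w = some 1 ∧ ∀ b f, FC w 1 (fun _ => false) b f → f = false`. Say that a state `s = (n, lab, c)` is good with `j0 < n` if
`lab j < c` for `j < n`, `lab j ≠ lab j0` for `j < n`, `j ≠ j0`, and every other `j < n` has exactly one partner `j' < n`, `j' ≠ j`, `lab j' = lab j`.
Claim: for good `s`, `j0` and `cnt n w = some 1`: `(∃ lab c, run w s = some (1, lab, c))` iff for all `a` with `a j0 = false` which are constant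
on the labels (`lab j = lab k → a j = a k` for `j, k < n`) and all `b`, `f`: `FC w n a b f → f = false`. Induction on `w`. `[]`: `n = 1`, `a 0 = false`.
`crs`, `cup`: bijections between the colourings of `s` and of the new state (the new label of `cup` has the colour `z`). `cap` with
`lab i ≠ lab (i + 1)`: the colourings `a` of `s` with `a i = a (i + 1)` correspond to the colourings of the new state, because at least one of the
two labels occurs at another position (its partner; at most one of `i`, `i + 1` is `j0`), and `a` is zero iff the new one is; the new `j0` is the old one,
or the partner of the other end if `j0 = i` or `j0 = i + 1`. `cap` with `lab i = lab (i + 1)`: `run` is `none`, and the colouring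
which is `true` at `i` and `i + 1` only, followed by the zero colouring, has the flag `true`. (If `cnt 1 w = some 1` fails then `w` is no long knot: `run_cnt`.)
(8) `Mu 1 x y`: induction, with `x` replaced by: `cnt 1 x = cnt 1 y` and `(∃ b, FC x 1 (fun _ => false) b true) ↔ (∃ b, FC y 1 (fun _ => false) b true)` or
directly `IsLongKnot x ↔ IsLongKnot y`: `eqd`: `EqD.isLongKnot` (both directions, `EqD.symm`); `mut`: (2), (3), (6), (7); `symm`, `trans`. -/
def MLK_Stmt : Prop := ∀ x y : Diag, Mu 1 x y → (IsLongKnot x ↔ IsLongKnot y)

end Pool.Agent.TZ
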