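import Pool.Agent.TZ.StA
import Pool.Agent.TZ.StC

/-!
Theorem Z for connected sums (MP_31fd3b_gt): connected sums of 2-bridge knots and generic arborescent
knots. Statements of the modules with their proofs. `Gs` is a list of closed trees with a vertex of at least three
branches at the root, `Us` a list of rational trees.
-/

open scoped BigOperators

namespace Pool.Agent.TZ

open Pool.Agent.LibH11.Sliced Pool.Agent.MTR Pool.Agent.MTA Pool.Agent.UA Pool.Agent.UB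
open Pool.Agent.TwoBr Pool.Agent.Mont Pool.Agent.TV Pool.Agent.TW
open Pool.Agent.TB hiding vec

/-! ## 1. Definitions -/

/-- all vertices of a list of closed trees -/
def V0 (Gs : List Tr) : Multiset ((ℤ × ℤ) × Multiset ℚ) := (Gs.map vt0).sum

/-- the same with the slope sums -/
def VS0 (Gs : List Tr) : Multiset (ℚ × Multiset ℚ) := (Gs.map vs0).sum

/-- all branches -/
def BR0 (Gs : List Tr) : Multiset (ℚ × ℚ) := (Gs.map br0).sum

/-- all edges -/
def EG0 (Gs : List Tr) : Multiset ((ℚ × ℚ) × (ℚ × ℚ)) := (Gs.map eg0).sum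

/-- the form of a 2-bridge knot -/
def f2 (U : Tr) (x y : ℤ) : ℚ := fmv (0, 1) (vec U) x y

/-- the two ends of an edge -/
def uo (e : (ℚ × ℚ) × (ℚ × ℚ)) : Multiset (ℚ × ℚ) := {e.1, e.2}

/-- nondegenerate lists -/
structure NdS (Gs Us : List Tr) : Prop where
  root : ∀ T ∈ Gs, 3 ≤ T.kids
  rat : ∀ U ∈ Us, U.Rat
  wt : ∀ x ∈ V0 Gs, x.1.2 ≠ 0
  nz : ∀ x ∈ V0 Gs, (0 : ℚ) ∉ x.2
  ndg : ∀ x ∈ V0 Gs, Ndg (slp x.1) x.2
  dif : ((V0 Gs).map fun x => slp x.1).Nodup
  two : ∀ e ∈ EG0 Gs, ∀ U ∈ Us, ¬ Eqf (fm e.1.1 e.1.2) (f2 U)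

/-- no edge has the form of the unknot -/
def Ntv (Gs : List Tr) : Prop := ∀ e ∈ EG0 Gs, ¬ Eqf (fm e.1.1 e.1.2) fun x y => ((x * y : ℤ) : ℚ)

/-- an edge has the same form only as its two ends -/
def Edg (Gs : List Tr) : Prop :=
  ∀ e ∈ EG0 Gs, ∀ s : Multiset (ℚ × ℚ), s ≤ BR0 Gs → (∀ q ∈ s, Se e.1 q) → s.card ≤ 2

/-- `G` gives the values of `F` in terms of the slopes -/
def Gv (D : ℤ) (F : ℤ × ℤ → ℤ × ℤ → ℂ) (G : ℚ × ℚ → ℂ) : Prop :=
  ∀ P V : ℤ × ℤ, P.2 ≠ 0 → V.2 ≠ 0 → dt P V ≠ 0 → dt P V ∣ D →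
    F P V = G (slp P + slp V, Int.fract (slp V))

/-! ## 2. First order data of lists -/

/-- FODL (uses LIEW, NZV, RSI, CLS, PLA, VTS; copy of `t_FODM`, Pool/Agent/TZ/Fodm.lean, or of the first half of
`TX.algx`, for lists). Form of the theorem: `theorem t_FODL (hLIE : LIEW_Stmt) (hNZV : ∀ t : Tr, Odd (vec t).1 → NVP t)
(hRSI : RSI_Stmt) (hCLS : TW.CLS_Stmt) (hPLA : PLA_Stmt) (hVTS : VTS_Stmt) : FODL_Stmt`.

Proof. `D` is the product of all `(vec t).1` (as in `algx`). -/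
def FODL_Stmt : Prop :=
  ∀ (Ts Ts' : List Tr) (h : IsLongKnot (cls Ts)) (h' : IsLongKnot (cls Ts')),
    Ts.length = Ts'.length → (∀ t ∈ Ts ++ Ts', Odd (vec t).1) →
    (∀ v : Knot → ℂ, IsFiniteType v → v (ofDiag (cls Ts) h) = v (ofDiag (cls Ts') h')) →
    ∃ D : ℤ, Odd D ∧ (∀ t ∈ Ts ++ Ts', (vec t).1 ∣ D) ∧
      (∀ (K : ℤ) (φ : ℚ → ℂ), K ≠ 0 → Per1 φ →
        ((VL Ts).map fun v => if Kv D v = K then alv φ D v else 0).sum =
          ((VL Ts').map fun v => if Kv D v = K then alv φ D v else 0).sum) ∧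
      ∀ F : ℤ × ℤ → ℤ × ℤ → ℂ, Sym D F → evF F (NLs Ts) = evF F (NLs Ts')

/-- CLL (uses CLN, VST, CHN): class sums of lists.

Proof. `VL (Gs ++ Us) = VL Gs ++ VL Us` (`flatMap`), and CLN for every tree. For a rational tree `U` the right side of CLN is `0`:
`U = .pw e`: `vt0 U = {((0, 1) + (-e, 1), 0)}`, `alN φ σ 0 = -2 (φ 0 - φ σ) = 0` because `σ = -e` is an integer (period 1).
`U = .cons a (.pw e)`, `a` rational: `vt a .. false .. = 0` (CHN (2)), `vt0 U = {(vec U, {β})}`, `β = Int.fract (slp (rv (vec a)))`; if `Kt D (vec U) = K ≠ 0`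
then `(vec U).2 ≠ 0`, `σ = slp (vec U) = slp (rv (vec a)) - e`, `φ σ = φ β`, `φ (σ - β) = φ 0`, so `alN = -(φ 0 - φ σ) - (φ β - φ (σ - β)) = 0`. -/
def CLL_Stmt : Prop :=
  ∀ (D : ℤ) (Gs Us : List Tr) (φ : ℚ → ℂ) (K : ℤ), D ≠ 0 → (∀ t ∈ Gs ++ Us, (vec t).1 ∣ D) →
    (∀ U ∈ Us, U.Rat) → K ≠ 0 → Per1 φ →
    ((VL (Gs ++ Us)).map fun v => if Kv D v = K then alv φ D v else 0).sum =
      ((V0 Gs).map fun x => if Kt D x.1 = K then alN φ (slp x.1) x.2 else 0).sum

/-- TABL (uses VTB, NDN; copy of `t_TAB`, Pool/Agent/TZ/Tab.lean, for lists). -/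
def TABL_Stmt : Prop :=
  ∀ (D : ℤ) (Gs Us Gs' Us' : List Tr), D ≠ 0 → NdS Gs Us → NdS Gs' Us' →
    (∀ t ∈ Gs ++ Gs', (vec t).1 ∣ D) →
    (∀ (K : ℤ) (φ : ℚ → ℂ), K ≠ 0 → Per1 φ →
      ((V0 Gs).map fun x => if Kt D x.1 = K then alN φ (slp x.1) x.2 else 0).sum =
        ((V0 Gs').map fun x => if Kt D x.1 = K then alN φ (slp x.1) x.2 else 0).sum) →
    VS0 Gs = VS0 Gs'

/-! ## 3. Values of symmetric functions -/

/-- GEX: every symmetric function is a function of the slopes.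

Proof. Put `G (σ, β) = F P V` for some `P`, `V` with the four properties and `slp P + slp V = σ`, `Int.fract (slp V) = β` if they exist
(`Classical.choose`), and `0` otherwise. It is well defined by the first part of the proof of NVE (`NVE.pair`, `NVE.red`,
Pool/Agent/TW/Nve.lean). -/
def GEX_Stmt : Prop :=
  ∀ (D : ℤ) (F : ℤ × ℤ → ℤ × ℤ → ℂ), D ≠ 0 → Sym D F → ∃ G : ℚ × ℚ → ℂ, Gv D F G

/-- EVG (adapt `t_EVN`, Pool/Agent/TZ/Evn.lean, and the proof of EGA (1), Pool/Agent/TZ/Ega.lean; uses VST, CHN): the value of the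
combination of a closed tree for every symmetric function.

Proof. First part: the proof of EVN with `F`, `G` instead of `Fc p`, `ic p` (only `Sym` and the formula `Gv` are used; all `dt` are
`± (vec T).1`, which divides `D`). Second part: the chain of equivalences in the proof of EGA (1) with equalities of values of `F`:
`F (L + b) (rv a) = F (rv (L + b)) a = F C (cvec es (vec X)) = F (lch es C) (vec X) = F (vec X) P`, by `rot`, `shift`, `swap`; the first and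
the last one are `G e.1` and `G e.2` by `Gv`. -/
def EVG_Stmt : Prop :=
  ∀ (D : ℤ) (F : ℤ × ℤ → ℤ × ℤ → ℂ) (G : ℚ × ℚ → ℂ) (T : Tr), D ≠ 0 → Sym D F → Gv D F G →
    3 ≤ T.kids → (vec T).1 ∣ D → (∀ x ∈ vt0 T, x.1.2 ≠ 0) →
    evF F (NL (0, 1) T) =
        ((vt0 T).map fun x => -((x.2.card : ℂ) - 2) * G (slp x.1, 0)).sum + ((rb0 T).map G).sum ∧
      ∀ e ∈ eg0 T, G e.1 = G e.2

/-- FGV (uses EVG, EGA, GEX): the values depend only on the vertices and the edges.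

Proof. Take `G` from GEX. By EVG and EGA (2) (`∑_{rb0} G = ∑_{br0} G - ∑_{eg0} (G e.1 + G e.2)`) the left side is the sum over `VS0 Gs` of
`-(x.2.card - 2) G (x.1, 0)`, plus the sum of `G` over `BR0 Gs = (VS0 Gs).bind ..`, minus the sum over `(EG0 Gs).map uo` of
`(s.map G).sum`. -/
def FGV_Stmt : Prop :=
  ∀ (D : ℤ) (F : ℤ × ℤ → ℤ × ℤ → ℂ) (Gs Gs' : List Tr), D ≠ 0 → Sym D F →
    (∀ T ∈ Gs ++ Gs', 3 ≤ T.kids ∧ (vec T).1 ∣ D) → (∀ x ∈ V0 Gs + V0 Gs', x.1.2 ≠ 0) →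
    VS0 Gs = VS0 Gs' → (EG0 Gs).map uo = (EG0 Gs').map uo →
    evF F (NLs Gs) = evF F (NLs Gs')

/-! ## 4. Edges of lists -/

/-- INL (uses EVN, EGA, EDS, NLE of TW): the numbers of edges and of 2-bridge knots in a class.

Proof. `Fc p` is symmetric (EDS). `evF` of `NLs (Gs ++ Us)` is the sum over the trees. For `T ∈ Gs`: EVN, EGA as in INE (Pool/Agent/TZ/Ine.lean):
the first sum and the sum over `br0` depend only on `vs0`, so the value is (something depending on `VS0`) `- 2 ∑_{EG0} ic p e.1`. For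
rational `U` (so `T2 U`): NLE (1): `evF F (NL (0, 1) U) = 2 F (prT U).1 (prT U).2`. Divide by `-2`. -/
def INL_Stmt : Prop :=
  ∀ (D : ℤ) (Gs Ws Gs' Ws' : List Tr), D ≠ 0 → (∀ t ∈ (Gs ++ Ws) ++ (Gs' ++ Ws'), (vec t).1 ∣ D) →
    (∀ T ∈ Gs ++ Gs', 3 ≤ T.kids) → (∀ U ∈ Ws ++ Ws', U.Rat) →
    (∀ x ∈ V0 Gs + V0 Gs', x.1.2 ≠ 0) → VS0 Gs = VS0 Gs' →
    (∀ F : ℤ × ℤ → ℤ × ℤ → ℂ, Sym D F → evF F (NLs (Gs ++ Ws)) = evF F (NLs (Gs' ++ Ws'))) →
    ∀ p : ℚ × ℚ,
      ((EG0 Gs).map fun e => ic p e.1).sum - (Ws.map fun U => Fc p (prT U).1 (prT U).2).sum =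
        ((EG0 Gs').map fun e => ic p e.1).sum - (Ws'.map fun U => Fc p (prT U).1 (prT U).2).sum

/-- CRD: a tree has one edge less than vertices.

Proof. Claim by induction on `T` (all `acc`, `f`, `L`): `(vt T acc f L).card = (eg T f L).card + (if f then 1 else the number of the children
of `T` which are not rational)`. For a child `a` with `f = decide (2 ≤ a.kids)` this number is `1` if `a` is not rational and `0` if it is
rational, and `ed1` (for `f = true`) has one element if and only if `a` is not rational (CHN (1)). -/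
def CRD_Stmt : Prop := ∀ T : Tr, 3 ≤ T.kids → (eg0 T).card + 1 = (vt0 T).card

/-- EQL (uses EGA, EDS, CRD, VST): the edges of two lists are the same.

Proof. Write `E(p)`, `W(p)`, `E'(p)`, `W'(p)` for the four sums (natural numbers), so `E(p) - W(p) = E'(p) - W'(p)`. (i) For rational `U` the
function `fmv (prT U).1 (prT U).2` is equivalent to `f2 U` (`.pw e`: equal; `.cons a (.pw e)`: `fmv (rv a) (-e, 1) ~ fmv (rv a + (-e, 1)) (0, 1) ~
fmv (0, 1) (vec U)`, EDS), and `f2 (.pw 1) x y = -x (x + y)` is equivalent to `x y`. So if `e ∈ EG0 Gs` and its form is not trivial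
(`¬ Eqf (fm e.1.1 e.1.2) (x y)`) then `W(e.1) = 0` by `two`; the same for `Gs'`. (ii) By `Edg` an edge `e` of `Gs` is the only edge in its class:
`E(e.1) = 1`, because for another edge `f` in the class `{e.1, e.2, f.1, f.2} ≤ BR0 Gs` (EGA (2): `BR0 = RB0 + EG0.map fst + EG0.map snd`; EGA (1):
the ends are equivalent) has four elements; and every pair `s ≤ BR0 Gs` with two elements in the class is `{e.1, e.2}` (the multiset of all
branches in the class has at most two elements). (iii) Let `e ∈ EG0 Gs` have a nontrivial form: `W(e.1) = 0`, so `E'(e.1) = E(e.1) + W'(e.1) ≥ 1`, so there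
is an `e' ∈ EG0 Gs'` in the class, which has a nontrivial form, so `W'(e.1) = 0`, `E'(e.1) = 1`; `{e'.1, e'.2} ≤ BR0 Gs' = BR0 Gs`, so
`uo e' = uo e` by (ii). Conversely let `e' ∈ EG0 Gs'` have a nontrivial form: `W'(e'.1) = 0`, so `E(e'.1) = E'(e'.1) + W(e'.1) ≥ 1`, there is `e ∈ EG0 Gs` in the
class, and `uo e = uo e'` as before. (iv) So for the edges with nontrivial forms the multisets of the `uo` agree (both without repetitions by (ii)). If
`Ntv Gs ∧ Ntv Gs'` we are done. Otherwise `Gs.length = Gs'.length`; by CRD `EG0 Gs` and `EG0 Gs'` have the same number of elements (`VS0 Gs = VS0 Gs'`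
gives the number of the vertices), so the numbers of the edges with trivial forms agree. If there is none we are done. If there is one
in `Gs`, it is the only one in its class by (ii), so there is exactly one in `Gs'`, both ends are in `BR0 Gs' = BR0 Gs` in the same class, so the
`uo` agree by (ii). (v) `Edg Gs'`: for `e' ∈ EG0 Gs'` there is `e ∈ EG0 Gs` with `uo e = uo e'`, so `Se e.1 e'.1`; `BR0 Gs' = BR0 Gs`. -/
def EQL_Stmt : Prop :=
  ∀ (Gs Us Gs' Us' : List Tr) (a b : ℕ), NdS Gs Us → NdS Gs' Us' →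
    (∀ t ∈ Gs ++ Gs', (vec t).1 ≠ 0) → Edg Gs →
    (Gs.length = Gs'.length ∨ (Ntv Gs ∧ Ntv Gs')) → VS0 Gs = VS0 Gs' →
    (∀ p : ℚ × ℚ,
      ((EG0 Gs).map fun e => ic p e.1).sum -
          ((Us ++ List.replicate a (Tr.pw 1)).map fun U => Fc p (prT U).1 (prT U).2).sum =
        ((EG0 Gs').map fun e => ic p e.1).sum -
          ((Us' ++ List.replicate b (Tr.pw 1)).map fun U => Fc p (prT U).1 (prT U).2).sum) →
    (EG0 Gs).map uo = (EG0 Gs').map uo ∧ Edg Gs'

/-- MATL (uses EGA, EDS, VST; compare `t_MATE`, Pool/Agent/TZ/Mate.lean): compatibility.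

Proof. `BR0 Gs = BR0 Gs'` (function of `VS0`). `br0 T1 = br0 T'`; `fst + snd` of the edges is the sum of the `uo`, so `rb0 T1 = rb0 T'`
by EGA (2). `mate`: `(p, q) ∈ eg0 T`, `(p, q') ∈ eg0 T1`: `{p, q'} = uo e'` with `e' ∈ eg0 T'`, so `{p, q'} = uo f` with `f ∈ EG0 Gs`. `{p, q}` and `{p, q'}` are both
`≤ BR0 Gs` and in the class of `p` (EGA (1)), so they are equal by `Edg` for the edge `(p, q)`. `rat`: `(p, q) ∈ eg0 T`, `p ∈ rb0 T1 = rb0 T'`; `{p, q} = uo e'` with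
`e' ∈ EG0 Gs'`, so `{p, p, q} ≤ RB0 Gs' + ∑ uo = BR0 Gs' = BR0 Gs`, against `Edg`. `rat'`: `(p, q) ∈ eg0 T1`, `p ∈ rb0 T`; `{p, q} = uo f`, `f ∈ EG0 Gs`,
`{p, p, q} ≤ BR0 Gs`, against `Edg` for `f` (`Se f.1 p`, as `f.1 = p` or `f.2 = p`). `vert`: `vd T (0, 1) ≤ vs0 T ≤ VS0 Gs`, `vd T1 (0, 1) ≤ vs0 T1 = vs0 T' ≤ VS0 Gs' = VS0 Gs`, and the first
components are different (`dif`). -/
def MATL_Stmt : Prop :=
  ∀ (Gs Gs' : List Tr) (T T' T1 : Tr), (∀ G ∈ Gs ++ Gs', 3 ≤ G.kids ∧ (vec G).1 ≠ 0) →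
    (∀ x ∈ V0 Gs + V0 Gs', x.1.2 ≠ 0) → ((V0 Gs).map fun x => slp x.1).Nodup → Edg Gs →
    VS0 Gs = VS0 Gs' → (EG0 Gs).map uo = (EG0 Gs').map uo → T ∈ Gs → T' ∈ Gs' →
    3 ≤ T1.kids → (vec T1).1 ≠ 0 → vt0 T1 = vt0 T' → (eg0 T1).map uo = (eg0 T').map uo →
    Cmp T T1 (0, 1) (0, 1)

/-- VDE (the same hypotheses as SPN; adapt Pool/Agent/TZ/Spn.lean: the same induction): compatible trees have the same
vertices.

Proof. Induction on the size as in SPN. `b = .pw e`: both sides are `0`. `b = .cons a b1`: after PRM and SFT (which do not change `vd`)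
`b' = .cons a2 b2`. `vd b L` is the part of `a` plus `vd b1 (L + rv (vec a))` (VST (1)); rational `a`, `a2` contribute `0` (CHN (2)); otherwise
`vt (chn es X) .. = vt X {Int.fract (slp P)} true P` has the top vertex, with the slope data `(σ1, Int.fract (slp P) ::ₘ cf X)`, which is the same for `X2`, and
`vd X P = vd X3 P3 = vd X2 P2` by the induction hypothesis and SHF. -/
def VDE_Stmt : Prop :=
  ∀ (b b' : Tr) (L L' : ℤ × ℤ), L.2 ≠ 0 → L'.2 ≠ 0 → (vec b).2 ≠ 0 → (vec b').2 ≠ 0 →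
    dt L (vec b) ≠ 0 → dt L' (vec b') ≠ 0 → slp L = slp L' → slp (vec b) = slp (vec b') →
    cf b = cf b' → (∀ x ∈ vt b 0 false L, x.1.2 ≠ 0) → (∀ x ∈ vt b' 0 false L', x.1.2 ≠ 0) →
    Cmp b b' L L' → vd b L = vd b' L'

/-! ## 5. Matching of the summands -/

/-- PML: a matching of two lists.

Proof. Induction on `l`. `l = []`: all `f y`, `y ∈ l'`, are `0`, so `l' = []`. `l = x :: l0`: take `y ∈ l'` with `f x = f y`, `R x y`;
`l'.Perm (y :: l0')` (`List.perm_cons_erase` or `List.append_of_mem`); the sums of `l0`, `l0'` agree (cancel). For `z ∈ l0` the partner `w ∈ l'` is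
not equal to `y`: otherwise `f z = f y = f x`, but `f x` and `f z` are disjoint (`Nodup` of the sum) and not `0`. So `w ∈ l0'`. -/
def PML_Stmt : Prop :=
  ∀ (α β : Type) (f : α → Multiset β) (R : α → α → Prop) (l l' : List α),
    (∀ x ∈ l ++ l', f x ≠ 0) → ((l.map f).sum).Nodup → (l.map f).sum = (l'.map f).sum →
    (∀ x ∈ l, ∃ y ∈ l', f x = f y ∧ R x y) → ∃ l'' : List α, l''.Perm l' ∧ List.Forall₂ R l l''

/-- TWB (uses SYF, CMB of TW, FIT, FCG of UA; `AsmT.pad`, Pool/Agent/TV/AsmT.lean): the 2-bridge summands.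

Proof. Put `Ws = Us ++ replicate a (.pw 1)`, `Ws'` similarly. All `U` are rational, so `T2 U` (`AsmA.T2_of_rat`), and `IsLongKnot (cl (pw 1).dg)` (see `hlp` in
`separate_x`, Pool/Agent/TX/AsmY.lean). SYF (1): `FF w` is symmetric for `D`, so CMB applies: `cls Ws` and `cls Ws'` are both equivalent to a
diagram `TS.sumd xs`. Remove the trivial summands with `AsmT.pad`. -/
def TWB_Stmt : Prop :=
  ∀ (D : ℤ) (Us Us' : List Tr) (a b : ℕ), D ≠ 0 →
    (∀ U ∈ Us ++ Us', U.Rat ∧ IsLongKnot (cl U.dg)) →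
    (∀ F : ℤ × ℤ → ℤ × ℤ → ℂ, Sym D F →
      ((Us ++ List.replicate a (Tr.pw 1)).map fun U => F (prT U).1 (prT U).2).sum =
        ((Us' ++ List.replicate b (Tr.pw 1)).map fun U => F (prT U).1 (prT U).2).sum) →
    EqD 1 (cls Us) (cls Us')

/-- MSM (uses MUC and its lemmas `Muc.left`, `Muc.right`; PCX of TX, proved: see Pool/Agent/TX/Final.lean): mutations of connected
sums.

Proof. `cls (T :: Ts) = cl T.dg ++ cls Ts` (composition of diagrams with one strand): congruence of `Mu 1` for compositions. The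
permutation: PCX (first part) `EqD 1 (cls l) (cls l')` for `l.Perm l'`. -/
def MSM_Stmt : Prop :=
  ∀ (Gs Hs Gs' Us Us' : List Tr), List.Forall₂ (fun T T' : Tr => Mu 1 (cl T.dg) (cl T'.dg)) Gs Hs →
    Hs.Perm Gs' → EqD 1 (cls Us) (cls Us') → Mu 1 (cls (Gs ++ Us)) (cls (Gs' ++ Us'))

/-- FINS (assembly): the theorem for connected sums. -/
def FINS_Stmt : Prop :=
  ∀ (Gs Us Gs' Us' : List Tr) (h : IsLongKnot (cls (Gs ++ Us))) (h' : IsLongKnot (cls (Gs' ++ Us'))),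
    NdS Gs Us → NdS Gs' Us' → Edg Gs → (Gs.length = Gs'.length ∨ (Ntv Gs ∧ Ntv Gs')) →
    (∀ v : Knot → ℂ, IsFiniteType v →
      v (ofDiag (cls (Gs ++ Us)) h) = v (ofDiag (cls (Gs' ++ Us')) h')) →
    ∃ Hs : List Tr, Hs.Perm Gs' ∧
      List.Forall₂ (fun T T' : Tr => Mu 1 (cl T.dg) (cl T'.dg)) Gs Hs ∧ EqD 1 (cls Us) (cls Us')

end Pool.Agent.TZ
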