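import Pool.Agent.TZ.StS

/-!
Theorem Z (MP_31fd3b_gt), third version: the second knot is an arbitrary connected sum of arborescent and 2-bridge
knots which is not more complex than the first one. Statements of the modules with their proofs.
-/

open scoped BigOperators

namespace Pool.Agent.TZ

open Pool.Agent.LibH11.Sliced Pool.Agent.MTR Pool.Agent.MTA Pool.Agent.UA Pool.Agent.UB
open Pool.Agent.TwoBr Pool.Agent.Mont Pool.Agent.TV Pool.Agent.TW
open Pool.Agent.TB hiding vec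

/-- lists of trees with a root with at least three branches, and of rational trees -/
structure Prp (Gs Us : List Tr) : Prop where
  root : ∀ T ∈ Gs, 3 ≤ T.kids
  rat : ∀ U ∈ Us, U.Rat

/-- nondegenerate lists, without the condition on the 2-bridge knots -/
structure NdR (Gs : List Tr) : Prop where
  wt : ∀ x ∈ V0 Gs, x.1.2 ≠ 0
  nz : ∀ x ∈ V0 Gs, (0 : ℚ) ∉ x.2
  ndg : ∀ x ∈ V0 Gs, Ndg (slp x.1) x.2
  dif : ((V0 Gs).map fun x => slp x.1).Nodup

/-- no edge has the form of one of the 2-bridge knots -/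
def Two (Gs Us : List Tr) : Prop := ∀ e ∈ EG0 Gs, ∀ U ∈ Us, ¬ Eqf (fm e.1.1 e.1.2) (f2 U)

/-- complexity: the number of the branches plus the number of the vertices -/
def cx (Gs : List Tr) : ℕ := ((V0 Gs).map fun x => x.2.card + 1).sum

/-- NDM: the alternating sums of one nondegenerate vertex `bs` and of several vertices `Cs` with the same slope sum. (Extends
NDN, Pool/Agent/TZ/Ndn.lean.)

Proof. Write `≡` for congruence modulo 1; `n(β)` is the number of the elements `≡ β` of `bs`, `n'(β)` of the union of all `c ∈ Cs`; `N = bs.card`, `N'` the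
number of the elements of the union, `k = Cs.card`. `n(0) = 0`. By `Ndg`: if `2 β ≢ σ` then `n(β) = 0` or `n(σ - β) = 0`; if `2 β ≡ σ` then `n(β) ≤ 1`. With the
indicator function `φ` of `β + ℤ` the hypothesis is
`(N - 2) ([β ≡ 0] - [β ≡ σ]) - n(β) + n(σ - β) = (N' - 2 k) ([β ≡ 0] - [β ≡ σ]) - n'(β) + n'(σ - β)`.
First `k ≠ 0`: NDN (a) (`Ndn`: some `alN φ σ bs ≠ 0`).
(A) `2 β ≢ σ`, `β ≢ 0, σ`: `p(β) := n'(β) - n(β) = p(σ - β)`, and `p(β) ≥ 0`, because `n(β) = 0` or `n(σ - β) = 0`.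
First case `σ ≡ 0`. The classes with `2 β ≡ 0` are `0`, `1/2`. `N' - N = n'(0) + (n'(1/2) - n(1/2)) + ∑_{other β} p(β)`. The sums of `bs` and of the union are
integers, and `∑ p(β) β ≡ 0` (pairs `β, -β`), so `(n'(1/2) - n(1/2)) / 2` is an integer, and `n(1/2) ≤ 1`, so `n'(1/2) - n(1/2) ≥ -1` is even, so `≥ 0`. So
`N' ≥ N`, and `N' + k ≥ N + 1` with equality only if `k = 1` and `n' = n`.
Second case `σ ≢ 0`. `β = 0`: `N - 2 + n(σ) = N' - 2 k - n'(0) + n'(σ)`. The classes with `2 β ≡ σ` are `τ = σ / 2`, `τ + 1/2` (different from `0`, `σ`); put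
`d = n'(σ) - n(σ)`, `d1 = n'(τ) - n(τ)`, `d2 = n'(τ + 1/2) - n(τ + 1/2)`, `2 P = ∑_{other β} p(β)` (the other classes are in pairs `β, σ - β`), `P ≥ 0`. So
`N' - N = n'(0) + d + d1 + d2 + 2 P = 2 (k - 1) + n'(0) - d`, `d1 + d2 = 2 e` is even and `d + e + P = k - 1`. The sums (`∑ bs ≡ σ`, `∑ union ≡ k σ`):
`P σ + d σ + d1 τ + d2 (τ + 1/2) ≡ (k - 1) σ`, and `d1 τ + d2 τ = 2 e τ ≡ e σ`, so `d2 / 2 ≡ 0`: `d2` is even, so `d1` is even. `n(τ), n(τ + 1/2) ≤ 1`, so `d1, d2 ≥ -1`,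
so `d1, d2 ≥ 0`, `e ≥ 0`. So `N' - N = 2 (k - 1) + n'(0) - (k - 1 - e - P) = (k - 1) + n'(0) + e + P ≥ 0`, and `N' + k ≥ N + 1` with equality only if `k = 1`,
`n'(0) = 0`, `P = e = 0`, so `d = 0`, `d1 = d2 = 0`, `n' = n`.
If `k = 1` and `n' = n` then `Cs = {bs}` (`Multiset.card_eq_one`, `Multiset.ext`, all elements are their own fractional parts). -/
def NDM_Stmt : Prop :=
  ∀ (σ : ℚ) (bs : Multiset ℚ) (Cs : Multiset (Multiset ℚ)), 3 ≤ bs.card →
    (∀ b ∈ bs, Int.fract b = b) → (0 : ℚ) ∉ bs → Ndg σ bs → (∃ n : ℤ, bs.sum - σ = n) →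
    (∀ c ∈ Cs, (∀ b ∈ c, Int.fract b = b) ∧ ∃ n : ℤ, c.sum - σ = n) →
    (∀ φ : ℚ → ℂ, Per1 φ → alN φ σ bs = (Cs.map fun c => alN φ σ c).sum) →
    bs.card + 1 ≤ (Cs.map fun c => c.card + 1).sum ∧
      ((Cs.map fun c => c.card + 1).sum = bs.card + 1 → Cs = {bs})

/-- TABM (uses VTB, NDM; compare `t_TABL`, Pool/Agent/TZ/Tabl.lean): the vertices.

Proof. For `x ∈ V0 Gs` put `K = Kt D x.1 ≠ 0`; `(D : ℚ) / Kt D y.1 = slp y.1` for all vertices `y` (of `Gs`, `Gs'`) with `Kt D y.1 ≠ 0` (`fact` in Tabl.lean;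
`y.1.1 = (vec T').1 ∣ D` by VTB), so `x` is the only vertex of `Gs` with this `K` (`dif`) and all `y ∈ V0 Gs'` with `Kt D y.1 = K` have `slp y.1 = slp x.1`. Let
`Cs(x)` be the multiset of the `y.2`, `y ∈ (V0 Gs').filter (Kt D y.1 = K)`. By the class sums and NDM `x.2.card + 1 ≤ ∑_{c ∈ Cs(x)} (c.card + 1)`, and
`Cs(x) = {x.2}` in the case of equality. The filters for different `x ∈ V0 Gs` are disjoint, so
`cx Gs = ∑_x (x.2.card + 1) ≤ ∑_x ∑_{y ∈ filter x} (y.2.card + 1) ≤ cx Gs' ≤ cx Gs`. So there are equalities for all `x`, and no `y ∈ V0 Gs'` is outside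
of the filters (it would contribute at least `1`); in particular `Kt D y.1 ≠ 0` and `y.1.2 ≠ 0` for all `y ∈ V0 Gs'`. So `V0 Gs'` is the sum of the filters,
each of them has one element `y` with `(slp y.1, y.2) = (slp x.1, x.2)`, and `VS0 Gs' = VS0 Gs`. (Suggestion: `V0 Gs = x ::ₘ S` induction on a
submultiset `S ≤ V0 Gs` with the statement: `∑_{x ∈ S} (x.2.card + 1) ≤ ∑_{y ∈ V0 Gs', ∃ x ∈ S, Kt D x.1 = Kt D y.1} (y.2.card + 1)` and in the case of
equality the multisets of the `(slp y.1, y.2)` of this filter and of the `(slp x.1, x.2)`, `x ∈ S`, agree.) -/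
def TABM_Stmt : Prop :=
  ∀ (D : ℤ) (Gs Us Gs' : List Tr), D ≠ 0 → NdS Gs Us → (∀ T ∈ Gs', 3 ≤ T.kids) →
    (∀ t ∈ Gs ++ Gs', (vec t).1 ∣ D) →
    (∀ (K : ℤ) (φ : ℚ → ℂ), K ≠ 0 → Per1 φ →
      ((V0 Gs).map fun x => if Kt D x.1 = K then alN φ (slp x.1) x.2 else 0).sum =
        ((V0 Gs').map fun x => if Kt D x.1 = K then alN φ (slp x.1) x.2 else 0).sum) →
    cx Gs' ≤ cx Gs → VS0 Gs = VS0 Gs' ∧ ∀ x ∈ V0 Gs', x.1.2 ≠ 0

/-- EQM (uses EGA, EDS, CRD; compare `t_EQL`, Pool/Agent/TZ/Eql.lean): if no edge of `Gs` is trivial and `Gs'` has at least as many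
trees then also the edges of `Gs'` are not trivial and not in the classes of the 2-bridge knots.

Proof. For `e ∈ EG0 Gs`: the number of the edges of `Gs` in the class of `e` is `1` (`Edg`, `EQL.one`), no 2-bridge knot of `Us` (and no
`.pw 1`) is in this class (`EQL.noW`), so by the hypothesis (see `h'` in `EQL.dir`) the number of the edges of `Gs'` in the class of `e` is
`1 + w(e)`, where `w(e)` is the number of the `U ∈ Us' ++ replicate b (.pw 1)` in the class. The classes of the `e ∈ EG0 Gs` are different, so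
`(EG0 Gs').card ≥ ∑_e (1 + w(e)) ≥ (EG0 Gs).card`. By CRD (`EQL.card_eg`) `(EG0 Gs).card + Gs.length = (VS0 Gs).card`, the same for `Gs'`, so
`(EG0 Gs').card ≤ (EG0 Gs).card`. So all `w(e) = 0` and every `e' ∈ EG0 Gs'` is in the class of some `e ∈ EG0 Gs`. If `e'` has the form of `U ∈ Us'` then
`w(e) ≥ 1` (`EQL.prT_f2`), a contradiction; if `e'` is trivial so is `e`, against `Ntv Gs`. -/
def EQM_Stmt : Prop :=
  ∀ (Gs Us Gs' Us' : List Tr) (a b : ℕ), NdS Gs Us → Prp Gs' Us' →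
    (∀ x ∈ V0 Gs', x.1.2 ≠ 0) → (∀ t ∈ Gs ++ Gs', (vec t).1 ≠ 0) → Edg Gs → Ntv Gs →
    Gs.length ≤ Gs'.length → VS0 Gs = VS0 Gs' →
    (∀ p : ℚ × ℚ,
      ((EG0 Gs).map fun e => ic p e.1).sum -
          ((Us ++ List.replicate a (Tr.pw 1)).map fun U => Fc p (prT U).1 (prT U).2).sum =
        ((EG0 Gs').map fun e => ic p e.1).sum -
          ((Us' ++ List.replicate b (Tr.pw 1)).map fun U => Fc p (prT U).1 (prT U).2).sum) →
    Two Gs' Us' ∧ Ntv Gs'

/-- FINT (assembly): the theorem. -/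
def FINT_Stmt : Prop :=
  ∀ (Gs Us Gs' Us' : List Tr) (h : IsLongKnot (cls (Gs ++ Us))) (h' : IsLongKnot (cls (Gs' ++ Us'))),
    NdS Gs Us → Edg Gs → Prp Gs' Us' → (NdR Gs' ∨ cx Gs' ≤ cx Gs) →
    ((Gs.length = Gs'.length ∧ Two Gs' Us') ∨
      (Ntv Gs ∧ (Gs.length ≤ Gs'.length ∨ Gs.length ≤ 1 ∨ (Two Gs' Us' ∧ Ntv Gs')))) →
    (∀ v : Knot → ℂ, IsFiniteType v →
      v (ofDiag (cls (Gs ++ Us)) h) = v (ofDiag (cls (Gs' ++ Us')) h')) →
    VS0 Gs = VS0 Gs' ∧ ∃ Hs : List Tr, Hs.Perm Gs' ∧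
      List.Forall₂ (fun T T' : Tr => Mu 1 (cl T.dg) (cl T'.dg)) Gs Hs ∧ EqD 1 (cls Us) (cls Us')

end Pool.Agent.TZ
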